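import Pool.Agent.H53.MID.Defs

/-!
# MID Fac: factorisation of the twisted Dirichlet polynomial into residue classes

`Pl P d l s = ∑_{p ∈ pb P, p ≡ l (d)} ee(-s log p)`, `Kl f K1 K2 a s = ∑_{K1 < k ≤ K2} f k ee(-k a) ee(-s log k)`.
`fac`: for `2 P K2 ≤ X`, `1 ≤ d`: `Cs (cc (cut K1 K2 f) P (b/d) T) X t = ∑_{l < d} Pl P d l (T+t) Kl f K1 K2 (l b/d) (T+t)`.
Proof.  `m = p k`: `Cs = ∑_{m ≤ X} ∑_{p ∈ pb P, p ∣ m} cut f (m/p) ee(-m b/d) ee(-(T+t) log m) = ∑_{p ∈ pb P} ∑_{k ∈ Ioc K1 K2} f k ee(-p k b/d) ee(-(T+t) log p) ee(-(T+t) log k)`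
(`k ↦ p k` is a bijection onto the multiples of `p` in `[1, X]` with `K1 < m/p ≤ K2`, since `p K2 ≤ 2 P K2 ≤ X`), and `ee(-p k b/d) = ee(-l k b/d)` for `p ≡ l (d)`.
`fac_sq`: Cauchy-Schwarz.
-/

set_option autoImplicit false

namespace Pool.Agent.H53.MID

open Finset
open Pool.Agent.H91.PK (ee)
open Pool.Agent.H35.W (pb)

noncomputable def Pl (P d l : ℕ) (s : ℝ) : ℂ := ∑ p ∈ (pb P).filter (fun p => p % d = l % d), ee (-(s * Real.log p))

noncomputable def Kl (f : ℕ → ℝ) (K1 K2 : ℕ) (a s : ℝ) : ℂ :=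
  ∑ k ∈ Ioc K1 K2, (f k : ℂ) * ee (-(k * a)) * ee (-(s * Real.log k))

private theorem Fac_ee_add (a b : ℝ) : ee (a + b) = ee a * ee b := by
  unfold ee
  rw [← Complex.exp_add]
  congr 1
  push_cast
  ring

private theorem Fac_ee_int (n : ℤ) : ee (n : ℝ) = 1 := by
  unfold ee
  have h : 2 * (Real.pi : ℂ) * ((n : ℝ) : ℂ) * Complex.I = n * (2 * Real.pi * Complex.I) := by
    push_cast
    ring
  rw [h]
  exact Complex.exp_int_mul_two_pi_mul_I n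

private theorem Fac_class {p l d k b : ℕ} (hd : 1 ≤ d) (h : p % d = l % d) :
    ee (-(((p * k : ℕ) : ℝ) * ((b : ℝ) / d))) = ee (-((k : ℝ) * ((l : ℝ) * b / d))) := by
  have hd0 : (d : ℝ) ≠ 0 := by
    have : d ≠ 0 := by omega
    exact_mod_cast this
  have hdvd : (d : ℤ) ∣ (l : ℤ) - p := (Nat.modEq_iff_dvd).mp h
  obtain ⟨q, hq⟩ := hdvd
  have hq' : (l : ℝ) - p = d * q := by exact_mod_cast hq
  have h1 : -(((p * k : ℕ) : ℝ) * ((b : ℝ) / d)) =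
      -((k : ℝ) * ((l : ℝ) * b / d)) + ((k * q * b : ℤ) : ℝ) := by
    have hp : (p : ℝ) = l - d * q := by linarith
    push_cast
    rw [hp]
    field_simp
    ring
  rw [h1, Fac_ee_add, Fac_ee_int, mul_one]

private theorem Fac_p (f : ℕ → ℝ) (E : ℕ → ℂ) {p K1 K2 X P : ℕ} (hp : 1 ≤ p) (hp2 : p ≤ 2 * P)
    (hX : 2 * P * K2 ≤ X) :
    ∑ m ∈ (Icc 1 X).filter (fun m => p ∣ m), ((cut K1 K2 f (m / p) : ℝ) : ℂ) * E m =
      ∑ k ∈ Ioc K1 K2, ((f k : ℝ) : ℂ) * E (p * k) := by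
  classical
  have hinj : Set.InjOn (fun k => p * k) (Ioc K1 K2 : Set ℕ) := by
    intro a _ b _ hab
    exact Nat.eq_of_mul_eq_mul_left (by omega) hab
  have h1 : ∑ k ∈ Ioc K1 K2, ((f k : ℝ) : ℂ) * E (p * k) =
      ∑ m ∈ (Ioc K1 K2).image (fun k => p * k), ((cut K1 K2 f (m / p) : ℝ) : ℂ) * E m := by
    rw [Finset.sum_image hinj]
    refine Finset.sum_congr rfl fun k hk => ?_
    have h2 : p * k / p = k := Nat.mul_div_cancel_left k (by omega)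
    simp only [h2, cut, if_pos hk]
  rw [h1]
  symm
  apply Finset.sum_subset
  · intro m hm
    rw [Finset.mem_image] at hm
    obtain ⟨k, hk, rfl⟩ := hm
    rw [Finset.mem_Ioc] at hk
    rw [Finset.mem_filter, Finset.mem_Icc]
    refine ⟨⟨?_, ?_⟩, Dvd.intro _ rfl⟩
    · have : 1 ≤ k := by omega
      exact Nat.one_le_iff_ne_zero.mpr (Nat.mul_ne_zero (by omega) (by omega))
    · exact (Nat.mul_le_mul hp2 hk.2).trans hX
  · intro m hm hm'
    rw [Finset.mem_filter] at hm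
    obtain ⟨k, rfl⟩ := hm.2
    have h2 : p * k / p = k := Nat.mul_div_cancel_left k (by omega)
    have hk : k ∉ Ioc K1 K2 := fun hk => hm' (Finset.mem_image.mpr ⟨k, hk, rfl⟩)
    simp only [h2, cut, if_neg hk, Complex.ofReal_zero, zero_mul]

private theorem Fac_log {p k : ℕ} (s : ℝ) (hp : 1 ≤ p) (hk : 1 ≤ k) :
    ee (-(s * Real.log ((p * k : ℕ) : ℝ))) =
      ee (-(s * Real.log p)) * ee (-(s * Real.log k)) := by
  have hp0 : (p : ℝ) ≠ 0 := by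
    have : p ≠ 0 := by omega
    exact_mod_cast this
  have hk0 : (k : ℝ) ≠ 0 := by
    have : k ≠ 0 := by omega
    exact_mod_cast this
  rw [← Fac_ee_add]
  congr 1
  push_cast
  rw [Real.log_mul hp0 hk0]
  ring

theorem fac (f : ℕ → ℝ) (P K1 K2 X d b : ℕ) (T t : ℝ) (hd : 1 ≤ d) (hX : 2 * P * K2 ≤ X) :
    Cs (cc (cut K1 K2 f) P ((b : ℝ) / d) T) X t =
      ∑ l ∈ range d, Pl P d l (T + t) * Kl f K1 K2 ((l : ℝ) * b / d) (T + t) := by
  classical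
  have hpb : ∀ p ∈ pb P, 1 ≤ p ∧ p ≤ 2 * P := by
    intro p hp
    unfold pb at hp
    rw [Finset.mem_filter, Finset.mem_Ioc] at hp
    omega
  -- the sum over `m`
  have h1 : Cs (cc (cut K1 K2 f) P ((b : ℝ) / d) T) X t =
      ∑ m ∈ Icc 1 X, ∑ p ∈ (pb P).filter (fun p => p ∣ m), ((cut K1 K2 f (m / p) : ℝ) : ℂ) *
        (ee (-((m : ℝ) * ((b : ℝ) / d))) * ee (-((T + t) * Real.log m))) := by
    unfold Cs
    refine Finset.sum_congr rfl fun m _ => ?_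
    unfold cc Fp
    have h2 : ee (-((T + t) * Real.log m)) = ee (-(T * Real.log m)) * ee (-(t * Real.log m)) := by
      rw [← Fac_ee_add]
      congr 1
      ring
    rw [← Finset.sum_mul, h2]
    push_cast
    ring
  -- swap
  have h3 : Cs (cc (cut K1 K2 f) P ((b : ℝ) / d) T) X t =
      ∑ p ∈ pb P, ∑ k ∈ Ioc K1 K2, ((f k : ℝ) : ℂ) *
        (ee (-(((p * k : ℕ) : ℝ) * ((b : ℝ) / d))) * ee (-((T + t) * Real.log ((p * k : ℕ) : ℝ)))) := by
    rw [h1]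
    have h4 : ∀ m ∈ Icc 1 X, ∑ p ∈ (pb P).filter (fun p => p ∣ m),
        ((cut K1 K2 f (m / p) : ℝ) : ℂ) *
          (ee (-((m : ℝ) * ((b : ℝ) / d))) * ee (-((T + t) * Real.log m))) =
        ∑ p ∈ pb P, if p ∣ m then ((cut K1 K2 f (m / p) : ℝ) : ℂ) *
          (ee (-((m : ℝ) * ((b : ℝ) / d))) * ee (-((T + t) * Real.log m))) else 0 := by
      intro m _
      rw [Finset.sum_filter]
    rw [Finset.sum_congr rfl h4, Finset.sum_comm]
    refine Finset.sum_congr rfl fun p hp => ?_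
    rw [← Finset.sum_filter]
    exact Fac_p f (fun m => ee (-((m : ℝ) * ((b : ℝ) / d))) * ee (-((T + t) * Real.log m)))
      (hpb p hp).1 (hpb p hp).2 hX
  rw [h3]
  -- the classes
  have h5 : ∀ l ∈ range d, Pl P d l (T + t) * Kl f K1 K2 ((l : ℝ) * b / d) (T + t) =
      ∑ p ∈ (pb P).filter (fun p => p % d = l), ∑ k ∈ Ioc K1 K2, ((f k : ℝ) : ℂ) *
        (ee (-(((p * k : ℕ) : ℝ) * ((b : ℝ) / d))) *
          ee (-((T + t) * Real.log ((p * k : ℕ) : ℝ)))) := by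
    intro l hl
    have hl' : l % d = l := Nat.mod_eq_of_lt (Finset.mem_range.mp hl)
    unfold Pl Kl
    rw [hl', Finset.sum_mul]
    refine Finset.sum_congr rfl fun p hp => ?_
    rw [Finset.mem_filter] at hp
    rw [Finset.mul_sum]
    refine Finset.sum_congr rfl fun k hk => ?_
    rw [Finset.mem_Ioc] at hk
    rw [Fac_class hd (hp.2.trans hl'.symm), Fac_log (T + t) (hpb p hp.1).1 (by omega)]
    ring
  rw [Finset.sum_congr rfl h5]
  rw [Finset.sum_fiberwise_of_maps_to (s := pb P) (t := range d) (g := fun p => p % d)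
    (fun p _ => Finset.mem_range.mpr (Nat.mod_lt _ (by omega)))
    (fun p => ∑ k ∈ Ioc K1 K2, ((f k : ℝ) : ℂ) *
        (ee (-(((p * k : ℕ) : ℝ) * ((b : ℝ) / d))) *
          ee (-((T + t) * Real.log ((p * k : ℕ) : ℝ)))))]

theorem fac_sq (f : ℕ → ℝ) (P K1 K2 X d b : ℕ) (T t : ℝ) (hd : 1 ≤ d) (hX : 2 * P * K2 ≤ X) :
    ‖Cs (cc (cut K1 K2 f) P ((b : ℝ) / d) T) X t‖ ^ 2 ≤
      d * ∑ l ∈ range d, ‖Pl P d l (T + t)‖ ^ 2 * ‖Kl f K1 K2 ((l : ℝ) * b / d) (T + t)‖ ^ 2 := by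
  rw [fac f P K1 K2 X d b T t hd hX]
  have h1 : ‖∑ l ∈ range d, Pl P d l (T + t) * Kl f K1 K2 ((l : ℝ) * b / d) (T + t)‖ ≤
      ∑ l ∈ range d, ‖Pl P d l (T + t)‖ * ‖Kl f K1 K2 ((l : ℝ) * b / d) (T + t)‖ := by
    refine (norm_sum_le _ _).trans (le_of_eq ?_)
    refine Finset.sum_congr rfl fun l _ => norm_mul _ _
  have h2 := sq_sum_le_card_mul_sum_sq (s := range d)
    (f := fun l => ‖Pl P d l (T + t)‖ * ‖Kl f K1 K2 ((l : ℝ) * b / d) (T + t)‖)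
  rw [Finset.card_range] at h2
  refine (pow_le_pow_left₀ (norm_nonneg _) h1 2).trans (h2.trans (le_of_eq ?_))
  congr 1
  refine Finset.sum_congr rfl fun l _ => mul_pow _ _ _

end Pool.Agent.H53.MID
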