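import Pool.Agent.H53.MID.Defs
import Pool.Agent.H35.W.MeanV

/-!
# MID Mvt: mean value theorem in our normalisation

Proof.  `Pool.Agent.H35.W.mean_v` with `a m = c m ee(-τ log m) √m`, `T = 2 π V`: `√m m^(-1/2 + i s) = exp(i s log m)` and `ee(-(t log m)) = exp(i s log m)` with `s = -2π t`;
substitution `s = -2 π t` in the integral (`dt = ds/(2π)`): `≤ (1/(2π)) (4 π V + 4 X (1 + log X)) ∑ |c m|^2`.
-/

set_option autoImplicit false

namespace Pool.Agent.H53.MID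

open Finset MeasureTheory
open Pool.Agent.H91.PK (ee)

private theorem Mvt_term (c : ℕ → ℂ) (τ t : ℝ) (m : ℕ) (hm : 1 ≤ m) :
    c m * ee (-((τ + t) * Real.log m)) =
      (c m * ee (-(τ * Real.log m)) * (Real.sqrt m : ℂ)) *
        (m : ℂ) ^ (-(1 / 2 : ℂ) + ((-(2 * Real.pi) * t : ℝ) : ℂ) * Complex.I) := by
  have hm0 : (0 : ℝ) < m := by exact_mod_cast hm
  have hmc : (m : ℂ) ≠ 0 := by exact_mod_cast hm0.ne'
  have e1 : (m : ℂ) ^ (-(1 / 2 : ℂ) + ((-(2 * Real.pi) * t : ℝ) : ℂ) * Complex.I)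
      = (m : ℂ) ^ (-(1 / 2 : ℂ)) * (m : ℂ) ^ (((-(2 * Real.pi) * t : ℝ) : ℂ) * Complex.I) :=
    Complex.cpow_add _ _ hmc
  have e2 : (m : ℂ) ^ (((-(2 * Real.pi) * t : ℝ) : ℂ) * Complex.I) = ee (-(t * Real.log m)) := by
    unfold ee
    rw [Complex.cpow_def_of_ne_zero hmc, Complex.natCast_log.symm]
    congr 1
    push_cast
    ring
  have e3 : (Real.sqrt m : ℂ) * (m : ℂ) ^ (-(1 / 2 : ℂ)) = 1 := by
    have h1 : ((Real.sqrt m : ℝ) : ℂ) = (m : ℂ) ^ (1 / 2 : ℂ) := by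
      rw [Real.sqrt_eq_rpow, Complex.ofReal_cpow hm0.le]
      push_cast
      rfl
    rw [h1, ← Complex.cpow_add _ _ hmc]
    norm_num
  have e4 : ee (-((τ + t) * Real.log m)) = ee (-(τ * Real.log m)) * ee (-(t * Real.log m)) := by
    rw [← Pool.Agent.H91.PK.LSa_ee_add]
    congr 1
    ring
  rw [e1, e2, e4]
  calc c m * (ee (-(τ * Real.log m)) * ee (-(t * Real.log m)))
      = c m * ee (-(τ * Real.log m)) * 1 * ee (-(t * Real.log m)) := by ring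
    _ = c m * ee (-(τ * Real.log m)) * ((Real.sqrt m : ℂ) * (m : ℂ) ^ (-(1 / 2 : ℂ))) *
          ee (-(t * Real.log m)) := by rw [e3]
    _ = _ := by ring

theorem mvt (c : ℕ → ℂ) (X : ℕ) (V τ : ℝ) (hX : 1 ≤ X) (hV : 0 ≤ V) :
    ∫ t in Set.Icc (-V) V, ‖∑ m ∈ Icc 1 X, c m * ee (-((τ + t) * Real.log m))‖ ^ 2
      ≤ (2 * V + 2 * X * (1 + Real.log X)) * ∑ m ∈ Icc 1 X, ‖c m‖ ^ 2 := by
  obtain ⟨a, ha⟩ : ∃ a : ℕ → ℂ, a = fun m => c m * ee (-(τ * Real.log m)) * (Real.sqrt m : ℂ) :=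
    ⟨_, rfl⟩
  have hpi : 0 < Real.pi := Real.pi_pos
  have hT : 0 ≤ 2 * Real.pi * V := by positivity
  have h1 := Pool.Agent.H35.W.mean_v a X (2 * Real.pi * V) hX hT
  have h2 : ∑ m ∈ Icc 1 X, ‖a m‖ ^ 2 / m = ∑ m ∈ Icc 1 X, ‖c m‖ ^ 2 := by
    refine sum_congr rfl fun m hm => ?_
    have hm0 : (0 : ℝ) < m := by
      have := (mem_Icc.1 hm).1
      exact_mod_cast this
    rw [ha]
    simp only
    rw [norm_mul, norm_mul, Pool.Agent.H91.PK.LSa_norm_ee, mul_one, Complex.norm_real,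
      Real.norm_of_nonneg (Real.sqrt_nonneg _), mul_pow, Real.sq_sqrt hm0.le]
    field_simp
  rw [h2] at h1
  obtain ⟨G, hG⟩ : ∃ G : ℝ → ℝ, G = fun s : ℝ =>
      ‖∑ m ∈ Icc 1 X, a m * (m : ℂ) ^ (-(1 / 2 : ℂ) + (s : ℂ) * Complex.I)‖ ^ 2 := ⟨_, rfl⟩
  have h3 : ∀ t : ℝ, ‖∑ m ∈ Icc 1 X, c m * ee (-((τ + t) * Real.log m))‖ ^ 2 =
      G (-(2 * Real.pi) * t) := by
    intro t
    rw [hG]
    simp only
    congr 2
    refine sum_congr rfl fun m hm => ?_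
    rw [Mvt_term c τ t m (mem_Icc.1 hm).1, ha]
  have h4 : ∫ t in Set.Icc (-V) V, ‖∑ m ∈ Icc 1 X, c m * ee (-((τ + t) * Real.log m))‖ ^ 2 =
      (2 * Real.pi)⁻¹ * ∫ s in (-(2 * Real.pi * V))..(2 * Real.pi * V), G s := by
    rw [MeasureTheory.integral_Icc_eq_integral_Ioc,
      ← intervalIntegral.integral_of_le (by linarith : -V ≤ V)]
    simp_rw [h3]
    rw [intervalIntegral.integral_comp_mul_left G (by
      have : 0 < 2 * Real.pi := by positivity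
      exact (neg_neg_of_pos this).ne), intervalIntegral.integral_symm, smul_eq_mul]
    have e1 : -(2 * Real.pi) * V = -(2 * Real.pi * V) := by ring
    have e2 : -(2 * Real.pi) * -V = 2 * Real.pi * V := by ring
    rw [e1, e2, inv_neg]
    ring
  have h5 : ∫ s in (-(2 * Real.pi * V))..(2 * Real.pi * V), G s ≤
      (2 * (2 * Real.pi * V) + 4 * X * (1 + Real.log X)) * ∑ m ∈ Icc 1 X, ‖c m‖ ^ 2 := by
    rw [hG]
    exact h1
  have hX1 : (1 : ℝ) ≤ X := by exact_mod_cast hX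
  have hlog : 0 ≤ Real.log X := Real.log_nonneg hX1
  have hS : 0 ≤ ∑ m ∈ Icc 1 X, ‖c m‖ ^ 2 := sum_nonneg fun m _ => by positivity
  rw [h4]
  have hp1 : 1 ≤ Real.pi := by
    have := Real.pi_gt_three
    linarith
  calc (2 * Real.pi)⁻¹ * ∫ s in (-(2 * Real.pi * V))..(2 * Real.pi * V), G s
      ≤ (2 * Real.pi)⁻¹ * ((2 * (2 * Real.pi * V) + 4 * X * (1 + Real.log X)) *
          ∑ m ∈ Icc 1 X, ‖c m‖ ^ 2) := mul_le_mul_of_nonneg_left h5 (by positivity)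
    _ = (2 * V + 2 * X * (1 + Real.log X) / Real.pi) * ∑ m ∈ Icc 1 X, ‖c m‖ ^ 2 := by
        field_simp
        ring
    _ ≤ (2 * V + 2 * X * (1 + Real.log X)) * ∑ m ∈ Icc 1 X, ‖c m‖ ^ 2 := by
        refine mul_le_mul_of_nonneg_right ?_ hS
        have : 2 * X * (1 + Real.log X) / Real.pi ≤ 2 * X * (1 + Real.log X) :=
          div_le_self (by positivity) hp1
        linarith

end Pool.Agent.H53.MID
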