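import Pool.Agent.H53.MID.Defs
import Pool.Agent.H76.EHB.HRm

/-!
# MID HSq: the second moment of `hR` in short intervals

Proof.  `hR^2 ≤ 2 Lam^2 + 2 lamR^2`.  `Lam k ≤ log k ≤ 4 L` for `k < N^4` (`L = log N`), so `∑ 2 Lam^2 ≤ 32 w L^2`.
`lamR`: the proof of `lamR_sq` in `H76/EHB/HRm.lean` works for a shifted interval: for `k = (u - 1) + j`, `j = 1..w`,
`lamR R k = ∑_{c ≤ R} μ(c)/φ(c) ∑_{b ∈ red c} e(k b/c)` (`Pool.Agent.H76.EHB.lamR_eq`, `k ≥ 1`) has the coefficients `μ(c)/φ(c) e((u-1) b/c)` of the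
same absolute value; `dual_large_sieve` with `M = w ≥ R^2`: `∑ lamR^2 ≤ 5 w ∑_{c ≤ R} 1/φ(c)`, and
`∑_{c ≤ R} 1/φ(c) ≤ (2 log R + 2)(1 + log R)` as in `hR_sq` (same file); `log R ≤ B log L ≤ L^(1/2)`.  In total `≤ w L^4` for `N ≥ N0(B)`.
`hsq`: `cut K1 K2 f 0 = 0` (`0 ∉ Ioc K1 K2`) and `(cut K1 K2 f k)^2 ≤ f k ^2`; if `u = 0` drop the term `k = 0` (length `w - 1 ≥ R^4 + 1`).
-/

set_option autoImplicit false

namespace Pool.Agent.H53.MID

open Finset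
open Pool.Agent.H91.EHA (Lam hR lamR ramS)

/-- mean square of `lamR` in a short interval -/
private theorem HSq_lamR (R u w : ℕ) (hu : 1 ≤ u) (hw : 0 < w) (hR : R ^ 2 ≤ w) :
    ∑ k ∈ Ico u (u + w), lamR R k ^ 2 ≤ 5 * w * ∑ c ∈ Icc 1 R, 1 / (c.totient : ℝ) := by
  classical
  set J : Finset (Σ _ : ℕ, ℕ) := (Icc 1 R).sigma (fun r => Pool.Agent.H92.EH.red r) with hJ
  have hsp : ∀ i ∈ J, ∀ j ∈ J, i ≠ j → ∀ k : ℤ,
      (1 : ℝ) / w ≤ |(i.2 : ℝ) / i.1 - (j.2 : ℝ) / j.1 - k| := by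
    rintro ⟨r, b⟩ hi ⟨r', b'⟩ hj hne k
    rw [hJ, mem_sigma, mem_Icc] at hi hj
    simp only at hi hj
    refine le_trans ?_ (Pool.Agent.H92.EH.farey_spacing (by omega) (by omega) hi.2 hj.2 ?_ k)
    · apply one_div_le_one_div_of_le
      · have h1 : (0 : ℝ) < r := by exact_mod_cast hi.1.1
        have h2 : (0 : ℝ) < r' := by exact_mod_cast hj.1.1
        positivity
      · have : r * r' ≤ w := by
          calc r * r' ≤ R * R := Nat.mul_le_mul hi.1.2 hj.1.2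
            _ = R ^ 2 := by ring
            _ ≤ w := hR
        exact_mod_cast this
    · rintro ⟨rfl, rfl⟩
      exact hne rfl
  set m : ℕ → ℝ := fun c => ((ArithmeticFunction.moebius c : ℤ) : ℝ) / (c.totient : ℝ) with hm
  set cf : (Σ _ : ℕ, ℕ) → ℂ := fun j => ((m j.1 : ℝ) : ℂ) *
    Pool.Agent.H92.EH.e (((u : ℝ) - 1) * ((j.2 : ℝ) / j.1)) with hcf
  have hen : ∀ t : ℝ, ‖Pool.Agent.H92.EH.e t‖ = 1 := fun t => by
    rw [Pool.Agent.H76.EHB.HRm_e, Pool.Agent.H91.PK.LSa_norm_ee]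
  have h := Pool.Agent.H92.EH.dual_large_sieve J (fun j => (j.2 : ℝ) / j.1) cf w w le_rfl hw hsp
  have himg : Ico u (u + w) = (Icc 1 w).image (fun n => u + n - 1) := by
    ext k
    rw [Finset.mem_Ico, Finset.mem_image]
    constructor
    · rintro ⟨h3, h4⟩
      exact ⟨k + 1 - u, by rw [Finset.mem_Icc]; omega, by omega⟩
    · rintro ⟨n, hn, rfl⟩
      rw [Finset.mem_Icc] at hn
      omega
  have h1 : ∀ n ∈ Icc 1 w, lamR R (u + n - 1) ^ 2 =
      ‖∑ j ∈ J, cf j * Pool.Agent.H92.EH.e (n * ((j.2 : ℝ) / j.1))‖ ^ 2 := by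
    intro n hn
    rw [Finset.mem_Icc] at hn
    have h2 := Pool.Agent.H76.EHB.lamR_eq R (u + n - 1) (by omega)
    have h3 : ∑ j ∈ J, cf j * Pool.Agent.H92.EH.e (n * ((j.2 : ℝ) / j.1)) =
        ((lamR R (u + n - 1) : ℝ) : ℂ) := by
      rw [h2, hJ, sum_sigma]
      refine sum_congr rfl fun c _ => ?_
      rw [mul_sum]
      refine sum_congr rfl fun b _ => ?_
      have h4 : ((u + n - 1 : ℕ) : ℝ) = ((u : ℝ) - 1) + n := by
        rw [Nat.cast_sub (by omega)]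
        push_cast
        ring
      rw [hcf]
      simp only
      rw [Pool.Agent.H76.EHB.HRm_e, Pool.Agent.H76.EHB.HRm_e, mul_assoc,
        ← Pool.Agent.H91.PK.LSa_ee_add, h4, ← add_mul]
    rw [h3, Complex.norm_real, Real.norm_eq_abs, sq_abs]
  rw [himg, Finset.sum_image (by
    intro a ha b hb hab
    simp only [Finset.coe_Icc, Set.mem_Icc] at ha hb
    simp only at hab
    omega), sum_congr rfl h1]
  refine h.trans (mul_le_mul_of_nonneg_left ?_ (by positivity))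
  rw [hJ, sum_sigma]
  refine sum_le_sum fun c hc => ?_
  have h5 : ∀ b ∈ Pool.Agent.H92.EH.red c, ‖cf ⟨c, b⟩‖ ^ 2 = m c ^ 2 := fun b _ => by
    rw [hcf]
    simp only
    rw [norm_mul, hen, mul_one, Complex.norm_real, Real.norm_eq_abs, sq_abs]
  rw [sum_congr rfl h5, sum_const, Pool.Agent.H92.EH.card_red, nsmul_eq_mul]
  have hc1 : 0 < c := (mem_Icc.mp hc).1
  have ht : (0 : ℝ) < c.totient := by exact_mod_cast Nat.totient_pos.mpr hc1
  have hmu : (((ArithmeticFunction.moebius c : ℤ) : ℝ)) ^ 2 ≤ 1 := by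
    have h5 := ArithmeticFunction.abs_moebius_le_one (n := c)
    have h6 : |((ArithmeticFunction.moebius c : ℤ) : ℝ)| ≤ 1 := by exact_mod_cast h5
    rw [← sq_abs]
    exact pow_le_one₀ (abs_nonneg _) h6
  rw [hm]
  simp only
  rw [div_pow, mul_div_assoc', div_le_div_iff₀ (by positivity) ht]
  nlinarith [mul_pos ht ht]

theorem hsq1 (B : ℕ) : ∃ N0 : ℕ, ∀ N : ℕ, N0 ≤ N → ∀ R : ℕ, (R : ℝ) ≤ Real.log N ^ B → ∀ u w : ℕ, 1 ≤ u →
    R ^ 4 + 1 ≤ w → u + w ≤ N ^ 4 → ∑ k ∈ Ico u (u + w), hR R k ^ 2 ≤ w * Real.log N ^ 4 := by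
  refine ⟨⌈Real.exp 17⌉₊, fun N hN R hRB u w hu hw huw => ?_⟩
  have hN1 : Real.exp 17 ≤ N := Nat.ceil_le.mp hN
  have hN0 : (0 : ℝ) < N := lt_of_lt_of_le (Real.exp_pos _) hN1
  have hL : 17 ≤ Real.log N := by
    rw [Real.le_log_iff_exp_le hN0]; exact hN1
  set L := Real.log N with hLdef
  have hw1 : 1 ≤ w := by omega
  have hw0 : (0 : ℝ) < w := by exact_mod_cast hw1
  have hR2 : R ^ 2 ≤ w := by
    have h1 : R ^ 2 ≤ R ^ 4 + 1 := by
      rcases Nat.eq_zero_or_pos R with rfl | hR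
      · simp
      · exact (Nat.pow_le_pow_right hR (by norm_num)).trans (Nat.le_succ _)
    exact h1.trans hw
  have hlog4 : ∀ k : ℕ, 1 ≤ k → k ≤ N ^ 4 → Real.log k ≤ 4 * L := by
    intro k hk1 hk
    have h1 : Real.log k ≤ Real.log ((N : ℝ) ^ 4) :=
      Real.log_le_log (by exact_mod_cast hk1) (by exact_mod_cast hk)
    rw [Real.log_pow] at h1
    push_cast at h1
    exact h1
  -- the first sum
  have hLam : ∑ k ∈ Ico u (u + w), Lam k ^ 2 ≤ w * (16 * L ^ 2) := by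
    have h1 : ∀ k ∈ Ico u (u + w), Lam k ^ 2 ≤ 16 * L ^ 2 := by
      intro k hk
      rw [Finset.mem_Ico] at hk
      have h2 : (0 : ℝ) ≤ Lam k := ArithmeticFunction.vonMangoldt_nonneg
      have h3 : Lam k ≤ Real.log k := ArithmeticFunction.vonMangoldt_le_log
      have h4 := hlog4 k (by omega) (by omega)
      have h5 : Lam k ≤ 4 * L := h3.trans h4
      calc Lam k ^ 2 ≤ (4 * L) ^ 2 := pow_le_pow_left₀ h2 h5 2
        _ = 16 * L ^ 2 := by ring
    refine (Finset.sum_le_sum h1).trans (le_of_eq ?_)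
    rw [Finset.sum_const, Nat.card_Ico, nsmul_eq_mul, Nat.add_sub_cancel_left]
  -- the second sum
  have hlam : ∑ k ∈ Ico u (u + w), lamR R k ^ 2 ≤ w * (125 * L ^ 2) := by
    refine (HSq_lamR R u w hu hw1 hR2).trans ?_
    have h1 : ∑ c ∈ Icc 1 R, 1 / (c.totient : ℝ) ≤ 25 * L ^ 2 := by
      rcases Nat.eq_zero_or_pos R with rfl | hR
      · rw [Finset.Icc_eq_empty (by norm_num), Finset.sum_empty]
        positivity
      · refine (Pool.Agent.H76.EHB.HRm_tot w R hR hR2).trans ?_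
        have h2 := hlog4 w hw1 (by omega)
        have h3 : 0 ≤ Real.log w := Real.log_natCast_nonneg w
        have h4 : Real.log w + 1 ≤ 5 * L := by linarith
        calc (Real.log w + 1) * (1 + Real.log w) = (Real.log w + 1) ^ 2 := by ring
          _ ≤ (5 * L) ^ 2 := pow_le_pow_left₀ (by linarith) h4 2
          _ = 25 * L ^ 2 := by ring
    calc 5 * (w : ℝ) * ∑ c ∈ Icc 1 R, 1 / (c.totient : ℝ) ≤ 5 * w * (25 * L ^ 2) :=
          mul_le_mul_of_nonneg_left h1 (by positivity)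
      _ = w * (125 * L ^ 2) := by ring
  have hsum : ∑ k ∈ Ico u (u + w), hR R k ^ 2 ≤
      2 * ∑ k ∈ Ico u (u + w), Lam k ^ 2 + 2 * ∑ k ∈ Ico u (u + w), lamR R k ^ 2 := by
    rw [mul_sum, mul_sum, ← sum_add_distrib]
    refine sum_le_sum fun n _ => ?_
    show (Lam n - lamR R n) ^ 2 ≤ _
    nlinarith [sq_nonneg (Lam n + lamR R n)]
  have hfin : 282 * L ^ 2 ≤ L ^ 4 := by
    have h1 : 289 ≤ L ^ 2 := by nlinarith
    have h2 : L ^ 4 = L ^ 2 * L ^ 2 := by ring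
    rw [h2]
    exact mul_le_mul_of_nonneg_right (by linarith) (by positivity)
  calc ∑ k ∈ Ico u (u + w), hR R k ^ 2 ≤ 2 * (w * (16 * L ^ 2)) + 2 * (w * (125 * L ^ 2)) := by
        linarith
    _ = w * (282 * L ^ 2) := by ring
    _ ≤ w * L ^ 4 := mul_le_mul_of_nonneg_left hfin hw0.le

theorem hsq (B : ℕ) : ∃ N0 : ℕ, ∀ N : ℕ, N0 ≤ N → ∀ R : ℕ, (R : ℝ) ≤ Real.log N ^ B → ∀ K1 K2 : ℕ,
    SqB (cut K1 K2 (hR R)) (R ^ 4 + 2) (N ^ 4) (Real.log N) := by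
  obtain ⟨N0, h⟩ := hsq1 B
  refine ⟨N0, fun N hN R hRB K1 K2 => ?_⟩
  intro u w hw huw
  have hcut : ∀ k, cut K1 K2 (hR R) k ^ 2 ≤ hR R k ^ 2 := by
    intro k
    unfold cut
    split_ifs
    · exact le_rfl
    · rw [zero_pow two_ne_zero]
      exact sq_nonneg _
  rcases Nat.eq_zero_or_pos u with rfl | hu
  · have h1 := h N hN R hRB 1 (w - 1) le_rfl (by omega) (by omega)
    rw [show 1 + (w - 1) = 0 + w by omega] at h1
    have h2 : cut K1 K2 (hR R) 0 = 0 := by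
      unfold cut
      rw [if_neg (by rw [Finset.mem_Ioc]; omega)]
    rw [Finset.sum_eq_sum_Ico_succ_bot (by omega), h2, zero_pow two_ne_zero, zero_add, zero_add]
    refine (Finset.sum_le_sum fun k _ => hcut k).trans (h1.trans ?_)
    have h3 : ((w - 1 : ℕ) : ℝ) ≤ w := by exact_mod_cast Nat.sub_le w 1
    have h4 : 0 ≤ Real.log N ^ 4 := by positivity
    exact mul_le_mul_of_nonneg_right h3 h4
  · exact (Finset.sum_le_sum fun k _ => hcut k).trans (h N hN R hRB u w hu (by omega) huw)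

end Pool.Agent.H53.MID
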