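import Pool.Agent.H53.MID.Mvt
import Pool.Agent.H76.EHB.Planch

/-!
# MID Plw: Plancherel for multiplicative windows

Proof.  `G(u) = Dw c X θ u = ∑_m c m 1[log m - θ ≤ u < log m]` is a bounded step function with compact support (in `L¹ ∩ L²`).
`∫ G(u) ee(-(u t)) du = ∑_m c m ee(-(t log m)) κ(t) = Cs c X t · κ(t)`, `κ(t) = ∫_{-θ}^0 ee(-(v t)) dv`, `‖κ(t)‖ ≤ θ`, `‖κ(t)‖ ≤ 1/(π |t|)`.
`Pool.Agent.H76.EHB.planch`: `∫ ‖G‖^2 = ∫ ‖Cs c X t‖^2 ‖κ t‖^2 dt ≤ θ^2 ∫_{|t| ≤ U} ‖Cs‖^2 + ∫_{|t| > U} ‖Cs‖^2/(π^2 t^2) dt`.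
Tail: dyadic pieces `2^j U < |t| ≤ 2^(j+1) U` and `mvt` (`τ = 0`): `≤ ∑_j (4^j U^2 π^2)^(-1) (2^(j+2) U + 2 X (1 + log X)) ∑|c|^2
≤ (4/U + 4 X (1+log X)/U^2) ∑ |c|^2` (or: `1/t^2 = ∫_{|t|}^∞ 2 v^(-3) dv` and Tonelli).
-/

set_option autoImplicit false

namespace Pool.Agent.H53.MID

open Finset MeasureTheory
open Pool.Agent.H91.PK (ee)

private noncomputable def Plw_k (θ t : ℝ) : ℂ := ∫ v in (-θ)..0, ee (-(v * t))

private theorem Plw_cont (t : ℝ) : Continuous (fun v : ℝ => ee (-(v * t))) := by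
  unfold ee
  fun_prop

private theorem Plw_cont2 (s : ℝ) : Continuous (fun t : ℝ => ee (-(t * s))) := by
  unfold ee
  fun_prop

private theorem Plw_k_le (θ t : ℝ) (hθ : 0 < θ) : ‖Plw_k θ t‖ ≤ θ := by
  have h := intervalIntegral.norm_integral_le_of_norm_le_const (a := -θ) (b := 0) (C := 1)
    (f := fun v : ℝ => ee (-(v * t))) (fun v _ => (Pool.Agent.H91.PK.LSa_norm_ee _).le)
  have h2 : |(0 : ℝ) - -θ| = θ := by
    rw [sub_neg_eq_add, zero_add, abs_of_pos hθ]
  rw [h2, one_mul] at h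
  exact h

private theorem Plw_k_le2 (θ t : ℝ) (ht : t ≠ 0) : ‖Plw_k θ t‖ ≤ 1 / (Real.pi * |t|) := by
  have hpi := Real.pi_pos
  have hc : (-(2 * Real.pi * t) * Complex.I : ℂ) ≠ 0 := by
    have : (2 * Real.pi * t : ℂ) ≠ 0 := by
      have h1 : (Real.pi : ℂ) ≠ 0 := by exact_mod_cast hpi.ne'
      have h2 : (t : ℂ) ≠ 0 := by exact_mod_cast ht
      exact mul_ne_zero (mul_ne_zero two_ne_zero h1) h2
    exact mul_ne_zero (neg_ne_zero.2 this) Complex.I_ne_zero
  have e : ∀ v : ℝ, ee (-(v * t)) = Complex.exp ((-(2 * Real.pi * t) * Complex.I : ℂ) * (v : ℂ)) := by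
    intro v
    unfold ee
    congr 1
    push_cast
    ring
  unfold Plw_k
  simp_rw [e]
  rw [integral_exp_mul_complex hc, norm_div]
  have h1 : ‖(-(2 * Real.pi * t) * Complex.I : ℂ)‖ = 2 * Real.pi * |t| := by
    rw [norm_mul, norm_neg, Complex.norm_I, mul_one, norm_mul, norm_mul]
    simp [abs_of_pos hpi]
  rw [h1]
  have h2 : ∀ v : ℝ, ‖Complex.exp ((-(2 * Real.pi * t) * Complex.I : ℂ) * (v : ℂ))‖ = 1 := by
    intro v
    rw [← e]
    exact Pool.Agent.H91.PK.LSa_norm_ee _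
  have h3 : ‖Complex.exp ((-(2 * Real.pi * t) * Complex.I : ℂ) * ((0 : ℝ) : ℂ)) -
      Complex.exp ((-(2 * Real.pi * t) * Complex.I : ℂ) * ((-θ : ℝ) : ℂ))‖ ≤ 2 := by
    refine (norm_sub_le _ _).trans ?_
    rw [h2, h2]
    norm_num
  have h4 : 0 < |t| := abs_pos.2 ht
  calc _ ≤ 2 / (2 * Real.pi * |t|) := div_le_div_of_nonneg_right h3 (by positivity)
    _ = 1 / (Real.pi * |t|) := by
      field_simp

private theorem Plw_Dw (c : ℕ → ℂ) (X : ℕ) (θ u : ℝ) :
    Dw c X θ u = ∑ m ∈ Icc 1 X, (Set.Ico (Real.log m - θ) (Real.log m)).indicator (fun _ => c m) u := by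
  unfold Dw
  rw [Finset.sum_filter]
  refine Finset.sum_congr rfl fun m _ => ?_
  by_cases h : u < Real.log m ∧ Real.log m ≤ u + θ
  · rw [if_pos h, Set.indicator_of_mem]
    exact ⟨by linarith [h.2], h.1⟩
  · rw [if_neg h, Set.indicator_of_notMem]
    rintro ⟨h1, h2⟩
    exact h ⟨h2, by linarith⟩

private theorem Plw_int1 (c : ℕ → ℂ) (X : ℕ) (θ : ℝ) : Integrable (fun u => Dw c X θ u) := by
  simp_rw [Plw_Dw]
  refine integrable_finsetSum _ fun m _ => ?_
  rw [integrable_indicator_iff measurableSet_Ico]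
  exact integrableOn_const (by simp) (by simp)

private theorem Plw_mem (c : ℕ → ℂ) (X : ℕ) (θ : ℝ) : MemLp (fun u => Dw c X θ u) 2 := by
  simp_rw [Plw_Dw]
  refine memLp_finsetSum _ fun m _ => ?_
  exact memLp_indicator_const 2 measurableSet_Ico (c m) (Or.inr (by simp))

private theorem Plw_four (c : ℕ → ℂ) (X : ℕ) (θ t : ℝ) (hθ : 0 < θ) :
    ∫ u, Dw c X θ u * ee (-(u * t)) = Cs c X t * Plw_k θ t := by
  have h1 : ∀ u : ℝ, Dw c X θ u * ee (-(u * t)) = ∑ m ∈ Icc 1 X,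
      (Set.Ico (Real.log m - θ) (Real.log m)).indicator (fun u : ℝ => c m * ee (-(u * t))) u := by
    intro u
    rw [Plw_Dw, Finset.sum_mul]
    refine Finset.sum_congr rfl fun m _ => ?_
    by_cases h : u ∈ Set.Ico (Real.log m - θ) (Real.log m)
    · rw [Set.indicator_of_mem h, Set.indicator_of_mem h]
    · rw [Set.indicator_of_notMem h, Set.indicator_of_notMem h, zero_mul]
  simp_rw [h1]
  rw [integral_finsetSum]
  · unfold Cs
    rw [Finset.sum_mul]
    refine Finset.sum_congr rfl fun m _ => ?_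
    rw [integral_indicator measurableSet_Ico, integral_Ico_eq_integral_Ioo, ← integral_Ioc_eq_integral_Ioo,
      ← intervalIntegral.integral_of_le (by linarith), intervalIntegral.integral_const_mul, mul_assoc]
    congr 1
    unfold Plw_k
    rw [← intervalIntegral.integral_const_mul]
    have h2 := intervalIntegral.integral_comp_add_right (a := -θ) (b := 0)
      (fun u : ℝ => ee (-(u * t))) (Real.log m)
    have h3 : -θ + Real.log m = Real.log m - θ := by ring
    rw [h3, zero_add] at h2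
    rw [← h2]
    refine intervalIntegral.integral_congr fun v _ => ?_
    show ee (-((v + Real.log m) * t)) = ee (-(t * Real.log m)) * ee (-(v * t))
    rw [← Pool.Agent.H91.PK.LSa_ee_add]
    congr 1
    ring
  · intro m _
    rw [integrable_indicator_iff measurableSet_Ico]
    exact ((continuous_const.mul (Plw_cont t)).integrableOn_Icc).mono_set Set.Ico_subset_Icc_self

private theorem Plw_Cs_cont (c : ℕ → ℂ) (X : ℕ) : Continuous (fun t => Cs c X t) := by
  unfold Cs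
  exact continuous_finsetSum _ fun m _ => continuous_const.mul (Plw_cont2 _)

/-- one dyadic step -/
private theorem Plw_step (c : ℕ → ℂ) (X : ℕ) (θ V : ℝ) (hX : 1 ≤ X) (hV : 0 < V)
    (hI : Integrable (fun t : ℝ => ‖Cs c X t * Plw_k θ t‖ ^ 2)) :
    ∫ t in Set.Icc (-(2 * V)) (2 * V), ‖Cs c X t * Plw_k θ t‖ ^ 2 ≤
      (∫ t in Set.Icc (-V) V, ‖Cs c X t * Plw_k θ t‖ ^ 2) +
        1 / (9 * V ^ 2) * ((4 * V + 2 * X * (1 + Real.log X)) * ∑ m ∈ Icc 1 X, ‖c m‖ ^ 2) := by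
  have hpi := Real.pi_gt_three
  have hmv := mvt c X (2 * V) 0 hX (by linarith)
  have hC : Continuous (fun t => ‖Cs c X t‖ ^ 2) := (Plw_Cs_cont c X).norm.pow 2
  have h1 : ∫ t in Set.Icc (-(2 * V)) (2 * V), ‖Cs c X t * Plw_k θ t‖ ^ 2 ≤
      ∫ t in Set.Icc (-(2 * V)) (2 * V), ((Set.Icc (-V) V).indicator (fun t => ‖Cs c X t * Plw_k θ t‖ ^ 2) t +
        1 / (9 * V ^ 2) * ‖Cs c X t‖ ^ 2) := by
    refine setIntegral_mono_on hI.integrableOn ?_ measurableSet_Icc ?_
    · refine Integrable.add ?_ ?_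
      · exact ((hI.integrableOn (s := Set.Icc (-V) V)).integrable_indicator measurableSet_Icc).integrableOn
      · exact (continuous_const.mul hC).integrableOn_Icc
    · intro t _
      by_cases h : t ∈ Set.Icc (-V) V
      · rw [Set.indicator_of_mem h]
        have : 0 ≤ 1 / (9 * V ^ 2) * ‖Cs c X t‖ ^ 2 := by positivity
        linarith
      · rw [Set.indicator_of_notMem h, zero_add, norm_mul, mul_pow, mul_comm]
        refine mul_le_mul_of_nonneg_right ?_ (by positivity)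
        have hlt : V < |t| := by
          by_contra hcon
          push Not at hcon
          exact h ⟨by linarith [(abs_le.1 hcon).1], (abs_le.1 hcon).2⟩
        have ht : t ≠ 0 := by
          intro h0
          rw [h0, abs_zero] at hlt
          linarith
        have h2 := Plw_k_le2 θ t ht
        have h3 : 1 / (Real.pi * |t|) ≤ 1 / (3 * V) := by
          apply one_div_le_one_div_of_le (by positivity)
          exact mul_le_mul hpi.le hlt.le hV.le (by linarith)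
        calc ‖Plw_k θ t‖ ^ 2 ≤ (1 / (3 * V)) ^ 2 := pow_le_pow_left₀ (norm_nonneg _) (h2.trans h3) 2
          _ = 1 / (9 * V ^ 2) := by
            field_simp
            norm_num
  refine h1.trans ?_
  rw [integral_add]
  · refine add_le_add ?_ ?_
    · rw [setIntegral_indicator measurableSet_Icc]
      refine le_of_eq ?_
      congr 2
      ext t
      simp only [Set.mem_inter_iff, Set.mem_Icc]
      constructor
      · exact fun h => h.2
      · intro h
        exact ⟨⟨by linarith [h.1], by linarith [h.2]⟩, h⟩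
    · rw [integral_const_mul]
      refine mul_le_mul_of_nonneg_left ?_ (by positivity)
      have h5 : ∀ t : ℝ, ∑ m ∈ Icc 1 X, c m * ee (-((0 + t) * Real.log m)) = Cs c X t := by
        intro t
        unfold Cs
        simp
      simp_rw [h5] at hmv
      refine hmv.trans (le_of_eq ?_)
      ring
  · exact ((hI.integrableOn (s := Set.Icc (-V) V)).integrable_indicator measurableSet_Icc).integrableOn
  · exact (continuous_const.mul hC).integrableOn_Icc

private theorem Plw_iter (c : ℕ → ℂ) (X : ℕ) (θ U : ℝ) (hX : 1 ≤ X) (hU : 0 < U)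
    (hI : Integrable (fun t : ℝ => ‖Cs c X t * Plw_k θ t‖ ^ 2)) (n : ℕ) :
    ∫ t in Set.Icc (-(2 ^ n * U)) (2 ^ n * U), ‖Cs c X t * Plw_k θ t‖ ^ 2 ≤
      (∫ t in Set.Icc (-U) U, ‖Cs c X t * Plw_k θ t‖ ^ 2) +
        (1 - 1 / 2 ^ n) * ((4 / U + 4 * X * (1 + Real.log X) / U ^ 2) * ∑ m ∈ Icc 1 X, ‖c m‖ ^ 2) := by
  have hS : 0 ≤ ∑ m ∈ Icc 1 X, ‖c m‖ ^ 2 := Finset.sum_nonneg fun _ _ => by positivity
  have hlog : 0 ≤ Real.log X := Real.log_natCast_nonneg X
  induction n with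
  | zero => simp
  | succ n ih =>
    have hV : 0 < 2 ^ n * U := by positivity
    have h1 := Plw_step c X θ (2 ^ n * U) hX hV hI
    have e1 : (2 : ℝ) ^ (n + 1) * U = 2 * (2 ^ n * U) := by ring
    rw [e1]
    have h2 : 1 / (9 * (2 ^ n * U) ^ 2) * ((4 * (2 ^ n * U) + 2 * X * (1 + Real.log X)) * ∑ m ∈ Icc 1 X, ‖c m‖ ^ 2) ≤
        (1 / 2 ^ (n + 1)) * ((4 / U + 4 * X * (1 + Real.log X) / U ^ 2) * ∑ m ∈ Icc 1 X, ‖c m‖ ^ 2) := by
      rw [← mul_assoc (1 / (9 * (2 ^ n * U) ^ 2)), ← mul_assoc (1 / (2 : ℝ) ^ (n + 1))]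
      refine mul_le_mul_of_nonneg_right ?_ hS
      have h3 : 1 / (9 * (2 ^ n * U) ^ 2) * (4 * (2 ^ n * U)) ≤ 1 / 2 ^ (n + 1) * (4 / U) := by
        rw [pow_succ]
        have hp : (0 : ℝ) < 2 ^ n := by positivity
        rw [one_div_mul_eq_div, one_div_mul_eq_div, div_div, div_le_div_iff₀ (by positivity) (by positivity)]
        nlinarith [mul_pos hp hU, mul_pos (mul_pos hp hU) (mul_pos hp hU)]
      have h4 : 1 / (9 * (2 ^ n * U) ^ 2) * (2 * X * (1 + Real.log X)) ≤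
          1 / 2 ^ (n + 1) * (4 * X * (1 + Real.log X) / U ^ 2) := by
        have hp : (1 : ℝ) ≤ 2 ^ n := one_le_pow₀ (by norm_num)
        have hA : 0 ≤ (X : ℝ) * (1 + Real.log X) := by positivity
        have e2 : 1 / (9 * (2 ^ n * U) ^ 2) * (2 * X * (1 + Real.log X)) =
            (X * (1 + Real.log X)) * (2 / (9 * (2 ^ n * U) ^ 2)) := by ring
        have e3 : 1 / 2 ^ (n + 1) * (4 * X * (1 + Real.log X) / U ^ 2) =
            (X * (1 + Real.log X)) * (4 / (2 ^ (n + 1) * U ^ 2)) := by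
          field_simp
        rw [e2, e3]
        refine mul_le_mul_of_nonneg_left ?_ hA
        rw [div_le_div_iff₀ (by positivity) (by positivity), pow_succ]
        have hU2 : 0 < U ^ 2 := by positivity
        nlinarith [mul_le_mul_of_nonneg_right hp (mul_nonneg (le_trans zero_le_one hp) hU2.le),
          mul_pos (lt_of_lt_of_le one_pos hp) hU2]
      calc _ = 1 / (9 * (2 ^ n * U) ^ 2) * (4 * (2 ^ n * U)) +
            1 / (9 * (2 ^ n * U) ^ 2) * (2 * X * (1 + Real.log X)) := by ring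
        _ ≤ _ := add_le_add h3 h4
        _ = _ := by ring
    have e4 : (1 : ℝ) - 1 / 2 ^ (n + 1) = (1 - 1 / 2 ^ n) + 1 / 2 ^ (n + 1) := by
      rw [pow_succ]
      field_simp
      ring
    rw [e4, add_mul]
    linarith

theorem plw (c : ℕ → ℂ) (X : ℕ) (θ U : ℝ) (hX : 1 ≤ X) (hθ : 0 < θ) (hU : 0 < U) :
    Integrable (fun u => ‖Dw c X θ u‖ ^ 2) ∧
    ∫ u, ‖Dw c X θ u‖ ^ 2 ≤ θ ^ 2 * (∫ t in Set.Icc (-U) U, ‖Cs c X t‖ ^ 2)
      + (4 / U + 4 * X * (1 + Real.log X) / U ^ 2) * ∑ m ∈ Icc 1 X, ‖c m‖ ^ 2 := by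
  have hm := Plw_mem c X θ
  refine ⟨hm.integrable_norm_pow (by norm_num), ?_⟩
  obtain ⟨hI, hE⟩ := Pool.Agent.H76.EHB.planch (fun u => Dw c X θ u) (Plw_int1 c X θ) hm
  simp_rw [Plw_four c X θ _ hθ] at hI hE
  rw [← hE]
  have hS : 0 ≤ ∑ m ∈ Icc 1 X, ‖c m‖ ^ 2 := Finset.sum_nonneg fun _ _ => by positivity
  have hlog : 0 ≤ Real.log X := Real.log_natCast_nonneg X
  have h1 : ∫ t in Set.Icc (-U) U, ‖Cs c X t * Plw_k θ t‖ ^ 2 ≤ θ ^ 2 * (∫ t in Set.Icc (-U) U, ‖Cs c X t‖ ^ 2) := by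
    rw [← integral_const_mul]
    refine setIntegral_mono_on hI.integrableOn ?_ measurableSet_Icc ?_
    · exact (continuous_const.mul ((Plw_Cs_cont c X).norm.pow 2)).integrableOn_Icc
    · intro t _
      rw [norm_mul, mul_pow, mul_comm]
      refine mul_le_mul_of_nonneg_right ?_ (by positivity)
      exact pow_le_pow_left₀ (norm_nonneg _) (Plw_k_le θ t hθ) 2
  have hcov : AECover volume Filter.atTop (fun n : ℕ => Set.Icc (-(2 ^ n * U)) (2 ^ n * U)) := by
    have ht : Filter.Tendsto (fun n : ℕ => (2 : ℝ) ^ n * U) Filter.atTop Filter.atTop :=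
      (tendsto_pow_atTop_atTop_of_one_lt (by norm_num)).atTop_mul_const hU
    exact aecover_Icc (Filter.tendsto_neg_atTop_atBot.comp ht) ht
  have hlim := hcov.integral_tendsto_of_countably_generated hI
  refine le_of_tendsto hlim (Filter.Eventually.of_forall fun n => ?_)
  refine (Plw_iter c X θ U hX hU hI n).trans ?_
  refine add_le_add h1 ?_
  have h2 : 0 ≤ (4 / U + 4 * X * (1 + Real.log X) / U ^ 2) * ∑ m ∈ Icc 1 X, ‖c m‖ ^ 2 := by positivity
  have h3 : (0 : ℝ) ≤ 1 / 2 ^ n := by positivity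
  nlinarith

end Pool.Agent.H53.MID
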