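import Pool.Agent.H53.MID.Msc
import Pool.Agent.H53.MID.Plw

/-!
# MID Ms: the mean square over multiplicative windows

Proof.  `C4 = A' + 12`, `U = L^C4/θ` (`U ≥ 1`, `U P ≤ N`), `msc` with `A' + 1`, `plw`.  Tail: `‖cc .. m‖ = |Fp f P m|`, `|Fp f P m|^2 ≤ #{p ∈ pb P : p ∣ m} ∑_{p ∈ pb P, p ∣ m} f(m/p)^2`, the number of these `p` is
`≤ log m/log 2 ≤ 4 L` (for `m ≤ X ≤ 64 N`), so `∑_{m ≤ X} ‖cc m‖^2 ≤ 4 L ∑_{p ∈ pb P} ∑_k (cut f k)^2 ≤ 4 L P (K2 + 1) L^4 ≤ 128 N L^5` (`hsq` on `[0, K2+1)`; `K2 + 1 ≥ R^4 + 2` since `K2 ≥ N^e1`).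
`(4/U + 4X(1+log X)/U^2) 128 N L^5 ≤ (4 θ/L^C4 + 512 N L θ^2/L^(2 C4)) 128 N L^5 ≤ θ^2 N^2/(2 L^A')`, using `θ N ≥ 1`.
-/

set_option autoImplicit false

namespace Pool.Agent.H53.MID

open Finset MeasureTheory
open Pool.Agent.H91.PK (ee)
open Pool.Agent.H91.EHA (Lam hR lamR ramS)
open Pool.Agent.H35.W (pb)

private theorem Ms_asy (k : ℕ) (e1 : ℝ) (he1 : 0 < e1) :
    ∀ᶠ N : ℕ in Filter.atTop, Real.log N ^ k + 1 ≤ (N : ℝ) ^ e1 := by
  have h1 := (isLittleO_log_rpow_rpow_atTop (k : ℝ) he1).bound (show (0 : ℝ) < 1 / 2 by norm_num)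
  have h2 := (tendsto_rpow_atTop he1).eventually_ge_atTop 2
  have h3 := (tendsto_natCast_atTop_atTop (R := ℝ)).eventually (h1.and h2)
  filter_upwards [h3] with N hN
  obtain ⟨h4, h5⟩ := hN
  rw [Real.rpow_natCast, Real.norm_eq_abs, Real.norm_eq_abs] at h4
  have h6 : |(N : ℝ) ^ e1| = (N : ℝ) ^ e1 := abs_of_nonneg (by positivity)
  rw [h6] at h4
  have h7 := (le_abs_self _).trans h4
  linarith

private theorem Ms_cc (f : ℕ → ℝ) (P m : ℕ) (a T : ℝ) : ‖cc f P a T m‖ = |Fp f P m| := by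
  unfold cc
  rw [norm_mul, norm_mul, Pool.Agent.H91.PK.LSa_norm_ee, Pool.Agent.H91.PK.LSa_norm_ee, mul_one, mul_one,
    Complex.norm_real, Real.norm_eq_abs]

private theorem Ms_card (P m : ℕ) (hm : 1 ≤ m) : (((pb P).filter (fun p => p ∣ m)).card : ℝ) ≤ 2 * Real.log m := by
  have hsub : (pb P).filter (fun p => p ∣ m) ⊆ m.primeFactors := by
    intro p hp
    rw [Finset.mem_filter] at hp
    unfold pb at hp
    rw [Finset.mem_filter] at hp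
    exact Nat.mem_primeFactors.2 ⟨hp.1.2, hp.2, by omega⟩
  have h1 : 2 ^ m.primeFactors.card ≤ m := by
    calc 2 ^ m.primeFactors.card = ∏ _p ∈ m.primeFactors, 2 := by rw [Finset.prod_const]
      _ ≤ ∏ p ∈ m.primeFactors, p := Finset.prod_le_prod' fun p hp => (Nat.prime_of_mem_primeFactors hp).two_le
      _ ≤ m := Nat.le_of_dvd (by omega) (Nat.prod_primeFactors_dvd m)
  have h2 : 2 ^ ((pb P).filter (fun p => p ∣ m)).card ≤ m :=
    (Nat.pow_le_pow_right (by norm_num) (Finset.card_le_card hsub)).trans h1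
  have h3 : (2 : ℝ) ^ ((pb P).filter (fun p => p ∣ m)).card ≤ m := by exact_mod_cast h2
  have h4 := Real.log_le_log (by positivity) h3
  rw [Real.log_pow] at h4
  have h5 := Real.log_two_gt_d9
  have h6 : (0 : ℝ) ≤ (((pb P).filter (fun p => p ∣ m)).card : ℝ) := by positivity
  nlinarith

private theorem Ms_sum (f : ℕ → ℝ) (P K1 K2 X : ℕ) (M S : ℝ) (hM0 : 0 ≤ M)
    (hM : ∀ m ∈ Icc 1 X, (((pb P).filter (fun p => p ∣ m)).card : ℝ) ≤ M)
    (hS : ∑ k ∈ Ico 0 (0 + (K2 + 1)), cut K1 K2 f k ^ 2 ≤ S) :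
    ∑ m ∈ Icc 1 X, |Fp (cut K1 K2 f) P m| ^ 2 ≤ M * (P * S) := by
  have h1 : ∀ m ∈ Icc 1 X, |Fp (cut K1 K2 f) P m| ^ 2 ≤
      M * ∑ p ∈ (pb P).filter (fun p => p ∣ m), cut K1 K2 f (m / p) ^ 2 := by
    intro m hm
    rw [sq_abs]
    unfold Fp
    refine sq_sum_le_card_mul_sum_sq.trans ?_
    exact mul_le_mul_of_nonneg_right (hM m hm) (Finset.sum_nonneg fun _ _ => sq_nonneg _)
  refine (Finset.sum_le_sum h1).trans ?_
  rw [← Finset.mul_sum]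
  refine mul_le_mul_of_nonneg_left ?_ hM0
  have hS0 : 0 ≤ S := (Finset.sum_nonneg fun _ _ => sq_nonneg _).trans hS
  have h2 : ∑ m ∈ Icc 1 X, ∑ p ∈ (pb P).filter (fun p => p ∣ m), cut K1 K2 f (m / p) ^ 2 =
      ∑ p ∈ pb P, ∑ m ∈ (Icc 1 X).filter (fun m => p ∣ m), cut K1 K2 f (m / p) ^ 2 := by
    simp_rw [Finset.sum_filter]
    exact Finset.sum_comm
  rw [h2]
  have h3 : ∀ p ∈ pb P, ∑ m ∈ (Icc 1 X).filter (fun m => p ∣ m), cut K1 K2 f (m / p) ^ 2 ≤ S := by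
    intro p _
    refine le_trans ?_ hS
    have hinj : Set.InjOn (fun m => m / p) (((Icc 1 X).filter (fun m => p ∣ m) : Finset ℕ) : Set ℕ) := by
      intro a ha b hb hab
      rw [Finset.mem_coe, Finset.mem_filter] at ha hb
      have e : a / p = b / p := hab
      rw [← Nat.div_mul_cancel ha.2, ← Nat.div_mul_cancel hb.2, e]
    rw [← Finset.sum_image (f := fun k => cut K1 K2 f k ^ 2) (g := fun m => m / p) hinj]
    rw [← Finset.sum_filter_ne_zero]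
    refine Finset.sum_le_sum_of_subset_of_nonneg ?_ fun _ _ _ => sq_nonneg _
    intro k hk
    rw [Finset.mem_filter] at hk
    rw [Finset.mem_Ico]
    refine ⟨Nat.zero_le _, ?_⟩
    by_contra hcon
    apply hk.2
    have : cut K1 K2 f k = 0 := by
      unfold cut
      rw [if_neg]
      rw [Finset.mem_Ioc]
      omega
    simp [this]
  refine (Finset.sum_le_sum h3).trans ?_
  rw [Finset.sum_const, nsmul_eq_mul]
  refine mul_le_mul_of_nonneg_right ?_ hS0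
  have h4 : (pb P).card ≤ P := by
    unfold pb
    refine (Finset.card_filter_le _ _).trans ?_
    rw [Nat.card_Ioc]
    omega
  exact_mod_cast h4

theorem ms (hVK : VKp) (hSW : SWp) (A' C' : ℕ) (e1 : ℝ) (he1 : 0 < e1) : ∃ C4 : ℕ, ∀ B : ℕ, C' ≤ B → ∃ N0 : ℕ,
    ∀ N : ℕ, N0 ≤ N → ∀ (P K1 K2 X d b : ℕ) (T θ : ℝ), (N : ℝ) ^ e1 ≤ P → P ≤ N → 1 ≤ d → (d : ℝ) ≤ Real.log N ^ C' →
    |T| ≤ (N : ℝ) ^ 2 → (N : ℝ) ^ e1 ≤ K2 → K2 ≤ N → K2 * P ≤ 16 * N → 2 * P * K2 ≤ X → X ≤ 64 * N → 1 ≤ X →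
    0 < θ → θ ≤ 1 → P * Real.log N ^ C4 ≤ θ * N →
    Integrable (fun u => ‖Dw (cc (cut K1 K2 (hR ⌊Real.log N ^ B⌋₊)) P ((b : ℝ) / d) T) X θ u‖ ^ 2) ∧
    ∫ u, ‖Dw (cc (cut K1 K2 (hR ⌊Real.log N ^ B⌋₊)) P ((b : ℝ) / d) T) X θ u‖ ^ 2
      ≤ θ ^ 2 * (N : ℝ) ^ 2 / Real.log N ^ A' := by
  refine ⟨A' + 12, fun B hB => ?_⟩
  obtain ⟨N1, hN1⟩ := msc hVK hSW (A' + 1) C' e1 he1 B hB
  obtain ⟨N2, hN2⟩ := hsq B
  obtain ⟨N3, hN3⟩ := Filter.eventually_atTop.1 (Ms_asy (B * 4) e1 he1)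
  refine ⟨max (max N1 N2) (max N3 64), fun N hN P K1 K2 X d b T θ hP1 hP2 hd1 hd2 hT hK1 hK2 hKP hPX hX1 hX2 hθ0 hθ1 hθ2 => ?_⟩
  have hNN1 : N1 ≤ N := (le_max_left _ _).trans ((le_max_left _ _).trans hN)
  have hNN2 : N2 ≤ N := (le_max_right _ _).trans ((le_max_left _ _).trans hN)
  have hNN3 : N3 ≤ N := (le_max_left _ _).trans ((le_max_right _ _).trans hN)
  have hN64 : 64 ≤ N := (le_max_right _ _).trans ((le_max_right _ _).trans hN)
  have hN64' : (64 : ℝ) ≤ N := by exact_mod_cast hN64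
  have hN0 : (0 : ℝ) < N := by linarith
  obtain ⟨L, hL⟩ : ∃ L, L = Real.log N := ⟨_, rfl⟩
  have hlog64 : Real.log 64 = 6 * Real.log 2 := by
    rw [show (64 : ℝ) = 2 ^ 6 by norm_num, Real.log_pow]
    norm_num
  have hlog2 := Real.log_two_gt_d9
  have hL4 : 4 ≤ L := by
    rw [hL]
    have h1 := Real.log_le_log (by norm_num) hN64'
    linarith
  have hL0 : 0 < L := by linarith
  have hlogX : Real.log X ≤ 2 * L := by
    have h1 : (X : ℝ) ≤ N * N := by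
      have h2 : (X : ℝ) ≤ 64 * N := by exact_mod_cast hX1
      nlinarith
    have h3 := Real.log_le_log (by exact_mod_cast hX2) h1
    rw [Real.log_mul hN0.ne' hN0.ne', ← hL] at h3
    linarith
  rw [← hL] at hd2 hθ2 ⊢
  set R : ℕ := ⌊L ^ B⌋₊ with hR'
  have hRle : (R : ℝ) ≤ L ^ B := Nat.floor_le (by positivity)
  have hK0 : (1 : ℝ) ≤ K2 := by
    have h1 := hN3 N hNN3
    have h2 : 0 ≤ Real.log N ^ (B * 4) := by
      rw [← hL]
      positivity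
    linarith
  have hRK : R ^ 4 + 2 ≤ K2 + 1 := by
    have h1 := hN3 N hNN3
    rw [← hL] at h1
    have h2 : (R : ℝ) ^ 4 ≤ L ^ (B * 4) := by
      rw [pow_mul]
      exact pow_le_pow_left₀ (by positivity) hRle 4
    have h3 : (R : ℝ) ^ 4 + 1 ≤ K2 := by linarith
    have h4 : R ^ 4 + 1 ≤ K2 := by exact_mod_cast h3
    omega
  have hP0 : (1 : ℝ) ≤ P := by
    have h1 := hN3 N hNN3
    have h2 : 0 ≤ Real.log N ^ (B * 4) := by
      rw [← hL]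
      positivity
    linarith
  have hSq : ∑ k ∈ Ico 0 (0 + (K2 + 1)), cut K1 K2 (hR R) k ^ 2 ≤ ((K2 + 1 : ℕ) : ℝ) * L ^ 4 := by
    have h1 := hN2 N hNN2 R (by rw [← hL]; exact hRle) K1 K2 0 (K2 + 1) hRK ?_
    · rw [← hL] at h1
      exact h1
    · have h2 : N * 64 ^ 3 ≤ N ^ 4 := by
        calc N * 64 ^ 3 ≤ N * N ^ 3 := Nat.mul_le_mul_left _ (Nat.pow_le_pow_left hN64 3)
          _ = N ^ 4 := by ring
      omega
  obtain ⟨U, hU⟩ : ∃ U, U = L ^ (A' + 12) / θ := ⟨_, rfl⟩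
  have hLC1 : 1 ≤ L ^ (A' + 12) := one_le_pow₀ (by linarith)
  have hU1 : 1 ≤ U := by
    rw [hU, le_div_iff₀ hθ0]
    linarith
  have hUP : U * P ≤ N := by
    rw [hU, div_mul_eq_mul_div, div_le_iff₀ hθ0]
    linarith
  have hU0 : 0 < U := by linarith
  have hθN : 1 ≤ θ * N := by
    refine le_trans ?_ hθ2
    nlinarith
  have hmsc := hN1 N hNN1 P K1 K2 X d b T U hP1 hP2 hd1 (by rw [← hL]; exact hd2) hT hU1 hUP hK1 hK2 hKP hPX
  rw [← hL, ← hR'] at hmsc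
  obtain ⟨hI, hplw⟩ := plw (cc (cut K1 K2 (hR R)) P ((b : ℝ) / d) T) X θ U hX2 hθ0 hU0
  refine ⟨hI, hplw.trans ?_⟩
  have hsum : ∑ m ∈ Icc 1 X, ‖cc (cut K1 K2 (hR R)) P ((b : ℝ) / d) T m‖ ^ 2 ≤ 128 * N * L ^ 5 := by
    simp_rw [Ms_cc]
    have h1 := Ms_sum (hR R) P K1 K2 X (4 * L) (((K2 + 1 : ℕ) : ℝ) * L ^ 4) (by positivity) ?_ hSq
    · refine h1.trans ?_
      have h2 : (K2 : ℝ) * P ≤ 16 * N := by exact_mod_cast hKP
      push_cast
      have h3 : (P : ℝ) * ((K2 : ℝ) + 1) ≤ 32 * N := by nlinarith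
      calc 4 * L * ((P : ℝ) * (((K2 : ℝ) + 1) * L ^ 4)) = (P * (K2 + 1)) * (4 * L ^ 5) := by ring
        _ ≤ (32 * N) * (4 * L ^ 5) := mul_le_mul_of_nonneg_right h3 (by positivity)
        _ = 128 * N * L ^ 5 := by ring
    · intro m hm
      rw [Finset.mem_Icc] at hm
      refine (Ms_card P m hm.1).trans ?_
      have h2 : Real.log m ≤ Real.log X :=
        Real.log_le_log (by exact_mod_cast hm.1) (by exact_mod_cast hm.2)
      linarith
  have hX0 : (X : ℝ) ≤ 64 * N := by exact_mod_cast hX1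
  have hlogX0 : 0 ≤ Real.log X := Real.log_natCast_nonneg X
  have hfac : 4 / U + 4 * X * (1 + Real.log X) / U ^ 2 ≤
      4 * θ / L ^ (A' + 12) + 768 * N * L * θ ^ 2 / (L ^ (A' + 12)) ^ 2 := by
    refine add_le_add (le_of_eq ?_) ?_
    · rw [hU]
      field_simp
    · rw [hU, div_pow, div_div_eq_mul_div]
      apply div_le_div_of_nonneg_right _ (by positivity)
      apply mul_le_mul_of_nonneg_right _ (by positivity)
      have h1 : 1 + Real.log X ≤ 3 * L := by linarith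
      calc 4 * (X : ℝ) * (1 + Real.log X) ≤ 4 * (64 * N) * (3 * L) := by
            apply mul_le_mul (by linarith) h1 (by linarith) (by positivity)
        _ = 768 * N * L := by ring
  have hfirst : θ ^ 2 * (∫ t in Set.Icc (-U) U, ‖Cs (cc (cut K1 K2 (hR R)) P ((b : ℝ) / d) T) X t‖ ^ 2) ≤
      (1 / 4) * (θ ^ 2 * (N : ℝ) ^ 2 / L ^ A') := by
    refine (mul_le_mul_of_nonneg_left hmsc (by positivity)).trans ?_
    have e0 : θ ^ 2 * ((N : ℝ) ^ 2 / L ^ (A' + 1)) = (θ ^ 2 * (N : ℝ) ^ 2 / L ^ A') * (1 / L) := by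
      rw [pow_succ L A']
      field_simp
    rw [e0, mul_comm]
    have h1 : 0 ≤ θ ^ 2 * (N : ℝ) ^ 2 / L ^ A' := by positivity
    refine mul_le_mul_of_nonneg_right ?_ h1
    exact one_div_le_one_div_of_le (by norm_num) hL4
  have hsecond : (4 / U + 4 * X * (1 + Real.log X) / U ^ 2) *
      ∑ m ∈ Icc 1 X, ‖cc (cut K1 K2 (hR R)) P ((b : ℝ) / d) T m‖ ^ 2 ≤
      (1 / 2) * (θ ^ 2 * (N : ℝ) ^ 2 / L ^ A') := by
    have h0 : 0 ≤ ∑ m ∈ Icc 1 X, ‖cc (cut K1 K2 (hR R)) P ((b : ℝ) / d) T m‖ ^ 2 :=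
      Finset.sum_nonneg fun _ _ => by positivity
    refine (mul_le_mul hfac hsum h0 (by positivity)).trans ?_
    have e1 : (4 * θ / L ^ (A' + 12) + 768 * N * L * θ ^ 2 / (L ^ (A' + 12)) ^ 2) * (128 * N * L ^ 5) =
        (θ * N / L ^ A') * (512 / L ^ 7) + (θ ^ 2 * (N : ℝ) ^ 2 / L ^ A') * (98304 / L ^ (A' + 18)) := by
      rw [add_mul]
      congr 1
      · rw [div_mul_eq_mul_div, div_mul_div_comm, div_eq_div_iff (by positivity) (by positivity)]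
        ring
      · rw [div_mul_eq_mul_div, div_mul_div_comm, div_eq_div_iff (by positivity) (by positivity)]
        ring
    rw [e1]
    have h2 : θ * N / L ^ A' ≤ θ ^ 2 * (N : ℝ) ^ 2 / L ^ A' := by
      apply div_le_div_of_nonneg_right _ (by positivity)
      nlinarith
    have h3 : 512 / L ^ 7 ≤ 1 / 32 := by
      rw [div_le_div_iff₀ (by positivity) (by norm_num)]
      have h4 : (4 : ℝ) ^ 7 ≤ L ^ 7 := pow_le_pow_left₀ (by norm_num) hL4 7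
      norm_num at h4 ⊢
      linarith
    have h5 : 98304 / L ^ (A' + 18) ≤ 1 / 32 := by
      rw [div_le_div_iff₀ (by positivity) (by norm_num)]
      have h4 : (4 : ℝ) ^ 18 ≤ L ^ 18 := pow_le_pow_left₀ (by norm_num) hL4 18
      have h6 : L ^ 18 ≤ L ^ (A' + 18) := pow_le_pow_right₀ (by linarith) (by omega)
      norm_num at h4 ⊢
      linarith
    have hq : 0 ≤ θ ^ 2 * (N : ℝ) ^ 2 / L ^ A' := by positivity
    have hq2 : 0 ≤ θ * N / L ^ A' := by positivity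
    have h7 : θ * N / L ^ A' * (512 / L ^ 7) ≤ (θ ^ 2 * (N : ℝ) ^ 2 / L ^ A') * (1 / 32) :=
      mul_le_mul h2 h3 (by positivity) hq
    have h8 : (θ ^ 2 * (N : ℝ) ^ 2 / L ^ A') * (98304 / L ^ (A' + 18)) ≤ (θ ^ 2 * (N : ℝ) ^ 2 / L ^ A') * (1 / 32) :=
      mul_le_mul_of_nonneg_left h5 hq
    linarith
  have hq : 0 ≤ θ ^ 2 * (N : ℝ) ^ 2 / L ^ A' := by positivity
  linarith

end Pool.Agent.H53.MID
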