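import Pool.Agent.H53.MID.Defs
import Pool.Agent.H92.EH2.LS

/-!
# MID Net: a small net of large frequencies for an interval (large sieve)

Proof.  Let `G = {γ : ν ≤ ‖S(γ)‖}`, `S(γ) = ∑_{k ∈ [u,u+w)} f(k) ee(-kγ)`.  A finite set `Γ ⊆ G` with `nz (β - β') > 1/w` for all distinct
`β, β' ∈ Γ` satisfies `|Γ| ν^2 ≤ ∑_{β ∈ Γ} ‖S(β)‖^2 ≤ 5 w S` by `Pool.Agent.H92.EH.large_sieve` (`J = Γ`, `α β = -β`,
`a n = f (u + n - 1)`, `M = N = w`; `‖S(β)‖ = ‖∑_{n=1}^w a_n e(n α)‖` since the factor `e((u-1)β)` has modulus `1`;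
`|α_i - α_j - m| ≥ nz(..) ≥ 1/w`, `nz_le_of`, `nz_neg`).  So the cardinalities are bounded; take `Γ` of maximal cardinality (`Nat.findGreatest` or
strong induction).  If `γ ∈ G` had `nz (γ - β) > 1/w` for all `β ∈ Γ`, then `Γ ∪ {γ}` would be larger (`γ ∉ Γ` because `nz 0 = 0`).
-/

set_option autoImplicit false

namespace Pool.Agent.H53.MID

open Finset
open Pool.Agent.H91.PK (ee)

/-- the exponential sum -/
private noncomputable def Net_S (f : ℕ → ℝ) (u w : ℕ) (γ : ℝ) : ℂ :=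
  ∑ k ∈ Ico u (u + w), (f k : ℂ) * ee (-(k * γ))

private theorem Net_norm_eq (f : ℕ → ℝ) (u w : ℕ) (γ : ℝ) :
    ‖Net_S f u w γ‖ = ‖∑ n ∈ Icc 1 w, (f (u + n - 1) : ℂ) * Pool.Agent.H92.EH.e (n * (-γ))‖ := by
  have h1 : Net_S f u w γ = ee (-(((u : ℝ) - 1) * γ)) *
      ∑ n ∈ Icc 1 w, (f (u + n - 1) : ℂ) * Pool.Agent.H92.EH.e (n * (-γ)) := by
    unfold Net_S
    have h2 : Ico u (u + w) = (Icc 1 w).image (fun n => u + n - 1) := by
      ext k
      rw [Finset.mem_Ico, Finset.mem_image]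
      constructor
      · rintro ⟨h3, h4⟩
        exact ⟨k + 1 - u, by rw [Finset.mem_Icc]; omega, by omega⟩
      · rintro ⟨n, hn, rfl⟩
        rw [Finset.mem_Icc] at hn
        omega
    rw [h2, Finset.sum_image, Finset.mul_sum]
    · refine Finset.sum_congr rfl fun n hn => ?_
      rw [Finset.mem_Icc] at hn
      have h3 : ((u + n - 1 : ℕ) : ℝ) = (u : ℝ) - 1 + n := by
        rw [Nat.cast_sub (by omega)]
        push_cast
        ring
      have h4 : ee (-(((u + n - 1 : ℕ) : ℝ) * γ)) =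
          ee (-(((u : ℝ) - 1) * γ)) * Pool.Agent.H92.EH.e (n * (-γ)) := by
        rw [h3]
        unfold ee Pool.Agent.H92.EH.e
        rw [← Complex.exp_add]
        congr 1
        push_cast
        ring
      rw [h4]
      ring
    · intro a ha b hb hab
      simp only [Finset.coe_Icc, Set.mem_Icc] at ha hb
      simp only at hab
      omega
  have h2 : ‖ee (-(((u : ℝ) - 1) * γ))‖ = 1 := by
    unfold ee
    have h3 : (2 * Real.pi * ((-(((u : ℝ) - 1) * γ) : ℝ) : ℂ) * Complex.I) =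
        ((2 * Real.pi * (-(((u : ℝ) - 1) * γ)) : ℝ) : ℂ) * Complex.I := by
      push_cast
      ring
    rw [h3, Complex.norm_exp_ofReal_mul_I]
  rw [h1, norm_mul, h2, one_mul]

private theorem Net_card (f : ℕ → ℝ) (u w : ℕ) (hw : 1 ≤ w) (ν S : ℝ) (hν : 0 < ν)
    (hS : ∑ k ∈ Ico u (u + w), f k ^ 2 ≤ S) (Γ : Finset ℝ)
    (h1 : ∀ β ∈ Γ, ν ≤ ‖Net_S f u w β‖)
    (h2 : ∀ β ∈ Γ, ∀ β' ∈ Γ, β ≠ β' → 1 / (w : ℝ) < nz (β - β')) :
    (Γ.card : ℝ) ≤ 5 * w * S / ν ^ 2 := by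
  have hls := Pool.Agent.H92.EH.large_sieve Γ (fun β => -β)
    (fun n => ((f (u + n - 1) : ℝ) : ℂ)) w w le_rfl (by omega) (by
      intro i hi j hj hij m
      have h3 := h2 j hj i hi hij.symm
      have h4 := nz_le_of (j - i) m
      have h5 : -i - -j - (m : ℝ) = j - i - m := by ring
      rw [h5]
      linarith)
  have h3 : ∑ n ∈ Icc 1 w, ‖((f (u + n - 1) : ℝ) : ℂ)‖ ^ 2 ≤ S := by
    refine le_trans (le_of_eq ?_) hS
    have h4 : Ico u (u + w) = (Icc 1 w).image (fun n => u + n - 1) := by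
      ext k
      rw [Finset.mem_Ico, Finset.mem_image]
      constructor
      · rintro ⟨h3, h4⟩
        exact ⟨k + 1 - u, by rw [Finset.mem_Icc]; omega, by omega⟩
      · rintro ⟨n, hn, rfl⟩
        rw [Finset.mem_Icc] at hn
        omega
    rw [h4, Finset.sum_image]
    · refine Finset.sum_congr rfl fun n _ => ?_
      rw [Complex.norm_real, Real.norm_eq_abs, sq_abs]
    · intro a ha b hb hab
      simp only [Finset.coe_Icc, Set.mem_Icc] at ha hb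
      simp only at hab
      omega
  have h4 : (Γ.card : ℝ) * ν ^ 2 ≤ ∑ j ∈ Γ, ‖∑ n ∈ Icc 1 w, ((f (u + n - 1) : ℝ) : ℂ) *
      Pool.Agent.H92.EH.e (n * (-j))‖ ^ 2 := by
    rw [← nsmul_eq_mul, ← Finset.sum_const]
    refine Finset.sum_le_sum fun β hβ => ?_
    rw [← Net_norm_eq]
    exact pow_le_pow_left₀ hν.le (h1 β hβ) 2
  rw [le_div_iff₀ (by positivity)]
  refine h4.trans (hls.trans ?_)
  exact mul_le_mul_of_nonneg_left h3 (by positivity)

theorem net (f : ℕ → ℝ) (u w : ℕ) (hw : 1 ≤ w) (ν S : ℝ) (hν : 0 < ν) (hS : ∑ k ∈ Ico u (u + w), f k ^ 2 ≤ S) :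
    ∃ Γ : Finset ℝ, (Γ.card : ℝ) ≤ 5 * w * S / ν ^ 2 ∧
      ∀ γ : ℝ, ν ≤ ‖∑ k ∈ Ico u (u + w), (f k : ℂ) * ee (-(k * γ))‖ → ∃ β ∈ Γ, nz (γ - β) ≤ 1 / w := by
  classical
  set Gd : Finset ℝ → Prop := fun Γ => (∀ β ∈ Γ, ν ≤ ‖Net_S f u w β‖) ∧
    ∀ β ∈ Γ, ∀ β' ∈ Γ, β ≠ β' → 1 / (w : ℝ) < nz (β - β') with hGd
  set P : ℕ → Prop := fun n => ∃ Γ : Finset ℝ, Gd Γ ∧ Γ.card = n with hP
  set B : ℕ := ⌊5 * w * S / ν ^ 2⌋₊ with hB
  have hPB : ∀ n, P n → n ≤ B := by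
    rintro n ⟨Γ, hΓ, rfl⟩
    exact Nat.le_floor (Net_card f u w hw ν S hν hS Γ hΓ.1 hΓ.2)
  have hP0 : P 0 := ⟨∅, ⟨by simp, by simp⟩, rfl⟩
  obtain ⟨Γ, hΓ, hcard⟩ := Nat.findGreatest_spec (P := P) (Nat.zero_le B) hP0
  refine ⟨Γ, Net_card f u w hw ν S hν hS Γ hΓ.1 hΓ.2, ?_⟩
  intro γ hγ
  by_contra hcon
  push Not at hcon
  have hw0 : (0 : ℝ) < 1 / w := by
    have : (0 : ℝ) < w := by exact_mod_cast hw
    positivity
  have hγΓ : γ ∉ Γ := by
    intro h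
    have h1 := hcon γ h
    rw [sub_self] at h1
    have h2 := nz_le_abs 0
    rw [abs_zero] at h2
    linarith
  have hnew : P (Γ.card + 1) := by
    refine ⟨insert γ Γ, ⟨?_, ?_⟩, Finset.card_insert_of_notMem hγΓ⟩
    · intro β hβ
      rw [Finset.mem_insert] at hβ
      rcases hβ with rfl | hβ
      · exact hγ
      · exact hΓ.1 β hβ
    · intro β hβ β' hβ' hne
      rw [Finset.mem_insert] at hβ hβ'
      rcases hβ with rfl | hβ
      · rcases hβ' with rfl | hβ'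
        · exact absurd rfl hne
        · exact hcon β' hβ'
      · rcases hβ' with rfl | hβ'
        · have h1 := hcon β hβ
          rw [← nz_neg, neg_sub] at h1
          exact h1
        · exact hΓ.2 β hβ β' hβ' hne
  have h1 := Nat.le_findGreatest (P := P) (hPB _ hnew) hnew
  rw [← hcard] at h1
  omega

end Pool.Agent.H53.MID
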