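import Pool.Agent.H53.MID.BaseA
import Pool.Agent.H53.MID.Net

/-!
# MID Base: the base relation

Proof.  `w = cw H P A L`; `w ≥ H/(2 P L^(A+5))`, `w ≥ w0 ≥ 1`.  For every cell `c` with `(c+1) w ≤ X` let `Γ c` be the net of `net` with `u = c w`, `ν = w/(16 L^A)`, `S = w L^4`:
`|Γ c| ≤ 5 · 256 L^(2A+4)`.  For `g : ℕ` let `B g` be the union of the `Γ c` over the `c` with `g ≤ c w P/H < g + 1`
(at most `H/(w P) + 1 ≤ 2 L^(A+5) + 1` values): `|B g| ≤ 1280 L^(2A+4) · 3 L^(A+5)`.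
For `i ∈ F0` and `p` in the set of `base_a`: `c` as there, `g = ⌊c w P/H⌋`: `i P/p ≤ c w P/H < (i+1) P/p`, so `|g - i P/p| ≤ 1`, `|g p - i P| ≤ p ≤ 2P`,
`g ≥ n/(2C) - 1 ≥ n/(3C)`, `g ≤ C n + 1 ≤ 3 C n`; some `β ∈ B g` has `nz (p α_i - β) ≤ 1/w`.
Let `N(g, β)` be the set of the `(i,p)` with the chosen `g(i,p) = g` and `nz (p α_i - β) ≤ 1/w`.  `∑_{g} ∑_{β ∈ B g} |N(g,β)| ≥ |F0| P/(4 L^(A+2))`.  For every `g` with
`B g ≠ ∅` let `β_g ∈ B g` maximise `|N(g, β)|`; then `∑_g |N(g, β_g)| ≥ |F0| P/(4 L^(A+2))/(3840 L^(3A+9))`.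
`R0 = {(i, p, g) : (i,p) ∈ N(g, β_g)}`, `G0` = the `g` that occur; `1/w ≤ 2 P L^(A+5)/H = η P`.  `|F0| ≥ n/L^A`; `15360 ≤ L^3`: `C0 = 5A + 14`.
-/

set_option autoImplicit false

namespace Pool.Agent.H53.MID

open Finset
open Pool.Agent.H91.PK (ee)
open Pool.Agent.H35.W (pb)

/-- pigeonhole: choose for each `g` the most popular value -/
private theorem Base_pigeon {T : Type*} [DecidableEq T] (T0 : Finset T) (g : T → ℕ) (b : T → ℝ) (B : ℕ → Finset ℝ) (K : ℝ)
    (hK : 0 < K) (hb : ∀ t ∈ T0, b t ∈ B (g t)) (hB : ∀ n, ((B n).card : ℝ) ≤ K) :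
    ∃ β : ℕ → ℝ, (T0.card : ℝ) / K ≤ ((T0.filter (fun t => b t = β (g t))).card : ℝ) := by
  classical
  have h1 : ∀ n : ℕ, ∃ y : ℝ, ((T0.filter (fun t => g t = n)).card : ℝ) / K ≤
      (((T0.filter (fun t => g t = n)).filter (fun t => b t = y)).card : ℝ) := by
    intro n
    by_cases hne : (T0.filter (fun t => g t = n)).Nonempty
    · obtain ⟨t, ht⟩ := hne
      rw [Finset.mem_filter] at ht
      have hBne : (B n).Nonempty := ⟨b t, by have := hb t ht.1; rwa [ht.2] at this⟩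
      have hmap : ∀ a ∈ T0.filter (fun t => g t = n), b a ∈ B n := by
        intro a ha
        rw [Finset.mem_filter] at ha
        have := hb a ha.1
        rwa [ha.2] at this
      have hle : (B n).card • (((T0.filter (fun t => g t = n)).card : ℝ) / K) ≤
          ((T0.filter (fun t => g t = n)).card : ℝ) := by
        rw [nsmul_eq_mul]
        calc ((B n).card : ℝ) * (((T0.filter (fun t => g t = n)).card : ℝ) / K)
            ≤ K * (((T0.filter (fun t => g t = n)).card : ℝ) / K) :=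
              mul_le_mul_of_nonneg_right (hB n) (by positivity)
          _ = _ := by field_simp
      obtain ⟨y, _, hy⟩ := Finset.exists_le_card_fiber_of_nsmul_le_card_of_maps_to hmap hBne hle
      exact ⟨y, hy⟩
    · rw [Finset.not_nonempty_iff_eq_empty] at hne
      refine ⟨0, ?_⟩
      rw [hne]
      simp
  choose β hβ using h1
  refine ⟨β, ?_⟩
  have e1 : (T0.card : ℝ) = ∑ n ∈ T0.image g, ((T0.filter (fun t => g t = n)).card : ℝ) := by
    rw [← Nat.cast_sum, ← Finset.card_eq_sum_card_image]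
  have e2 : ((T0.filter (fun t => b t = β (g t))).card : ℝ) =
      ∑ n ∈ T0.image g, (((T0.filter (fun t => g t = n)).filter (fun t => b t = β n)).card : ℝ) := by
    rw [← Nat.cast_sum]
    congr 1
    rw [Finset.card_eq_sum_card_fiberwise (f := g) (t := T0.image g)]
    · refine Finset.sum_congr rfl fun n _ => ?_
      congr 1
      ext t
      simp only [Finset.mem_filter]
      constructor
      · rintro ⟨⟨h1, h2⟩, h3⟩
        exact ⟨⟨h1, h3⟩, by rw [← h3]; exact h2⟩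
      · rintro ⟨⟨h1, h2⟩, h3⟩
        exact ⟨⟨h1, by rw [h2]; exact h3⟩, h2⟩
    · intro t ht
      rw [Finset.mem_coe, Finset.mem_filter] at ht
      exact Finset.mem_coe.2 (Finset.mem_image_of_mem g ht.1)
  rw [e1, e2, Finset.sum_div]
  exact Finset.sum_le_sum fun n _ => hβ n

theorem base (C : ℝ) (hC : 1 ≤ C) (A : ℕ) (L : ℝ) (n H P w0 X : ℕ) (f : ℕ → ℝ) (F0 : Finset ℕ) (α : ℕ → ℝ)
    (hL : 100 ≤ L) (hn : 100 * C ≤ n) (hw0 : 1 ≤ w0) (hP : 1 ≤ P) (hH : 2 * w0 * P * L ^ (A + 5) ≤ H)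
    (hf : SqB f w0 X L) (hX : 8 * C * n * H ≤ X) (hF : ∀ i ∈ F0, (n : ℝ) / C ≤ i ∧ (i : ℝ) ≤ C * n)
    (hcard : n / L ^ A ≤ (F0.card : ℝ)) (hbig : ∀ i ∈ F0, H / L ^ A ≤ ‖Bs (Fp f P) H i (α i)‖) :
    ∃ (G0 : Finset ℕ) (β : ℕ → ℝ) (R0 : Finset (ℕ × ℕ × ℕ)),
      Rel (3 * C) n P (2 * L ^ (A + 5) / H * P) F0 G0 α β R0 ∧ n * P / L ^ (5 * A + 14) ≤ (R0.card : ℝ) := by
  classical
  have hL0 : (0 : ℝ) < L := by linarith
  have hP1 : (1 : ℝ) ≤ P := by exact_mod_cast hP
  have hP0 : (0 : ℝ) < P := by linarith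
  have hC0 : 0 < C := by linarith
  have hLA : 0 < L ^ (A + 5) := by positivity
  have hLA1 : 1 ≤ L ^ (A + 5) := one_le_pow₀ (by linarith)
  have hw0' : (1 : ℝ) ≤ w0 := by exact_mod_cast hw0
  have hn0 : (0 : ℝ) < n := by linarith
  have hq : 2 * (w0 : ℝ) ≤ (H : ℝ) / (P * L ^ (A + 5)) := by
    rw [le_div_iff₀ (by positivity)]
    calc 2 * (w0 : ℝ) * (P * L ^ (A + 5)) = 2 * w0 * P * L ^ (A + 5) := by ring
      _ ≤ H := hH
  have hH0 : (0 : ℝ) < H := lt_of_lt_of_le (by positivity) hH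
  have hH0' : 0 < H := by exact_mod_cast hH0
  obtain ⟨w, hw⟩ : ∃ w, w = cw H P A L := ⟨_, rfl⟩
  have hwdef : w = ⌊(H : ℝ) / (P * L ^ (A + 5))⌋₊ := by rw [hw, cw]
  have hwge : (H : ℝ) / (P * L ^ (A + 5)) / 2 ≤ w := by
    have h := Nat.lt_floor_add_one ((H : ℝ) / (P * L ^ (A + 5)))
    rw [← hwdef] at h
    linarith
  have hwle : (w : ℝ) ≤ (H : ℝ) / (P * L ^ (A + 5)) := by
    rw [hwdef]
    exact Nat.floor_le (by positivity)
  have hww0 : w0 ≤ w := by
    rw [hwdef]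
    apply Nat.le_floor
    linarith
  have hw1 : 1 ≤ w := hw0.trans hww0
  have hwR : (1 : ℝ) ≤ w := by exact_mod_cast hw1
  have hwH : (w : ℝ) ≤ H := by
    refine hwle.trans (div_le_self hH0.le ?_)
    nlinarith
  have hwinv : 1 / (w : ℝ) ≤ 2 * L ^ (A + 5) / H * P := by
    rw [div_le_iff₀ (by linarith)]
    have h1 : 2 * L ^ (A + 5) / H * P * ((H : ℝ) / (P * L ^ (A + 5)) / 2) = 1 := by
      field_simp
    rw [← h1]
    exact mul_le_mul_of_nonneg_left hwge (by positivity)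
  -- the nets
  have hnet : ∀ c : ℕ, ∃ Γ : Finset ℝ, (Γ.card : ℝ) ≤ 1280 * L ^ (2 * A + 4) ∧
      (c * w + w ≤ X → ∀ γ : ℝ, (w : ℝ) / (16 * L ^ A) ≤
        ‖∑ k ∈ Ico (c * w) (c * w + w), (f k : ℂ) * ee (-(k * γ))‖ → ∃ β ∈ Γ, nz (γ - β) ≤ 1 / w) := by
    intro c
    by_cases h : c * w + w ≤ X
    · obtain ⟨Γ, h1, h2⟩ := net f (c * w) w hw1 (w / (16 * L ^ A)) (w * L ^ 4) (by positivity) (hf _ _ hww0 h)
      refine ⟨Γ, h1.trans (le_of_eq ?_), fun _ => h2⟩
      have hw' : (w : ℝ) ≠ 0 := by linarith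
      rw [div_pow, div_div_eq_mul_div, div_eq_iff (by positivity)]
      ring
    · exact ⟨∅, by simp; positivity, fun h' => absurd h' h⟩
  choose Γ hΓ1 hΓ2 using hnet
  let S : ℕ → Finset ℕ := fun g => (range ((g + 1) * H)).filter
    (fun c => g * H ≤ c * w * P ∧ c * w * P < (g + 1) * H)
  let B : ℕ → Finset ℝ := fun g => (S g).biUnion Γ
  have hM : (0 : ℝ) < w * P := by positivity
  have hScard : ∀ g, ((S g).card : ℝ) ≤ 3 * L ^ (A + 5) := by
    intro g
    have hsub : S g ⊆ Ico ⌈(g : ℝ) * H / (w * P)⌉₊ ⌈((g : ℝ) + 1) * H / (w * P)⌉₊ := by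
      intro c hc
      simp only [S, Finset.mem_filter] at hc
      obtain ⟨_, h1, h2⟩ := hc
      rw [Finset.mem_Ico, Nat.ceil_le, Nat.lt_ceil]
      have h1' : (g : ℝ) * H ≤ c * w * P := by exact_mod_cast h1
      have h2' : (c : ℝ) * w * P < (g + 1) * H := by exact_mod_cast h2
      constructor
      · rw [div_le_iff₀ hM]
        linarith
      · rw [lt_div_iff₀ hM]
        linarith
    have h3 := Finset.card_le_card hsub
    rw [Nat.card_Ico] at h3
    have h4 : ⌈(g : ℝ) * H / (w * P)⌉₊ ≤ ⌈((g : ℝ) + 1) * H / (w * P)⌉₊ := by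
      apply Nat.ceil_mono
      apply div_le_div_of_nonneg_right _ hM.le
      nlinarith
    have h5 : ((S g).card : ℝ) ≤ (⌈((g : ℝ) + 1) * H / (w * P)⌉₊ : ℝ) - ⌈(g : ℝ) * H / (w * P)⌉₊ := by
      rw [← Nat.cast_sub h4]
      exact_mod_cast h3
    have h6 : (⌈((g : ℝ) + 1) * H / (w * P)⌉₊ : ℝ) < ((g : ℝ) + 1) * H / (w * P) + 1 :=
      Nat.ceil_lt_add_one (by positivity)
    have h7 : (g : ℝ) * H / (w * P) ≤ ⌈(g : ℝ) * H / (w * P)⌉₊ := Nat.le_ceil _
    have h8 : ((g : ℝ) + 1) * H / (w * P) = (g : ℝ) * H / (w * P) + H / (w * P) := by ring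
    have h9 : (H : ℝ) / (w * P) ≤ 2 * L ^ (A + 5) := by
      rw [div_le_iff₀ hM]
      have h10 : 2 * L ^ (A + 5) * (((H : ℝ) / (P * L ^ (A + 5)) / 2) * P) = H := by
        field_simp
      rw [← h10]
      apply mul_le_mul_of_nonneg_left _ (by positivity)
      exact mul_le_mul_of_nonneg_right hwge hP0.le
    linarith
  have hBcard : ∀ g, ((B g).card : ℝ) ≤ 3840 * L ^ (3 * A + 9) := by
    intro g
    have h1 : ((B g).card : ℝ) ≤ ∑ c ∈ S g, ((Γ c).card : ℝ) := by
      exact_mod_cast Finset.card_biUnion_le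
    refine h1.trans ?_
    calc ∑ c ∈ S g, ((Γ c).card : ℝ) ≤ ∑ _c ∈ S g, 1280 * L ^ (2 * A + 4) := Finset.sum_le_sum fun c _ => hΓ1 c
      _ = (S g).card * (1280 * L ^ (2 * A + 4)) := by rw [Finset.sum_const, nsmul_eq_mul]
      _ ≤ (3 * L ^ (A + 5)) * (1280 * L ^ (2 * A + 4)) := mul_le_mul_of_nonneg_right (hScard g) (by positivity)
      _ = 3840 * L ^ (3 * A + 9) := by ring
  -- the pairs
  let Q : ℕ → ℕ → Prop := fun i p => ∃ c : ℕ, i * H ≤ c * w * p ∧ c * w * p < (i + 1) * H ∧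
    (w : ℝ) / (16 * L ^ A) ≤ ‖∑ k ∈ Ico (c * w) (c * w + w), (f k : ℂ) * ee (-(k * (p * α i)))‖
  let T0 : Finset (ℕ × ℕ) := (F0 ×ˢ pb P).filter (fun t => Q t.1 t.2)
  have hipos : ∀ i ∈ F0, (100 : ℝ) ≤ i := by
    intro i hi
    have h1 := (hF i hi).1
    have h2 : 100 ≤ (n : ℝ) / C := by
      rw [le_div_iff₀ hC0]
      exact hn
    linarith
  have hT0card : (F0.card : ℝ) * (P / (4 * L ^ (A + 2))) ≤ T0.card := by
    have h1 : (T0.card : ℝ) = ∑ i ∈ F0, (((pb P).filter (fun p => Q i p)).card : ℝ) := by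
      simp only [T0]
      rw [Finset.card_filter, Finset.sum_product, Nat.cast_sum]
      refine Finset.sum_congr rfl fun i _ => ?_
      rw [Finset.card_filter]
    rw [h1, ← nsmul_eq_mul, ← Finset.sum_const]
    refine Finset.sum_le_sum fun i hi => ?_
    have h2 : 4 * (i + 1) * H ≤ X := by
      have h3 := hipos i hi
      have h4 := (hF i hi).2
      have h5 : (4 : ℝ) * (i + 1) * H ≤ X := by
        refine le_trans ?_ hX
        have h6 : 4 * ((i : ℝ) + 1) ≤ 8 * C * n := by linarith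
        exact mul_le_mul_of_nonneg_right h6 hH0.le
      exact_mod_cast h5
    have h3 := base_a L A H P w0 X i f (α i) hL hw0 hP hH hf h2 (hbig i hi)
    rw [← hw] at h3
    convert h3
  have key : ∀ t ∈ T0, ∃ (g : ℕ) (b : ℝ), b ∈ B g ∧ |(g : ℝ) * t.2 - t.1 * P| ≤ 3 * C * P ∧
      nz (t.2 * α t.1 - b) ≤ 1 / w ∧ (n : ℝ) / (3 * C) ≤ g ∧ (g : ℝ) ≤ 3 * C * n := by
    rintro ⟨i, p⟩ ht
    simp only [T0, Finset.mem_filter, Finset.mem_product] at ht
    obtain ⟨⟨hi, hp⟩, c, hc1, hc2, hc3⟩ := ht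
    simp only
    have hp' : P < p ∧ p ≤ 2 * P := by
      unfold pb at hp
      rw [Finset.mem_filter, Finset.mem_Ioc] at hp
      exact hp.1
    have hpP : (P : ℝ) < p := by exact_mod_cast hp'.1
    have hp2 : (p : ℝ) ≤ 2 * P := by exact_mod_cast hp'.2
    have hp0 : (0 : ℝ) < p := by linarith
    obtain ⟨g, hg⟩ : ∃ g, g = c * w * P / H := ⟨_, rfl⟩
    have hg1 : g * H ≤ c * w * P := by
      rw [hg]
      exact Nat.div_mul_le_self _ _
    have hg2 : c * w * P < (g + 1) * H := by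
      rw [hg, mul_comm _ H]
      exact Nat.lt_mul_div_succ _ hH0'
    have hcS : c ∈ S g := by
      simp only [S, Finset.mem_filter, Finset.mem_range]
      refine ⟨lt_of_le_of_lt ?_ hg2, hg1, hg2⟩
      calc c = c * 1 * 1 := by ring
        _ ≤ c * w * P := Nat.mul_le_mul (Nat.mul_le_mul_left _ hw1) hP
    have hi1 := hipos i hi
    have hi2 := (hF i hi).1
    have hi3 := (hF i hi).2
    have hc1' : (i : ℝ) * H ≤ c * w * p := by exact_mod_cast hc1
    have hc2' : (c : ℝ) * w * p < (i + 1) * H := by exact_mod_cast hc2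
    have hg1' : (g : ℝ) * H ≤ c * w * P := by exact_mod_cast hg1
    have hg2' : (c : ℝ) * w * P < (g + 1) * H := by exact_mod_cast hg2
    have hcX : c * w + w ≤ X := by
      have h1 : (c : ℝ) * w ≤ c * w * p := by
        have : (0 : ℝ) ≤ (c : ℝ) * w := by positivity
        nlinarith
      have h2 : (c : ℝ) * w + w ≤ X := by
        have h3 : ((i : ℝ) + 2) * H ≤ 8 * C * n * H := by
          apply mul_le_mul_of_nonneg_right _ hH0.le
          linarith
        linarith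
      exact_mod_cast h2
    obtain ⟨b, hb1, hb2⟩ := hΓ2 c hcX _ hc3
    have k1 : (g : ℝ) * p < (i + 1) * P := by
      have h1 : (g : ℝ) * p * H < (i + 1) * P * H := by
        calc (g : ℝ) * p * H = (g * H) * p := by ring
          _ ≤ (c * w * P) * p := mul_le_mul_of_nonneg_right hg1' hp0.le
          _ = (c * w * p) * P := by ring
          _ < ((i + 1) * H) * P := mul_lt_mul_of_pos_right hc2' hP0
          _ = (i + 1) * P * H := by ring
      exact lt_of_mul_lt_mul_right h1 hH0.le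
    have k2 : (i : ℝ) * P < (g + 1) * p := by
      have h1 : (i : ℝ) * P * H < (g + 1) * p * H := by
        calc (i : ℝ) * P * H = (i * H) * P := by ring
          _ ≤ (c * w * p) * P := mul_le_mul_of_nonneg_right hc1' hP0.le
          _ = (c * w * P) * p := by ring
          _ < ((g + 1) * H) * p := mul_lt_mul_of_pos_right hg2' hp0
          _ = (g + 1) * p * H := by ring
      exact lt_of_mul_lt_mul_right h1 hH0.le
    refine ⟨g, b, Finset.mem_biUnion.2 ⟨c, hcS, hb1⟩, ?_, hb2, ?_, ?_⟩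
    · rw [abs_le]
      have h3C : 3 * (P : ℝ) ≤ 3 * C * P := by nlinarith
      constructor
      · linarith
      · linarith
    · have h1 : (i : ℝ) < 2 * (g + 1) := by
        have h2 : (i : ℝ) * P < 2 * (g + 1) * P := by
          have h3 : ((g : ℝ) + 1) * p ≤ (g + 1) * (2 * P) := mul_le_mul_of_nonneg_left hp2 (by positivity)
          linarith
        exact lt_of_mul_lt_mul_right h2 hP0.le
      have h2 : (n : ℝ) / (3 * C) + 1 ≤ (n : ℝ) / C / 2 := by
        have h3 : 100 ≤ (n : ℝ) / C := by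
          rw [le_div_iff₀ hC0]
          exact hn
        have h4 : (n : ℝ) / (3 * C) = n / C / 3 := by
          field_simp
        rw [h4]
        linarith
      linarith
    · have h1 : (g : ℝ) < i + 1 := by
        have h2 : (g : ℝ) * P < (i + 1) * P := by
          have h3 : (g : ℝ) * P ≤ g * p := mul_le_mul_of_nonneg_left hpP.le (by positivity)
          linarith
        exact lt_of_mul_lt_mul_right h2 hP0.le
      linarith
  choose! g b hgb using key
  obtain ⟨β, hβ⟩ := Base_pigeon T0 g b B (3840 * L ^ (3 * A + 9)) (by positivity) (fun t ht => (hgb t ht).1) hBcard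
  have hmem : ∀ s ∈ (T0.filter (fun t => b t = β (g t))).image (fun t => (t.1, t.2, g t)),
      ∃ t ∈ T0, b t = β (g t) ∧ s = (t.1, t.2, g t) := by
    intro s hs
    rw [Finset.mem_image] at hs
    obtain ⟨t, ht, rfl⟩ := hs
    rw [Finset.mem_filter] at ht
    exact ⟨t, ht.1, ht.2, rfl⟩
  have hT0mem : ∀ t ∈ T0, t.1 ∈ F0 ∧ t.2 ∈ pb P := by
    intro t ht
    simp only [T0, Finset.mem_filter, Finset.mem_product] at ht
    exact ht.1
  refine ⟨T0.image g, β, (T0.filter (fun t => b t = β (g t))).image (fun t => (t.1, t.2, g t)), ?_, ?_⟩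
  · constructor
    · intro s hs
      obtain ⟨t, ht, _, rfl⟩ := hmem s hs
      exact (hT0mem t ht).1
    · intro s hs
      obtain ⟨t, ht, _, rfl⟩ := hmem s hs
      exact Finset.mem_image_of_mem g ht
    · intro s hs
      obtain ⟨t, ht, _, rfl⟩ := hmem s hs
      have h1 := (hT0mem t ht).2
      unfold pb at h1
      rw [Finset.mem_filter, Finset.mem_Ioc] at h1
      exact ⟨h1.2, h1.1⟩
    · intro s hs
      obtain ⟨t, ht, _, rfl⟩ := hmem s hs
      exact (hgb t ht).2.1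
    · intro s hs
      obtain ⟨t, ht, hbt, rfl⟩ := hmem s hs
      have h1 := (hgb t ht).2.2.1
      rw [hbt] at h1
      exact h1.trans hwinv
    · intro K hK
      obtain ⟨h1, h2⟩ := hF K hK
      constructor
      · refine le_trans ?_ h1
        apply div_le_div_of_nonneg_left hn0.le hC0
        linarith
      · nlinarith
    · intro K hK
      rw [Finset.mem_image] at hK
      obtain ⟨t, ht, rfl⟩ := hK
      exact (hgb t ht).2.2.2
  · rw [Finset.card_image_of_injective]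
    · refine le_trans ?_ hβ
      have h1 : (n : ℝ) / L ^ A * (P / (4 * L ^ (A + 2))) ≤ T0.card :=
        le_trans (mul_le_mul_of_nonneg_right hcard (by positivity)) hT0card
      refine le_trans ?_ (div_le_div_of_nonneg_right h1 (by positivity))
      have h2 : (n : ℝ) / L ^ A * (P / (4 * L ^ (A + 2))) / (3840 * L ^ (3 * A + 9)) =
          n * P / (15360 * L ^ (5 * A + 11)) := by
        rw [div_mul_div_comm, div_div]
        congr 1
        ring
      rw [h2]
      apply div_le_div_of_nonneg_left (by positivity) (by positivity)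
      have h3 : (15360 : ℝ) ≤ L ^ 3 := by
        calc (15360 : ℝ) ≤ 100 ^ 3 := by norm_num
          _ ≤ L ^ 3 := pow_le_pow_left₀ (by norm_num) hL 3
      calc (15360 : ℝ) * L ^ (5 * A + 11) ≤ L ^ 3 * L ^ (5 * A + 11) :=
            mul_le_mul_of_nonneg_right h3 (by positivity)
        _ = L ^ (5 * A + 14) := by ring
    · rintro ⟨a1, a2⟩ ⟨b1, b2⟩ hab
      simp only [Prod.mk.injEq] at hab
      exact Prod.ext hab.1 hab.2.1

end Pool.Agent.H53.MID
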