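import Pool.Agent.H53.MID.Nz
import Pool.Agent.H35.W.Defs
import Pool.Agent.H91.EHA.Defs

/-!
# MID Defs: analytic definitions

`ee t = exp(2 π i t)` (`Pool.Agent.H91.PK.ee`; `LSa_ee_add`, `LSa_norm_ee`, `LSa_conj_ee` in `H91/PK/LSa.lean`), `pb P` = primes in
`(P, 2P]`, `pbl P d l` = those in the class `l` mod `d` (`H35/W/Defs.lean`), `Lam`, `lamR`, `hR = Lam - lamR` (`H91/EHA/Defs.lean`).

* `Fp f P m = ∑_{p ∈ pb P, p ∣ m} f(m/p)`;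
* `Bs g H i α = ∑_{m ∈ [iH, (i+1)H)} g(m) ee(-m α)` (blocks);
* `SqB f w0 X L`: the second moment of `f` on every interval of length `w ≥ w0` inside `[0, X)` is at most `w L^4`;
* `Dw c X θ u = ∑_{m ≤ X, u < log m ≤ u + θ} c m` (multiplicative windows), `Cs c X t = ∑_{m ≤ X} c m ee(-t log m)`;
* `cut K1 K2 f k = f k` for `K1 < k ≤ K2`, `0` otherwise;
* `cc f P a T m = Fp f P m · ee(-m a) · ee(-T log m)`.
-/

set_option autoImplicit false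

namespace Pool.Agent.H53.MID

open Finset MeasureTheory
open Pool.Agent.H91.PK (ee)
open Pool.Agent.H91.EHA (Lam hR lamR ramS)
open Pool.Agent.H35.W (pb pbl)

/-- `∑_{p ∈ pb P, p ∣ m} f(m/p)` -/
noncomputable def Fp (f : ℕ → ℝ) (P m : ℕ) : ℝ := ∑ p ∈ (pb P).filter (fun p => p ∣ m), f (m / p)

/-- the exponential sum over the block `[iH, (i+1)H)` -/
noncomputable def Bs (g : ℕ → ℝ) (H i : ℕ) (α : ℝ) : ℂ :=
  ∑ m ∈ Ico (i * H) ((i + 1) * H), (g m : ℂ) * ee (-(m * α))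

/-- second moment bound on short intervals -/
def SqB (f : ℕ → ℝ) (w0 X : ℕ) (L : ℝ) : Prop :=
  ∀ u w : ℕ, w0 ≤ w → u + w ≤ X → ∑ k ∈ Ico u (u + w), f k ^ 2 ≤ w * L ^ 4

/-- the sum over the multiplicative window `(e^u, e^(u+θ)]` -/
noncomputable def Dw (c : ℕ → ℂ) (X : ℕ) (θ u : ℝ) : ℂ :=
  ∑ m ∈ (Icc 1 X).filter (fun m : ℕ => u < Real.log m ∧ Real.log m ≤ u + θ), c m

/-- the Dirichlet polynomial -/
noncomputable def Cs (c : ℕ → ℂ) (X : ℕ) (t : ℝ) : ℂ := ∑ m ∈ Icc 1 X, c m * ee (-(t * Real.log m))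

/-- restriction to `(K1, K2]` -/
noncomputable def cut (K1 K2 : ℕ) (f : ℕ → ℝ) (k : ℕ) : ℝ := if k ∈ Ioc K1 K2 then f k else 0

/-- the twisted coefficients -/
noncomputable def cc (f : ℕ → ℝ) (P : ℕ) (a T : ℝ) (m : ℕ) : ℂ :=
  (Fp f P m : ℂ) * ee (-(m * a)) * ee (-(T * Real.log m))

/-- Vinogradov-Korobov (`Pool.Agent.H97.VK.vk_class`), used as a hypothesis -/
def VKp : Prop := ∀ (K B : ℕ) (e0 : ℝ), 0 < e0 → ∃ K' x0 : ℕ, ∀ x : ℕ, x0 ≤ x →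
  ∀ (d u z : ℕ) (t : ℝ), 1 ≤ d → (d : ℝ) ≤ Real.log x ^ B → (x : ℝ) ^ e0 ≤ z → z ≤ x ^ 2 →
    Real.log x ^ K' ≤ |t| → |t| ≤ (x : ℝ) ^ (2 : ℕ) →
    ‖∑ n ∈ (Icc 1 z).filter (fun n => n % d = u % d), ((Lam n : ℝ) : ℂ) * ee (t * Real.log n)‖
      ≤ z / Real.log x ^ K

/-- Siegel-Walfisz for `hR R` with independent parameters, used as a hypothesis -/
def SWp : Prop := ∀ (B m k : ℕ) (e0 : ℝ), 0 < e0 → ∃ N0 : ℕ, ∀ N : ℕ, N0 ≤ N → ∀ (R c b K1 K2 : ℕ) (t : ℝ),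
  (R : ℝ) ≤ Real.log N ^ B → 1 ≤ c → c ≤ R → Nat.Coprime b c → (N : ℝ) ^ e0 ≤ K2 → K2 ≤ N → |t| ≤ Real.log N ^ m →
    ‖∑ n ∈ Ioc K1 K2, ((hR R n : ℝ) : ℂ) * ee (-((n : ℝ) * b / c)) * ee (-(t * Real.log n))‖
      ≤ K2 / Real.log N ^ k

end Pool.Agent.H53.MID
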