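import Pool.Agent.H53.MID.GDefs
import Pool.Agent.H76.EHB.HRe
import Pool.Agent.H76.SP.LamD
import Pool.Agent.H92.EH.Dual
import Pool.Agent.H92.EH.Farey

/-!
# MID OmW: `Fp (lamR R) P - W2 P lamR R` has small exponential sums

Proof.  `R < P`: `lamR R (m/p) = lamR R m` for `p ∈ pb P`, `p ∣ m` (`Pool.Agent.H76.SP.lamR_mul`), so `Fp (lamR R) P m - W2 P lamR R m = lamR R m ∑_{p ∈ pb P} (1[p ∣ m] - 1/p)`.
`lamR R m = ∑_{q ≤ R} μ(q)/φ(q) ∑_{b ∈ red q} ee(m b/q)` for `m ≥ 1` (`Pool.Agent.H76.EHB.lamR_eq`), so it is enough to show for every real `β`: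
`∑_{p ∈ pb P} ‖∑_{m ∈ I} (1[p ∣ m] - 1/p) ee(m β)‖ ≤ 60 H/P` (the number of the pairs `(q, b)` weighted by `1/φ(q)` is `R`).
`1[p ∣ m] - 1/p = (1/p) ∑_{c=1}^{p-1} ee(m c/p)`, so the left side is `≤ (1/P) ∑_{p ∈ pb P} ∑_{c=1}^{p-1} |∑_{m ∈ I} ee(m (β + c/p))| ≤ (1/P) ∑_{p,c} min(H, 1/(2 nz(β + c/p)))`.
The points `c/p` (`1 ≤ c < p`, `p ∈ pb P`) are distinct modulo 1 with mutual distances `≥ 1/(4P^2)`; ordering them by `nz(β + c/p)` (two sides): at most 2 points have `nz < 1/(8P^2)`·.., generally at most `2(k+1)` points have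
`nz(β + c/p) ≤ k/(8P^2)`; so the sum is `≤ 2 H + ∑_{k=1}^{8P^2} 2 · 8P^2/(2k)·2 ≤ 2H + 16 P^2 (1 + log(8P^2))`, and `16 P^2 (1 + log (8 P^2)) ≤ 58 P^3 ≤ 58 H` or better.  (`P^3 ≤ H`.)
-/

set_option autoImplicit false

namespace Pool.Agent.H53.MID

open Finset
open Pool.Agent.H91.PK (ee)
open Pool.Agent.H91.EHA (Lam hR lamR ramS)
open Pool.Agent.H35.W (pb)
open Pool.Agent.H92.EH (red D)

private theorem OmW_e (t : ℝ) : Pool.Agent.H92.EH.e t = ee t := by
  unfold Pool.Agent.H91.PK.ee Pool.Agent.H92.EH.e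
  congr 1
  push_cast
  ring

/-- the exponential sum over well spaced points -/
private theorem OmW_pts {ι : Type*} [DecidableEq ι] (S : Finset ι) (β : ι → ℝ) (M H : ℕ) (hM : 0 < M)
    (hsp : ∀ i ∈ S, ∀ j ∈ S, i ≠ j → ∀ m : ℤ, (1 : ℝ) / M ≤ |β i - β j - m|) (T : ℝ) (hT : 0 ≤ T)
    (hT2 : (S.card : ℝ) * (4 * (M : ℝ) ^ 2) ≤ T ^ 2) :
    ∑ j ∈ S, ‖D H (β j)‖ ≤ H + T := by
  classical
  have hM0 : (0 : ℝ) < M := by exact_mod_cast hM
  have hM2 : (1 : ℝ) / ((2 * M : ℕ) : ℝ) = 1 / M / 2 := by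
    push_cast
    field_simp
  rw [← Finset.sum_filter_add_sum_filter_not S (fun j => ∃ m : ℤ, |β j - m| < (1 : ℝ) / ((2 * M : ℕ) : ℝ))]
  refine add_le_add ?_ ?_
  · have hcard : (S.filter (fun j => ∃ m : ℤ, |β j - m| < (1 : ℝ) / ((2 * M : ℕ) : ℝ))).card ≤ 1 := by
      rw [Finset.card_le_one]
      intro i hi j hj
      by_contra hne
      rw [Finset.mem_filter] at hi hj
      obtain ⟨hi, m, hm⟩ := hi
      obtain ⟨hj, m', hm'⟩ := hj
      have h1 := hsp i hi j hj hne (m - m')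
      have h2 : β i - β j - ((m - m' : ℤ) : ℝ) = (β i - m) - (β j - m') := by
        push_cast
        ring
      rw [h2] at h1
      have h3 := abs_sub (β i - m) (β j - m')
      rw [hM2] at hm hm'
      linarith
    calc ∑ j ∈ S.filter (fun j => ∃ m : ℤ, |β j - m| < (1 : ℝ) / ((2 * M : ℕ) : ℝ)), ‖D H (β j)‖
        ≤ ∑ _j ∈ S.filter (fun j => ∃ m : ℤ, |β j - m| < (1 : ℝ) / ((2 * M : ℕ) : ℝ)), (H : ℝ) :=
          Finset.sum_le_sum fun j _ => Pool.Agent.H92.EH.norm_D_le_nat H (β j)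
      _ = ((S.filter (fun j => ∃ m : ℤ, |β j - m| < (1 : ℝ) / ((2 * M : ℕ) : ℝ))).card : ℝ) * H := by
          rw [Finset.sum_const, nsmul_eq_mul]
      _ ≤ 1 * H := by
          refine mul_le_mul_of_nonneg_right ?_ (by positivity)
          exact_mod_cast hcard
      _ = H := one_mul _
  · set S' := S.filter (fun j => ¬ ∃ m : ℤ, |β j - m| < (1 : ℝ) / ((2 * M : ℕ) : ℝ)) with hS'
    have hS'mem : ∀ j ∈ S', j ∈ S ∧ ∀ m : ℤ, (1 : ℝ) / ((2 * M : ℕ) : ℝ) ≤ |β j - m| := by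
      intro j hj
      rw [hS', Finset.mem_filter] at hj
      refine ⟨hj.1, fun m => ?_⟩
      by_contra hcon
      push Not at hcon
      exact hj.2 ⟨m, hcon⟩
    have hhalf : (1 : ℝ) / ((2 * M : ℕ) : ℝ) ≤ 1 / M := by
      rw [hM2]
      have : (0 : ℝ) < 1 / M := by positivity
      linarith
    have h1 := Pool.Agent.H92.EH.row_aux (S'.filter (fun j => Int.fract (β j) ≤ 1 / 2)) β (2 * M) (by omega)
      (fun j hj => (hS'mem j (Finset.mem_filter.1 hj).1).2)
      (fun i hi j hj hne m => hhalf.trans (hsp i (hS'mem i (Finset.mem_filter.1 hi).1).1 j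
        (hS'mem j (Finset.mem_filter.1 hj).1).1 hne m))
      (fun j hj => (Finset.mem_filter.1 hj).2) H
    have h2 := Pool.Agent.H92.EH.row_aux (S'.filter (fun j => ¬ Int.fract (β j) ≤ 1 / 2)) (fun j => -β j) (2 * M)
      (by omega)
      (fun j hj m => by
        have := (hS'mem j (Finset.mem_filter.1 hj).1).2 (-m)
        rw [← abs_neg]
        convert this using 2
        push_cast
        ring)
      (fun i hi j hj hne m => by
        have h9 := hhalf.trans (hsp i (hS'mem i (Finset.mem_filter.1 hi).1).1 j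
          (hS'mem j (Finset.mem_filter.1 hj).1).1 hne (-m))
        have h8 : β i - β j - ((-m : ℤ) : ℝ) = -(-β i - -β j - m) := by
          push_cast
          ring
        rw [h8, abs_neg] at h9
        exact h9)
      (fun j hj => by
        have h3 := (Finset.mem_filter.1 hj).2
        push Not at h3
        have h4 : Int.fract (β j) ≠ 0 := by
          intro h5
          rw [h5] at h3
          norm_num at h3
        rw [Int.fract_neg h4]
        linarith) H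
    simp_rw [Pool.Agent.H92.EH.norm_D_neg] at h2
    have h3 : ∑ j ∈ S', ‖D H (β j)‖ ^ 2 ≤ 4 * (M : ℝ) ^ 2 := by
      rw [← Finset.sum_filter_add_sum_filter_not S' (fun j => Int.fract (β j) ≤ 1 / 2)]
      refine (add_le_add h1 h2).trans (le_of_eq ?_)
      push_cast
      ring
    have h4 : (∑ j ∈ S', ‖D H (β j)‖) ^ 2 ≤ T ^ 2 := by
      refine (sq_sum_le_card_mul_sum_sq).trans (le_trans ?_ hT2)
      refine mul_le_mul ?_ h3 (Finset.sum_nonneg fun _ _ => by positivity) (by positivity)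
      exact_mod_cast Finset.card_filter_le _ _
    exact (sq_le_sq₀ (Finset.sum_nonneg fun _ _ => norm_nonneg _) hT).1 h4

/-- detection of the multiples of `p` -/
private theorem OmW_det (p m : ℕ) (hp : 1 ≤ p) :
    ((((if p ∣ m then (1 : ℝ) else 0) - 1 / p : ℝ)) : ℂ) = (1 / p : ℂ) * ∑ k ∈ Ico 1 p, ee (m * ((k : ℝ) / p)) := by
  have hp0 : (p : ℂ) ≠ 0 := by
    have : p ≠ 0 := by omega
    exact_mod_cast this
  have hpr : (0 : ℝ) < p := by exact_mod_cast hp
  have h1 : ∑ k ∈ range p, ee (m * ((k : ℝ) / p)) = if p ∣ m then (p : ℂ) else 0 := by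
    by_cases h : p ∣ m
    · rw [if_pos h]
      obtain ⟨q, rfl⟩ := h
      have h2 : ∀ k ∈ range p, ee (((p * q : ℕ) : ℝ) * ((k : ℝ) / p)) = 1 := by
        intro k _
        have h3 : ((p * q : ℕ) : ℝ) * ((k : ℝ) / p) = (((q * k : ℕ) : ℤ) : ℝ) := by
          push_cast
          field_simp
        rw [h3, Pool.Agent.H76.EHB.ee_int]
      rw [Finset.sum_congr rfl h2]
      simp
    · rw [if_neg h]
      have h2 : ∑ k ∈ range p, ee (m * ((k : ℝ) / p)) = D p ((m : ℝ) / p) := by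
        unfold Pool.Agent.H92.EH.D
        refine Finset.sum_congr rfl fun k _ => ?_
        rw [OmW_e]
        congr 1
        ring
      rw [h2]
      have h3 : D p ((m : ℝ) / p) * (Pool.Agent.H92.EH.e ((m : ℝ) / p) - 1) =
          Pool.Agent.H92.EH.e ((m : ℝ) / p) ^ p - 1 := by
        unfold Pool.Agent.H92.EH.D
        rw [← geom_sum_mul]
        congr 1
        refine sum_congr rfl fun m _ => ?_
        rw [Pool.Agent.H92.EH.e_nat_mul]
      have h4 : Pool.Agent.H92.EH.e ((m : ℝ) / p) ^ p = 1 := by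
        rw [← Pool.Agent.H92.EH.e_nat_mul]
        have : (p : ℝ) * ((m : ℝ) / p) = m := by field_simp
        rw [this, Pool.Agent.H92.EH.e_nat]
      rw [h4, sub_self] at h3
      rcases mul_eq_zero.1 h3 with h5 | h5
      · exact h5
      · exfalso
        have h6 : ∀ j : ℤ, 1 / (p : ℝ) ≤ |(m : ℝ) / p - j| := by
          intro j
          have h7 : (m : ℝ) / p - j = (((m : ℤ) - p * j : ℤ) : ℝ) / p := by
            push_cast
            field_simp
          rw [h7, abs_div, abs_of_pos hpr]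
          apply div_le_div_of_nonneg_right _ hpr.le
          have h8 : (m : ℤ) - p * j ≠ 0 := by
            intro h9
            apply h
            have h10 : (p : ℤ) ∣ m := ⟨j, by linarith⟩
            exact_mod_cast h10
          have h9 := Int.one_le_abs h8
          exact_mod_cast h9
        have h7 := Pool.Agent.H92.EH.le_norm_e_sub_one h6
        rw [h5, norm_zero] at h7
        have : (0 : ℝ) < 1 / p := by positivity
        linarith
  have h2 : ∑ k ∈ range p, ee (m * ((k : ℝ) / p)) = 1 + ∑ k ∈ Ico 1 p, ee (m * ((k : ℝ) / p)) := by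
    rw [Finset.range_eq_Ico, Finset.sum_eq_sum_Ico_succ_bot (by omega : 0 < p)]
    congr 1
    simp [Pool.Agent.H91.PK.ee]
  rw [h1] at h2
  have h3 : ∑ k ∈ Ico 1 p, ee (m * ((k : ℝ) / p)) = (if p ∣ m then (p : ℂ) else 0) - 1 := by
    rw [h2]
    ring
  rw [h3]
  by_cases h : p ∣ m
  · rw [if_pos h, if_pos h]
    push_cast
    field_simp
  · rw [if_neg h, if_neg h]
    push_cast
    ring

private theorem OmW_shift (a H : ℕ) (γ : ℝ) : ‖∑ m ∈ Ico a (a + H), ee (m * γ)‖ = ‖D H γ‖ := by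
  have h : ∑ m ∈ Ico a (a + H), ee (m * γ) = ee (a * γ) * D H γ := by
    rw [Finset.sum_Ico_eq_sum_range]
    have h1 : a + H - a = H := by omega
    rw [h1]
    unfold Pool.Agent.H92.EH.D
    rw [Finset.mul_sum]
    refine Finset.sum_congr rfl fun i _ => ?_
    rw [OmW_e, ← Pool.Agent.H91.PK.LSa_ee_add]
    congr 1
    push_cast
    ring
  rw [h, norm_mul, Pool.Agent.H91.PK.LSa_norm_ee, one_mul]

private theorem OmW_T (P H a : ℕ) (hP : 2 ≤ P) (hH : P ^ 3 ≤ H) (β : ℝ) :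
    ∑ p ∈ pb P, ‖∑ m ∈ Ico a (a + H), ((((if p ∣ m then (1 : ℝ) else 0) - 1 / p : ℝ)) : ℂ) * ee (m * β)‖
      ≤ 13 * H / P := by
  have hP0 : (0 : ℝ) < P := by
    have : 0 < P := by omega
    exact_mod_cast this
  have hpb : ∀ p ∈ pb P, p.Prime ∧ P < p ∧ p ≤ 2 * P := by
    intro p hp
    unfold pb at hp
    rw [Finset.mem_filter, Finset.mem_Ioc] at hp
    exact ⟨hp.2, hp.1⟩
  have h1 : ∀ p ∈ pb P, ‖∑ m ∈ Ico a (a + H), ((((if p ∣ m then (1 : ℝ) else 0) - 1 / p : ℝ)) : ℂ) * ee (m * β)‖ ≤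
      1 / P * ∑ k ∈ Ico 1 p, ‖D H (β + (k : ℝ) / p)‖ := by
    intro p hp
    obtain ⟨hp1, hp2, hp3⟩ := hpb p hp
    have hp0 : (0 : ℝ) < p := by
      have : 0 < p := hp1.pos
      exact_mod_cast this
    have e1 : ∑ m ∈ Ico a (a + H), ((((if p ∣ m then (1 : ℝ) else 0) - 1 / p : ℝ)) : ℂ) * ee (m * β) =
        (1 / p : ℂ) * ∑ k ∈ Ico 1 p, ∑ m ∈ Ico a (a + H), ee (m * (β + (k : ℝ) / p)) := by
      rw [Finset.sum_comm, Finset.mul_sum]
      refine Finset.sum_congr rfl fun m _ => ?_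
      rw [OmW_det p m hp1.one_le, mul_assoc, Finset.sum_mul]
      congr 1
      refine Finset.sum_congr rfl fun k _ => ?_
      rw [← Pool.Agent.H91.PK.LSa_ee_add]
      congr 1
      ring
    rw [e1, norm_mul]
    have e2 : ‖(1 / p : ℂ)‖ = 1 / p := by
      rw [norm_div, norm_one, Complex.norm_natCast]
    rw [e2]
    refine mul_le_mul (one_div_le_one_div_of_le hP0 (by exact_mod_cast hp2.le)) ?_ (norm_nonneg _) (by positivity)
    refine (norm_sum_le _ _).trans (Finset.sum_le_sum fun k _ => ?_)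
    rw [OmW_shift]
  refine (Finset.sum_le_sum h1).trans ?_
  rw [← Finset.mul_sum, ← Finset.sum_sigma (pb P) (fun p => Ico 1 p) (fun j => ‖D H (β + (j.2 : ℝ) / j.1)‖)]
  have hcard : (((pb P).sigma (fun p => Ico 1 p)).card : ℝ) ≤ 2 * (P : ℝ) ^ 2 := by
    rw [Finset.card_sigma]
    have h2 : ∑ p ∈ pb P, (Ico 1 p).card ≤ ∑ _p ∈ pb P, 2 * P := by
      refine Finset.sum_le_sum fun p hp => ?_
      rw [Nat.card_Ico]
      have := (hpb p hp).2.2
      omega
    rw [Finset.sum_const, smul_eq_mul] at h2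
    have h3 : (pb P).card ≤ P := by
      unfold pb
      refine (Finset.card_filter_le _ _).trans ?_
      rw [Nat.card_Ioc]
      omega
    have h4 : ∑ p ∈ pb P, (Ico 1 p).card ≤ 2 * P ^ 2 := by
      calc ∑ p ∈ pb P, (Ico 1 p).card ≤ (pb P).card * (2 * P) := h2
        _ ≤ P * (2 * P) := Nat.mul_le_mul_right _ h3
        _ = 2 * P ^ 2 := by ring
    exact_mod_cast h4
  have h2 := OmW_pts ((pb P).sigma (fun p => Ico 1 p)) (fun j => β + (j.2 : ℝ) / j.1) (4 * P ^ 2) H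
    (by positivity) ?_ (12 * (P : ℝ) ^ 3) (by positivity) ?_
  · have hH' : (P : ℝ) ^ 3 ≤ H := by exact_mod_cast hH
    rw [one_div_mul_eq_div]
    apply div_le_div_of_nonneg_right _ hP0.le
    linarith
  · rintro ⟨p, k⟩ hi ⟨p', k'⟩ hj hne m
    rw [Finset.mem_sigma, Finset.mem_Ico] at hi hj
    obtain ⟨hp, hk⟩ := hi
    obtain ⟨hp', hk'⟩ := hj
    simp only at hp hk hp' hk' ⊢
    obtain ⟨q1, q2, q3⟩ := hpb p hp
    obtain ⟨q1', q2', q3'⟩ := hpb p' hp'
    have hc : k ∈ red p := by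
      rw [Pool.Agent.H92.EH.mem_red]
      refine ⟨hk.2, Nat.Coprime.symm ((Nat.Prime.coprime_iff_not_dvd q1).2 fun hd => ?_)⟩
      exact absurd (Nat.le_of_dvd (by omega) hd) (by omega)
    have hc' : k' ∈ red p' := by
      rw [Pool.Agent.H92.EH.mem_red]
      refine ⟨hk'.2, Nat.Coprime.symm ((Nat.Prime.coprime_iff_not_dvd q1').2 fun hd => ?_)⟩
      exact absurd (Nat.le_of_dvd (by omega) hd) (by omega)
    have hne' : ¬ (p = p' ∧ k = k') := by
      rintro ⟨rfl, rfl⟩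
      exact hne rfl
    have h3 := Pool.Agent.H92.EH.farey_spacing q1.pos q1'.pos hc hc' hne' m
    have h4 : β + (k : ℝ) / p - (β + (k' : ℝ) / p') - m = (k : ℝ) / p - (k' : ℝ) / p' - m := by ring
    rw [h4]
    refine le_trans ?_ h3
    have q4 : (0 : ℝ) < p := by exact_mod_cast q1.pos
    have q5 : (0 : ℝ) < p' := by exact_mod_cast q1'.pos
    have q6 : (p : ℝ) ≤ 2 * P := by exact_mod_cast q3
    have q7 : (p' : ℝ) ≤ 2 * P := by exact_mod_cast q3'
    apply one_div_le_one_div_of_le (by positivity)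
    push_cast
    calc (p : ℝ) * p' ≤ (2 * P) * (2 * P) := mul_le_mul q6 q7 q5.le (by positivity)
      _ = 4 * (P : ℝ) ^ 2 := by ring
  · push_cast
    calc (((pb P).sigma (fun p => Ico 1 p)).card : ℝ) * (4 * (4 * (P : ℝ) ^ 2) ^ 2)
        ≤ (2 * (P : ℝ) ^ 2) * (4 * (4 * (P : ℝ) ^ 2) ^ 2) := mul_le_mul_of_nonneg_right hcard (by positivity)
      _ = 128 * (P : ℝ) ^ 6 := by ring
      _ ≤ 144 * (P : ℝ) ^ 6 := mul_le_mul_of_nonneg_right (by norm_num) (by positivity)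
      _ = (12 * (P : ℝ) ^ 3) ^ 2 := by ring

theorem omw (P R H i : ℕ) (α : ℝ) (hRP : R < P) (hP : 2 ≤ P) (hH : P ^ 3 ≤ H) (hi : 1 ≤ i) :
    ‖Bs (fun m => Fp (lamR R) P m - W2 P * lamR R m) H i α‖ ≤ 100 * R * H / P := by
  have hP0 : (0 : ℝ) < P := by
    have : 0 < P := by omega
    exact_mod_cast this
  have hH0 : 1 ≤ H := le_trans (Nat.one_le_pow _ _ (by omega)) hH
  have hpb : ∀ p ∈ pb P, p.Prime ∧ P < p := by
    intro p hp
    unfold pb at hp
    rw [Finset.mem_filter, Finset.mem_Ioc] at hp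
    exact ⟨hp.2, hp.1.1⟩
  have h1 : ∀ m : ℕ, Fp (lamR R) P m - W2 P * lamR R m =
      lamR R m * ∑ p ∈ pb P, ((if p ∣ m then (1 : ℝ) else 0) - 1 / p) := by
    intro m
    unfold Fp W2
    rw [Finset.sum_filter, Finset.sum_mul, ← Finset.sum_sub_distrib, Finset.mul_sum]
    refine Finset.sum_congr rfl fun p hp => ?_
    obtain ⟨hp1, hp2⟩ := hpb p hp
    by_cases hd : p ∣ m
    · rw [if_pos hd, if_pos hd]
      obtain ⟨q, rfl⟩ := hd
      rw [Nat.mul_div_cancel_left _ hp1.pos, Pool.Agent.H76.SP.lamR_mul R p q hp1 (by omega)]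
      ring
    · rw [if_neg hd, if_neg hd]
      ring
  have h2 : Bs (fun m => Fp (lamR R) P m - W2 P * lamR R m) H i α =
      ∑ c ∈ Icc 1 R, ((((ArithmeticFunction.moebius c : ℤ) : ℝ) / (c.totient : ℝ) : ℝ) : ℂ) * ∑ b ∈ red c,
        ∑ p ∈ pb P, ∑ m ∈ Ico (i * H) (i * H + H),
          ((((if p ∣ m then (1 : ℝ) else 0) - 1 / p : ℝ)) : ℂ) * ee (m * ((b : ℝ) / c - α)) := by
    unfold Bs
    have e1 : (i + 1) * H = i * H + H := by ring
    rw [e1]
    have e2 : ∀ m ∈ Ico (i * H) (i * H + H), ((Fp (lamR R) P m - W2 P * lamR R m : ℝ) : ℂ) * ee (-(m * α)) =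
        ∑ c ∈ Icc 1 R, ((((ArithmeticFunction.moebius c : ℤ) : ℝ) / (c.totient : ℝ) : ℝ) : ℂ) * ∑ b ∈ red c,
          ∑ p ∈ pb P, ((((if p ∣ m then (1 : ℝ) else 0) - 1 / p : ℝ)) : ℂ) * ee (m * ((b : ℝ) / c - α)) := by
      intro m hm
      rw [Finset.mem_Ico] at hm
      have hm1 : 1 ≤ m := le_trans (Nat.mul_le_mul hi hH0) hm.1
      rw [h1, Complex.ofReal_mul, Pool.Agent.H76.EHB.lamR_eq R m hm1, Complex.ofReal_sum, Finset.sum_mul,
        Finset.sum_mul]
      refine Finset.sum_congr rfl fun c _ => ?_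
      rw [mul_assoc, mul_assoc]
      congr 1
      rw [Finset.sum_mul]
      refine Finset.sum_congr rfl fun b _ => ?_
      rw [Finset.sum_mul, Finset.mul_sum]
      refine Finset.sum_congr rfl fun p _ => ?_
      have e3 : ee (m * ((b : ℝ) / c - α)) = ee (m * ((b : ℝ) / c)) * ee (-(m * α)) := by
        rw [← Pool.Agent.H91.PK.LSa_ee_add]
        congr 1
        ring
      rw [e3]
      ring
    rw [Finset.sum_congr rfl e2, Finset.sum_comm]
    refine Finset.sum_congr rfl fun c _ => ?_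
    rw [← Finset.mul_sum, Finset.sum_comm]
    congr 1
    refine Finset.sum_congr rfl fun b _ => ?_
    rw [Finset.sum_comm]
  rw [h2]
  have h3 : ∀ c ∈ Icc 1 R, ‖((((ArithmeticFunction.moebius c : ℤ) : ℝ) / (c.totient : ℝ) : ℝ) : ℂ) * ∑ b ∈ red c,
        ∑ p ∈ pb P, ∑ m ∈ Ico (i * H) (i * H + H),
          ((((if p ∣ m then (1 : ℝ) else 0) - 1 / p : ℝ)) : ℂ) * ee (m * ((b : ℝ) / c - α))‖ ≤ 13 * H / P := by
    intro c hc
    rw [Finset.mem_Icc] at hc
    have hφ : (0 : ℝ) < (c.totient : ℝ) := by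
      have := Nat.totient_pos.2 (show 0 < c by omega)
      exact_mod_cast this
    rw [norm_mul, Complex.norm_real, Real.norm_eq_abs, abs_div, abs_of_pos hφ]
    have hμ : |((ArithmeticFunction.moebius c : ℤ) : ℝ)| ≤ 1 := by
      have := ArithmeticFunction.abs_moebius_le_one (n := c)
      exact_mod_cast this
    have h4 : ‖∑ b ∈ red c, ∑ p ∈ pb P, ∑ m ∈ Ico (i * H) (i * H + H),
          ((((if p ∣ m then (1 : ℝ) else 0) - 1 / p : ℝ)) : ℂ) * ee (m * ((b : ℝ) / c - α))‖ ≤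
        (c.totient : ℝ) * (13 * H / P) := by
      refine (norm_sum_le _ _).trans ?_
      calc ∑ b ∈ red c, ‖∑ p ∈ pb P, ∑ m ∈ Ico (i * H) (i * H + H),
            ((((if p ∣ m then (1 : ℝ) else 0) - 1 / p : ℝ)) : ℂ) * ee (m * ((b : ℝ) / c - α))‖
          ≤ ∑ _b ∈ red c, (13 * (H : ℝ) / P) := by
            refine Finset.sum_le_sum fun b _ => ?_
            exact (norm_sum_le _ _).trans (OmW_T P H (i * H) hP hH _)
        _ = (c.totient : ℝ) * (13 * H / P) := by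
            rw [Finset.sum_const, nsmul_eq_mul, Pool.Agent.H92.EH.card_red]
    calc |((ArithmeticFunction.moebius c : ℤ) : ℝ)| / (c.totient : ℝ) * _
        ≤ 1 / (c.totient : ℝ) * ((c.totient : ℝ) * (13 * H / P)) := by
          refine mul_le_mul ?_ h4 (norm_nonneg _) (by positivity)
          exact div_le_div_of_nonneg_right hμ hφ.le
      _ = 13 * H / P := by
          field_simp
  calc ‖_‖ ≤ ∑ _c ∈ Icc 1 R, (13 * (H : ℝ) / P) := (norm_sum_le _ _).trans (Finset.sum_le_sum h3)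
    _ = R * (13 * H / P) := by
        rw [Finset.sum_const, nsmul_eq_mul, Nat.card_Icc, Nat.add_sub_cancel]
    _ ≤ 100 * R * H / P := by
        rw [mul_div_assoc', div_le_div_iff_of_pos_right hP0]
        have : (0 : ℝ) ≤ (R : ℝ) * H := by positivity
        nlinarith

end Pool.Agent.H53.MID
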