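import Pool.Agent.H53.MID.Defs

/-!
# MID BaseA: a bad block has many good primes

`w = ⌊H/(P L^(A+5))⌋`, cells `[c w, c w + w)`.
Proof.  `Bs (Fp f P) H i α = ∑_{p ∈ pb P} In p`, `In p = ∑_{k : i H ≤ k p < (i+1) H} f(k) ee(-k p α)` (`m = k p`), `k ∈ Ico a b`,
`a = ⌈iH/p⌉`, `b = ⌈(i+1)H/p⌉`, `H/p - 1 ≤ b - a ≤ H/p + 1`, so `w0 ≤ b - a ≤ 2H/P`.
Cauchy-Schwarz and `SqB`: `‖In p‖ ≤ (b - a) L^2 ≤ 2 H L^2/P`.  With `ν = H/(2 P L^A)` and `G = {p : ‖In p‖ ≥ ν}`: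
`H/L^A ≤ |G| 2 H L^2/P + P ν` (`|pb P| ≤ P`), so `|G| ≥ P/(4 L^(A+2))`.
For `p ∈ G`: `w ≥ H/(2 P L^(A+5))` (as `H/(P L^(A+5)) ≥ 2 w0 ≥ 2`), `w ≥ w0`.  Split `Ico a b` into cells: full cells `c` with `a ≤ c w`, `c w + w ≤ b`, and at most two partial cells, whose
contribution is `≤ 2 w L^2 ≤ 2 H/(P L^(A+3)) ≤ ν/2` (Cauchy-Schwarz and `SqB` on the whole cell, which is inside `[0, X)`; `L ≥ 100`).
The number of full cells is `≤ (b-a)/w ≤ 4 L^(A+5)`, so one of them has `‖∑_cell‖ ≥ (ν/2)/(4 L^(A+5)) = H/(16 P L^(2A+5)) ≥ w/(16 L^A)`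
(`w ≤ H/(P L^(A+5))`).  `a ≤ c w` and `c w < b` give `i H ≤ c w p < (i+1) H`.
-/

set_option autoImplicit false

namespace Pool.Agent.H53.MID

open Finset
open Pool.Agent.H91.PK (ee)
open Pool.Agent.H35.W (pb)

/-- the length of the cells -/
noncomputable def cw (H P A : ℕ) (L : ℝ) : ℕ := ⌊(H : ℝ) / (P * L ^ (A + 5))⌋₊

private theorem BaseA_norm_ee (t : ℝ) : ‖ee t‖ = 1 := by
  unfold ee
  have h : (2 * Real.pi * t * Complex.I : ℂ) = ((2 * Real.pi * t : ℝ) : ℂ) * Complex.I := by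
    push_cast
    ring
  rw [h, Complex.norm_exp_ofReal_mul_I]

/-- the least `k` with `x ≤ k p` -/
private def BaseA_cl (x p : ℕ) : ℕ := (x + p - 1) / p

private theorem BaseA_cl_le {x p : ℕ} (hp : 0 < p) (k : ℕ) : BaseA_cl x p ≤ k ↔ x ≤ k * p := by
  unfold BaseA_cl
  rw [Nat.div_le_iff_le_mul_add_pred hp]
  rw [mul_comm p k]
  omega

private theorem BaseA_lt_cl {x p : ℕ} (hp : 0 < p) (k : ℕ) : k < BaseA_cl x p ↔ k * p < x := by
  have h := BaseA_cl_le (x := x) hp k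
  omega

private theorem BaseA_cl_mul {x p : ℕ} (hp : 0 < p) :
    x ≤ BaseA_cl x p * p ∧ BaseA_cl x p * p ≤ x + p - 1 :=
  ⟨(BaseA_cl_le hp _).1 le_rfl, Nat.div_mul_le_self _ _⟩

private theorem BaseA_split (f : ℕ → ℝ) (H P i : ℕ) (α : ℝ) :
    Bs (Fp f P) H i α = ∑ p ∈ pb P, ∑ k ∈ Ico (BaseA_cl (i * H) p) (BaseA_cl ((i + 1) * H) p),
      (f k : ℂ) * ee (-(k * (p * α))) := by
  unfold Bs Fp
  have h1 : ∀ m ∈ Ico (i * H) ((i + 1) * H),
      (((∑ p ∈ (pb P).filter (fun p => p ∣ m), f (m / p) : ℝ)) : ℂ) * ee (-(m * α)) =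
        ∑ p ∈ pb P, if p ∣ m then (f (m / p) : ℂ) * ee (-(m * α)) else 0 := by
    intro m _
    push_cast
    rw [Finset.sum_mul, Finset.sum_filter]
  rw [Finset.sum_congr rfl h1, Finset.sum_comm]
  refine Finset.sum_congr rfl fun p hp => ?_
  have hp0 : 0 < p := by
    unfold pb at hp
    exact (Finset.mem_filter.1 hp).2.pos
  rw [← Finset.sum_filter]
  refine Finset.sum_bij' (fun m _ => m / p) (fun k _ => k * p) ?_ ?_ ?_ ?_ ?_
  · intro m hm
    rw [Finset.mem_filter, Finset.mem_Ico] at hm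
    obtain ⟨⟨h1, h2⟩, k, rfl⟩ := hm
    rw [Nat.mul_div_cancel_left _ hp0, Finset.mem_Ico, BaseA_cl_le hp0, BaseA_lt_cl hp0, mul_comm k p]
    exact ⟨h1, h2⟩
  · intro k hk
    rw [Finset.mem_Ico, BaseA_cl_le hp0, BaseA_lt_cl hp0] at hk
    rw [Finset.mem_filter, Finset.mem_Ico]
    exact ⟨hk, Dvd.intro_left k rfl⟩
  · intro m hm
    exact Nat.div_mul_cancel (Finset.mem_filter.1 hm).2
  · intro k _
    exact Nat.mul_div_cancel _ hp0
  · intro m hm
    obtain ⟨k, rfl⟩ := (Finset.mem_filter.1 hm).2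
    rw [Nat.mul_div_cancel_left _ hp0]
    congr 2
    push_cast
    ring

/-- Cauchy-Schwarz on a piece of an interval. -/
private theorem BaseA_CS {f : ℕ → ℝ} {w0 X : ℕ} {L : ℝ} (hf : SqB f w0 X L) {u v w : ℕ}
    (hw : w0 ≤ w) (hv : v ≤ u + w) (hX : u + w ≤ X) (β : ℝ) :
    ‖∑ k ∈ Ico u v, (f k : ℂ) * ee (-(k * β))‖ ≤ w * L ^ 2 := by
  have h1 : ‖∑ k ∈ Ico u v, (f k : ℂ) * ee (-(k * β))‖ ≤ ∑ k ∈ Ico u v, |f k| := by
    refine (norm_sum_le _ _).trans (Finset.sum_le_sum fun k _ => ?_)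
    rw [norm_mul, BaseA_norm_ee, mul_one, Complex.norm_real, Real.norm_eq_abs]
  have hL2 : 0 ≤ L ^ 2 := sq_nonneg L
  have hw0 : (0 : ℝ) ≤ w := Nat.cast_nonneg w
  refine h1.trans ?_
  have h2 : (∑ k ∈ Ico u v, |f k|) ^ 2 ≤ (w * L ^ 2) ^ 2 := by
    have h3 : (∑ k ∈ Ico u v, |f k|) ^ 2 ≤ ((Ico u v).card : ℝ) * ∑ k ∈ Ico u v, |f k| ^ 2 :=
      sq_sum_le_card_mul_sum_sq
    have h4 : ((Ico u v).card : ℝ) ≤ w := by
      rw [Nat.card_Ico]
      have : v - u ≤ w := by omega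
      exact_mod_cast this
    have h5 : ∑ k ∈ Ico u v, |f k| ^ 2 ≤ w * L ^ 4 := by
      refine le_trans ?_ (hf u w hw hX)
      simp only [sq_abs]
      refine Finset.sum_le_sum_of_subset_of_nonneg ?_ fun k _ _ => sq_nonneg _
      intro k hk
      rw [Finset.mem_Ico] at hk ⊢
      omega
    calc (∑ k ∈ Ico u v, |f k|) ^ 2 ≤ ((Ico u v).card : ℝ) * ∑ k ∈ Ico u v, |f k| ^ 2 := h3
      _ ≤ w * (w * L ^ 4) := mul_le_mul h4 h5 (Finset.sum_nonneg fun k _ => sq_nonneg _) hw0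
      _ = (w * L ^ 2) ^ 2 := by ring
  exact (pow_le_pow_iff_left₀ (Finset.sum_nonneg fun k _ => abs_nonneg _) (by positivity)
    two_ne_zero).1 h2

private theorem BaseA_cells (g : ℕ → ℂ) (w c0 n : ℕ) :
    ∑ k ∈ Ico (c0 * w) ((c0 + n) * w), g k =
      ∑ j ∈ range n, ∑ k ∈ Ico ((c0 + j) * w) ((c0 + j) * w + w), g k := by
  induction n with
  | zero => simp
  | succ n ih =>
    rw [Finset.sum_range_succ, ← ih]
    have h1 : (c0 + (n + 1)) * w = (c0 + n) * w + w := by ring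
    rw [h1, Finset.sum_Ico_consecutive _ (Nat.mul_le_mul_right w (Nat.le_add_right c0 n))
      (Nat.le_add_right _ _)]

/-- the numerical facts for one prime -/
private theorem BaseA_num {L : ℝ} {A H P w0 X i p : ℕ} (hL : 100 ≤ L) (hw0 : 1 ≤ w0) (hP : 1 ≤ P)
    (hH : 2 * w0 * P * L ^ (A + 5) ≤ H) (hX : 4 * (i + 1) * H ≤ X) (hp1 : P < p) (hp2 : p ≤ 2 * P) :
    (((BaseA_cl ((i + 1) * H) p : ℝ) - BaseA_cl (i * H) p) * P ≤ 2 * H) ∧
    w0 ≤ cw H P A L ∧ (cw H P A L : ℝ) * P * L ^ (A + 5) ≤ H ∧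
    BaseA_cl (i * H) p + 2 * cw H P A L ≤ BaseA_cl ((i + 1) * H) p ∧
    BaseA_cl ((i + 1) * H) p + cw H P A L ≤ X := by
  have hP0 : (0 : ℝ) < P := by exact_mod_cast hP
  have hL0 : 0 < L := by linarith
  have hp0 : 0 < p := by omega
  have hLA : 1 ≤ L ^ A := one_le_pow₀ (by linarith)
  have hL5 : (10000 : ℝ) ≤ L ^ 5 := by
    calc (10000 : ℝ) ≤ 100 ^ 5 := by norm_num
      _ ≤ L ^ 5 := pow_le_pow_left₀ (by norm_num) hL 5
  have hLA5 : (10000 : ℝ) ≤ L ^ (A + 5) := by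
    rw [pow_add]
    nlinarith
  have hw0' : (1 : ℝ) ≤ w0 := by exact_mod_cast hw0
  -- `w`
  have hx : (2 * w0 : ℝ) ≤ H / (P * L ^ (A + 5)) := by
    rw [le_div_iff₀ (by positivity)]
    calc (2 * w0 : ℝ) * (P * L ^ (A + 5)) = 2 * w0 * P * L ^ (A + 5) := by ring
      _ ≤ H := hH
  have hw1 : 2 * w0 ≤ cw H P A L := by
    unfold cw
    apply Nat.le_floor
    push_cast
    exact hx
  have hw2 : (cw H P A L : ℝ) * P * L ^ (A + 5) ≤ H := by
    have h1 : (cw H P A L : ℝ) ≤ H / (P * L ^ (A + 5)) := Nat.floor_le (by positivity)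
    rw [le_div_iff₀ (by positivity)] at h1
    linarith
  generalize cw H P A L = w at hw1 hw2
  obtain ⟨a1, a2⟩ := BaseA_cl_mul (x := i * H) hp0
  obtain ⟨b1, b2⟩ := BaseA_cl_mul (x := (i + 1) * H) hp0
  have hmono : BaseA_cl (i * H) p ≤ BaseA_cl ((i + 1) * H) p := by
    rw [BaseA_cl_le hp0]
    refine le_trans ?_ b1
    exact Nat.mul_le_mul_right H (Nat.le_succ i)
  have hbX : BaseA_cl ((i + 1) * H) p ≤ (i + 1) * H := by
    rw [BaseA_cl_le hp0]
    exact Nat.le_mul_of_pos_right _ hp0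
  generalize BaseA_cl (i * H) p = a at a1 a2 hmono
  generalize BaseA_cl ((i + 1) * H) p = b at b1 b2 hmono hbX
  have e1 : (i + 1) * H = i * H + H := by ring
  rw [e1] at b1 b2
  have hmono' : (a : ℝ) ≤ b := by exact_mod_cast hmono
  have pR : (P : ℝ) ≤ p := by exact_mod_cast hp1.le
  have pR2 : (p : ℝ) ≤ 2 * P := by exact_mod_cast hp2
  have a1' : (i : ℝ) * H ≤ a * p := by exact_mod_cast a1
  have a2' : (a : ℝ) * p ≤ i * H + p := by
    have : a * p ≤ i * H + p := by omega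
    exact_mod_cast this
  have b1' : (i : ℝ) * H + H ≤ b * p := by exact_mod_cast b1
  have b2' : (b : ℝ) * p ≤ i * H + H + p := by
    have : b * p ≤ i * H + H + p := by omega
    exact_mod_cast this
  have hPH : 20000 * (P : ℝ) ≤ H := by
    have h1 : (P : ℝ) * 10000 ≤ P * L ^ (A + 5) := mul_le_mul_of_nonneg_left hLA5 hP0.le
    have h2 : 2 * (P * L ^ (A + 5)) ≤ 2 * w0 * (P * L ^ (A + 5)) := by
      have : 0 ≤ (P : ℝ) * L ^ (A + 5) := by positivity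
      nlinarith
    linarith
  have hwH : 10000 * ((w : ℝ) * P) ≤ H := by
    have h1 : (w : ℝ) * P * 10000 ≤ w * P * L ^ (A + 5) :=
      mul_le_mul_of_nonneg_left hLA5 (by positivity)
    linarith
  refine ⟨?_, by omega, hw2, ?_, ?_⟩
  · have h1 : ((b : ℝ) - a) * P ≤ (b - a) * p := mul_le_mul_of_nonneg_left pR (by linarith)
    have h2 : ((b : ℝ) - a) * p ≤ H + p := by linarith
    linarith
  · have h1 : ((b : ℝ) - a) * p ≤ (b - a) * (2 * P) := mul_le_mul_of_nonneg_left pR2 (by linarith)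
    have h2 : (H : ℝ) - p ≤ (b - a) * p := by linarith
    have h3 : (2 * (w : ℝ)) * (2 * P) ≤ (b - a) * (2 * P) := by linarith
    have h4 : (2 * (w : ℝ)) ≤ b - a := le_of_mul_le_mul_right h3 (by linarith)
    have h5 : (a : ℝ) + 2 * w ≤ b := by linarith
    exact_mod_cast h5
  · have h1 : w ≤ H := by
      have h2 : (w : ℝ) ≤ w * P := by
        have : (1 : ℝ) ≤ P := by exact_mod_cast hP
        have h3 : (0 : ℝ) ≤ w := Nat.cast_nonneg w
        nlinarith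
      have h3 : (0 : ℝ) ≤ w * P := by positivity
      have h4 : (w : ℝ) ≤ H := by linarith
      exact_mod_cast h4
    have h2 : H ≤ (i + 1) * H := Nat.le_mul_of_pos_left H (Nat.succ_pos i)
    have h3 : 4 * (i + 1) * H = 4 * ((i + 1) * H) := by ring
    omega

/-- a cell with a large sum -/
private theorem BaseA_cell {L : ℝ} {A H P w0 X i p : ℕ} {f : ℕ → ℝ} (α : ℝ) (hL : 100 ≤ L)
    (hw0 : 1 ≤ w0) (hP : 1 ≤ P)
    (hH : 2 * w0 * P * L ^ (A + 5) ≤ H) (hf : SqB f w0 X L) (hX : 4 * (i + 1) * H ≤ X)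
    (hp1 : P < p) (hp2 : p ≤ 2 * P)
    (hbig : (H : ℝ) ≤ 2 * (P * L ^ A) * ‖∑ k ∈ Ico (BaseA_cl (i * H) p) (BaseA_cl ((i + 1) * H) p),
      (f k : ℂ) * ee (-(k * (p * α)))‖) :
    ∃ c : ℕ, i * H ≤ c * cw H P A L * p ∧
      c * cw H P A L * p < (i + 1) * H ∧ (cw H P A L : ℝ) / (16 * L ^ A) ≤
        ‖∑ k ∈ Ico (c * cw H P A L) (c * cw H P A L + cw H P A L), (f k : ℂ) * ee (-(k * (p * α)))‖ := by
  obtain ⟨n1, n2, n3, n4, n5⟩ := BaseA_num hL hw0 hP hH hX hp1 hp2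
  have hp0 : 0 < p := by omega
  have hP0 : (0 : ℝ) < P := by exact_mod_cast hP
  have hL0 : 0 < L := by linarith
  by_contra hcon
  have hcell : ∀ c : ℕ, BaseA_cl (i * H) p ≤ c * cw H P A L →
      c * cw H P A L < BaseA_cl ((i + 1) * H) p →
      ‖∑ k ∈ Ico (c * cw H P A L) (c * cw H P A L + cw H P A L),
        (f k : ℂ) * ee (-(k * (p * α)))‖ ≤ (cw H P A L : ℝ) / (16 * L ^ A) := by
    intro c h1 h2
    by_contra hc
    exact hcon ⟨c, (BaseA_cl_le hp0 _).1 h1, (BaseA_lt_cl hp0 _).1 h2, (not_le.1 hc).le⟩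
  generalize cw H P A L = w at n2 n3 n4 n5 hcell
  generalize BaseA_cl (i * H) p = a at n1 n4 hbig hcell
  generalize BaseA_cl ((i + 1) * H) p = b at n1 n4 n5 hbig hcell
  have hw1 : 0 < w := by omega
  obtain ⟨c1, c2⟩ := BaseA_cl_mul (x := a) hw1
  set c0 := BaseA_cl a w with hc0
  set n := b / w - c0 with hn
  have c3 : b / w * w ≤ b := Nat.div_mul_le_self b w
  have c4 : b < b / w * w + w := by
    have := Nat.lt_div_mul_add hw1 (a := b)
    omega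
  have c5 : c0 ≤ b / w := by
    have h1 : c0 * w < b / w * w := by omega
    exact (lt_of_mul_lt_mul_right h1 (Nat.zero_le w)).le
  have c6 : c0 + n = b / w := by omega
  set g : ℕ → ℂ := fun k => (f k : ℂ) * ee (-(k * (p * α))) with hg
  have s0 : ∑ k ∈ Ico a b, g k = ∑ k ∈ Ico a (c0 * w), g k +
      ∑ k ∈ Ico (c0 * w) ((c0 + n) * w), g k + ∑ k ∈ Ico ((c0 + n) * w) b, g k := by
    rw [c6, Finset.sum_Ico_consecutive _ c1 (Nat.mul_le_mul_right w c5),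
      Finset.sum_Ico_consecutive _ (c1.trans (Nat.mul_le_mul_right w c5)) c3]
  have s1 : ‖∑ k ∈ Ico a (c0 * w), g k‖ ≤ w * L ^ 2 :=
    BaseA_CS hf n2 (by omega) (by omega) (p * α)
  have s3 : ‖∑ k ∈ Ico ((c0 + n) * w) b, g k‖ ≤ w * L ^ 2 := by
    rw [c6]
    exact BaseA_CS hf n2 (by omega) (by omega) (p * α)
  have s2 : ‖∑ k ∈ Ico (c0 * w) ((c0 + n) * w), g k‖ ≤ n * ((w : ℝ) / (16 * L ^ A)) := by
    rw [BaseA_cells]
    refine (norm_sum_le _ _).trans ?_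
    calc ∑ j ∈ range n, ‖∑ k ∈ Ico ((c0 + j) * w) ((c0 + j) * w + w), g k‖
        ≤ ∑ _j ∈ range n, ((w : ℝ) / (16 * L ^ A)) := by
          refine Finset.sum_le_sum fun j hj => ?_
          rw [Finset.mem_range] at hj
          refine hcell (c0 + j) ?_ ?_
          · exact c1.trans (Nat.mul_le_mul_right w (Nat.le_add_right c0 j))
          · have h1 : (c0 + j) * w < (b / w) * w := by
              refine Nat.mul_lt_mul_of_pos_right ?_ hw1
              omega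
            omega
      _ = _ := by rw [Finset.sum_const, nsmul_eq_mul, Finset.card_range]
  have s4 : ‖∑ k ∈ Ico a b, g k‖ ≤ 2 * (w * L ^ 2) + n * ((w : ℝ) / (16 * L ^ A)) := by
    rw [s0]
    calc _ ≤ w * L ^ 2 + n * ((w : ℝ) / (16 * L ^ A)) + w * L ^ 2 :=
          (norm_add_le _ _).trans (add_le_add ((norm_add_le _ _).trans (add_le_add s1 s2)) s3)
      _ = _ := by ring
  have t1 : (n : ℝ) * w ≤ b - a := by
    have h1 : n * w + a ≤ b := by
      have h2 : n * w + c0 * w = b / w * w := by rw [← Nat.add_mul, add_comm n c0, c6]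
      omega
    have h2 : (n : ℝ) * w + a ≤ b := by exact_mod_cast h1
    linarith
  have t2 : 2 * (P * L ^ A) * (n * ((w : ℝ) / (16 * L ^ A))) ≤ H / 4 := by
    have h1 : 2 * (P * L ^ A) * (n * ((w : ℝ) / (16 * L ^ A))) = (n * w) * P / 8 := by
      field_simp
      ring
    rw [h1]
    have h2 : (n : ℝ) * w * P ≤ (b - a) * P := mul_le_mul_of_nonneg_right t1 hP0.le
    linarith
  have t3 : 2 * (P * L ^ A) * (2 * (w * L ^ 2)) ≤ H / 4 := by
    have h1 : (w : ℝ) * P * L ^ (A + 5) = (w * P * L ^ A * L ^ 2) * L ^ 3 := by ring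
    have h2 : (1000000 : ℝ) ≤ L ^ 3 := by
      calc (1000000 : ℝ) = 100 ^ 3 := by norm_num
        _ ≤ L ^ 3 := pow_le_pow_left₀ (by norm_num) hL 3
    have h3 : (w * P * L ^ A * L ^ 2) * 1000000 ≤ (w * P * L ^ A * L ^ 2) * L ^ 3 :=
      mul_le_mul_of_nonneg_left h2 (by positivity)
    have h4 : 0 ≤ (w : ℝ) * P * L ^ A * L ^ 2 := by positivity
    have h5 : 2 * (P * L ^ A) * (2 * (w * L ^ 2)) = 4 * (w * P * L ^ A * L ^ 2) := by ring
    rw [h5]
    linarith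
  have t4 : (H : ℝ) ≤ H / 4 + H / 4 := by
    have h1 : 2 * (P * L ^ A) * ‖∑ k ∈ Ico a b, g k‖ ≤
        2 * (P * L ^ A) * (2 * (w * L ^ 2) + n * ((w : ℝ) / (16 * L ^ A))) :=
      mul_le_mul_of_nonneg_left s4 (by positivity)
    rw [mul_add] at h1
    linarith
  have t5 : (0 : ℝ) < H := by
    have : (0 : ℝ) < 2 * w0 * P * L ^ (A + 5) := by
      have : (1 : ℝ) ≤ w0 := by exact_mod_cast hw0
      positivity
    linarith
  linarith

open Classical in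
theorem base_a (L : ℝ) (A H P w0 X i : ℕ) (f : ℕ → ℝ) (α : ℝ) (hL : 100 ≤ L) (hw0 : 1 ≤ w0) (hP : 1 ≤ P)
    (hH : 2 * w0 * P * L ^ (A + 5) ≤ H) (hf : SqB f w0 X L) (hX : 4 * (i + 1) * H ≤ X)
    (hbig : H / L ^ A ≤ ‖Bs (Fp f P) H i α‖) :
    P / (4 * L ^ (A + 2)) ≤ (((pb P).filter (fun p : ℕ => ∃ c : ℕ, i * H ≤ c * cw H P A L * p ∧
      c * cw H P A L * p < (i + 1) * H ∧ (cw H P A L : ℝ) / (16 * L ^ A) ≤
        ‖∑ k ∈ Ico (c * cw H P A L) (c * cw H P A L + cw H P A L), (f k : ℂ) * ee (-(k * (p * α)))‖)).card : ℝ) := by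
  have hP0 : (0 : ℝ) < P := by exact_mod_cast hP
  have hL0 : 0 < L := by linarith
  set G := (pb P).filter (fun p : ℕ => ∃ c : ℕ, i * H ≤ c * cw H P A L * p ∧
      c * cw H P A L * p < (i + 1) * H ∧ (cw H P A L : ℝ) / (16 * L ^ A) ≤
        ‖∑ k ∈ Ico (c * cw H P A L) (c * cw H P A L + cw H P A L), (f k : ℂ) * ee (-(k * (p * α)))‖)
    with hG
  rw [BaseA_split] at hbig
  have hH0 : (0 : ℝ) < H := by
    have h1 : (0 : ℝ) < 2 * w0 * P * L ^ (A + 5) := by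
      have : (1 : ℝ) ≤ w0 := by exact_mod_cast hw0
      positivity
    linarith
  have hterm : ∀ p ∈ pb P, ‖∑ k ∈ Ico (BaseA_cl (i * H) p) (BaseA_cl ((i + 1) * H) p),
      (f k : ℂ) * ee (-(k * (p * α)))‖ ≤ (if p ∈ G then 2 * H * L ^ 2 / P else 0) +
        H / (2 * (P * L ^ A)) := by
    intro p hp
    have hp' := hp
    unfold pb at hp'
    rw [Finset.mem_filter, Finset.mem_Ioc] at hp'
    obtain ⟨⟨hp1, hp2⟩, _⟩ := hp'
    have hν : 0 ≤ (H : ℝ) / (2 * (P * L ^ A)) := by positivity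
    split_ifs with hpG
    · obtain ⟨n1, n2, n3, n4, n5⟩ := BaseA_num hL hw0 hP hH hX hp1 hp2
      have h1 := BaseA_CS hf (u := BaseA_cl (i * H) p) (v := BaseA_cl ((i + 1) * H) p)
        (w := BaseA_cl ((i + 1) * H) p - BaseA_cl (i * H) p) (by omega) (by omega) (by omega) (p * α)
      have h2 : ((BaseA_cl ((i + 1) * H) p - BaseA_cl (i * H) p : ℕ) : ℝ) * L ^ 2 ≤
          2 * H * L ^ 2 / P := by
        rw [Nat.cast_sub (by omega), le_div_iff₀ hP0]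
        calc ((BaseA_cl ((i + 1) * H) p : ℝ) - BaseA_cl (i * H) p) * L ^ 2 * P =
            (((BaseA_cl ((i + 1) * H) p : ℝ) - BaseA_cl (i * H) p) * P) * L ^ 2 := by ring
          _ ≤ 2 * H * L ^ 2 := mul_le_mul_of_nonneg_right n1 (by positivity)
      linarith
    · rw [zero_add, le_div_iff₀ (by positivity)]
      by_contra hc
      apply hpG
      rw [hG, Finset.mem_filter]
      refine ⟨hp, BaseA_cell α hL hw0 hP hH hf hX hp1 hp2 ?_⟩
      have := (not_le.1 hc).le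
      linarith
  have hsum : (H : ℝ) / L ^ A ≤ G.card * (2 * H * L ^ 2 / P) + P * (H / (2 * (P * L ^ A))) := by
    refine hbig.trans ((norm_sum_le _ _).trans ((Finset.sum_le_sum hterm).trans ?_))
    rw [Finset.sum_add_distrib]
    refine add_le_add (le_of_eq ?_) ?_
    · rw [← Finset.sum_filter, Finset.sum_const, nsmul_eq_mul]
      congr 2
      congr 1
      ext p
      rw [Finset.mem_filter]
      exact ⟨fun h => h.2, fun h => ⟨(Finset.mem_filter.1 h).1, h⟩⟩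
    · rw [Finset.sum_const, nsmul_eq_mul]
      refine mul_le_mul_of_nonneg_right ?_ (by positivity)
      unfold pb
      have h1 := Finset.card_filter_le (Ioc P (2 * P)) Nat.Prime
      rw [Nat.card_Ioc] at h1
      have h2 : ((Ioc P (2 * P)).filter Nat.Prime).card ≤ P := by omega
      exact_mod_cast h2
  have e1 : (P : ℝ) * (H / (2 * (P * L ^ A))) = (H / L ^ A) / 2 := by
    field_simp
  rw [e1] at hsum
  have e2 : (H / L ^ A) / 2 ≤ G.card * (2 * H * L ^ 2 / P) := by linarith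
  rw [div_le_iff₀ (by positivity)]
  have e3 : (H / L ^ A) / 2 * (2 * P * L ^ A / H) ≤
      G.card * (2 * H * L ^ 2 / P) * (2 * P * L ^ A / H) :=
    mul_le_mul_of_nonneg_right e2 (by positivity)
  have e4 : (H / L ^ A) / 2 * (2 * P * L ^ A / H) = P := by
    field_simp
  have e5 : G.card * (2 * H * L ^ 2 / P) * (2 * P * L ^ A / H) = G.card * (4 * L ^ (A + 2)) := by
    rw [pow_add]
    field_simp
    ring
  rw [e4, e5] at e3
  exact e3

end Pool.Agent.H53.MID
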