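import Pool.Agent.H53.MID.Nz

/-!
# MID Chain: descendants at level 0

`Desc P j Dj w K α S`: all `(Π, i) ∈ S` satisfy `P^j ≤ Π ≤ (2P)^j`, `|i Π - K P^j| ≤ Dj P^j`, `nz (Π w - α i) ≤ τ`, `i ∈ F0`.
`chain_step`: from the descendants of the `K ∈ F` (level `j`) and the triples `(M, p, K)` of one `M` (level `j+1`), `|K p - M P| ≤ C P`,
`nz (p w' - w K) ≤ η'`, one gets the descendants `(p Π, i)` of `M`.
Proof.  `S' = ` image of the set of the quadruples `(p, K, Π, i)`, `(p,K) ∈ T`, `(Π,i) ∈ S K`, under `(p Π, i)`.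
`|i Π p - M P^(j+1)| ≤ p |i Π - K P^j| + P^j |K p - M P| ≤ (2 Dj + C) P^(j+1)`;
`nz (Π p w' - α i) ≤ nz (Π (p w' - w K)) + nz (Π w K - α i) ≤ (2P)^j η' + τ`.
Fibres: given `(Π', i)`: `p` is a prime `> P` dividing `Π' ≤ (2P)^(j+1) < P^(j+2)` (`2^(j+1) < P`), so at most `j+1` values of `p` (their product divides `Π'`,
`Finset.prod_primes_dvd`, and is `> P^(#)`); given `p`: `Π = Π'/p`, and `|K p - M P| ≤ C P` leaves at most `2C+1` values `K`.  So the fibres have at most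
`(j+1)(2C+1)` elements and `|S'| ≥ ∑_{(p,K) ∈ T} |S K|/((j+1)(2C+1)) ≥ |T| m/((j+1)(2C+1))` if all `|S K| ≥ m`.
-/

set_option autoImplicit false

namespace Pool.Agent.H53.MID

open Finset

/-- `S` is a set of descendants `(Π, i)` of the index `K` with the frequency `w`, `j` levels down -/
structure Desc (P j : ℕ) (D τ : ℝ) (F0 : Finset ℕ) (α : ℕ → ℝ) (K : ℕ) (w : ℝ) (S : Finset (ℕ × ℕ)) : Prop where
  mem : ∀ t ∈ S, t.2 ∈ F0
  lo : ∀ t ∈ S, (P : ℝ) ^ j ≤ t.1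
  hi : ∀ t ∈ S, (t.1 : ℝ) ≤ (2 * P) ^ j
  pos : ∀ t ∈ S, |(t.2 : ℝ) * t.1 - K * P ^ j| ≤ D * P ^ j
  freq : ∀ t ∈ S, nz (t.1 * w - α t.2) ≤ τ

/-- the number of the indices at a bounded distance -/
private theorem Chain_cardK {C X : ℝ} {p P : ℕ} (hC : 1 ≤ C) (hP : 0 < P) (hp : P < p)
    (U : Finset ℕ) (hU : ∀ K ∈ U, |(K : ℝ) * p - X| ≤ C * P) :
    U.card ≤ ⌊2 * C⌋₊ + 1 := by
  rcases U.eq_empty_or_nonempty with h0 | hne
  · rw [h0]
    simp
  · obtain ⟨a, ha⟩ : ∃ a, a = U.min' hne := ⟨_, rfl⟩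
    have haU : a ∈ U := by
      rw [ha]
      exact Finset.min'_mem _ _
    have hsub : U ⊆ Finset.Icc a (a + ⌊2 * C⌋₊) := by
      intro K hK
      have h1 : a ≤ K := by
        rw [ha]
        exact Finset.min'_le _ _ hK
      rw [Finset.mem_Icc]
      refine ⟨h1, ?_⟩
      have h2 := hU K hK
      have h3 := hU a haU
      rw [abs_le] at h2 h3
      have hP0 : (0 : ℝ) < P := by exact_mod_cast hP
      have hpP : (P : ℝ) < p := by exact_mod_cast hp
      have h4 : ((K : ℝ) - a) * p ≤ 2 * C * P := by linarith [h2.2, h3.1]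
      have h5 : (K : ℝ) - a ≤ 2 * C := by
        by_contra hcon
        push Not at hcon
        have h6 : 2 * C * p < ((K : ℝ) - a) * p :=
          mul_lt_mul_of_pos_right hcon (hP0.trans hpP)
        have h7 : 2 * C * P < 2 * C * p := mul_lt_mul_of_pos_left hpP (by linarith)
        linarith
      have h8 : ((K - a : ℕ) : ℝ) ≤ 2 * C := by
        rw [Nat.cast_sub h1]
        exact h5
      have h9 : K - a ≤ ⌊2 * C⌋₊ := Nat.le_floor h8
      omega
    refine (Finset.card_le_card hsub).trans ?_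
    rw [Nat.card_Icc]
    omega

/-- the number of the large prime factors -/
private theorem Chain_cardP {P j N : ℕ} (hP : 2 ^ (j + 1) < P) (hN : 0 < N)
    (hN2 : (N : ℝ) ≤ (2 * P) ^ (j + 1)) (B : Finset ℕ)
    (hB : ∀ p ∈ B, p.Prime ∧ P < p ∧ p ∣ N) : B.card ≤ j + 1 := by
  have hP0 : 0 < P := lt_of_le_of_lt (Nat.zero_le _) hP
  have h1 : ∏ p ∈ B, p ∣ N :=
    Finset.prod_primes_dvd N (fun p hp => (hB p hp).1.prime) fun p hp => (hB p hp).2.2
  have h2 : ∏ p ∈ B, p ≤ N := Nat.le_of_dvd hN h1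
  have h3 : P ^ B.card ≤ ∏ p ∈ B, p := Finset.pow_card_le_prod _ _ _ fun p hp => (hB p hp).2.1.le
  have h4 : N ≤ (2 * P) ^ (j + 1) := by exact_mod_cast hN2
  have h5 : (2 * P) ^ (j + 1) < P ^ (j + 2) := by
    rw [mul_pow, pow_succ P (j + 1), mul_comm (P ^ (j + 1)) P]
    exact Nat.mul_lt_mul_of_pos_right hP (pow_pos hP0 _)
  have h6 : P ^ B.card < P ^ (j + 2) := lt_of_le_of_lt (h3.trans (h2.trans h4)) h5
  have h7 : 1 < P := lt_of_le_of_lt Nat.one_le_two_pow hP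
  have h8 := (Nat.pow_lt_pow_iff_right h7).mp h6
  omega

theorem chain_step (P j : ℕ) (C D τ η' m w' : ℝ) (hC : 1 ≤ C) (F0 : Finset ℕ) (α : ℕ → ℝ) (M : ℕ)
    (w : ℕ → ℝ) (S : ℕ → Finset (ℕ × ℕ)) (T : Finset (ℕ × ℕ)) (hP : 2 ^ (j + 1) < P)
    (hT : ∀ t ∈ T, t.1.Prime ∧ P < t.1 ∧ t.1 ≤ 2 * P ∧ |(t.2 : ℝ) * t.1 - M * P| ≤ C * P ∧
      nz (t.1 * w' - w t.2) ≤ η' ∧ Desc P j D τ F0 α t.2 (w t.2) (S t.2) ∧ m ≤ (S t.2).card)
    (hη : 0 ≤ η') (hm : 0 ≤ m) :
    ∃ S' : Finset (ℕ × ℕ), Desc P (j + 1) (2 * D + C) ((2 * P) ^ j * η' + τ) F0 α M w' S' ∧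
      T.card * m / ((j + 1) * (2 * C + 1)) ≤ S'.card := by
  classical
  have hP0 : 0 < P := lt_of_le_of_lt (Nat.zero_le _) hP
  have hP0' : (0 : ℝ) < P := by exact_mod_cast hP0
  have hPj : (0 : ℝ) < (P : ℝ) ^ j := pow_pos hP0' _
  set f : (Σ _ : ℕ × ℕ, ℕ × ℕ) → ℕ × ℕ := fun x => (x.1.1 * x.2.1, x.2.2) with hf
  set Q : Finset (Σ _ : ℕ × ℕ, ℕ × ℕ) := T.sigma fun t => S t.2 with hQ
  have key : ∀ x ∈ Q, x.1 ∈ T ∧ x.2 ∈ S x.1.2 := by
    intro x hx
    rw [hQ, Finset.mem_sigma] at hx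
    exact hx
  have hdesc : Desc P (j + 1) (2 * D + C) ((2 * P) ^ j * η' + τ) F0 α M w' (Q.image f) := by
    have main : ∀ x ∈ Q, (f x).2 ∈ F0 ∧ (P : ℝ) ^ (j + 1) ≤ (f x).1 ∧
        ((f x).1 : ℝ) ≤ (2 * P) ^ (j + 1) ∧
        |((f x).2 : ℝ) * (f x).1 - M * P ^ (j + 1)| ≤ (2 * D + C) * P ^ (j + 1) ∧
        nz ((f x).1 * w' - α (f x).2) ≤ (2 * P) ^ j * η' + τ := by
      intro x hx
      obtain ⟨hxT, hxS⟩ := key x hx
      obtain ⟨hpr, hPp, hp2, hKM, hnz, hD, _⟩ := hT x.1 hxT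
      have hPp' : (P : ℝ) < x.1.1 := by exact_mod_cast hPp
      have hp2' : (x.1.1 : ℝ) ≤ 2 * P := by exact_mod_cast hp2
      have hp0 : (0 : ℝ) < x.1.1 := hP0'.trans hPp'
      have a1 := hD.mem _ hxS
      have a2 := hD.lo _ hxS
      have a3 := hD.hi _ hxS
      have a4 := hD.pos _ hxS
      have a5 := hD.freq _ hxS
      have hD0 : 0 ≤ D := by
        have h1 : 0 ≤ D * (P : ℝ) ^ j := (abs_nonneg _).trans a4
        exact nonneg_of_mul_nonneg_left h1 hPj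
      have hu0 : (0 : ℝ) < x.2.1 := hPj.trans_le a2
      have hfst : ((f x).1 : ℝ) = (x.1.1 : ℝ) * x.2.1 := by
        simp only [hf]
        push_cast
        ring
      have hsnd : (f x).2 = x.2.2 := rfl
      rw [hfst, hsnd]
      refine ⟨a1, ?_, ?_, ?_, ?_⟩
      · rw [pow_succ, mul_comm]
        exact mul_le_mul hPp'.le a2 hPj.le hp0.le
      · rw [pow_succ, mul_comm]
        exact mul_le_mul a3 hp2' hp0.le (by positivity)
      · have e : (x.2.2 : ℝ) * (x.1.1 * x.2.1) - M * P ^ (j + 1) =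
            x.1.1 * (x.2.2 * x.2.1 - x.1.2 * P ^ j) + P ^ j * (x.1.2 * x.1.1 - M * P) := by
          ring
        rw [e]
        refine (abs_add_le _ _).trans ?_
        rw [abs_mul, abs_mul, abs_of_pos hp0, abs_of_pos hPj]
        have b1 : (x.1.1 : ℝ) * |(x.2.2 : ℝ) * x.2.1 - x.1.2 * P ^ j| ≤
            (2 * P) * (D * P ^ j) := mul_le_mul hp2' a4 (abs_nonneg _) (by positivity)
        have b2 : (P : ℝ) ^ j * |(x.1.2 : ℝ) * x.1.1 - M * P| ≤ P ^ j * (C * P) :=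
          mul_le_mul_of_nonneg_left hKM hPj.le
        have e2 : (2 * D + C) * (P : ℝ) ^ (j + 1) = (2 * P) * (D * P ^ j) + P ^ j * (C * P) := by
          ring
        rw [e2]
        exact add_le_add b1 b2
      · have e : (x.1.1 : ℝ) * x.2.1 * w' - α x.2.2 =
            (x.2.1 : ℝ) * (x.1.1 * w' - w x.1.2) + (x.2.1 * w x.1.2 - α x.2.2) := by ring
        rw [e]
        refine (nz_add _ _).trans (add_le_add ?_ a5)
        refine (nz_nat_mul _ _).trans ?_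
        exact mul_le_mul a3 hnz (nz_nonneg _) (by positivity)
    have main' : ∀ t ∈ Q.image f, t.2 ∈ F0 ∧ (P : ℝ) ^ (j + 1) ≤ t.1 ∧
        (t.1 : ℝ) ≤ (2 * P) ^ (j + 1) ∧
        |(t.2 : ℝ) * t.1 - M * P ^ (j + 1)| ≤ (2 * D + C) * P ^ (j + 1) ∧
        nz (t.1 * w' - α t.2) ≤ (2 * P) ^ j * η' + τ := by
      intro t ht
      rw [Finset.mem_image] at ht
      obtain ⟨x, hx, rfl⟩ := ht
      exact main x hx
    exact ⟨fun t ht => (main' t ht).1, fun t ht => (main' t ht).2.1,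
      fun t ht => (main' t ht).2.2.1, fun t ht => (main' t ht).2.2.2.1,
      fun t ht => (main' t ht).2.2.2.2⟩
  refine ⟨Q.image f, hdesc, ?_⟩
  -- the fibres
  have hfib : ∀ a ∈ Q.image f, (Q.filter fun x => f x = a).card ≤
      (⌊2 * C⌋₊ + 1) * (j + 1) := by
    intro a ha
    have ha1 := hdesc.lo a ha
    have ha2 := hdesc.hi a ha
    have ha0 : 0 < a.1 := by
      have h1 : (0 : ℝ) < a.1 := (pow_pos hP0' (j + 1)).trans_le ha1
      exact_mod_cast h1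
    set G : Finset (ℕ × ℕ) := (Q.filter fun x => f x = a).image fun x => x.1 with hG
    have hcard : (Q.filter fun x => f x = a).card = G.card := by
      rw [hG, Finset.card_image_of_injOn]
      intro x hx y hy hxy
      rw [Finset.mem_coe, Finset.mem_filter] at hx hy
      have hxy' : x.1 = y.1 := hxy
      have hp : 0 < x.1.1 := hP0.trans (hT x.1 (key x hx.1).1).2.1
      have e1 : x.1.1 * x.2.1 = a.1 := congrArg Prod.fst hx.2
      have e2 : y.1.1 * y.2.1 = a.1 := congrArg Prod.fst hy.2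
      have e3 : (f x).2 = a.2 := by rw [hx.2]
      have e4 : (f y).2 = a.2 := by rw [hy.2]
      have e5 : x.2.1 = y.2.1 := by
        rw [← hxy', ← e1] at e2
        exact (Nat.eq_of_mul_eq_mul_left hp e2).symm
      have e6 : x.2 = y.2 := Prod.ext e5 (e3.trans e4.symm)
      exact Sigma.ext hxy' (heq_of_eq e6)
    have hGmem : ∀ t ∈ G, t ∈ T ∧ t.1 ∣ a.1 := by
      intro t ht
      rw [hG, Finset.mem_image] at ht
      obtain ⟨x, hx, rfl⟩ := ht
      rw [Finset.mem_filter] at hx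
      exact ⟨(key x hx.1).1, ⟨x.2.1, (congrArg Prod.fst hx.2).symm⟩⟩
    have h1 : G.card ≤ (⌊2 * C⌋₊ + 1) * (G.image Prod.fst).card := by
      refine Finset.card_le_mul_card_image G _ fun p hp => ?_
      have hp' := hp
      rw [Finset.mem_image] at hp'
      obtain ⟨t0, ht0, ht0p⟩ := hp'
      have hPp : P < p := by
        rw [← ht0p]
        exact (hT t0 (hGmem t0 ht0).1).2.1
      have hinj : (G.filter fun x => Prod.fst x = p).card =
          ((G.filter fun x => Prod.fst x = p).image Prod.snd).card := by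
        rw [Finset.card_image_of_injOn]
        intro x hx y hy hxy
        rw [Finset.mem_coe, Finset.mem_filter] at hx hy
        exact Prod.ext (hx.2.trans hy.2.symm) hxy
      rw [hinj]
      refine Chain_cardK (X := (M : ℝ) * P) hC hP0 hPp _ fun K hK => ?_
      rw [Finset.mem_image] at hK
      obtain ⟨t, ht, rfl⟩ := hK
      rw [Finset.mem_filter] at ht
      have := (hT t (hGmem t ht.1).1).2.2.2.1
      rw [← ht.2]
      exact this
    have h2 : (G.image Prod.fst).card ≤ j + 1 := by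
      refine Chain_cardP hP ha0 ha2 _ fun p hp => ?_
      rw [Finset.mem_image] at hp
      obtain ⟨t, ht, rfl⟩ := hp
      obtain ⟨htT, htd⟩ := hGmem t ht
      exact ⟨(hT t htT).1, (hT t htT).2.1, htd⟩
    rw [hcard]
    exact h1.trans (Nat.mul_le_mul_left _ h2)
  have hcardQ : Q.card ≤ ((⌊2 * C⌋₊ + 1) * (j + 1)) * (Q.image f).card :=
    Finset.card_le_mul_card_image Q _ hfib
  have hQc : (T.card : ℝ) * m ≤ Q.card := by
    rw [hQ, Finset.card_sigma]
    push_cast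
    calc (T.card : ℝ) * m = ∑ _t ∈ T, m := by rw [Finset.sum_const, nsmul_eq_mul]
      _ ≤ ∑ t ∈ T, ((S t.2).card : ℝ) := Finset.sum_le_sum fun t ht => (hT t ht).2.2.2.2.2.2
  have hC2 : ((⌊2 * C⌋₊ : ℕ) : ℝ) ≤ 2 * C := Nat.floor_le (by linarith)
  have hpos : (0 : ℝ) < (j + 1) * (2 * C + 1) := by
    have : (0 : ℝ) ≤ j := Nat.cast_nonneg j
    positivity
  rw [div_le_iff₀ hpos]
  have h3 : (Q.card : ℝ) ≤ ((⌊2 * C⌋₊ : ℝ) + 1) * (j + 1) * (Q.image f).card := by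
    exact_mod_cast hcardQ
  have h4 : ((⌊2 * C⌋₊ : ℝ) + 1) * (j + 1) * (Q.image f).card ≤
      (2 * C + 1) * (j + 1) * (Q.image f).card := by
    have : (0 : ℝ) ≤ j := Nat.cast_nonneg j
    refine mul_le_mul_of_nonneg_right (mul_le_mul_of_nonneg_right ?_ ?_) (Nat.cast_nonneg _)
    · linarith
    · linarith
  calc (T.card : ℝ) * m ≤ Q.card := hQc
    _ ≤ _ := h3
    _ ≤ _ := h4
    _ = ((Q.image f).card : ℝ) * ((j + 1) * (2 * C + 1)) := by ring

end Pool.Agent.H53.MID
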