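import Mathlib

/-!
# MID CoDeg: two vertices of different label with many common neighbours

Proof.  `deg u = #{v : (v,u) ∈ E}`; `∑_{u ∈ V} (deg u)^2 ≥ |E|^2/|V| ≥ δ^2 P^3/b` (Cauchy-Schwarz, `|E| = ∑ deg u`).  This counts the
triples `(u, v, v')` with `(v,u), (v',u) ∈ E`.  Those with `pr v = pr v'`: for `(v,u) ∈ E` at most `b` choices of `v'` (`hfib`), so at
most `|E| b ≤ |V|^2 b ≤ b^3 P^2 ≤ δ^2 P^3/(2b)` by `hPbig`.  So `∑_{(v,v') ∈ V^2, pr v ≠ pr v'} codeg(v,v') ≥ δ^2 P^3/(2b)`, there are at most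
`(b P)^2` pairs, so some pair has `codeg ≥ δ^2 P/(2 b^3)`.
-/

set_option autoImplicit false

namespace Pool.Agent.H53.MID

open Finset

theorem codeg {ι : Type*} [DecidableEq ι] (V : Finset ι) (pr : ι → ℕ) (E : Finset (ι × ι)) (b P δ : ℝ)
    (hb : 1 ≤ b) (hP : 0 < P) (hδ : 0 < δ) (hV : (V.card : ℝ) ≤ b * P)
    (hfib : ∀ v ∈ V, ((V.filter (fun u => pr u = pr v)).card : ℝ) ≤ b)
    (hE : E ⊆ V ×ˢ V) (hcard : δ * P ^ 2 ≤ E.card) (hPbig : 2 * b ^ 4 ≤ δ ^ 2 * P) :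
    ∃ v ∈ V, ∃ v' ∈ V, pr v ≠ pr v' ∧
      δ ^ 2 * P / (2 * b ^ 3) ≤ ((V.filter (fun u => (v, u) ∈ E ∧ (v', u) ∈ E)).card : ℝ) := by
  classical
  set I : ι → ι → ℝ := fun v u => if (v, u) ∈ E then 1 else 0 with hI
  have hI0 : ∀ v u, 0 ≤ I v u := fun v u => by
    simp only [hI]
    split_ifs <;> norm_num
  have hI1 : ∀ v u, I v u ≤ 1 := fun v u => by
    simp only [hI]
    split_ifs <;> norm_num
  -- the number of edges
  have hEc : (E.card : ℝ) = ∑ v ∈ V, ∑ u ∈ V, I v u := by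
    have h1 : E = (V ×ˢ V).filter (fun p => p ∈ E) := by
      ext p
      rw [Finset.mem_filter]
      exact ⟨fun h => ⟨hE h, h⟩, fun h => h.2⟩
    rw [← Finset.sum_product' V V I]
    conv_lhs => rw [h1]
    rw [Finset.card_filter]
    push_cast
    rfl
  have hcod : ∀ v v', ((V.filter (fun u => (v, u) ∈ E ∧ (v', u) ∈ E)).card : ℝ) =
      ∑ u ∈ V, I v u * I v' u := by
    intro v v'
    rw [Finset.card_filter]
    push_cast
    refine Finset.sum_congr rfl fun u _ => ?_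
    simp only [hI]
    by_cases h1 : (v, u) ∈ E <;> by_cases h2 : (v', u) ∈ E <;> simp [h1, h2]
  -- Cauchy-Schwarz
  have hVnn : (0 : ℝ) ≤ V.card := Nat.cast_nonneg _
  have hcs : (E.card : ℝ) ^ 2 ≤ V.card * ∑ v ∈ V, ∑ v' ∈ V, ∑ u ∈ V, I v u * I v' u := by
    rw [hEc, Finset.sum_comm]
    refine sq_sum_le_card_mul_sum_sq.trans (le_of_eq ?_)
    congr 1
    have h1 : ∀ u ∈ V, (∑ v ∈ V, I v u) ^ 2 = ∑ v ∈ V, ∑ v' ∈ V, I v u * I v' u := fun u _ => by
      rw [sq, Finset.sum_mul_sum]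
    rw [Finset.sum_congr rfl h1, Finset.sum_comm]
    refine Finset.sum_congr rfl fun v _ => ?_
    rw [Finset.sum_comm]
  have hEV : (E.card : ℝ) ≤ (b * P) ^ 2 := by
    have h1 : E.card ≤ V.card * V.card := by
      rw [← Finset.card_product]
      exact Finset.card_le_card hE
    have h2 : (E.card : ℝ) ≤ (V.card : ℝ) * V.card := by exact_mod_cast h1
    refine h2.trans ?_
    rw [← sq]
    exact pow_le_pow_left₀ hVnn hV 2
  -- the pairs with the same label
  have hsame : ∑ v ∈ V, ∑ v' ∈ V.filter (fun v' => pr v' = pr v), ∑ u ∈ V, I v u * I v' u ≤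
      b * E.card := by
    have h1 : ∀ v ∈ V, ∑ v' ∈ V.filter (fun v' => pr v' = pr v), ∑ u ∈ V, I v u * I v' u ≤
        b * ∑ u ∈ V, I v u := by
      intro v hv
      have hs0 : 0 ≤ ∑ u ∈ V, I v u := Finset.sum_nonneg fun u _ => hI0 v u
      calc ∑ v' ∈ V.filter (fun v' => pr v' = pr v), ∑ u ∈ V, I v u * I v' u
          ≤ ∑ v' ∈ V.filter (fun v' => pr v' = pr v), ∑ u ∈ V, I v u := by
            refine Finset.sum_le_sum fun v' _ => Finset.sum_le_sum fun u _ => ?_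
            have := mul_le_mul_of_nonneg_left (hI1 v' u) (hI0 v u)
            rwa [mul_one] at this
        _ = ((V.filter (fun v' => pr v' = pr v)).card : ℝ) * ∑ u ∈ V, I v u := by
            rw [Finset.sum_const, nsmul_eq_mul]
        _ ≤ b * ∑ u ∈ V, I v u := mul_le_mul_of_nonneg_right (hfib v hv) hs0
    refine (Finset.sum_le_sum h1).trans (le_of_eq ?_)
    rw [← Finset.mul_sum, hEc]
  have hsplit : ∑ v ∈ V, ∑ v' ∈ V, ∑ u ∈ V, I v u * I v' u =
      ∑ v ∈ V, ∑ v' ∈ V.filter (fun v' => pr v' = pr v), ∑ u ∈ V, I v u * I v' u +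
      ∑ v ∈ V, ∑ v' ∈ V.filter (fun v' => ¬ pr v' = pr v), ∑ u ∈ V, I v u * I v' u := by
    rw [← Finset.sum_add_distrib]
    exact Finset.sum_congr rfl fun v _ => (Finset.sum_filter_add_sum_filter_not V _ _).symm
  set S : ℝ := ∑ v ∈ V, ∑ v' ∈ V, ∑ u ∈ V, I v u * I v' u with hS
  set S' : ℝ := ∑ v ∈ V, ∑ v' ∈ V.filter (fun v' => ¬ pr v' = pr v), ∑ u ∈ V, I v u * I v' u
    with hS'
  have hS0 : 0 ≤ S := Finset.sum_nonneg fun v _ => Finset.sum_nonneg fun v' _ =>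
    Finset.sum_nonneg fun u _ => mul_nonneg (hI0 v u) (hI0 v' u)
  -- the lower bound
  have hlow : δ ^ 2 * P ^ 3 / b ≤ S := by
    have h1 : (δ * P ^ 2) ^ 2 ≤ b * P * S := by
      calc (δ * P ^ 2) ^ 2 ≤ (E.card : ℝ) ^ 2 := pow_le_pow_left₀ (by positivity) hcard 2
        _ ≤ V.card * S := hcs
        _ ≤ b * P * S := mul_le_mul_of_nonneg_right hV hS0
    rw [div_le_iff₀ (by linarith)]
    have h2 : P * (δ ^ 2 * P ^ 3) ≤ P * (S * b) := by nlinarith [h1]
    exact le_of_mul_le_mul_left h2 hP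
  have hb0 : 0 < b := by linarith
  have hbE : b * (E.card : ℝ) ≤ δ ^ 2 * P ^ 3 / (2 * b) := by
    rw [le_div_iff₀ (by positivity)]
    have h1 : b * (E.card : ℝ) * (2 * b) ≤ b * (b * P) ^ 2 * (2 * b) := by gcongr
    refine h1.trans ?_
    have h2 : P ^ 2 * (2 * b ^ 4) ≤ P ^ 2 * (δ ^ 2 * P) :=
      mul_le_mul_of_nonneg_left hPbig (by positivity)
    nlinarith [h2]
  have hhalf : δ ^ 2 * P ^ 3 / b = δ ^ 2 * P ^ 3 / (2 * b) + δ ^ 2 * P ^ 3 / (2 * b) := by
    field_simp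
    norm_num
  have hS'low : δ ^ 2 * P ^ 3 / (2 * b) ≤ S' := by
    have : S = _ := hsplit
    linarith
  by_contra hcon
  push Not at hcon
  set M : ℝ := δ ^ 2 * P / (2 * b ^ 3) with hM
  have hM0 : 0 < M := by positivity
  have hpos : 0 < δ ^ 2 * P ^ 3 / (2 * b) := by positivity
  have hup : S' < (b * P) ^ 2 * M := by
    have h1 : ∀ v ∈ V, ∑ v' ∈ V.filter (fun v' => ¬ pr v' = pr v), ∑ u ∈ V, I v u * I v' u ≤
        (V.filter (fun v' => ¬ pr v' = pr v)).card * M := by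
      intro v hv
      rw [← nsmul_eq_mul, ← Finset.sum_const]
      refine Finset.sum_le_sum fun v' hv' => ?_
      rw [Finset.mem_filter] at hv'
      rw [← hcod]
      exact (hcon v hv v' hv'.1 (fun h => hv'.2 h.symm)).le
    -- some pair contributes
    have h2 : ∃ v ∈ V, ∃ v' ∈ V.filter (fun v' => ¬ pr v' = pr v), True := by
      by_contra hno
      push Not at hno
      have : S' = 0 := by
        rw [hS']
        refine Finset.sum_eq_zero fun v hv => ?_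
        exact Finset.sum_eq_zero fun v' hv' => (hno v hv v' hv').elim
      linarith
    obtain ⟨v₀, hv₀, v₁, hv₁, -⟩ := h2
    have h3 : S' < ∑ v ∈ V, ((V.filter (fun v' => ¬ pr v' = pr v)).card : ℝ) * M := by
      rw [hS']
      refine Finset.sum_lt_sum h1 ⟨v₀, hv₀, ?_⟩
      rw [← nsmul_eq_mul, ← Finset.sum_const]
      refine Finset.sum_lt_sum_of_nonempty ⟨v₁, hv₁⟩ fun v' hv' => ?_
      rw [Finset.mem_filter] at hv'
      rw [← hcod]
      exact hcon v₀ hv₀ v' hv'.1 (fun h => hv'.2 h.symm)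
    refine h3.trans_le ?_
    calc ∑ v ∈ V, ((V.filter (fun v' => ¬ pr v' = pr v)).card : ℝ) * M
        ≤ ∑ v ∈ V, (V.card : ℝ) * M := by
          refine Finset.sum_le_sum fun v _ => ?_
          have : ((V.filter (fun v' => ¬ pr v' = pr v)).card : ℝ) ≤ V.card := by
            exact_mod_cast Finset.card_filter_le _ _
          gcongr
      _ = (V.card : ℝ) ^ 2 * M := by
          rw [Finset.sum_const, nsmul_eq_mul]
          ring
      _ ≤ (b * P) ^ 2 * M := by gcongr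
  have heq : (b * P) ^ 2 * M = δ ^ 2 * P ^ 3 / (2 * b) := by
    rw [hM]
    field_simp
  linarith

end Pool.Agent.H53.MID
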