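import Pool.Agent.H53.MID.Nz

/-!
# MID Edges: many scales `M` with many edges

For `M : ℕ` let `VM C P F M = {(p, K) : p ∈ (P, 2P] prime, K ∈ F, |K p - M P| ≤ (2C+1) P}` and
`EM C P F R M` = the pairs `((p,K), (p',K'))` in `VM × VM` with `p ≠ p'` such that `(K, p', G), (K', p, G) ∈ R` for some `G`.

`VM_fib`: for every `p` there are at most `4C+3` elements `(p, K)` in `VM` (`|K - M P/p| ≤ (2C+1) P/p ≤ 2C+1`; number of integers in a closed
interval of length `≤ 4C+2` is `≤ 4C+3`).  `VM_card`: `|VM| ≤ (4C+3) P` (at most `P` values of `p`).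
`edges` proof.  `N(G) = {(K,p') : (K,p',G) ∈ R}`, `∑_G |N(G)| = |R| ≥ δ n P`, `|F'| ≤ C n` (`rngF'`: `F' ⊆ [1, C n]`, as `K ≥ n/C > 0`), so
`∑_G |N(G)|^2 ≥ |R|^2/|F'| ≥ δ^2 n P^2/C`.
A pair `(K,p'), (K',p) ∈ N(G)`, `p ≠ p'`, is mapped to `M = ⌊G p p'/P^2⌋` and the edge `((p,K),(p',K'))` of `EM M`:
`|G p' - K P| ≤ C P` gives `|G p p'/P^2 - K p/P| ≤ C p/P ≤ 2C`, so `|K p - M P| ≤ (2C+1) P`, the same for `(p',K')`.
At most `2C+1` values `G` give the same `(M, (p,K), (p',K'))` (`|G - K P/p'| ≤ C P/p' < C`).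
Pairs with `p = p'`: given `(K,p,G) ∈ R` at most `2C+1` values `K'` (`|G p - K' P| ≤ C P`), and `|R| ≤ |F| P (2C+1) ≤ C (2C+1) n P`; in total
`≤ C (2C+1)^2 n P ≤ δ^2 n P^2/(2C)` as `P ≥ D/δ^4`.  So `∑_M |EM M| ≥ κ n P^2`, `κ = δ^2/(2C(2C+1))`.
`M ≥ G ≥ n/C` (`p p' ≥ P^2`) and `M ≤ 4 G ≤ 4 C n`: at most `4 C n + 1 ≤ 5 C n` values `M`.  Those with `|EM M| < κ P^2/(10 C)` contribute at most
`κ n P^2/2`, the others at most `((4C+3) P)^2` each, so the set `F''` of the `M` with `|EM M| ≥ κ P^2/(10C)` has `≥ κ n/(2 (4C+3)^2)` elements.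
Take `D` large (any explicit polynomial in `C`, for example `D = 10^6 C^6`).
-/

set_option autoImplicit false

namespace Pool.Agent.H53.MID

open Finset

/-- the vertices `(p, K)` at `M` -/
noncomputable def VM (C : ℝ) (P : ℕ) (F : Finset ℕ) (M : ℕ) : Finset (ℕ × ℕ) :=
  (((Ioc P (2 * P)).filter Nat.Prime) ×ˢ F).filter
    (fun v => |(v.2 : ℝ) * v.1 - M * P| ≤ (2 * C + 1) * P)

open Classical in
/-- the edges at `M` -/
noncomputable def EM (C : ℝ) (P : ℕ) (F : Finset ℕ) (R : Finset (ℕ × ℕ × ℕ)) (M : ℕ) :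
    Finset ((ℕ × ℕ) × (ℕ × ℕ)) :=
  (VM C P F M ×ˢ VM C P F M).filter
    (fun e => e.1.1 ≠ e.2.1 ∧ ∃ G : ℕ, (e.1.2, e.2.1, G) ∈ R ∧ (e.2.2, e.1.1, G) ∈ R)

private theorem Edges_count (S : Finset ℕ) (x r : ℝ) (hr : 0 ≤ r)
    (h : ∀ k ∈ S, |(k : ℝ) - x| ≤ r) : (S.card : ℝ) ≤ 2 * r + 1 := by
  rcases S.eq_empty_or_nonempty with rfl | hS
  · simp only [card_empty, Nat.cast_zero]
    linarith
  · have h1 : S ⊆ Icc (S.min' hS) (S.max' hS) :=
      fun k hk => Finset.mem_Icc.2 ⟨S.min'_le k hk, S.le_max' k hk⟩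
    have h2 := Finset.card_le_card h1
    rw [Nat.card_Icc] at h2
    have h3 := h _ (S.min'_mem hS)
    have h4 := h _ (S.max'_mem hS)
    have h5 : S.min' hS ≤ S.max' hS := S.min'_le _ (S.max'_mem hS)
    have h6 : (S.card : ℝ) ≤ (S.max' hS : ℝ) + 1 - S.min' hS := by
      have h7 : S.card + S.min' hS ≤ S.max' hS + 1 := by omega
      have h8 : ((S.card + S.min' hS : ℕ) : ℝ) ≤ ((S.max' hS + 1 : ℕ) : ℝ) := by exact_mod_cast h7
      push_cast at h8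
      linarith
    rw [abs_le] at h3 h4
    linarith [h3.1, h4.2]

private theorem Edges_cnt {α : Type*} (S : Finset α) (g : α → ℕ)
    (hg : ∀ a ∈ S, ∀ a' ∈ S, g a = g a' → a = a') (x r : ℝ) (hr : 0 ≤ r)
    (h : ∀ a ∈ S, |(g a : ℝ) - x| ≤ r) : (S.card : ℝ) ≤ 2 * r + 1 := by
  classical
  have h1 : (S.image g).card = S.card := Finset.card_image_of_injOn fun a ha a' ha' => hg a ha a' ha'
  rw [← h1]
  refine Edges_count _ x r hr fun k hk => ?_
  obtain ⟨a, ha, rfl⟩ := Finset.mem_image.1 hk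
  exact h a ha

private theorem Edges_fib {α β : Type*} [DecidableEq β] {s : Finset α} {t : Finset β} (f : α → β)
    (c : ℝ) (hm : ∀ a ∈ s, f a ∈ t) (hf : ∀ b ∈ t, ((s.filter (fun a => f a = b)).card : ℝ) ≤ c) :
    (s.card : ℝ) ≤ c * t.card := by
  have h1 : s.card = ∑ b ∈ t, (s.filter (fun a => f a = b)).card :=
    Finset.card_eq_sum_card_fiberwise fun a ha => hm a ha
  rw [h1]
  push_cast
  calc ∑ b ∈ t, ((s.filter (fun a => f a = b)).card : ℝ) ≤ ∑ _b ∈ t, c := Finset.sum_le_sum hf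
    _ = c * t.card := by rw [Finset.sum_const, nsmul_eq_mul, mul_comm]

/-- `|k - y / q| ≤ r` from `|k q - y| ≤ r P` and `P ≤ q`. -/
private theorem Edges_div {k y q r P : ℝ} (hP : 0 < P) (hq : P ≤ q) (hr : 0 ≤ r)
    (h : |k * q - y| ≤ r * P) : |k - y / q| ≤ r := by
  have hq0 : 0 < q := lt_of_lt_of_le hP hq
  have h1 : k - y / q = (k * q - y) / q := by field_simp
  rw [h1, abs_div, abs_of_pos hq0, div_le_iff₀ hq0]
  exact h.trans (mul_le_mul_of_nonneg_left hq hr)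

theorem VM_fib (C : ℝ) (hC : 1 ≤ C) (P : ℕ) (F : Finset ℕ) (M p : ℕ) (hP : 1 ≤ P) :
    (((VM C P F M).filter (fun v => v.1 = p)).card : ℝ) ≤ 4 * C + 3 := by
  have hP0 : (0 : ℝ) < P := by exact_mod_cast hP
  have h1 : (((VM C P F M).filter (fun v => v.1 = p)).card : ℝ) ≤ 2 * (2 * C + 1) + 1 := by
    refine Edges_cnt _ Prod.snd ?_ ((M : ℝ) * P / p) (2 * C + 1) (by linarith) ?_
    · intro a ha a' ha' haa
      have h1 := (Finset.mem_filter.1 ha).2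
      have h2 := (Finset.mem_filter.1 ha').2
      exact Prod.ext (h1.trans h2.symm) haa
    · intro a ha
      obtain ⟨ha1, ha2⟩ := Finset.mem_filter.1 ha
      unfold VM at ha1
      rw [Finset.mem_filter, Finset.mem_product, Finset.mem_filter, Finset.mem_Ioc] at ha1
      obtain ⟨⟨⟨⟨h3, _⟩, _⟩, _⟩, h4⟩ := ha1
      rw [ha2] at h3 h4
      have h5 : (P : ℝ) ≤ p := by exact_mod_cast h3.le
      exact Edges_div hP0 h5 (by linarith) h4
  linarith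

theorem VM_card (C : ℝ) (hC : 1 ≤ C) (P : ℕ) (F : Finset ℕ) (M : ℕ) (hP : 1 ≤ P) :
    ((VM C P F M).card : ℝ) ≤ (4 * C + 3) * P := by
  have h1 : ((VM C P F M).card : ℝ) ≤ (4 * C + 3) * ((Ioc P (2 * P)).card : ℕ) := by
    refine Edges_fib Prod.fst (4 * C + 3) ?_ fun p _ => VM_fib C hC P F M p hP
    intro a ha
    unfold VM at ha
    rw [Finset.mem_filter, Finset.mem_product, Finset.mem_filter] at ha
    exact ha.1.1.1
  have h2 : (Ioc P (2 * P)).card = P := by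
    rw [Nat.card_Ioc]
    omega
  rw [h2] at h1
  exact h1

private theorem Edges_mem {C : ℝ} {P : ℕ} (hC : 1 ≤ C) (hP : 1 ≤ P) {F : Finset ℕ} {K G p p' M : ℕ}
    (hK : K ∈ F) (hp : p.Prime) (hp1 : P < p) (hp2 : p ≤ 2 * P)
    (h : |(G : ℝ) * p' - K * P| ≤ C * P)
    (hM : |(M : ℝ) * (P : ℝ) ^ 2 - G * p * p'| ≤ (P : ℝ) ^ 2) : (p, K) ∈ VM C P F M := by
  have hP0 : (0 : ℝ) < P := by exact_mod_cast hP
  unfold VM
  rw [Finset.mem_filter, Finset.mem_product, Finset.mem_filter, Finset.mem_Ioc]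
  refine ⟨⟨⟨⟨hp1, hp2⟩, hp⟩, hK⟩, ?_⟩
  have hp3 : (p : ℝ) ≤ 2 * P := by exact_mod_cast hp2
  have hp4 : (0 : ℝ) ≤ p := Nat.cast_nonneg p
  have h1 : ((K : ℝ) * p - M * P) * P =
      -(((G : ℝ) * p' - K * P) * p) - (M * (P : ℝ) ^ 2 - G * p * p') := by ring
  have h2 : |((K : ℝ) * p - M * P) * P| ≤ (2 * C + 1) * P * P := by
    rw [h1]
    have h3 : |-(((G : ℝ) * p' - K * P) * p) - (M * (P : ℝ) ^ 2 - G * p * p')| ≤
        |((G : ℝ) * p' - K * P) * p| + |M * (P : ℝ) ^ 2 - G * p * p'| := by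
      have := abs_sub (-(((G : ℝ) * p' - K * P) * p)) (M * (P : ℝ) ^ 2 - G * p * p')
      rwa [abs_neg] at this
    have h4 : |((G : ℝ) * p' - K * P) * p| ≤ C * P * (2 * P) := by
      rw [abs_mul, abs_of_nonneg hp4]
      exact mul_le_mul h hp3 hp4 (by positivity)
    nlinarith
  rw [abs_mul, abs_of_pos hP0] at h2
  exact le_of_mul_le_mul_right h2 hP0

private theorem Edges_card {C : ℝ} {n : ℕ} (hC : 1 ≤ C) (hn : 1 ≤ n) {F : Finset ℕ}
    (h : ∀ K ∈ F, (n : ℝ) / C ≤ K ∧ (K : ℝ) ≤ C * n) : (F.card : ℝ) ≤ C * n := by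
  have hn0 : (0 : ℝ) < n := by exact_mod_cast hn
  have h1 : F ⊆ Icc 1 ⌊C * n⌋₊ := by
    intro K hK
    obtain ⟨h2, h3⟩ := h K hK
    rw [Finset.mem_Icc]
    refine ⟨?_, Nat.le_floor h3⟩
    have h4 : (0 : ℝ) < K := lt_of_lt_of_le (by positivity) h2
    have h5 : 0 < K := by exact_mod_cast h4
    omega
  have h2 := Finset.card_le_card h1
  rw [Nat.card_Icc, Nat.add_sub_cancel] at h2
  have h3 : ((F.card : ℕ) : ℝ) ≤ (⌊C * n⌋₊ : ℕ) := by exact_mod_cast h2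
  exact h3.trans (Nat.floor_le (by positivity))

/-- the number of triples -/
private theorem Edges_R {C : ℝ} (hC : 1 ≤ C) {n P : ℕ} {η : ℝ} {F F' : Finset ℕ} {α α' : ℕ → ℝ}
    {R : Finset (ℕ × ℕ × ℕ)} (h : Rel C n P η F F' α α' R) (hn : 1 ≤ n) (hP : 1 ≤ P) :
    (R.card : ℝ) ≤ (2 * C + 1) * (C * n * P) := by
  have hP0 : (0 : ℝ) < P := by exact_mod_cast hP
  have h1 : (R.card : ℝ) ≤ (2 * C + 1) * ((F ×ˢ Ioc P (2 * P)).card : ℕ) := by
    refine Edges_fib (fun t => (t.1, t.2.1)) (2 * C + 1) ?_ ?_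
    · intro t ht
      rw [Finset.mem_product, Finset.mem_Ioc]
      exact ⟨h.memF t ht, (h.prime t ht).2⟩
    · intro b hb
      rw [Finset.mem_product, Finset.mem_Ioc] at hb
      refine Edges_cnt _ (fun t => t.2.2) ?_ ((b.1 : ℝ) * P / b.2) C (by linarith) ?_
      · intro a ha a' ha' haa
        have h1 := (Finset.mem_filter.1 ha).2.trans (Finset.mem_filter.1 ha').2.symm
        simp only [Prod.mk.injEq] at h1
        exact Prod.ext h1.1 (Prod.ext h1.2 haa)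
      · intro a ha
        obtain ⟨ha1, ha2⟩ := Finset.mem_filter.1 ha
        have h3 := h.pos a ha1
        rw [← ha2]
        have h4 : (P : ℝ) ≤ a.2.1 := by exact_mod_cast (h.prime a ha1).2.1.le
        exact Edges_div hP0 h4 (by linarith) h3
  have h2 : (Ioc P (2 * P)).card = P := by
    rw [Nat.card_Ioc]
    omega
  rw [Finset.card_product, h2] at h1
  push_cast at h1
  refine h1.trans (mul_le_mul_of_nonneg_left ?_ (by linarith))
  exact mul_le_mul_of_nonneg_right (Edges_card hC hn h.rngF) hP0.le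

/-- pairs of triples with the same `G` -/
private def Edges_Q (R : Finset (ℕ × ℕ × ℕ)) : Finset ((ℕ × ℕ × ℕ) × (ℕ × ℕ × ℕ)) :=
  (R ×ˢ R).filter (fun q => q.1.2.2 = q.2.2.2)

private theorem Edges_CS (R : Finset (ℕ × ℕ × ℕ)) (F' : Finset ℕ) (h : ∀ t ∈ R, t.2.2 ∈ F') :
    (R.card : ℝ) ^ 2 ≤ F'.card * (Edges_Q R).card := by
  have h1 : R.card = ∑ G ∈ F', (R.filter (fun t => t.2.2 = G)).card :=
    Finset.card_eq_sum_card_fiberwise fun a ha => h a ha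
  have h2 : (Edges_Q R).card = ∑ G ∈ F', ((Edges_Q R).filter (fun q => q.1.2.2 = G)).card := by
    refine Finset.card_eq_sum_card_fiberwise fun a ha => ?_
    have h3 := (Finset.mem_filter.1 (show a ∈ (R ×ˢ R).filter (fun q => q.1.2.2 = q.2.2.2) from ha)).1
    exact h a.1 (Finset.mem_product.1 h3).1
  have h3 : ∀ G ∈ F', ((Edges_Q R).filter (fun q => q.1.2.2 = G)).card =
      (R.filter (fun t => t.2.2 = G)).card ^ 2 := by
    intro G _
    rw [pow_two, ← Finset.card_product]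
    congr 1
    ext q
    unfold Edges_Q
    simp only [Finset.mem_filter, Finset.mem_product]
    constructor
    · rintro ⟨⟨⟨h1, h2⟩, h3⟩, h4⟩
      exact ⟨⟨h1, h4⟩, h2, h3 ▸ h4⟩
    · rintro ⟨⟨h1, h4⟩, h2, h5⟩
      exact ⟨⟨⟨h1, h2⟩, h4.trans h5.symm⟩, h4⟩
  rw [h2, Finset.sum_congr rfl h3, h1]
  push_cast
  exact sq_sum_le_card_mul_sum_sq

/-- pairs with the same `p` -/
private theorem Edges_Q0 {C : ℝ} (hC : 1 ≤ C) {n P : ℕ} {η : ℝ} {F F' : Finset ℕ} {α α' : ℕ → ℝ}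
    {R : Finset (ℕ × ℕ × ℕ)} (h : Rel C n P η F F' α α' R) (hP : 1 ≤ P) :
    (((Edges_Q R).filter (fun q => q.1.2.1 = q.2.2.1)).card : ℝ) ≤ (2 * C + 1) * R.card := by
  have hP0 : (0 : ℝ) < P := by exact_mod_cast hP
  refine Edges_fib Prod.fst (2 * C + 1) ?_ ?_
  · intro q hq
    unfold Edges_Q at hq
    rw [Finset.mem_filter, Finset.mem_filter, Finset.mem_product] at hq
    exact hq.1.1.1
  · intro t ht
    refine Edges_cnt _ (fun q => q.2.1) ?_ ((t.2.2 : ℝ) * t.2.1 / P) C (by linarith) ?_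
    · intro a ha a' ha' haa
      unfold Edges_Q at ha ha'
      simp only [Finset.mem_filter, Finset.mem_product] at ha ha'
      obtain ⟨⟨⟨⟨_, _⟩, a1⟩, a2⟩, a3⟩ := ha
      obtain ⟨⟨⟨⟨_, _⟩, a1'⟩, a2'⟩, a3'⟩ := ha'
      refine Prod.ext (a3.trans a3'.symm) (Prod.ext haa (Prod.ext ?_ ?_))
      · rw [← a2, ← a2', a3, a3']
      · rw [← a1, ← a1', a3, a3']
    · intro a ha
      unfold Edges_Q at ha
      simp only [Finset.mem_filter, Finset.mem_product] at ha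
      obtain ⟨⟨⟨⟨_, b1⟩, a1⟩, a2⟩, a3⟩ := ha
      have h3 := h.pos a.2 b1
      rw [← a1, ← a2, a3] at h3
      rw [abs_sub_comm] at h3
      exact Edges_div hP0 le_rfl (by linarith) h3

private theorem Edges_floor {G p p' P n : ℕ} {C : ℝ} (hP : 1 ≤ P) (hp1 : P < p)
    (hp2 : p ≤ 2 * P) (hp1' : P < p') (hp2' : p' ≤ 2 * P) (h1 : (n : ℝ) / C ≤ G)
    (h2 : (G : ℝ) ≤ C * n) : ∃ M : ℕ, M = ⌊(G : ℝ) * p * p' / (P : ℝ) ^ 2⌋₊ ∧
      |(M : ℝ) * (P : ℝ) ^ 2 - G * p * p'| ≤ (P : ℝ) ^ 2 ∧ (n : ℝ) / C ≤ M ∧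
      (M : ℝ) ≤ 4 * C * n := by
  have hP0 : (0 : ℝ) < P := by exact_mod_cast hP
  have hG0 : (0 : ℝ) ≤ G := Nat.cast_nonneg G
  have a1 : (P : ℝ) ≤ p := by exact_mod_cast hp1.le
  have a2 : (p : ℝ) ≤ 2 * P := by exact_mod_cast hp2
  have a1' : (P : ℝ) ≤ p' := by exact_mod_cast hp1'.le
  have a2' : (p' : ℝ) ≤ 2 * P := by exact_mod_cast hp2'
  have hx0 : 0 ≤ (G : ℝ) * p * p' / (P : ℝ) ^ 2 := by positivity
  refine ⟨_, rfl, ?_, ?_, ?_⟩
  · have b1 := Nat.floor_le hx0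
    have b2 := Nat.lt_floor_add_one ((G : ℝ) * p * p' / (P : ℝ) ^ 2)
    rw [le_div_iff₀ (by positivity)] at b1
    rw [div_lt_iff₀ (by positivity)] at b2
    rw [abs_le]
    constructor <;> linarith
  · have b1 : (P : ℝ) ^ 2 ≤ (p : ℝ) * p' := by
      rw [pow_two]
      exact mul_le_mul a1 a1' hP0.le (by linarith)
    have b2 : G ≤ ⌊(G : ℝ) * p * p' / (P : ℝ) ^ 2⌋₊ := by
      apply Nat.le_floor
      rw [le_div_iff₀ (by positivity), mul_assoc]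
      exact mul_le_mul_of_nonneg_left b1 hG0
    have b3 : (G : ℝ) ≤ (⌊(G : ℝ) * p * p' / (P : ℝ) ^ 2⌋₊ : ℕ) := by exact_mod_cast b2
    exact h1.trans b3
  · have b1 : (p : ℝ) * p' ≤ 4 * (P : ℝ) ^ 2 := by
      calc (p : ℝ) * p' ≤ 2 * P * (2 * P) := mul_le_mul a2 a2' (by linarith) (by linarith)
        _ = 4 * (P : ℝ) ^ 2 := by ring
    refine (Nat.floor_le hx0).trans ?_
    rw [div_le_iff₀ (by positivity), mul_assoc]
    calc (G : ℝ) * (p * p') ≤ (G : ℝ) * (4 * (P : ℝ) ^ 2) := mul_le_mul_of_nonneg_left b1 hG0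
      _ ≤ C * n * (4 * (P : ℝ) ^ 2) := mul_le_mul_of_nonneg_right h2 (by positivity)
      _ = 4 * C * n * (P : ℝ) ^ 2 := by ring

/-- the scales -/
private noncomputable def Edges_S (C : ℝ) (n : ℕ) : Finset ℕ :=
  (range (⌊4 * C * n⌋₊ + 1)).filter (fun M => (n : ℝ) / C ≤ M)

private theorem Edges_memS {C : ℝ} {n M : ℕ} (h1 : (n : ℝ) / C ≤ M) (h2 : (M : ℝ) ≤ 4 * C * n) :
    M ∈ Edges_S C n := by
  unfold Edges_S
  rw [Finset.mem_filter, Finset.mem_range]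
  exact ⟨Nat.lt_succ_of_le (Nat.le_floor h2), h1⟩

private theorem Edges_ofS {C : ℝ} {n M : ℕ} (hC : 1 ≤ C) (h : M ∈ Edges_S C n) :
    (n : ℝ) / C ≤ M ∧ (M : ℝ) ≤ 4 * C * n := by
  unfold Edges_S at h
  rw [Finset.mem_filter, Finset.mem_range] at h
  refine ⟨h.2, ?_⟩
  have h1 : M ≤ ⌊4 * C * n⌋₊ := Nat.lt_succ_iff.1 h.1
  have h2 : (M : ℝ) ≤ (⌊4 * C * n⌋₊ : ℕ) := by exact_mod_cast h1
  exact h2.trans (Nat.floor_le (by positivity))

private theorem Edges_cardS {C : ℝ} {n : ℕ} (hC : 1 ≤ C) (hn : 1 ≤ n) :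
    ((Edges_S C n).card : ℝ) ≤ 5 * C * n := by
  have hn0 : (1 : ℝ) ≤ n := by exact_mod_cast hn
  unfold Edges_S
  have h1 := Finset.card_filter_le (range (⌊4 * C * n⌋₊ + 1)) (fun M : ℕ => (n : ℝ) / C ≤ M)
  rw [Finset.card_range] at h1
  have h2 : ((((range (⌊4 * C * n⌋₊ + 1)).filter (fun M : ℕ => (n : ℝ) / C ≤ M)).card : ℕ) : ℝ) ≤
      ((⌊4 * C * n⌋₊ + 1 : ℕ) : ℝ) := by exact_mod_cast h1
  refine h2.trans ?_
  push_cast
  have h3 : (⌊4 * C * n⌋₊ : ℝ) ≤ 4 * C * n := Nat.floor_le (by positivity)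
  nlinarith

private theorem Edges_EMcard (C : ℝ) (P : ℕ) (F : Finset ℕ) (R : Finset (ℕ × ℕ × ℕ)) (M : ℕ) :
    (EM C P F R M).card ≤ (VM C P F M).card * (VM C P F M).card := by
  classical
  rw [← Finset.card_product]
  unfold EM
  exact Finset.card_filter_le _ _

/-- pairs with different `p` -/
private theorem Edges_Q1 {C : ℝ} (hC : 1 ≤ C) {n P : ℕ} {η : ℝ} {F F' : Finset ℕ} {α α' : ℕ → ℝ}
    {R : Finset (ℕ × ℕ × ℕ)} (h : Rel C n P η F F' α α' R) (hP : 1 ≤ P) :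
    (((Edges_Q R).filter (fun q => ¬ q.1.2.1 = q.2.2.1)).card : ℝ) ≤
      (2 * C + 1) * ∑ M ∈ Edges_S C n, ((EM C P F R M).card : ℝ) := by
  classical
  have hP0 : (0 : ℝ) < P := by exact_mod_cast hP
  have h1 : (((Edges_Q R).filter (fun q => ¬ q.1.2.1 = q.2.2.1)).card : ℝ) ≤
      (2 * C + 1) * (((Edges_S C n).sigma (fun M => EM C P F R M)).card : ℕ) := by
    refine Edges_fib (fun q => (⟨⌊(q.1.2.2 : ℝ) * q.2.2.1 * q.1.2.1 / (P : ℝ) ^ 2⌋₊,
      ((q.2.2.1, q.1.1), (q.1.2.1, q.2.1))⟩ : Σ _ : ℕ, (ℕ × ℕ) × (ℕ × ℕ))) (2 * C + 1) ?_ ?_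
    · rintro ⟨⟨K, p', G⟩, ⟨K', p, G'⟩⟩ hq
      unfold Edges_Q at hq
      simp only [Finset.mem_filter, Finset.mem_product] at hq
      obtain ⟨⟨⟨t1, t2⟩, hG⟩, hpp⟩ := hq
      subst hG
      have p1 := h.prime _ t1
      have p2 := h.prime _ t2
      have q1 := h.pos _ t1
      have q2 := h.pos _ t2
      have f1 := h.rngF' _ (h.memF' _ t1)
      simp only at p1 p2 q1 q2 f1
      obtain ⟨M, hM, m1, m2, m3⟩ := Edges_floor (G := G) hP p2.2.1 p2.2.2 p1.2.1 p1.2.2 f1.1 f1.2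
      rw [Finset.mem_sigma]
      simp only
      rw [← hM]
      refine ⟨Edges_memS m2 m3, ?_⟩
      unfold EM
      rw [Finset.mem_filter, Finset.mem_product]
      refine ⟨⟨?_, ?_⟩, fun hc => hpp hc.symm, G, t1, t2⟩
      · exact Edges_mem hC hP (h.memF _ t1) p2.1 p2.2.1 p2.2.2 q1 m1
      · refine Edges_mem hC hP (h.memF _ t2) p1.1 p1.2.1 p1.2.2 q2 ?_
        have : (G : ℝ) * p' * p = G * p * p' := by ring
        rw [this]
        exact m1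
    · rintro ⟨M, ⟨⟨p, K⟩, ⟨p', K'⟩⟩⟩ _
      refine Edges_cnt _ (fun q => q.1.2.2) ?_ ((K : ℝ) * P / p') C (by linarith) ?_
      · rintro ⟨⟨K1, p1', G1⟩, ⟨K1', p1, G1'⟩⟩ ha ⟨⟨K2, p2', G2⟩, ⟨K2', p2, G2'⟩⟩ ha' haa
        unfold Edges_Q at ha ha'
        simp only [Finset.mem_filter, Finset.mem_product, Sigma.mk.injEq, heq_eq_eq,
          Prod.mk.injEq] at ha ha' haa
        obtain ⟨⟨⟨_, a1⟩, _⟩, _, ⟨a2, a3⟩, a4, a5⟩ := ha
        obtain ⟨⟨⟨_, b1⟩, _⟩, _, ⟨b2, b3⟩, b4, b5⟩ := ha'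
        subst a1 a2 a3 a4 a5 b1 b2 b3 b4 b5 haa
        rfl
      · rintro ⟨⟨K1, p1', G1⟩, ⟨K1', p1, G1'⟩⟩ ha
        unfold Edges_Q at ha
        simp only [Finset.mem_filter, Finset.mem_product, Sigma.mk.injEq, heq_eq_eq,
          Prod.mk.injEq] at ha
        obtain ⟨⟨⟨⟨t1, _⟩, a1⟩, _⟩, _, ⟨a2, a3⟩, a4, a5⟩ := ha
        subst a1 a2 a3 a4 a5
        have h3 := h.pos _ t1
        have h4 := h.prime _ t1
        simp only at h3 h4
        have h5 : (P : ℝ) ≤ p1' := by exact_mod_cast h4.2.1.le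
        exact Edges_div hP0 h5 (by linarith) h3
  rw [Finset.card_sigma] at h1
  push_cast at h1
  exact h1

theorem edges (C : ℝ) (hC : 1 ≤ C) : ∃ D : ℝ, C ≤ D ∧ ∀ (n P : ℕ) (δ η : ℝ) (F F' : Finset ℕ) (α α' : ℕ → ℝ)
    (R : Finset (ℕ × ℕ × ℕ)), Rel C n P η F F' α α' R → 0 < δ → δ ≤ 1 → D ≤ δ ^ 4 * P → 1 ≤ n →
    δ * n * P ≤ R.card →
    ∃ F'' : Finset ℕ, δ ^ 2 / D * n ≤ F''.card ∧ (∀ M ∈ F'', (n : ℝ) / D ≤ M ∧ (M : ℝ) ≤ D * n) ∧
      ∀ M ∈ F'', δ ^ 2 / D * (P : ℝ) ^ 2 ≤ (EM C P F R M).card := by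
  have hC0 : (0 : ℝ) < C := by linarith
  have hC2 : 0 ≤ C ^ 2 := by positivity
  set D : ℝ := 2 * C ^ 2 * (2 * C + 1) ^ 2 + 20 * C ^ 2 * (2 * C + 1) +
    4 * C * (2 * C + 1) * (4 * C + 3) ^ 2 with hD
  have d1 : 2 * C ^ 2 * (2 * C + 1) ^ 2 ≤ D := by
    have e1 : 0 ≤ 20 * C ^ 2 * (2 * C + 1) := by positivity
    have e2 : 0 ≤ 4 * C * (2 * C + 1) * (4 * C + 3) ^ 2 := by positivity
    linarith
  have d2 : 20 * C ^ 2 * (2 * C + 1) ≤ D := by
    have e1 : 0 ≤ 2 * C ^ 2 * (2 * C + 1) ^ 2 := by positivity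
    have e2 : 0 ≤ 4 * C * (2 * C + 1) * (4 * C + 3) ^ 2 := by positivity
    linarith
  have d3 : 4 * C * (2 * C + 1) * (4 * C + 3) ^ 2 ≤ D := by
    have e1 : 0 ≤ 2 * C ^ 2 * (2 * C + 1) ^ 2 := by positivity
    have e2 : 0 ≤ 20 * C ^ 2 * (2 * C + 1) := by positivity
    linarith
  have d4 : 4 * C ≤ D := by
    refine le_trans ?_ d2
    nlinarith [mul_nonneg hC2 hC0.le]
  have hD0 : 0 < D := by linarith
  refine ⟨D, by linarith, ?_⟩
  intro n P δ η F F' α α' R h hδ hδ1 hDP hn hR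
  have hn0 : (1 : ℝ) ≤ n := by exact_mod_cast hn
  have hδ4 : δ ^ 4 ≤ δ ^ 2 := pow_le_pow_of_le_one hδ.le hδ1 (by norm_num)
  have hP0 : (0 : ℝ) < P := by
    by_contra hc
    have h1 : (P : ℝ) = 0 := le_antisymm (not_lt.1 hc) (Nat.cast_nonneg P)
    rw [h1, mul_zero] at hDP
    linarith
  have hP : 1 ≤ P := by
    have : 0 < P := by exact_mod_cast hP0
    omega
  have hDP2 : D ≤ δ ^ 2 * P := hDP.trans (mul_le_mul_of_nonneg_right hδ4 hP0.le)
  -- the number of pairs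
  have c1 := Edges_CS R F' h.memF'
  have c2 := Edges_card hC hn h.rngF'
  have c3 := Edges_R hC h hn hP
  have c4 := Edges_Q0 hC h hP
  have c5 := Edges_Q1 hC h hP
  have c6 : (((Edges_Q R).filter (fun q => q.1.2.1 = q.2.2.1)).card : ℝ) +
      ((Edges_Q R).filter (fun q => ¬ q.1.2.1 = q.2.2.1)).card = (Edges_Q R).card := by
    have := Finset.card_filter_add_card_filter_not (s := Edges_Q R)
      (fun q : (ℕ × ℕ × ℕ) × (ℕ × ℕ × ℕ) => q.1.2.1 = q.2.2.1)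
    exact_mod_cast this
  set q : ℝ := ((Edges_Q R).card : ℝ) with hq
  set q0 : ℝ := (((Edges_Q R).filter (fun q => q.1.2.1 = q.2.2.1)).card : ℝ) with hq0
  set q1 : ℝ := (((Edges_Q R).filter (fun q => ¬ q.1.2.1 = q.2.2.1)).card : ℝ) with hq1
  set S : ℝ := ∑ M ∈ Edges_S C n, ((EM C P F R M).card : ℝ) with hS
  have hq00 : 0 ≤ q := Nat.cast_nonneg _
  -- `q ≥ δ² n P² / C`
  have e1 : δ ^ 2 * n * P ^ 2 ≤ C * q := by
    have f1 : (δ * n * P) ^ 2 ≤ (R.card : ℝ) ^ 2 := pow_le_pow_left₀ (by positivity) hR 2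
    have f2 : (F'.card : ℝ) * q ≤ C * n * q := mul_le_mul_of_nonneg_right c2 hq00
    have f3 : (n : ℝ) * (δ ^ 2 * n * P ^ 2) ≤ n * (C * q) := by
      calc (n : ℝ) * (δ ^ 2 * n * P ^ 2) = (δ * n * P) ^ 2 := by ring
        _ ≤ C * n * q := by linarith
        _ = n * (C * q) := by ring
    exact le_of_mul_le_mul_left f3 (by linarith)
  -- `q0 ≤ δ² n P² / (2 C)`
  have e2 : 2 * (C * q0) ≤ δ ^ 2 * n * P ^ 2 := by
    have f1 : q0 ≤ (2 * C + 1) * ((2 * C + 1) * (C * n * P)) :=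
      c4.trans (mul_le_mul_of_nonneg_left c3 (by linarith))
    have f2 : 2 * (C * q0) ≤ 2 * C ^ 2 * (2 * C + 1) ^ 2 * (n * P) := by
      calc 2 * (C * q0) ≤ 2 * (C * ((2 * C + 1) * ((2 * C + 1) * (C * n * P)))) := by
            refine mul_le_mul_of_nonneg_left (mul_le_mul_of_nonneg_left f1 hC0.le) (by norm_num)
        _ = _ := by ring
    refine f2.trans ?_
    calc 2 * C ^ 2 * (2 * C + 1) ^ 2 * (n * P) ≤ (δ ^ 2 * P) * (n * P) :=
          mul_le_mul_of_nonneg_right (d1.trans hDP2) (by positivity)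
      _ = _ := by ring
  have e3 : δ ^ 2 * n * P ^ 2 ≤ 2 * C * (2 * C + 1) * S := by
    have f1 : C * q = C * q0 + C * q1 := by rw [← c6]; ring
    have f2 : C * q1 ≤ C * ((2 * C + 1) * S) := mul_le_mul_of_nonneg_left c5 hC0.le
    have f3 : 2 * C * (2 * C + 1) * S = 2 * (C * ((2 * C + 1) * S)) := by ring
    linarith
  -- the set of the good scales
  set F'' := (Edges_S C n).filter (fun M => δ ^ 2 / D * (P : ℝ) ^ 2 ≤ (EM C P F R M).card)
    with hF''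
  have e4 : S ≤ F''.card * ((4 * C + 3) * P) ^ 2 + 5 * C * n * (δ ^ 2 / D * (P : ℝ) ^ 2) := by
    rw [hS, ← Finset.sum_filter_add_sum_filter_not (Edges_S C n)
      (fun M => δ ^ 2 / D * (P : ℝ) ^ 2 ≤ (EM C P F R M).card)]
    refine add_le_add ?_ ?_
    · calc ∑ M ∈ F'', ((EM C P F R M).card : ℝ) ≤ ∑ _M ∈ F'', ((4 * C + 3) * (P : ℝ)) ^ 2 := by
            refine Finset.sum_le_sum fun M _ => ?_
            have f1 := Edges_EMcard C P F R M
            have f2 : ((EM C P F R M).card : ℝ) ≤ (VM C P F M).card * (VM C P F M).card := by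
              exact_mod_cast f1
            refine f2.trans ?_
            rw [pow_two]
            have f3 := VM_card C hC P F M hP
            exact mul_le_mul f3 f3 (Nat.cast_nonneg _) (by positivity)
        _ = _ := by rw [Finset.sum_const, nsmul_eq_mul]
    · calc ∑ M ∈ (Edges_S C n).filter (fun M => ¬ δ ^ 2 / D * (P : ℝ) ^ 2 ≤ (EM C P F R M).card),
            ((EM C P F R M).card : ℝ)
          ≤ ∑ _M ∈ (Edges_S C n).filter
            (fun M => ¬ δ ^ 2 / D * (P : ℝ) ^ 2 ≤ (EM C P F R M).card),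
              (δ ^ 2 / D * (P : ℝ) ^ 2) := by
            refine Finset.sum_le_sum fun M hM => ?_
            exact (not_le.1 (Finset.mem_filter.1 hM).2).le
        _ = (((Edges_S C n).filter
            (fun M => ¬ δ ^ 2 / D * (P : ℝ) ^ 2 ≤ (EM C P F R M).card)).card : ℝ) *
              (δ ^ 2 / D * (P : ℝ) ^ 2) := by rw [Finset.sum_const, nsmul_eq_mul]
        _ ≤ 5 * C * n * (δ ^ 2 / D * (P : ℝ) ^ 2) := by
            refine mul_le_mul_of_nonneg_right ?_ (by positivity)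
            refine le_trans ?_ (Edges_cardS hC hn)
            exact_mod_cast Finset.card_filter_le _ _
  refine ⟨F'', ?_, ?_, ?_⟩
  · -- the number of good scales
    have g1 : 2 * C * (2 * C + 1) * (5 * C * n * (δ ^ 2 / D * (P : ℝ) ^ 2)) ≤
        (1 / 2) * (δ ^ 2 * n * P ^ 2) := by
      have f1 : 2 * C * (2 * C + 1) * (5 * C * n * (δ ^ 2 / D * (P : ℝ) ^ 2)) =
          (20 * C ^ 2 * (2 * C + 1)) / D * ((1 / 2) * (δ ^ 2 * n * P ^ 2)) := by
        field_simp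
        ring
      rw [f1]
      have f2 : (20 * C ^ 2 * (2 * C + 1)) / D ≤ 1 := (div_le_one hD0).2 d2
      have f3 : 0 ≤ (1 / 2) * (δ ^ 2 * n * (P : ℝ) ^ 2) := by positivity
      nlinarith
    have g2 : (1 / 2) * (δ ^ 2 * n * (P : ℝ) ^ 2) ≤
        2 * C * (2 * C + 1) * (F''.card * ((4 * C + 3) * P) ^ 2) := by
      have f1 : 2 * C * (2 * C + 1) * S ≤ 2 * C * (2 * C + 1) *
          (F''.card * ((4 * C + 3) * P) ^ 2 + 5 * C * n * (δ ^ 2 / D * (P : ℝ) ^ 2)) :=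
        mul_le_mul_of_nonneg_left e4 (by positivity)
      rw [mul_add] at f1
      linarith
    have g3 : δ ^ 2 * n ≤ 4 * C * (2 * C + 1) * (4 * C + 3) ^ 2 * F''.card := by
      have f1 : (δ ^ 2 * n) * (P : ℝ) ^ 2 ≤
          (4 * C * (2 * C + 1) * (4 * C + 3) ^ 2 * F''.card) * (P : ℝ) ^ 2 := by
        calc (δ ^ 2 * n) * (P : ℝ) ^ 2 = 2 * ((1 / 2) * (δ ^ 2 * n * (P : ℝ) ^ 2)) := by ring
          _ ≤ 2 * (2 * C * (2 * C + 1) * (F''.card * ((4 * C + 3) * P) ^ 2)) := by linarith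
          _ = _ := by ring
      exact le_of_mul_le_mul_right f1 (by positivity)
    have g4 : δ ^ 2 * n ≤ D * F''.card :=
      g3.trans (mul_le_mul_of_nonneg_right d3 (Nat.cast_nonneg _))
    rw [div_mul_eq_mul_div, div_le_iff₀ hD0]
    linarith
  · intro M hM
    have hM1 := Edges_ofS hC (Finset.mem_filter.1 hM).1
    refine ⟨?_, ?_⟩
    · refine le_trans ?_ hM1.1
      exact div_le_div_of_nonneg_left (by linarith) hC0 (by linarith)
    · refine hM1.2.trans ?_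
      exact mul_le_mul_of_nonneg_right d4 (by linarith)
  · intro M hM
    exact (Finset.mem_filter.1 hM).2

end Pool.Agent.H53.MID
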