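import Pool.Agent.H53.MID.FourC
import Pool.Agent.H53.MID.CoDeg
import Pool.Agent.H53.MID.Edges

/-!
# MID Climb: one step to a larger scale

Proof.  `edges` gives `D1` and `F''`.  For `M ∈ F''` apply `codeg` to `V = VM C P F M`, `pr = Prod.fst`, `E = EM C P F R M`, `b = 4C+3`,
`δ := δ^2/D1` (`VM_fib`, `VM_card`; `2 b^4 ≤ (δ^2/D1)^2 P` since `D ≤ δ^4 P` with `D ≥ 2 b^4 D1^2`): vertices `v = (p, K_v)`, `v' = (q, K_q)`, `p ≠ q`, with
`≥ (δ^2/D1)^2 P/(2 b^3)` common neighbours `u = (p_u, K_u)`.  An edge `(v,u) ∈ EM` gives (with its `G`)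
`nz (p_u α(K_v) - α'(G)) ≤ η`, `nz (p α(K_u) - α'(G)) ≤ η`, so `nz (p_u α(K_v) - p α(K_u)) ≤ 2 η =: d`; the same for `v'`:
`nz (p_u α(K_q) - q α(K_u)) ≤ d`; and `p_u ≠ p`.  Fix one common neighbour `u1`; `lift` gives `s`, put `w = (α(K_v) + s)/p`.  For any common neighbour
`u` let `s_u` be its lift; `four_cycle` (with `p1 = p_{u1}`, `p2 = p_u`, `a = α(K_v)`, `b = α(K_q)`, `48 d P^2 = 96 η P^2 < 1`) gives
`nz (p_u w - α(K_u)) ≤ d/p ≤ 2 η/P`.  Put `α''(M) = w` and let `R''` contain the triples `(M, p_u, K_u)`; `|K_u p_u - M P| ≤ (2C+1) P` by the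
definition of `VM`; `u ↦ (M, p_u, K_u)` is injective.  Use choice over `M ∈ F''` (functions `w : ℕ → ℝ`, `U : ℕ → Finset (ℕ × ℕ)`).
-/

set_option autoImplicit false

namespace Pool.Agent.H53.MID

open Finset

private theorem Climb_edge (C : ℝ) (n P : ℕ) (η : ℝ) (F F' : Finset ℕ) (α α' : ℕ → ℝ)
    (R : Finset (ℕ × ℕ × ℕ)) (h : Rel C n P η F F' α α' R) (M : ℕ) (v u : ℕ × ℕ)
    (he : (v, u) ∈ EM C P F R M) :
    v.1 ≠ u.1 ∧ nz ((u.1 : ℝ) * α v.2 - (v.1 : ℝ) * α u.2) ≤ 2 * η := by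
  classical
  unfold EM at he
  rw [Finset.mem_filter] at he
  obtain ⟨_, hne, G, h1, h2⟩ := he
  refine ⟨hne, ?_⟩
  have f1 := h.freq _ h1
  have f2 := h.freq _ h2
  simp only at f1 f2
  have f3 : nz (α' G - (v.1 : ℝ) * α u.2) ≤ η := by
    rw [← nz_neg]
    have : -(α' G - (v.1 : ℝ) * α u.2) = (v.1 : ℝ) * α u.2 - α' G := by ring
    rw [this]
    exact f2
  calc nz ((u.1 : ℝ) * α v.2 - (v.1 : ℝ) * α u.2)
      ≤ nz ((u.1 : ℝ) * α v.2 - α' G) + nz (α' G - (v.1 : ℝ) * α u.2) := nz_triangle _ _ _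
    _ ≤ η + η := add_le_add f1 f3
    _ = 2 * η := by ring

private theorem Climb_vm (C : ℝ) (P : ℕ) (F : Finset ℕ) (M : ℕ) (v : ℕ × ℕ) (hv : v ∈ VM C P F M) :
    v.1.Prime ∧ (P < v.1 ∧ v.1 ≤ 2 * P) ∧ v.2 ∈ F ∧ |(v.2 : ℝ) * v.1 - M * P| ≤ (2 * C + 1) * P := by
  unfold VM at hv
  rw [Finset.mem_filter, Finset.mem_product, Finset.mem_filter, Finset.mem_Ioc] at hv
  exact ⟨hv.1.1.2, hv.1.1.1, hv.1.2, hv.2⟩

private theorem Climb_one (C D1 : ℝ) (hC : 1 ≤ C) (hD1 : C ≤ D1) (n P : ℕ) (δ η : ℝ)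
    (F F' : Finset ℕ) (α α' : ℕ → ℝ)
    (R : Finset (ℕ × ℕ × ℕ)) (h : Rel C n P η F F' α α' R) (hδ : 0 < δ)
    (hη : 0 ≤ η) (hηP : 100 * η * (P : ℝ) ^ 2 ≤ 1) (hP : 1 ≤ P)
    (hbig : 2 * (4 * C + 3) ^ 4 * D1 ^ 2 ≤ δ ^ 4 * P) (M : ℕ)
    (hcard : δ ^ 2 / D1 * (P : ℝ) ^ 2 ≤ (EM C P F R M).card) :
    ∃ (w : ℝ) (U : Finset (ℕ × ℕ)), U ⊆ VM C P F M ∧ (∀ u ∈ U, nz ((u.1 : ℝ) * w - α u.2) ≤ 2 * η / P) ∧
      δ ^ 4 * P / (2 * (4 * C + 3) ^ 3 * D1 ^ 2) ≤ (U.card : ℝ) := by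
  classical
  have hD1pos : 0 < D1 := by linarith
  have hPr : (0 : ℝ) < P := by exact_mod_cast hP
  have hb : (1 : ℝ) ≤ 4 * C + 3 := by linarith
  have hEsub : EM C P F R M ⊆ VM C P F M ×ˢ VM C P F M := by
    unfold EM
    exact Finset.filter_subset _ _
  have hbig2 : 2 * (4 * C + 3) ^ 4 ≤ (δ ^ 2 / D1) ^ 2 * P := by
    have e1 : (δ ^ 2 / D1) ^ 2 * P = δ ^ 4 * P / D1 ^ 2 := by
      field_simp
    rw [e1, le_div_iff₀ (by positivity)]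
    exact hbig
  obtain ⟨v, hv, v', hv', hne, hU⟩ := codeg (VM C P F M) (Prod.fst : ℕ × ℕ → ℕ) (EM C P F R M) (4 * C + 3) P
    (δ ^ 2 / D1) hb hPr (by positivity) (VM_card C hC P F M hP)
    (fun v _ => VM_fib C hC P F M v.1 hP) hEsub hcard hbig2
  obtain ⟨hvp, hvP, -, -⟩ := Climb_vm C P F M v hv
  obtain ⟨hvp', hvP', -, -⟩ := Climb_vm C P F M v' hv'
  set U := (VM C P F M).filter (fun u => (v, u) ∈ EM C P F R M ∧ (v', u) ∈ EM C P F R M) with hUdef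
  have hcardU : δ ^ 4 * P / (2 * (4 * C + 3) ^ 3 * D1 ^ 2) ≤ (U.card : ℝ) := by
    refine le_trans (le_of_eq ?_) hU
    have hb0 : (4 * C + 3 : ℝ) ≠ 0 := by linarith
    field_simp
  rcases U.eq_empty_or_nonempty with hemp | ⟨u1, hu1⟩
  · refine ⟨0, U, ?_, ?_, hcardU⟩
    · exact Finset.filter_subset _ _
    · intro u hu
      rw [hemp] at hu
      exact absurd hu (Finset.notMem_empty u)
  · have hu1' := hu1
    rw [hUdef, Finset.mem_filter] at hu1'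
    obtain ⟨hu1V, hu1e, hu1e'⟩ := hu1'
    obtain ⟨hu1p, hu1P, -, -⟩ := Climb_vm C P F M u1 hu1V
    obtain ⟨n1, f1⟩ := Climb_edge C n P η F F' α α' R h M v u1 hu1e
    obtain ⟨n1', f1'⟩ := Climb_edge C n P η F F' α α' R h M v' u1 hu1e'
    obtain ⟨s1, hs1⟩ := lift v.1 u1.1 hvp hu1p n1 (α v.2) (α u1.2) (2 * η) f1
    refine ⟨(α v.2 + s1) / v.1, U, Finset.filter_subset _ _, ?_, hcardU⟩
    intro u hu
    have hu' := hu
    rw [hUdef, Finset.mem_filter] at hu'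
    obtain ⟨huV, hue, hue'⟩ := hu'
    obtain ⟨hup, huP, -, -⟩ := Climb_vm C P F M u huV
    obtain ⟨n2, f2⟩ := Climb_edge C n P η F F' α α' R h M v u hue
    obtain ⟨n2', f2'⟩ := Climb_edge C n P η F F' α α' R h M v' u hue'
    obtain ⟨s2, hs2⟩ := lift v.1 u.1 hvp hup n2 (α v.2) (α u.2) (2 * η) f2
    have hd : 48 * (2 * η) * (P : ℝ) ^ 2 < 1 := by
      have hx : 0 ≤ η * (P : ℝ) ^ 2 := by positivity
      nlinarith
    have key := four_cycle P v.1 v'.1 u1.1 u.1 hvp hvp' hu1p hup hvP hvP' hu1P huP hne n1 n2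
      (α v.2) (α v'.2) (α u1.2) (α u.2) (2 * η) s1 s2 hs1 hs2 f1' f2' (by positivity) hd
    refine key.trans ?_
    apply div_le_div_of_nonneg_left (by positivity) hPr
    exact_mod_cast hvP.1.le

theorem climb (C : ℝ) (hC : 1 ≤ C) : ∃ D : ℝ, C ≤ D ∧ ∀ (n P : ℕ) (δ η : ℝ) (F F' : Finset ℕ) (α α' : ℕ → ℝ)
    (R : Finset (ℕ × ℕ × ℕ)), Rel C n P η F F' α α' R → 0 < δ → δ ≤ 1 → 0 ≤ η → 100 * η * (P : ℝ) ^ 2 ≤ 1 →
    D ≤ δ ^ 4 * P → 1 ≤ n → δ * n * P ≤ R.card →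
    ∃ (F'' : Finset ℕ) (α'' : ℕ → ℝ) (R'' : Finset (ℕ × ℕ × ℕ)), Rel D n P (2 * η / P) F'' F α'' α R'' ∧
      δ ^ 2 / D * n ≤ F''.card ∧
      ∀ M ∈ F'', δ ^ 4 / D * P ≤ ((R''.filter (fun t => t.1 = M)).card : ℝ) := by
  classical
  obtain ⟨D1, hCD1, hedges⟩ := edges C hC
  have hD1pos : 0 < D1 := by linarith
  have hD1one : 1 ≤ D1 := by linarith
  have hb : (7 : ℝ) ≤ 4 * C + 3 := by linarith
  have hb1 : (1 : ℝ) ≤ 4 * C + 3 := by linarith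
  have hDsq : 1 ≤ D1 ^ 2 := one_le_pow₀ hD1one
  have hDsq' : D1 ≤ D1 ^ 2 := by nlinarith
  have hb3 : 4 * C + 3 ≤ (4 * C + 3) ^ 3 := le_self_pow₀ hb1 (by norm_num)
  have hb4 : (4 * C + 3) ^ 3 ≤ (4 * C + 3) ^ 4 := pow_le_pow_right₀ hb1 (by norm_num)
  have hb4one : 1 ≤ (4 * C + 3) ^ 4 := one_le_pow₀ hb1
  obtain ⟨D, hDdef⟩ : ∃ D : ℝ, D = 2 * (4 * C + 3) ^ 4 * D1 ^ 2 := ⟨_, rfl⟩
  have hDD1 : D1 ≤ D := by
    rw [hDdef]
    nlinarith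
  have hDC : 2 * C + 1 ≤ D := by
    have : 4 * C + 3 ≤ D := by
      rw [hDdef]
      have h1 : 4 * C + 3 ≤ (4 * C + 3) ^ 4 := hb3.trans hb4
      nlinarith
    linarith
  have hD3 : 2 * (4 * C + 3) ^ 3 * D1 ^ 2 ≤ D := by
    rw [hDdef]
    have h0 : 0 ≤ D1 ^ 2 := by positivity
    nlinarith
  have hCD : C ≤ D := hCD1.trans hDD1
  have hDpos : 0 < D := by linarith
  refine ⟨D, hCD, ?_⟩
  intro n P δ η F F' α α' R hRel hδ hδ1 hη hηP hDP hn hcard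
  have hPpos : 1 ≤ P := by
    rcases Nat.eq_zero_or_pos P with h0 | h0
    · subst h0
      simp only [Nat.cast_zero, mul_zero] at hDP
      linarith
    · exact h0
  have hPr : (0 : ℝ) < P := by exact_mod_cast hPpos
  obtain ⟨F'', hF1, hF2, hF3⟩ := hedges n P δ η F F' α α' R hRel hδ hδ1 (hDD1.trans hDP) hn hcard
  have hone : ∀ M : ℕ, M ∈ F'' → ∃ (w : ℝ) (U : Finset (ℕ × ℕ)), U ⊆ VM C P F M ∧
      (∀ u ∈ U, nz ((u.1 : ℝ) * w - α u.2) ≤ 2 * η / P) ∧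
      δ ^ 4 * P / (2 * (4 * C + 3) ^ 3 * D1 ^ 2) ≤ (U.card : ℝ) := by
    intro M hM
    exact Climb_one C D1 hC hCD1 n P δ η F F' α α' R hRel hδ hη hηP hPpos (by rw [← hDdef]; exact hDP) M
      (hF3 M hM)
  choose! w U hU1 hU2 hU3 using hone
  have hmem : ∀ t : ℕ × ℕ × ℕ, t ∈ F''.biUnion (fun M => (U M).image (fun u => (M, u.1, u.2))) ↔
      t.1 ∈ F'' ∧ (t.2.1, t.2.2) ∈ U t.1 := by
    intro t
    rw [Finset.mem_biUnion]
    constructor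
    · rintro ⟨M, hM, ht⟩
      rw [Finset.mem_image] at ht
      obtain ⟨u, hu, rfl⟩ := ht
      exact ⟨hM, hu⟩
    · rintro ⟨hM, ht⟩
      refine ⟨t.1, hM, ?_⟩
      rw [Finset.mem_image]
      exact ⟨(t.2.1, t.2.2), ht, rfl⟩
  refine ⟨F'', w, F''.biUnion (fun M => (U M).image (fun u => (M, u.1, u.2))), ?_, ?_, ?_⟩
  · refine ⟨?_, ?_, ?_, ?_, ?_, ?_, ?_⟩
    · intro t ht
      exact ((hmem t).1 ht).1
    · intro t ht
      obtain ⟨hM, hu⟩ := (hmem t).1 ht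
      exact (Climb_vm C P F t.1 _ (hU1 t.1 hM hu)).2.2.1
    · intro t ht
      obtain ⟨hM, hu⟩ := (hmem t).1 ht
      obtain ⟨a1, a2, -, -⟩ := Climb_vm C P F t.1 _ (hU1 t.1 hM hu)
      exact ⟨a1, a2.1, a2.2⟩
    · intro t ht
      obtain ⟨hM, hu⟩ := (hmem t).1 ht
      obtain ⟨-, -, -, a4⟩ := Climb_vm C P F t.1 _ (hU1 t.1 hM hu)
      refine a4.trans ?_
      exact mul_le_mul_of_nonneg_right hDC hPr.le
    · intro t ht
      obtain ⟨hM, hu⟩ := (hmem t).1 ht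
      exact hU2 t.1 hM _ hu
    · intro M hM
      obtain ⟨a1, a2⟩ := hF2 M hM
      refine ⟨le_trans ?_ a1, a2.trans ?_⟩
      · exact div_le_div_of_nonneg_left (Nat.cast_nonneg n) hD1pos hDD1
      · exact mul_le_mul_of_nonneg_right hDD1 (Nat.cast_nonneg n)
    · intro K hK
      obtain ⟨a1, a2⟩ := hRel.rngF K hK
      refine ⟨le_trans ?_ a1, a2.trans ?_⟩
      · exact div_le_div_of_nonneg_left (Nat.cast_nonneg n) (by linarith) hCD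
      · exact mul_le_mul_of_nonneg_right hCD (Nat.cast_nonneg n)
  · refine le_trans ?_ hF1
    apply mul_le_mul_of_nonneg_right _ (Nat.cast_nonneg n)
    exact div_le_div_of_nonneg_left (by positivity) hD1pos hDD1
  · intro M hM
    have hinj : (U M).card ≤ ((F''.biUnion (fun M => (U M).image (fun u => (M, u.1, u.2)))).filter
        (fun t => t.1 = M)).card := by
      refine Finset.card_le_card_of_injOn (fun u => (M, u.1, u.2)) ?_ ?_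
      · intro u hu
        rw [Finset.mem_coe, Finset.mem_filter]
        refine ⟨(hmem _).2 ⟨hM, ?_⟩, rfl⟩
        exact hu
      · intro u _ u' _ he
        simp only [Prod.mk.injEq, true_and] at he
        exact Prod.ext he.1 he.2
    have h3 := hU3 M hM
    calc δ ^ 4 / D * P = δ ^ 4 * P / D := by ring
      _ ≤ δ ^ 4 * P / (2 * (4 * C + 3) ^ 3 * D1 ^ 2) :=
          div_le_div_of_nonneg_left (by positivity) (by positivity) hD3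
      _ ≤ (U M).card := h3
      _ ≤ _ := by exact_mod_cast hinj

end Pool.Agent.H53.MID
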