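import Pool.Agent.H53.MID.GDefs

/-!
# MID Wts: weights and sizes

`w2_ge`: `p ≤ 2P`, `|pb P| ≥ P/(8 log P)`.  `w1_ge`: `∑_{j<J} 1/(16 log(2^j Q)) ≥ J/(16 log (2^J Q))`.
`w2_le`: `|pb P| ≤ P`, `p > P`.
`fp_lam_le`: if `p ≠ p'` in `pb P` divide `m` and `m/p`, `m/p'` are prime powers `q^j`, `q'^j'` then `m = p q^j = p' q'^j'`, `p' ∣ q^j` so `q = p'`, and `q' = p`; `p p'^j = p' p^j'` forces `j = j' = 1` and `m = p p' ≤ 4P^2`.  So for `m > 4P^2` at most one term is nonzero; `Lam k ≤ log k ≤ log m`.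
`f1_lam_le`: the primes of all `pb (2^j Q)`, `j < J`, that divide `m` are distinct, `> Q ≥ N^e1`; their product divides `m ≤ N^2`: at most `2/e1` of them; each term is `≤ log m`.
`f1_flat`: `Lam = hR R + lamR R`.
-/

set_option autoImplicit false

namespace Pool.Agent.H53.MID

open Finset
open Pool.Agent.H91.EHA (Lam hR lamR ramS)
open Pool.Agent.H35.W (pb)

private theorem Wts_mem_pb {P p : ℕ} : p ∈ pb P ↔ (P < p ∧ p ≤ 2 * P) ∧ p.Prime := by
  unfold pb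
  rw [Finset.mem_filter, Finset.mem_Ioc]

private theorem Wts_lam_nonneg (n : ℕ) : 0 ≤ Lam n := by
  unfold Lam
  exact ArithmeticFunction.vonMangoldt_nonneg

private theorem Wts_lam_le (n : ℕ) : Lam n ≤ Real.log n := by
  unfold Lam
  exact ArithmeticFunction.vonMangoldt_le_log

private theorem Wts_lam_div_le (m p : ℕ) (hm : 1 ≤ m) (hp : 1 ≤ p) (hpm : p ∣ m) :
    Lam (m / p) ≤ Real.log m := by
  refine (Wts_lam_le _).trans ?_
  apply Real.log_le_log
  · exact_mod_cast Nat.div_pos (Nat.le_of_dvd hm hpm) hp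
  · exact_mod_cast Nat.div_le_self m p

theorem w2_ge (hPB : PBp) : ∃ P0 : ℕ, 2 ≤ P0 ∧ ∀ P : ℕ, P0 ≤ P → 1 / (16 * Real.log P) ≤ W2 P := by
  obtain ⟨P0, h⟩ := hPB
  refine ⟨max P0 2, le_max_right _ _, fun P hP => ?_⟩
  have hP1 := h P (le_trans (le_max_left _ _) hP)
  have hP2 : 2 ≤ P := le_trans (le_max_right _ _) hP
  have hPr : (2 : ℝ) ≤ P := by exact_mod_cast hP2
  have hlog : 0 < Real.log P := Real.log_pos (by linarith)
  have hPpos : (0 : ℝ) < P := by linarith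
  unfold W2
  have h1 : ((pb P).card : ℝ) * (1 / (2 * P)) ≤ ∑ p ∈ pb P, 1 / (p : ℝ) := by
    rw [← nsmul_eq_mul, ← Finset.sum_const]
    apply Finset.sum_le_sum
    intro p hp
    obtain ⟨⟨h3, h4⟩, h5⟩ := Wts_mem_pb.1 hp
    apply one_div_le_one_div_of_le
    · exact_mod_cast h5.pos
    · exact_mod_cast h4
  refine le_trans ?_ h1
  refine le_trans ?_ (mul_le_mul_of_nonneg_right hP1 (by positivity))
  apply le_of_eq
  field_simp
  norm_num

theorem w2_le (P : ℕ) : W2 P ≤ 1 := by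
  unfold W2
  rcases Nat.eq_zero_or_pos P with h0 | h0
  · subst h0
    have : pb 0 = ∅ := by
      apply Finset.eq_empty_of_forall_notMem
      intro p hp
      have := Wts_mem_pb.1 hp
      omega
    rw [this]
    simp
  · have hP : (0 : ℝ) < P := by exact_mod_cast h0
    have h1 : ∑ p ∈ pb P, 1 / (p : ℝ) ≤ ∑ p ∈ pb P, 1 / (P : ℝ) := by
      apply Finset.sum_le_sum
      intro p hp
      obtain ⟨⟨h3, h4⟩, h5⟩ := Wts_mem_pb.1 hp
      apply one_div_le_one_div_of_le hP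
      exact_mod_cast h3.le
    refine h1.trans ?_
    rw [Finset.sum_const, nsmul_eq_mul]
    have h2 : (pb P).card ≤ P := by
      refine (Finset.card_filter_le _ _).trans ?_
      rw [Nat.card_Ioc]
      omega
    have h3 : ((pb P).card : ℝ) ≤ P := by exact_mod_cast h2
    rw [mul_one_div, div_le_one hP]
    exact h3

theorem w1_ge (hPB : PBp) : ∃ P0 : ℕ, 2 ≤ P0 ∧ ∀ Q J : ℕ, P0 ≤ Q → (J : ℝ) / (16 * Real.log (2 ^ J * Q)) ≤ W1 Q J := by
  obtain ⟨P0, h2, h⟩ := w2_ge hPB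
  refine ⟨P0, h2, fun Q J hQ => ?_⟩
  unfold W1
  have hQ2 : 2 ≤ Q := h2.trans hQ
  have hQr : (2 : ℝ) ≤ Q := by exact_mod_cast hQ2
  have hsum : ∑ j ∈ range J, 1 / (16 * Real.log (2 ^ J * Q)) ≤ ∑ j ∈ range J, W2 (2 ^ j * Q) := by
    apply Finset.sum_le_sum
    intro j hj
    have hj' : j ≤ J := (Finset.mem_range.1 hj).le
    have h3 : P0 ≤ 2 ^ j * Q := hQ.trans (Nat.le_mul_of_pos_left _ (by positivity))
    refine le_trans ?_ (h _ h3)
    have h1 : (1 : ℝ) < ((2 ^ j * Q : ℕ) : ℝ) := by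
      have : 1 < 2 ^ j * Q := lt_of_lt_of_le (by omega) (Nat.le_mul_of_pos_left Q (by positivity : 0 < 2 ^ j))
      exact_mod_cast this
    have hl : 0 < Real.log ((2 ^ j * Q : ℕ) : ℝ) := Real.log_pos h1
    apply one_div_le_one_div_of_le (by positivity)
    apply mul_le_mul_of_nonneg_left _ (by norm_num)
    apply Real.log_le_log (by linarith)
    push_cast
    have : (2 : ℝ) ^ j ≤ 2 ^ J := pow_le_pow_right₀ (by norm_num) hj'
    nlinarith
  refine le_trans (le_of_eq ?_) hsum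
  rw [Finset.sum_const, Finset.card_range, nsmul_eq_mul, mul_one_div]

theorem fp_nonneg (P m : ℕ) : 0 ≤ Fp Lam P m := by
  unfold Fp
  exact Finset.sum_nonneg (fun p _ => Wts_lam_nonneg _)

theorem f1_nonneg (Q J m : ℕ) : 0 ≤ F1 Lam Q J m := by
  unfold F1
  exact Finset.sum_nonneg (fun j _ => fp_nonneg _ _)

private theorem Wts_ppow {m p p' : ℕ} (hp : p.Prime) (hp' : p'.Prime) (hne : p ≠ p') (hpm : p ∣ m)
    (hpm' : p' ∣ m) (h : Lam (m / p) ≠ 0) : ∃ j, m = p * p' ^ (j + 1) := by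
  unfold Lam at h
  rw [ArithmeticFunction.vonMangoldt_ne_zero_iff, isPrimePow_nat_iff] at h
  obtain ⟨q, k, hq, hk, hqk⟩ := h
  have hm : m = p * (m / p) := (Nat.mul_div_cancel' hpm).symm
  have h1 : p' ∣ m / p := by
    have h2 : p' ∣ p * (m / p) := by rw [← hm]; exact hpm'
    rcases (Nat.Prime.dvd_mul hp').1 h2 with h3 | h3
    · exact absurd ((Nat.prime_dvd_prime_iff_eq hp' hp).1 h3).symm hne
    · exact h3
  rw [← hqk] at h1
  have h4 : p' = q := (Nat.prime_dvd_prime_iff_eq hp' hq).1 (hp'.dvd_of_dvd_pow h1)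
  refine ⟨k - 1, ?_⟩
  rw [Nat.sub_add_cancel hk, h4, hqk]
  exact hm

private theorem Wts_two {P m p p' : ℕ} (hm : 4 * P ^ 2 < m) (hp : p ∈ pb P) (hp' : p' ∈ pb P) (hne : p ≠ p')
    (hpm : p ∣ m) (hpm' : p' ∣ m) (h : Lam (m / p) ≠ 0) (h' : Lam (m / p') ≠ 0) : False := by
  obtain ⟨⟨h1, h2⟩, h3⟩ := Wts_mem_pb.1 hp
  obtain ⟨⟨h1', h2'⟩, h3'⟩ := Wts_mem_pb.1 hp'
  obtain ⟨j, hj⟩ := Wts_ppow h3 h3' hne hpm hpm' h
  obtain ⟨i, hi⟩ := Wts_ppow h3' h3 hne.symm hpm' hpm h'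
  have hpp : 0 < p := h3.pos
  have hpp' : 0 < p' := h3'.pos
  have he : p' ^ j = p ^ i := by
    have : p * p' ^ (j + 1) = p' * p ^ (i + 1) := by rw [← hj, ← hi]
    have h4 : (p * p') * p' ^ j = (p * p') * p ^ i := by
      calc (p * p') * p' ^ j = p * p' ^ (j + 1) := by ring
        _ = p' * p ^ (i + 1) := this
        _ = (p * p') * p ^ i := by ring
    exact Nat.eq_of_mul_eq_mul_left (Nat.mul_pos hpp hpp') h4
  have hj0 : j = 0 := by
    by_contra hj0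
    have h5 : p' ∣ p ^ i := by
      rw [← he]
      exact dvd_pow_self _ hj0
    exact hne ((Nat.prime_dvd_prime_iff_eq h3' h3).1 (h3'.dvd_of_dvd_pow h5)).symm
  rw [hj0] at hj
  have : m ≤ 4 * P ^ 2 := by
    rw [hj]
    calc p * p' ^ (0 + 1) = p * p' := by ring
      _ ≤ (2 * P) * (2 * P) := Nat.mul_le_mul h2 h2'
      _ = 4 * P ^ 2 := by ring
  omega

theorem fp_lam_le (P m : ℕ) (hm : 4 * P ^ 2 < m) : Fp Lam P m ≤ Real.log m := by
  have hm1 : 1 ≤ m := by omega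
  have hlog : 0 ≤ Real.log m := Real.log_natCast_nonneg m
  unfold Fp
  by_cases hz : ∃ p ∈ (pb P).filter (fun p => p ∣ m), Lam (m / p) ≠ 0
  · obtain ⟨p, hp, hne⟩ := hz
    obtain ⟨hp1, hp2⟩ := Finset.mem_filter.1 hp
    rw [Finset.sum_eq_single p]
    · exact Wts_lam_div_le m p hm1 (Wts_mem_pb.1 hp1).2.pos hp2
    · intro p' hp' hpp'
      by_contra hne'
      obtain ⟨hp1', hp2'⟩ := Finset.mem_filter.1 hp'
      exact Wts_two hm hp1' hp1 hpp' hp2' hp2 hne' hne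
    · intro h
      exact absurd hp h
  · push Not at hz
    rw [Finset.sum_eq_zero hz]
    exact hlog

private theorem Wts_disj {Q : ℕ} {i j p : ℕ} (hi : p ∈ pb (2 ^ i * Q)) (hj : p ∈ pb (2 ^ j * Q)) :
    i = j := by
  have h1 := (Wts_mem_pb.1 hi).1
  have h2 := (Wts_mem_pb.1 hj).1
  have aux : ∀ a b : ℕ, 2 ^ a * Q < p → p ≤ 2 * (2 ^ b * Q) → a ≤ b := by
    intro a b h3 h4
    by_contra hab
    have h5 : 2 ^ (b + 1) ≤ 2 ^ a := Nat.pow_le_pow_right (by norm_num) (by omega)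
    have h6 : 2 * (2 ^ b * Q) ≤ 2 ^ a * Q := by
      calc 2 * (2 ^ b * Q) = 2 ^ (b + 1) * Q := by ring
        _ ≤ 2 ^ a * Q := Nat.mul_le_mul_right _ h5
    omega
  exact le_antisymm (aux i j h1.1 h2.2) (aux j i h2.1 h1.2)

theorem f1_lam_le (e1 : ℝ) (he1 : 0 < e1) (N Q J m : ℕ) (hN : 2 ≤ N) (hQ : (N : ℝ) ^ e1 ≤ Q) (hm1 : 1 ≤ m)
    (hm : m ≤ N ^ 2) : F1 Lam Q J m ≤ 2 / e1 * Real.log m := by
  have hNr : (1 : ℝ) < N := by exact_mod_cast (by omega : 1 < N)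
  have hQ1 : (1 : ℝ) < Q := lt_of_lt_of_le (Real.one_lt_rpow hNr he1) hQ
  have hlog : 0 ≤ Real.log m := Real.log_natCast_nonneg m
  set S : Finset ℕ := (range J).biUnion (fun j => (pb (2 ^ j * Q)).filter (fun p => p ∣ m)) with hS
  have h1 : F1 Lam Q J m ≤ S.card * Real.log m := by
    unfold F1 Fp
    have hcard : S.card = ∑ j ∈ range J, ((pb (2 ^ j * Q)).filter (fun p => p ∣ m)).card := by
      rw [hS]
      apply Finset.card_biUnion
      intro i hi j hj hij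
      show Disjoint ((pb (2 ^ i * Q)).filter (fun p => p ∣ m)) ((pb (2 ^ j * Q)).filter (fun p => p ∣ m))
      rw [Finset.disjoint_left]
      intro p hp hp'
      exact hij (Wts_disj (Finset.mem_filter.1 hp).1 (Finset.mem_filter.1 hp').1)
    rw [hcard]
    push_cast
    rw [Finset.sum_mul]
    apply Finset.sum_le_sum
    intro j _
    rw [← nsmul_eq_mul, ← Finset.sum_const]
    apply Finset.sum_le_sum
    intro p hp
    obtain ⟨hp1, hp2⟩ := Finset.mem_filter.1 hp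
    exact Wts_lam_div_le m p hm1 (Wts_mem_pb.1 hp1).2.pos hp2
  refine h1.trans ?_
  apply mul_le_mul_of_nonneg_right _ hlog
  have hprop : ∀ p ∈ S, Q < p ∧ p.Prime ∧ p ∣ m := by
    intro p hp
    rw [hS, Finset.mem_biUnion] at hp
    obtain ⟨j, _, hp⟩ := hp
    obtain ⟨hp1, hp2⟩ := Finset.mem_filter.1 hp
    obtain ⟨⟨h3, h4⟩, h5⟩ := Wts_mem_pb.1 hp1
    exact ⟨lt_of_le_of_lt (Nat.le_mul_of_pos_left Q (by positivity)) h3, h5, hp2⟩
  have hprod : ∏ p ∈ S, p ∣ m := by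
    apply Finset.prod_primes_dvd
    · intro p hp
      exact (hprop p hp).2.1.prime
    · intro p hp
      exact (hprop p hp).2.2
  have h2 : (Q : ℝ) ^ S.card ≤ (N : ℝ) ^ 2 := by
    have h3 : Q ^ S.card ≤ ∏ p ∈ S, p := by
      rw [← Finset.prod_const]
      exact Finset.prod_le_prod (fun _ _ => Nat.zero_le _) (fun p hp => (hprop p hp).1.le)
    have h4 : Q ^ S.card ≤ N ^ 2 := h3.trans ((Nat.le_of_dvd hm1 hprod).trans hm)
    exact_mod_cast h4
  have h5 : (N : ℝ) ^ (e1 * S.card) ≤ (N : ℝ) ^ (2 : ℝ) := by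
    calc (N : ℝ) ^ (e1 * S.card) = ((N : ℝ) ^ e1) ^ S.card := by
          rw [Real.rpow_mul (by linarith), Real.rpow_natCast]
      _ ≤ (Q : ℝ) ^ S.card := pow_le_pow_left₀ (by positivity) hQ _
      _ ≤ (N : ℝ) ^ 2 := h2
      _ = (N : ℝ) ^ (2 : ℝ) := by norm_num
  have h6 : e1 * S.card ≤ 2 := (Real.rpow_le_rpow_left_iff hNr).1 h5
  rw [le_div_iff₀ he1]
  linarith

theorem fp_split (R P m : ℕ) : Fp Lam P m = Fp (hR R) P m + Fp (lamR R) P m := by
  unfold Fp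
  rw [← Finset.sum_add_distrib]
  apply Finset.sum_congr rfl
  intro p _
  unfold hR
  ring

end Pool.Agent.H53.MID
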