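import Pool.Agent.H53.MID.Nz

/-!
# MID FourC: lifting a frequency and the 4-cycle lemma

`lift`: `p ≠ p1` primes, `nz (p1 a - p a1) ≤ d`.  Then there is `s : ℤ` such that `w = (a + s)/p` satisfies `nz (p1 w - a1) ≤ d/p`.
Proof.  `p1 a - p a1 = r + e`, `r ∈ ℤ`, `|e| = nz(..) ≤ d` (`nz_exists`).  `p1 w - a1 = (r + p1 s + e)/p`; choose `s` with `p ∣ r + p1 s`
(`p1` is invertible modulo `p`: `Int.isCoprime_iff_gcd_eq_one`/Bezout: `u p1 + v p = 1`, `s = -r u`).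

`four_cycle`: `p ≠ q`, `p ≠ p1`, `p ≠ p2` primes in `(P, 2P]`, `w_i = (a + s_i)/p`, `nz (p_i w_i - a_i) ≤ d/p`, `nz (p_i b - q a_i) ≤ d` for
`i = 1, 2`, `48 d P^2 < 1`.  Then `p ∣ s1 - s2` (so `w1 - w2` is an integer) and therefore `nz (p2 w1 - a2) ≤ d/p`.
Proof.  `u_i = b - q w_i`.  `p_i u_i = (p_i b - q a_i) - q (p_i w_i - a_i)`, so `p_i u_i = c_i + f_i`, `c_i ∈ ℤ`,
`|f_i| ≤ d + q d/p ≤ 3 d` (`q ≤ 2P < 2p`).  `u_2 - u_1 = q (w_1 - w_2) = q (s_1 - s_2)/p`.  Multiply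
`c_2/p_2 + f_2/p_2 - c_1/p_1 - f_1/p_1 = q (s_1 - s_2)/p` by `p p_1 p_2`: the integer `Z = c_2 p p_1 - c_1 p p_2 - q (s_1 - s_2) p_1 p_2`
is `f_1 p p_2 - f_2 p p_1`, of absolute value `≤ 3 d · 4 P^2 · 2 = 24 d P^2 < 1`, so `Z = 0` and `p ∣ q (s_1 - s_2) p_1 p_2`; `p` is prime and
different from the primes `q, p_1, p_2`, so `p ∣ s_1 - s_2`.
-/

set_option autoImplicit false

namespace Pool.Agent.H53.MID

theorem lift (p p1 : ℕ) (hp : p.Prime) (hp1 : p1.Prime) (hne : p ≠ p1) (a a1 d : ℝ)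
    (h : nz (p1 * a - p * a1) ≤ d) : ∃ s : ℤ, nz (p1 * ((a + s) / p) - a1) ≤ d / p := by
  obtain ⟨r, hr⟩ := nz_exists (p1 * a - p * a1)
  have hcop : Nat.Coprime p1 p := (Nat.coprime_primes hp1 hp).2 (Ne.symm hne)
  have hcop' : IsCoprime (p1 : ℤ) (p : ℤ) := Nat.isCoprime_iff_coprime.2 hcop
  obtain ⟨u, v, huv⟩ := hcop'
  have hp0 : (0 : ℝ) < p := by exact_mod_cast hp.pos
  refine ⟨-(r * u), ?_⟩
  have huv' : (u : ℝ) * p1 + v * p = 1 := by exact_mod_cast huv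
  refine (nz_le_of _ (r * v)).trans ?_
  have e : (p1 : ℝ) * ((a + ((-(r * u) : ℤ) : ℝ)) / p) - a1 - ((r * v : ℤ) : ℝ) =
      (p1 * a - p * a1 - r) / p := by
    push_cast
    field_simp
    linear_combination (-(r : ℝ)) * huv'
  rw [e, abs_div, abs_of_pos hp0]
  exact div_le_div_of_nonneg_right (hr.trans_le h) hp0.le

private theorem FourC_aux (P p q p1 : ℕ) (hp : p.Prime) (hpP : P < p ∧ p ≤ 2 * P) (hqP : P < q ∧ q ≤ 2 * P)
    (b a1 d w : ℝ) (h1 : nz (p1 * w - a1) ≤ d / p) (g1 : nz (p1 * b - q * a1) ≤ d) :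
    ∃ (c : ℤ) (f : ℝ), |f| ≤ 3 * d ∧ p1 * (b - q * w) = c + f := by
  obtain ⟨m, hm⟩ := nz_exists (p1 * w - a1)
  obtain ⟨c, hc⟩ := nz_exists (p1 * b - q * a1)
  refine ⟨c - q * m, (p1 * b - q * a1 - c) - q * (p1 * w - a1 - m), ?_, ?_⟩
  · have hp0 : (0 : ℝ) < p := by exact_mod_cast hp.pos
    have hqp : (q : ℝ) ≤ 2 * p := by
      have : q ≤ 2 * p := by omega
      exact_mod_cast this
    have e1 : |p1 * b - q * a1 - c| ≤ d := hc.trans_le g1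
    have e2 : |(p1 * w - a1 - m : ℝ)| ≤ d / p := hm.trans_le h1
    have e3 : |(q : ℝ) * (p1 * w - a1 - m)| ≤ 2 * d := by
      rw [abs_mul, abs_of_nonneg (Nat.cast_nonneg q)]
      calc (q : ℝ) * |p1 * w - a1 - m| ≤ (2 * p) * (d / p) :=
            mul_le_mul hqp e2 (abs_nonneg _) (by positivity)
        _ = 2 * d := by field_simp
    calc |(p1 * b - q * a1 - c) - q * (p1 * w - a1 - m)| ≤ |p1 * b - q * a1 - c| +
          |(q : ℝ) * (p1 * w - a1 - m)| := abs_sub _ _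
      _ ≤ d + 2 * d := add_le_add e1 e3
      _ = 3 * d := by ring
  · push_cast
    ring

theorem four_cycle (P p q p1 p2 : ℕ) (hp : p.Prime) (hq : q.Prime) (hp1 : p1.Prime) (hp2 : p2.Prime)
    (hpP : P < p ∧ p ≤ 2 * P) (hqP : P < q ∧ q ≤ 2 * P) (hp1P : P < p1 ∧ p1 ≤ 2 * P) (hp2P : P < p2 ∧ p2 ≤ 2 * P)
    (hpq : p ≠ q) (hpp1 : p ≠ p1) (hpp2 : p ≠ p2) (a b a1 a2 d : ℝ) (s1 s2 : ℤ)
    (h1 : nz (p1 * ((a + s1) / p) - a1) ≤ d / p) (h2 : nz (p2 * ((a + s2) / p) - a2) ≤ d / p)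
    (g1 : nz (p1 * b - q * a1) ≤ d) (g2 : nz (p2 * b - q * a2) ≤ d) (hd0 : 0 ≤ d) (hd : 48 * d * (P : ℝ) ^ 2 < 1) :
    nz (p2 * ((a + s1) / p) - a2) ≤ d / p := by
  obtain ⟨c1, f1, hf1, e1⟩ := FourC_aux P p q p1 hp hpP hqP b a1 d _ h1 g1
  obtain ⟨c2, f2, hf2, e2⟩ := FourC_aux P p q p2 hp hpP hqP b a2 d _ h2 g2
  have hp0 : (0 : ℝ) < p := by exact_mod_cast hp.pos
  set Z : ℤ := c2 * (p * p1) - c1 * (p * p2) - q * (s1 - s2) * (p1 * p2) with hZ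
  have hZr : (Z : ℝ) = f1 * (p * p2) - f2 * (p * p1) := by
    rw [hZ]
    push_cast
    have e1' : (c1 : ℝ) = p1 * (b - q * ((a + s1) / p)) - f1 := by linarith
    have e2' : (c2 : ℝ) = p2 * (b - q * ((a + s2) / p)) - f2 := by linarith
    rw [e1', e2']
    field_simp
    ring
  have hP0 : (0 : ℝ) ≤ P := Nat.cast_nonneg P
  have hpP' : (p : ℝ) ≤ 2 * P := by exact_mod_cast hpP.2
  have hp1P' : (p1 : ℝ) ≤ 2 * P := by exact_mod_cast hp1P.2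
  have hp2P' : (p2 : ℝ) ≤ 2 * P := by exact_mod_cast hp2P.2
  have hb : ∀ (f r : ℝ), |f| ≤ 3 * d → 0 ≤ r → r ≤ 2 * P → |f * (p * r)| ≤ 12 * d * (P : ℝ) ^ 2 := by
    intro f r hf hr hr2
    rw [abs_mul, abs_of_nonneg (mul_nonneg hp0.le hr)]
    calc |f| * (p * r) ≤ (3 * d) * ((2 * P) * (2 * P)) := by
          refine mul_le_mul hf (mul_le_mul hpP' hr2 hr (by positivity)) (by positivity) (by positivity)
      _ = 12 * d * (P : ℝ) ^ 2 := by ring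
  have hZlt : |(Z : ℝ)| < 1 := by
    rw [hZr]
    have k1 := hb f1 p2 hf1 (Nat.cast_nonneg _) hp2P'
    have k2 := hb f2 p1 hf2 (Nat.cast_nonneg _) hp1P'
    have k3 := abs_sub (f1 * (p * p2)) (f2 * (p * p1))
    have k4 : 0 ≤ d * (P : ℝ) ^ 2 := by positivity
    linarith
  have hZ0 : Z = 0 := by
    have h3 : |Z| < 1 := by exact_mod_cast hZlt
    exact Int.abs_lt_one_iff.1 h3
  have hpi : Prime (p : ℤ) := Nat.prime_iff_prime_int.1 hp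
  have hndvd : ∀ r : ℕ, r.Prime → p ≠ r → ¬ (p : ℤ) ∣ (r : ℤ) := by
    intro r hr hne hdv
    exact hne ((Nat.prime_dvd_prime_iff_eq hp hr).1 (Int.natCast_dvd_natCast.1 hdv))
  have hdvd : (p : ℤ) ∣ s1 - s2 := by
    have h3 : (q : ℤ) * (s1 - s2) * (p1 * p2) = p * (c2 * p1 - c1 * p2) := by
      have h4 := hZ0
      rw [hZ] at h4
      linear_combination -h4
    have h4 : (p : ℤ) ∣ (q : ℤ) * (s1 - s2) * (p1 * p2) := ⟨_, h3⟩
    rcases hpi.dvd_or_dvd h4 with h5 | h5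
    · rcases hpi.dvd_or_dvd h5 with h6 | h6
      · exact absurd h6 (hndvd q hq hpq)
      · exact h6
    · rcases hpi.dvd_or_dvd h5 with h6 | h6
      · exact absurd h6 (hndvd p1 hp1 hpp1)
      · exact absurd h6 (hndvd p2 hp2 hpp2)
  obtain ⟨k, hk⟩ := hdvd
  have hk' : (s1 : ℝ) = s2 + p * k := by
    have : s1 = s2 + p * k := by linarith
    exact_mod_cast this
  have e : (p2 : ℝ) * ((a + s1) / p) - a2 = (p2 * ((a + s2) / p) - a2) + ((p2 * k : ℤ) : ℝ) := by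
    rw [hk']
    push_cast
    field_simp
    ring
  rw [e, nz_add_int]
  exact h2

end Pool.Agent.H53.MID
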