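import Pool.Agent.H53.MID.Defs

/-!
# MID FpL1: `L¹` bound for `Fp f P` on intervals

Proof.  `∑_{m ∈ [u,u+v)} |Fp f P m| ≤ ∑_{p ∈ pb P} ∑_{k : u ≤ p k < u+v} |f k|`; the `k` are in an interval `[a, a + ℓ)` with `a = ⌈u/p⌉`,
`ℓ = v/P + 1 + w0` (natural division; `≥ ` the number of the `k`, `≥ w0`; `a + ℓ ≤ u + v + w0 + 2 ≤ X`), so Cauchy-Schwarz and `SqB` give `≤ ℓ L^2` for every `p`; `|pb P| ≤ P`.
-/

set_option autoImplicit false

namespace Pool.Agent.H53.MID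

open Finset
open Pool.Agent.H35.W (pb)

private theorem FpL1_card (P : ℕ) : (pb P).card ≤ P := by
  have h1 : (pb P).card ≤ (Ioc P (2 * P)).card := card_filter_le _ _
  rw [Nat.card_Ioc] at h1
  omega

private theorem FpL1_one (f : ℕ → ℝ) (P w0 X u v p : ℕ) (L : ℝ) (hP : 1 ≤ P)
    (hp : P < p) (hf : SqB f w0 X L) (hX : u + v + w0 + 2 ≤ X) :
    ∑ m ∈ (Ico u (u + v)).filter (fun m => p ∣ m), |f (m / p)| ≤
      ((v : ℝ) / P + 1 + w0) * L ^ 2 := by
  have hp0 : 0 < p := by omega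
  obtain ⟨a, ha⟩ : ∃ a, a = (u + p - 1) / p := ⟨_, rfl⟩
  obtain ⟨l, hl⟩ : ∃ l, l = v / P + 1 + w0 := ⟨_, rfl⟩
  have ha1 : u ≤ a * p := by
    rw [ha]
    have := Nat.lt_div_mul_add (a := u + p - 1) hp0
    omega
  have ha2 : a ≤ u := by
    rw [ha]
    rcases Nat.eq_zero_or_pos u with hu | hu
    · subst hu
      rw [Nat.div_eq_of_lt (by omega)]
    · rw [Nat.div_le_iff_le_mul_add_pred hp0]
      have : u ≤ p * u := Nat.le_mul_of_pos_left _ hp0
      omega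
  obtain ⟨q, hq⟩ : ∃ q, q = v / P := ⟨_, rfl⟩
  have hlv : q ≤ v := by
    rw [hq]
    exact Nat.div_le_self _ _
  rw [← hq] at hl
  have hsq := hf a l (by omega) (by omega)
  have hinj : Set.InjOn (fun m => m / p) ((Ico u (u + v)).filter (fun m => p ∣ m)) := by
    intro m hm m' hm' h
    rw [mem_coe, mem_filter] at hm hm'
    have h1 : m / p = m' / p := h
    rw [← Nat.div_mul_cancel hm.2, ← Nat.div_mul_cancel hm'.2, h1]
  have e1 : ∑ m ∈ (Ico u (u + v)).filter (fun m => p ∣ m), |f (m / p)| =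
      ∑ k ∈ ((Ico u (u + v)).filter (fun m => p ∣ m)).image (fun m => m / p), |f k| :=
    (sum_image (f := fun k => |f k|) hinj).symm
  have e2 : ∑ k ∈ ((Ico u (u + v)).filter (fun m => p ∣ m)).image (fun m => m / p), |f k| ≤
      ∑ k ∈ Ico a (a + l), |f k| := by
    refine sum_le_sum_of_subset_of_nonneg ?_ fun k _ _ => abs_nonneg _
    intro k hk
    rw [mem_image] at hk
    obtain ⟨m, hm, rfl⟩ := hk
    rw [mem_filter, mem_Ico] at hm
    obtain ⟨⟨hm1, hm2⟩, k, rfl⟩ := hm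
    rw [Nat.mul_div_cancel_left _ hp0, mem_Ico]
    have hak : a ≤ k := by
      rw [ha, Nat.div_le_iff_le_mul_add_pred hp0]
      have : p * k = k * p := mul_comm _ _
      omega
    refine ⟨hak, ?_⟩
    obtain ⟨t, rfl⟩ := Nat.exists_eq_add_of_le hak
    have h3 : p * t < v := by
      have : p * (a + t) = a * p + p * t := by ring
      omega
    have h4 : t ≤ q := by
      rw [hq, Nat.le_div_iff_mul_le (by omega)]
      have : t * P ≤ p * t := by
        rw [mul_comm]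
        exact Nat.mul_le_mul_right _ hp.le
      omega
    omega
  have hcs : (∑ k ∈ Ico a (a + l), |f k|) ^ 2 ≤ (l * L ^ 2) ^ 2 := by
    have h1 := sq_sum_le_card_mul_sum_sq (s := Ico a (a + l)) (f := fun k => |f k|)
    have h2 : ((Ico a (a + l)).card : ℝ) = l := by
      rw [Nat.card_Ico]
      simp
    have h3 : ∑ k ∈ Ico a (a + l), |f k| ^ 2 = ∑ k ∈ Ico a (a + l), f k ^ 2 :=
      sum_congr rfl fun k _ => sq_abs _
    rw [h2, h3] at h1
    calc (∑ k ∈ Ico a (a + l), |f k|) ^ 2 ≤ l * ∑ k ∈ Ico a (a + l), f k ^ 2 := h1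
      _ ≤ l * (l * L ^ 4) := mul_le_mul_of_nonneg_left hsq (Nat.cast_nonneg _)
      _ = (l * L ^ 2) ^ 2 := by ring
  have hc2 : ∑ k ∈ Ico a (a + l), |f k| ≤ l * L ^ 2 :=
    le_of_sq_le_sq hcs (by positivity)
  have hlr : (l : ℝ) ≤ (v : ℝ) / P + 1 + w0 := by
    rw [hl, hq]
    push_cast
    have : ((v / P : ℕ) : ℝ) ≤ (v : ℝ) / P := Nat.cast_div_le
    linarith
  rw [e1]
  exact e2.trans (hc2.trans (mul_le_mul_of_nonneg_right hlr (by positivity)))

theorem fp_l1 (f : ℕ → ℝ) (P w0 X u v : ℕ) (L : ℝ) (hL : 0 ≤ L) (hP : 1 ≤ P) (hf : SqB f w0 X L)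
    (hX : u + v + w0 + 2 ≤ X) :
    ∑ m ∈ Ico u (u + v), |Fp f P m| ≤ P * ((v : ℝ) / P + 1 + w0) * L ^ 2 := by
  have h1 : ∑ m ∈ Ico u (u + v), |Fp f P m| ≤
      ∑ m ∈ Ico u (u + v), ∑ p ∈ pb P, if p ∣ m then |f (m / p)| else 0 := by
    refine sum_le_sum fun m _ => ?_
    unfold Fp
    refine (abs_sum_le_sum_abs _ _).trans (le_of_eq ?_)
    rw [sum_filter]
  rw [sum_comm] at h1
  refine h1.trans ?_
  have h2 : ∀ p ∈ pb P, (∑ m ∈ Ico u (u + v), if p ∣ m then |f (m / p)| else 0) ≤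
      ((v : ℝ) / P + 1 + w0) * L ^ 2 := by
    intro p hp
    rw [← sum_filter]
    unfold Pool.Agent.H35.W.pb at hp
    rw [mem_filter, mem_Ioc] at hp
    exact FpL1_one f P w0 X u v p L hP hp.1.1 hf hX
  refine (sum_le_sum h2).trans ?_
  rw [sum_const, nsmul_eq_mul]
  have h3 : ((pb P).card : ℝ) ≤ P := by exact_mod_cast FpL1_card P
  have h4 : 0 ≤ ((v : ℝ) / P + 1 + w0) * L ^ 2 := by positivity
  calc ((pb P).card : ℝ) * (((v : ℝ) / P + 1 + w0) * L ^ 2)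
      ≤ P * (((v : ℝ) / P + 1 + w0) * L ^ 2) := mul_le_mul_of_nonneg_right h3 h4
    _ = P * ((v : ℝ) / P + 1 + w0) * L ^ 2 := by ring

end Pool.Agent.H53.MID
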