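import Pool.Agent.H53.MID.Defs

/-!
# MID GDefs: definitions for the Goldbach part

* `JJp`: mean square over short intervals in Fourier form, for `P ≥ L^b` (SP project: `jj_l`, `cor_h`, `lv`), used as a hypothesis; `JJT`, `zs` as in `H35/W/Defs.lean`;
* `PBp`: `P/(8 log P) ≤ #pb P` for `P ≥ P0` (`Pool.Agent.H76.GB.pb_card`), used as a hypothesis;
* `badB g N H M`: blocks `i ∈ [N/(2H), 4N/H]` with `sup_α ‖Bs g H i α‖ > M`; `badT g N H Q M`: the same with `α = a/r`, `r ≤ Q`, and subintervals of the block;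
* `F1 f Q J m = ∑_{j < J} Fp f (2^j Q) m`, `W1 Q J = ∑_{j<J} ∑_{p ∈ pb (2^j Q)} 1/p`, `W2 P = ∑_{p ∈ pb P} 1/p`.
-/

set_option autoImplicit false

namespace Pool.Agent.H53.MID

open Finset MeasureTheory
open Pool.Agent.H91.PK (ee)
open Pool.Agent.H91.EHA (Lam hR lamR ramS)
open Pool.Agent.H35.W (pb pbl JJT zs)

/-- mean square of short sums, Fourier form -/
def JJp : Prop := ∀ B E : ℕ, ∃ b N0 : ℕ, ∀ N : ℕ, N0 ≤ N → ∀ (P d K1 K2 : ℕ) (c l : ℤ) (Y : ℝ),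
  Real.log N ^ b ≤ P → P ^ 3 ≤ N → 1 ≤ d → (d : ℝ) ≤ Real.log N ^ B → IsCoprime c (d : ℤ) →
  N ≤ 32 * P * K1 → K1 < K2 → P * K2 ≤ 32 * N → 0 ≤ Y → P * Y ≤ 1 / Real.log N ^ (E + 13) →
    JJT (cut K1 K2 (hR ⌊Real.log N ^ (B + 1)⌋₊)) K2 (zs (pbl P d l)) ((c : ℝ) / d) 0 Y ≤ N / Real.log N ^ E

/-- Chebyshev's lower bound -/
def PBp : Prop := ∃ P0 : ℕ, ∀ P : ℕ, P0 ≤ P → (P : ℝ) / (8 * Real.log P) ≤ ((pb P).card : ℝ)

open Classical in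
/-- the blocks with a bad rational frequency and subinterval -/
noncomputable def badT (g : ℕ → ℝ) (N H : ℕ) (Q M : ℝ) : Finset ℕ :=
  (Icc (N / (2 * H)) (4 * N / H)).filter (fun i => ∃ r a y1 y2 : ℕ, 1 ≤ r ∧ (r : ℝ) ≤ Q ∧ i * H ≤ y1 ∧
    y2 ≤ (i + 1) * H ∧ M < ‖∑ m ∈ Ico y1 y2, (g m : ℂ) * ee (-(m * ((a : ℝ) / r)))‖)

/-- sum over the dyadic ranges `(2^j Q, 2^(j+1) Q]`, `j < J` -/
noncomputable def F1 (f : ℕ → ℝ) (Q J m : ℕ) : ℝ := ∑ j ∈ range J, Fp f (2 ^ j * Q) m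

noncomputable def W2 (P : ℕ) : ℝ := ∑ p ∈ pb P, 1 / (p : ℝ)

noncomputable def W1 (Q J : ℕ) : ℝ := ∑ j ∈ range J, W2 (2 ^ j * Q)

end Pool.Agent.H53.MID
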