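import Pool.Agent.H53.MID.Defs
import Pool.Agent.H91.PK.LSa
import Pool.Agent.H92.EH.Dual

/-!
# MID Gal: short sums from the Fourier side (discrete)

Proof.  `D(z) = ∑_{z < m ≤ z+W} c m` (`z ∈ ℤ`, `m ∈ [1,X]`) is the `z`-th coefficient of `S(y) K(y)`, `S(y) = ∑ c m ee(m y)`, `K(y) = ∑_{j=1}^W ee(-j y)`.  Parseval on `[-1/2, 1/2]` (compare
`Pool.Agent.H91.PK.LSa_parseval` in `H91/PK/LSa.lean`): `∑_z ‖D z‖^2 = ∫_{-1/2}^{1/2} ‖S‖^2 ‖K‖^2`, the sum over all integers `z ∈ [-W, X]` (only finitely many `D z ≠ 0`); drop `z < 0`.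
`‖K(y)‖ ≤ W` and `‖K(y)‖ ≤ 1/|sin π y| ≤ 1/(2|y|)` for `0 < |y| ≤ 1/2`.  So the integral is `≤ W^2 ∫_{|y| ≤ Y} ‖S‖^2 + (1/(4 Y^2)) ∫_{-1/2}^{1/2} ‖S‖^2` and the last integral is `∑ ‖c m‖^2`.
-/

set_option autoImplicit false

namespace Pool.Agent.H53.MID

open Finset MeasureTheory
open Pool.Agent.H91.PK (ee)

private noncomputable def Gal_K (W : ℕ) (y : ℝ) : ℂ := ∑ i ∈ range W, ee (((i : ℝ) - W) * y)

private theorem Gal_K_norm (W : ℕ) (y : ℝ) : ‖Gal_K W y‖ = ‖Pool.Agent.H92.EH.D W y‖ := by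
  have h : Gal_K W y = ee (-(W * y)) * Pool.Agent.H92.EH.D W y := by
    unfold Gal_K Pool.Agent.H92.EH.D
    rw [Finset.mul_sum]
    refine Finset.sum_congr rfl fun i _ => ?_
    have h1 : Pool.Agent.H92.EH.e (i * y) = ee (i * y) := by
      unfold Pool.Agent.H91.PK.ee Pool.Agent.H92.EH.e
      congr 1
      push_cast
      ring
    rw [h1, ← Pool.Agent.H91.PK.LSa_ee_add]
    congr 1
    ring
  rw [h, norm_mul, Pool.Agent.H91.PK.LSa_norm_ee, one_mul]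

private theorem Gal_cont (x : ℝ) : Continuous (fun y : ℝ => ee (x * y)) := by
  unfold ee
  fun_prop

private noncomputable def Gal_b (X W : ℕ) (c : ℕ → ℂ) (n : ℕ) : ℂ :=
  ∑ m ∈ (Icc 1 X).filter (fun m => m ≤ n ∧ n < m + W), c m

private theorem Gal_conv (X W : ℕ) (c : ℕ → ℂ) (y : ℝ) :
    (∑ m ∈ Icc 1 X, c m * ee (m * y)) * Gal_K W y =
      ∑ n ∈ range (X + W), Gal_b X W c n * ee (((n : ℝ) - W) * y) := by
  have h1 : ∑ n ∈ range (X + W), Gal_b X W c n * ee (((n : ℝ) - W) * y) =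
      ∑ n ∈ range (X + W), ∑ m ∈ Icc 1 X, if (m ≤ n ∧ n < m + W) then c m * ee (((n : ℝ) - W) * y) else 0 := by
    refine Finset.sum_congr rfl fun n _ => ?_
    unfold Gal_b
    rw [Finset.sum_mul, Finset.sum_filter]
  rw [h1, Finset.sum_comm, Finset.sum_mul]
  refine Finset.sum_congr rfl fun m hm => ?_
  rw [Finset.mem_Icc] at hm
  rw [← Finset.sum_filter]
  have h2 : (range (X + W)).filter (fun n => m ≤ n ∧ n < m + W) = Ico m (m + W) := by
    ext n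
    simp only [Finset.mem_filter, Finset.mem_range, Finset.mem_Ico]
    omega
  rw [h2, Finset.sum_Ico_eq_sum_range]
  have h3 : m + W - m = W := by omega
  rw [h3]
  unfold Gal_K
  rw [mul_assoc, Finset.mul_sum, Finset.mul_sum]
  refine Finset.sum_congr rfl fun i _ => ?_
  rw [← Pool.Agent.H91.PK.LSa_ee_add]
  congr 2
  push_cast
  ring

theorem gal (X W : ℕ) (c : ℕ → ℂ) (Y : ℝ) (hY : 0 < Y) (hY1 : Y ≤ 1 / 2) :
    ∑ z ∈ range X, ‖∑ m ∈ (Icc 1 X).filter (fun m => z < m ∧ m ≤ z + W), c m‖ ^ 2 ≤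
      (W : ℝ) ^ 2 * (∫ y in Set.Icc (-Y) Y, ‖∑ m ∈ Icc 1 X, c m * ee (m * y)‖ ^ 2)
        + 1 / Y ^ 2 * ∑ m ∈ Icc 1 X, ‖c m‖ ^ 2 := by
  have h1 : ∑ z ∈ range X, ‖∑ m ∈ (Icc 1 X).filter (fun m => z < m ∧ m ≤ z + W), c m‖ ^ 2 ≤
      ∑ n ∈ range (X + W), ‖Gal_b X W c n‖ ^ 2 := by
    have e1 : ∀ z ∈ range X, ‖∑ m ∈ (Icc 1 X).filter (fun m => z < m ∧ m ≤ z + W), c m‖ ^ 2 =
        ‖Gal_b X W c (z + W)‖ ^ 2 := by
      intro z _
      unfold Gal_b
      have e2 : (Icc 1 X).filter (fun m => z < m ∧ m ≤ z + W) =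
          (Icc 1 X).filter (fun m => m ≤ z + W ∧ z + W < m + W) := by
        ext m
        simp only [Finset.mem_filter, Finset.mem_Icc]
        omega
      rw [e2]
    rw [Finset.sum_congr rfl e1, ← Finset.sum_image (f := fun n => ‖Gal_b X W c n‖ ^ 2) (g := fun z => z + W)
      (fun a _ b _ hab => Nat.add_right_cancel hab)]
    refine Finset.sum_le_sum_of_subset_of_nonneg ?_ fun _ _ _ => by positivity
    intro n hn
    rw [Finset.mem_image] at hn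
    obtain ⟨z, hz, rfl⟩ := hn
    rw [Finset.mem_range] at hz ⊢
    omega
  refine h1.trans ?_
  have hS : Continuous (fun y : ℝ => ∑ m ∈ Icc 1 X, c m * ee (m * y)) :=
    continuous_finsetSum _ fun m _ => continuous_const.mul (Gal_cont _)
  have hK : Continuous (fun y : ℝ => Gal_K W y) := by
    unfold Gal_K
    exact continuous_finsetSum _ fun m _ => Gal_cont _
  have hS2 : Continuous (fun y : ℝ => ‖∑ m ∈ Icc 1 X, c m * ee (m * y)‖ ^ 2) := hS.norm.pow 2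
  rw [← Pool.Agent.H91.PK.LSa_parseval (range (X + W)) (Gal_b X W c) W (-1 / 2)]
  simp_rw [← Gal_conv]
  have h2 : ∑ m ∈ Icc 1 X, ‖c m‖ ^ 2 = ∫ y in (-1 / 2 : ℝ)..(-1 / 2 + 1), ‖∑ m ∈ Icc 1 X, c m * ee (m * y)‖ ^ 2 := by
    rw [← Pool.Agent.H91.PK.LSa_parseval (Icc 1 X) c 0 (-1 / 2)]
    simp_rw [sub_zero]
  rw [h2]
  have e3 : (-1 / 2 + 1 : ℝ) = 1 / 2 := by norm_num
  rw [e3, intervalIntegral.integral_of_le (by norm_num), intervalIntegral.integral_of_le (by norm_num)]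
  have hpt : ∀ y ∈ Set.Ioc (-1 / 2 : ℝ) (1 / 2), ‖(∑ m ∈ Icc 1 X, c m * ee (m * y)) * Gal_K W y‖ ^ 2 ≤
      (Set.Icc (-Y) Y).indicator (fun y => (W : ℝ) ^ 2 * ‖∑ m ∈ Icc 1 X, c m * ee (m * y)‖ ^ 2) y +
        1 / Y ^ 2 * ‖∑ m ∈ Icc 1 X, c m * ee (m * y)‖ ^ 2 := by
    intro y hy
    rw [norm_mul, mul_pow]
    by_cases h : y ∈ Set.Icc (-Y) Y
    · rw [Set.indicator_of_mem h]
      have h3 : ‖Gal_K W y‖ ≤ W := by
        rw [Gal_K_norm]
        exact Pool.Agent.H92.EH.norm_D_le_nat W y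
      have h4 : ‖Gal_K W y‖ ^ 2 ≤ (W : ℝ) ^ 2 := pow_le_pow_left₀ (norm_nonneg _) h3 2
      have h5 : 0 ≤ 1 / Y ^ 2 * ‖∑ m ∈ Icc 1 X, c m * ee (m * y)‖ ^ 2 := by positivity
      have h6 : ‖∑ m ∈ Icc 1 X, c m * ee (m * y)‖ ^ 2 * ‖Gal_K W y‖ ^ 2 ≤
          (W : ℝ) ^ 2 * ‖∑ m ∈ Icc 1 X, c m * ee (m * y)‖ ^ 2 := by
        rw [mul_comm]
        exact mul_le_mul_of_nonneg_right h4 (by positivity)
      linarith
    · rw [Set.indicator_of_notMem h, zero_add, mul_comm]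
      refine mul_le_mul_of_nonneg_right ?_ (by positivity)
      have hlt : Y < |y| := by
        by_contra hcon
        push Not at hcon
        exact h ⟨by linarith [(abs_le.1 hcon).1], (abs_le.1 hcon).2⟩
      have h3 : ∀ m : ℤ, Y ≤ |y - m| := by
        intro m
        by_cases hm : m = 0
        · rw [hm, Int.cast_zero, sub_zero]
          exact hlt.le
        · have h4 : (1 : ℝ) ≤ |(m : ℝ)| := by
            have := Int.one_le_abs hm
            exact_mod_cast this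
          have h5 : |y| ≤ 1 / 2 := abs_le.2 ⟨by linarith [hy.1], hy.2⟩
          have h6 := abs_sub_abs_le_abs_sub (m : ℝ) y
          rw [abs_sub_comm] at h6
          linarith
      have h4 := Pool.Agent.H92.EH.norm_D_le W hY h3
      rw [← Gal_K_norm] at h4
      have h5 : 1 / (2 * Y) ≤ 1 / Y := one_div_le_one_div_of_le hY (by linarith)
      have h6 : ‖Gal_K W y‖ ^ 2 ≤ (1 / Y) ^ 2 := pow_le_pow_left₀ (norm_nonneg _) (h4.trans h5) 2
      rwa [one_div_pow] at h6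
  have hi1 : IntegrableOn (fun y => (Set.Icc (-Y) Y).indicator
      (fun y => (W : ℝ) ^ 2 * ‖∑ m ∈ Icc 1 X, c m * ee (m * y)‖ ^ 2) y) (Set.Ioc (-1 / 2 : ℝ) (1 / 2)) := by
    refine Integrable.integrableOn ?_
    rw [integrable_indicator_iff measurableSet_Icc]
    exact (continuous_const.mul hS2).integrableOn_Icc
  have hi2 : IntegrableOn (fun y => 1 / Y ^ 2 * ‖∑ m ∈ Icc 1 X, c m * ee (m * y)‖ ^ 2)
      (Set.Ioc (-1 / 2 : ℝ) (1 / 2)) :=
    ((continuous_const.mul hS2).integrableOn_Icc).mono_set Set.Ioc_subset_Icc_self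
  refine (setIntegral_mono_on ?_ (hi1.add hi2) measurableSet_Ioc hpt).trans ?_
  · exact (((hS.mul hK).norm.pow 2).integrableOn_Icc).mono_set Set.Ioc_subset_Icc_self
  · rw [integral_add' hi1 hi2, integral_const_mul]
    refine add_le_add ?_ le_rfl
    rw [setIntegral_indicator measurableSet_Icc, ← integral_const_mul]
    refine setIntegral_mono_set ?_ ?_ ?_
    · exact (continuous_const.mul hS2).integrableOn_Icc
    · exact Filter.Eventually.of_forall fun y => by positivity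
    · exact (Filter.Eventually.of_forall fun y (hy : y ∈ Set.Ioc (-1 / 2 : ℝ) (1 / 2) ∩ Set.Icc (-Y) Y) => hy.2)

end Pool.Agent.H53.MID
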