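import Pool.Agent.H53.MID.GDefs
import Pool.Agent.H76.EHB.HRe
import Pool.Agent.H76.GB.Defs

/-!
# MID MainS: the main term

Proof.  `∑_{m ∈ Ico y1 y2} lamR R (2n - m) Fp (lamR R2) P m = ∑_{p ∈ pb P} ∑_{k : y1 ≤ p k < y2} lamR R (2n - p k) lamR R2 k`.
`lamR R (2n - pk) = ∑_{r ≤ R} μ(r)/φ(r) ∑_{b ∈ red r} ee((2n - pk) b/r)` (`Pool.Agent.H76.EHB.lamR_eq`, `2n - pk ≥ 1`), `lamR R2 k = ∑_{s ≤ R2} μ(s)/φ(s) ∑_{c ∈ red s} ee(k c/s)` (`k ≥ 1`).
The sum over `k` (an interval with `K_p` elements, `|K_p - (y2-y1)/p| ≤ 1`) of `ee(k (c/s - p b/r))`: if `c/s - p b/r` is an integer then (`p > R2 ≥ r`, `gcd(p b, r) = 1`, lowest terms) `s = r` and `c ≡ p b (mod r)`, one `c` for every `b`; the value is `K_p`, and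
`∑_{r ≤ R} μ(r)^2/φ(r)^2 ∑_{b ∈ red r} ee(2n b/r) K_p = SR R (2n) K_p` (`∑_{b ∈ red r} ee(2n b/r) = ramS r (2n)`, see the proof of `lamR_eq`).
Otherwise `nz(c/s - pb/r) ≥ 1/(r s)` and the geometric sum is `≤ 1/(2 nz) ≤ r s/2`; in total `≤ ∑_{r ≤ R, s ≤ R2} r s/2 ≤ R2^4/2`.
`|SR R (2n)| ≤ R`.  So the error for each `p` is `≤ R2^4/2 + R ≤ 2 R2^4`; `|pb P| ≤ P`.
-/

set_option autoImplicit false

namespace Pool.Agent.H53.MID

open Finset
open Pool.Agent.H91.PK (ee)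
open Pool.Agent.H91.EHA (Lam hR lamR ramS)
open Pool.Agent.H35.W (pb)
open Pool.Agent.H76.GB (SR)

private theorem ms_ee (t : ℝ) : ee t = Pool.Agent.H92.EH.e t := by
  unfold Pool.Agent.H91.PK.ee Pool.Agent.H92.EH.e
  congr 1
  push_cast
  ring

private theorem ms_ram (c n : ℕ) (hc : 1 ≤ c) (_hn : 1 ≤ n) :
    ((ramS c n : ℝ) : ℂ) = ∑ b ∈ Pool.Agent.H92.EH.red c, ee (n * ((b : ℝ) / c)) := by
  have h1 : ∑ b ∈ Pool.Agent.H92.EH.red c, ee (n * ((b : ℝ) / c)) = Pool.Agent.H92.EH.ram c (n : ℤ) := by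
    unfold Pool.Agent.H92.EH.ram
    refine sum_congr rfl fun b _ => ?_
    rw [ms_ee]
    congr 1
  rw [h1, Pool.Agent.H92.EH.ram_eq c hc (n : ℤ),
    Nat.sum_divisorsAntidiagonal' (f := fun a b : ℕ =>
      ((ArithmeticFunction.moebius a : ℤ) : ℂ) * (if ((b : ℕ) : ℤ) ∣ (n : ℤ) then (b : ℂ) else 0))]
  have h2 : (Nat.gcd c n).divisors = c.divisors.filter (fun d => d ∣ n) := by
    ext d
    simp only [Nat.mem_divisors, mem_filter, Nat.dvd_gcd_iff]
    constructor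
    · rintro ⟨⟨a, b⟩, _⟩
      exact ⟨⟨a, by omega⟩, b⟩
    · rintro ⟨⟨a, _⟩, b⟩
      exact ⟨⟨a, b⟩, (Nat.gcd_pos_of_pos_left n hc).ne'⟩
  unfold ramS
  rw [h2, sum_filter]
  push_cast
  refine sum_congr rfl fun d _ => ?_
  by_cases hd : d ∣ n
  · rw [if_pos hd, if_pos (by exact_mod_cast hd)]
    push_cast
    ring
  · rw [if_neg hd, if_neg (by exact_mod_cast hd)]
    simp

private theorem ms_geom (A B : ℕ) (θ δ : ℝ) (hδ : 0 < δ) (h : ∀ m : ℤ, δ ≤ |θ - m|) :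
    ‖∑ k ∈ Ico A B, ee (k * θ)‖ ≤ 1 / (2 * δ) := by
  set z := Pool.Agent.H92.EH.e θ with hz
  have h4 : 4 * δ ≤ ‖z - 1‖ := Pool.Agent.H92.EH.le_norm_e_sub_one h
  have hz1 : z ≠ 1 := by
    intro h0
    rw [h0, sub_self, norm_zero] at h4
    linarith
  have hzn : ‖z‖ = 1 := Pool.Agent.H92.EH.norm_e θ
  have h5 : ∑ k ∈ Ico A B, ee (k * θ) = ∑ k ∈ Ico A B, z ^ k := by
    refine sum_congr rfl fun k _ => ?_
    rw [ms_ee, Pool.Agent.H92.EH.e_nat_mul]
  rw [h5]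
  rcases le_or_gt A B with hAB | hAB
  · rw [geom_sum_Ico hz1 hAB, norm_div]
    have h6 : ‖z ^ B - z ^ A‖ ≤ 2 := by
      calc ‖z ^ B - z ^ A‖ ≤ ‖z ^ B‖ + ‖z ^ A‖ := norm_sub_le _ _
        _ = 2 := by rw [norm_pow, norm_pow, hzn]; norm_num
    calc ‖z ^ B - z ^ A‖ / ‖z - 1‖ ≤ 2 / (4 * δ) := by
          apply div_le_div₀ (by norm_num) h6 (by positivity) h4
      _ = 1 / (2 * δ) := by
          field_simp
          norm_num
  · rw [Finset.Ico_eq_empty (by omega)]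
    simp
    positivity

private theorem ms_prime (p R R2 n A B : ℕ) (hRR : R ≤ R2) (hp : p.Prime) (hpR : R2 < p)
    (hn : 1 ≤ n) (hA : 1 ≤ A) (hAB : A ≤ B) (hB : ∀ k ∈ Ico A B, p * k < 2 * n) :
    |∑ k ∈ Ico A B, lamR R (2 * n - p * k) * lamR R2 k - SR R (2 * n) * ((B : ℝ) - A)|
      ≤ (R2 : ℝ) ^ 4 / 2 := by
  classical
  set μ : ℕ → ℂ := fun r => ((((ArithmeticFunction.moebius r : ℤ) : ℝ) / (r.totient : ℝ) : ℝ) : ℂ) with hμ
  have hμn : ∀ r : ℕ, 1 ≤ r → ‖μ r‖ ≤ 1 / r.totient := by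
    intro r hr
    have hφ : (0 : ℝ) < r.totient := by exact_mod_cast Nat.totient_pos.mpr hr
    simp only [hμ]
    rw [Complex.norm_real, Real.norm_eq_abs, abs_div, abs_of_pos hφ]
    have h1 : |((ArithmeticFunction.moebius r : ℤ) : ℝ)| ≤ 1 := by
      have := ArithmeticFunction.abs_moebius_le_one (n := r)
      exact_mod_cast this
    exact div_le_div_of_nonneg_right h1 hφ.le
  -- pointwise
  have hpt : ∀ k ∈ Ico A B, ((lamR R (2 * n - p * k) * lamR R2 k : ℝ) : ℂ)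
      = ∑ r ∈ Icc 1 R, ∑ s ∈ Icc 1 R2, μ r * μ s * ∑ b ∈ Pool.Agent.H92.EH.red r,
          ∑ c ∈ Pool.Agent.H92.EH.red s, ee (2 * n * ((b : ℝ) / r)) *
            ee (k * ((c : ℝ) / s - (((p * b) % r : ℕ) : ℝ) / r)) := by
    intro k hk
    have hk2 := hB k hk
    rw [mem_Ico] at hk
    rw [Complex.ofReal_mul, Pool.Agent.H76.EHB.lamR_eq R _ (by omega),
      Pool.Agent.H76.EHB.lamR_eq R2 k (by omega), sum_mul_sum]
    refine sum_congr rfl fun r hr => sum_congr rfl fun s hs => ?_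
    rw [mem_Icc] at hr hs
    rw [mul_mul_mul_comm]
    congr 1
    rw [sum_mul_sum]
    refine sum_congr rfl fun b hb => sum_congr rfl fun c hc => ?_
    rw [← Pool.Agent.H91.PK.LSa_ee_add, ← Pool.Agent.H91.PK.LSa_ee_add]
    have hr0 : (r : ℝ) ≠ 0 := by
      have : (0 : ℝ) < r := by exact_mod_cast hr.1
      exact this.ne'
    have hs0 : (s : ℝ) ≠ 0 := by
      have : (0 : ℝ) < s := by exact_mod_cast hs.1
      exact this.ne'
    obtain ⟨q, hq⟩ : ∃ q : ℕ, (p * b) / r = q := ⟨_, rfl⟩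
    have h1 : ((p * b : ℕ) : ℝ) = (r : ℝ) * (q : ℝ) + (((p * b) % r : ℕ) : ℝ) := by
      rw [← hq]
      exact_mod_cast (Nat.div_add_mod (p * b) r).symm
    have h2 : ((2 * n - p * k : ℕ) : ℝ) = 2 * n - p * k := by
      rw [Nat.cast_sub (by omega)]
      push_cast
      ring
    have h3 : 2 * (n : ℝ) * ((b : ℝ) / r) + k * ((c : ℝ) / s - (((p * b) % r : ℕ) : ℝ) / r)
        = (((2 * n - p * k : ℕ) : ℝ) * ((b : ℝ) / r) + k * ((c : ℝ) / s))
          + ((k * q : ℕ) : ℤ) := by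
      rw [h2]
      push_cast at h1 ⊢
      field_simp
      linear_combination (k : ℝ) * s * h1
    rw [h3, Pool.Agent.H76.EHB.ee_add_int]
  have hsum : ((∑ k ∈ Ico A B, lamR R (2 * n - p * k) * lamR R2 k : ℝ) : ℂ)
      = ∑ r ∈ Icc 1 R, ∑ s ∈ Icc 1 R2, μ r * μ s * ∑ b ∈ Pool.Agent.H92.EH.red r,
          ∑ c ∈ Pool.Agent.H92.EH.red s, ee (2 * n * ((b : ℝ) / r)) *
          ∑ k ∈ Ico A B, ee (k * ((c : ℝ) / s - (((p * b) % r : ℕ) : ℝ) / r)) := by
    rw [Complex.ofReal_sum, sum_congr rfl hpt, sum_comm]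
    refine sum_congr rfl fun r _ => ?_
    rw [sum_comm]
    refine sum_congr rfl fun s _ => ?_
    rw [← mul_sum, sum_comm]
    congr 1
    refine sum_congr rfl fun b _ => ?_
    rw [sum_comm]
    refine sum_congr rfl fun c _ => ?_
    rw [mul_sum]
  have hmem : ∀ r b : ℕ, 1 ≤ r → r ≤ R2 → b ∈ Pool.Agent.H92.EH.red r →
      (p * b) % r ∈ Pool.Agent.H92.EH.red r := by
    intro r b hr hr2 hb
    rw [Pool.Agent.H92.EH.mem_red] at hb ⊢
    refine ⟨Nat.mod_lt _ (by omega), ?_⟩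
    have h1 : Nat.Coprime p r := by
      rw [hp.coprime_iff_not_dvd]
      intro h
      have := Nat.le_of_dvd (by omega) h
      omega
    have h2 : Nat.Coprime (p * b) r := Nat.Coprime.mul_left h1 hb.2
    unfold Nat.Coprime
    rw [← Nat.gcd_rec, Nat.gcd_comm]
    exact h2
  have hmain : ((SR R (2 * n) * ((B : ℝ) - A) : ℝ) : ℂ)
      = ∑ r ∈ Icc 1 R, ∑ s ∈ Icc 1 R2, μ r * μ s * ∑ b ∈ Pool.Agent.H92.EH.red r,
          ∑ c ∈ Pool.Agent.H92.EH.red s, ee (2 * n * ((b : ℝ) / r)) *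
          (if s = r ∧ c = (p * b) % r then ((B : ℂ) - A) else 0) := by
    unfold Pool.Agent.H76.GB.SR
    rw [sum_mul, Complex.ofReal_sum]
    refine sum_congr rfl fun r hr => ?_
    rw [mem_Icc] at hr
    rw [sum_eq_single r]
    · have h1 : ∀ b ∈ Pool.Agent.H92.EH.red r, ∑ c ∈ Pool.Agent.H92.EH.red r,
          ee (2 * n * ((b : ℝ) / r)) * (if r = r ∧ c = (p * b) % r then ((B : ℂ) - A) else 0)
          = ee (2 * n * ((b : ℝ) / r)) * ((B : ℂ) - A) := by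
        intro b hb
        rw [sum_eq_single ((p * b) % r)]
        · rw [if_pos ⟨rfl, rfl⟩]
        · intro c _ hc
          rw [if_neg (fun h => hc h.2), mul_zero]
        · intro h
          exact absurd (hmem r b hr.1 (hr.2.trans hRR) hb) h
      rw [sum_congr rfl h1, ← sum_mul]
      have h2 : ((ramS r (2 * n) : ℝ) : ℂ) = ∑ b ∈ Pool.Agent.H92.EH.red r, ee (2 * n * ((b : ℝ) / r)) := by
        rw [ms_ram r (2 * n) hr.1 (by omega)]
        refine sum_congr rfl fun b _ => ?_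
        congr 1
        push_cast
        ring
      rw [← h2]
      simp only [hμ]
      push_cast
      ring
    · intro s _ hs
      have : ∑ b ∈ Pool.Agent.H92.EH.red r, ∑ c ∈ Pool.Agent.H92.EH.red s,
          ee (2 * n * ((b : ℝ) / r)) * (if s = r ∧ c = (p * b) % r then ((B : ℂ) - A) else 0) = 0 := by
        refine sum_eq_zero fun b _ => sum_eq_zero fun c _ => ?_
        rw [if_neg (fun h => hs h.1), mul_zero]
      rw [this, mul_zero]
    · intro h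
      exact absurd (mem_Icc.2 ⟨hr.1, hr.2.trans hRR⟩) h
  have hdiff : ((∑ k ∈ Ico A B, lamR R (2 * n - p * k) * lamR R2 k : ℝ) : ℂ)
        - ((SR R (2 * n) * ((B : ℝ) - A) : ℝ) : ℂ)
      = ∑ r ∈ Icc 1 R, ∑ s ∈ Icc 1 R2, μ r * μ s * ∑ b ∈ Pool.Agent.H92.EH.red r,
          ∑ c ∈ Pool.Agent.H92.EH.red s, ee (2 * n * ((b : ℝ) / r)) *
          ((∑ k ∈ Ico A B, ee (k * ((c : ℝ) / s - (((p * b) % r : ℕ) : ℝ) / r)))
            - (if s = r ∧ c = (p * b) % r then ((B : ℂ) - A) else 0)) := by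
    rw [hsum, hmain, ← sum_sub_distrib]
    refine sum_congr rfl fun r _ => ?_
    rw [← sum_sub_distrib]
    refine sum_congr rfl fun s _ => ?_
    rw [← mul_sub, ← sum_sub_distrib]
    congr 1
    refine sum_congr rfl fun b _ => ?_
    rw [← sum_sub_distrib]
    refine sum_congr rfl fun c _ => ?_
    rw [mul_sub]
  have hterm : ∀ r ∈ Icc 1 R, ∀ s ∈ Icc 1 R2, ∀ b ∈ Pool.Agent.H92.EH.red r,
      ∀ c ∈ Pool.Agent.H92.EH.red s,
      ‖ee (2 * n * ((b : ℝ) / r)) *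
          ((∑ k ∈ Ico A B, ee (k * ((c : ℝ) / s - (((p * b) % r : ℕ) : ℝ) / r)))
            - (if s = r ∧ c = (p * b) % r then ((B : ℂ) - A) else 0))‖ ≤ (r : ℝ) * s / 2 := by
    intro r hr s hs b hb c hc
    rw [mem_Icc] at hr hs
    have hr0 : (0 : ℝ) < r := by exact_mod_cast hr.1
    have hs0 : (0 : ℝ) < s := by exact_mod_cast hs.1
    rw [norm_mul, Pool.Agent.H91.PK.LSa_norm_ee, one_mul]
    by_cases h : s = r ∧ c = (p * b) % r
    · rw [if_pos h]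
      have h1 : (c : ℝ) / s - (((p * b) % r : ℕ) : ℝ) / r = 0 := by
        rw [h.1, ← h.2, sub_self]
      have h2 : ∑ k ∈ Ico A B, ee (k * ((c : ℝ) / s - (((p * b) % r : ℕ) : ℝ) / r)) = ((B : ℂ) - A) := by
        rw [h1]
        have h3 : ∀ k ∈ Ico A B, ee ((k : ℝ) * 0) = 1 := by
          intro k _
          rw [mul_zero, ms_ee, Pool.Agent.H92.EH.e_zero]
        rw [sum_congr rfl h3, sum_const, Nat.card_Ico, nsmul_eq_mul, mul_one, Nat.cast_sub hAB]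
      rw [h2, sub_self, norm_zero]
      positivity
    · rw [if_neg h, sub_zero]
      have h1 := ms_geom A B ((c : ℝ) / s - (((p * b) % r : ℕ) : ℝ) / r) (1 / ((s : ℝ) * r)) (by positivity)
        (fun m => Pool.Agent.H92.EH.farey_spacing hs.1 hr.1 hc (hmem r b hr.1 (hr.2.trans hRR) hb) h m)
      refine h1.trans (le_of_eq ?_)
      field_simp
  have hfin : |∑ k ∈ Ico A B, lamR R (2 * n - p * k) * lamR R2 k - SR R (2 * n) * ((B : ℝ) - A)|
      ≤ ∑ r ∈ Icc 1 R, ∑ s ∈ Icc 1 R2, (r : ℝ) * s / 2 := by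
    have h0 : |∑ k ∈ Ico A B, lamR R (2 * n - p * k) * lamR R2 k - SR R (2 * n) * ((B : ℝ) - A)|
        = ‖((∑ k ∈ Ico A B, lamR R (2 * n - p * k) * lamR R2 k : ℝ) : ℂ)
        - ((SR R (2 * n) * ((B : ℝ) - A) : ℝ) : ℂ)‖ := by
      rw [← Complex.ofReal_sub, Complex.norm_real, Real.norm_eq_abs]
    rw [h0, hdiff]
    refine (norm_sum_le _ _).trans (sum_le_sum fun r hr => ?_)
    refine (norm_sum_le _ _).trans (sum_le_sum fun s hs => ?_)
    have hr' := mem_Icc.1 hr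
    have hs' := mem_Icc.1 hs
    have hφr : (0 : ℝ) < r.totient := by exact_mod_cast Nat.totient_pos.mpr hr'.1
    have hφs : (0 : ℝ) < s.totient := by exact_mod_cast Nat.totient_pos.mpr hs'.1
    rw [norm_mul, norm_mul]
    have h1 : ‖∑ b ∈ Pool.Agent.H92.EH.red r, ∑ c ∈ Pool.Agent.H92.EH.red s, ee (2 * n * ((b : ℝ) / r)) *
          ((∑ k ∈ Ico A B, ee (k * ((c : ℝ) / s - (((p * b) % r : ℕ) : ℝ) / r)))
            - (if s = r ∧ c = (p * b) % r then ((B : ℂ) - A) else 0))‖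
        ≤ r.totient * (s.totient * ((r : ℝ) * s / 2)) := by
      refine (norm_sum_le _ _).trans ?_
      have h2 : ∀ b ∈ Pool.Agent.H92.EH.red r, ‖∑ c ∈ Pool.Agent.H92.EH.red s,
          ee (2 * n * ((b : ℝ) / r)) *
          ((∑ k ∈ Ico A B, ee (k * ((c : ℝ) / s - (((p * b) % r : ℕ) : ℝ) / r)))
            - (if s = r ∧ c = (p * b) % r then ((B : ℂ) - A) else 0))‖
          ≤ s.totient * ((r : ℝ) * s / 2) := by
        intro b hb
        refine (norm_sum_le _ _).trans ((sum_le_sum fun c hc => hterm r hr s hs b hb c hc).trans ?_)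
        rw [sum_const, Pool.Agent.H92.EH.card_red, nsmul_eq_mul]
      refine (sum_le_sum h2).trans ?_
      rw [sum_const, Pool.Agent.H92.EH.card_red, nsmul_eq_mul]
    calc ‖μ r‖ * ‖μ s‖ * _ ≤ (1 / r.totient) * (1 / s.totient) *
          (r.totient * (s.totient * ((r : ℝ) * s / 2))) := by
          apply mul_le_mul _ h1 (norm_nonneg _) (by positivity)
          exact mul_le_mul (hμn r hr'.1) (hμn s hs'.1) (norm_nonneg _) (by positivity)
      _ = (r : ℝ) * s / 2 := by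
          field_simp
  refine hfin.trans ?_
  have h1 : ∑ r ∈ Icc 1 R, ∑ s ∈ Icc 1 R2, (r : ℝ) * s / 2
      ≤ ∑ _r ∈ Icc 1 R, ∑ _s ∈ Icc 1 R2, (R2 : ℝ) * R2 / 2 := by
    refine sum_le_sum fun r hr => sum_le_sum fun s hs => ?_
    rw [mem_Icc] at hr hs
    have hr0 : (r : ℝ) ≤ R2 := by exact_mod_cast hr.2.trans hRR
    have hs0 : (s : ℝ) ≤ R2 := by exact_mod_cast hs.2
    have : (r : ℝ) * s ≤ R2 * R2 := mul_le_mul hr0 hs0 (by positivity) (by positivity)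
    linarith
  refine h1.trans ?_
  rw [sum_const, sum_const, Nat.card_Icc, Nat.card_Icc, nsmul_eq_mul, nsmul_eq_mul]
  have h2 : ((R + 1 - 1 : ℕ) : ℝ) ≤ R2 := by
    have : R + 1 - 1 ≤ R2 := by omega
    exact_mod_cast this
  have h3 : ((R2 + 1 - 1 : ℕ) : ℝ) = R2 := by simp
  rw [h3]
  have h4 : (0 : ℝ) ≤ (R2 : ℝ) * (R2 * R2 / 2) := by positivity
  calc ((R + 1 - 1 : ℕ) : ℝ) * ((R2 : ℝ) * (R2 * R2 / 2)) ≤ R2 * ((R2 : ℝ) * (R2 * R2 / 2)) :=
        mul_le_mul_of_nonneg_right h2 h4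
    _ = (R2 : ℝ) ^ 4 / 2 := by ring

private theorem ms_SR (R E : ℕ) (hE : 1 ≤ E) : |SR R E| ≤ R := by
  unfold Pool.Agent.H76.GB.SR
  have h1 : ∀ r ∈ Icc 1 R, |(ArithmeticFunction.moebius r : ℝ) ^ 2 * ramS r E / (r.totient : ℝ) ^ 2| ≤ 1 := by
    intro r hr
    rw [mem_Icc] at hr
    have hφn : 1 ≤ r.totient := Nat.totient_pos.mpr hr.1
    have hφ1 : (1 : ℝ) ≤ r.totient := by exact_mod_cast hφn
    have hφ : (0 : ℝ) < r.totient := by linarith
    have h2 : |ramS r E| ≤ r.totient := by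
      have h3 : |ramS r E| = ‖((ramS r E : ℝ) : ℂ)‖ := by
        rw [Complex.norm_real, Real.norm_eq_abs]
      rw [h3, ms_ram r E hr.1 hE]
      refine (norm_sum_le _ _).trans ?_
      have h4 : ∀ b ∈ Pool.Agent.H92.EH.red r, ‖ee ((E : ℝ) * ((b : ℝ) / r))‖ ≤ 1 :=
        fun b _ => (Pool.Agent.H91.PK.LSa_norm_ee _).le
      refine (sum_le_sum h4).trans ?_
      rw [sum_const, Pool.Agent.H92.EH.card_red, nsmul_eq_mul, mul_one]
    have h5 : |((ArithmeticFunction.moebius r : ℤ) : ℝ)| ≤ 1 := by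
      have := ArithmeticFunction.abs_moebius_le_one (n := r)
      exact_mod_cast this
    have h6 : |((ArithmeticFunction.moebius r : ℤ) : ℝ) ^ 2| ≤ 1 := by
      rw [abs_pow]
      exact pow_le_one₀ (abs_nonneg _) h5
    rw [abs_div, abs_mul, abs_of_pos (by positivity : (0 : ℝ) < (r.totient : ℝ) ^ 2),
      div_le_one (by positivity)]
    calc |((ArithmeticFunction.moebius r : ℤ) : ℝ) ^ 2| * |ramS r E| ≤ 1 * r.totient :=
          mul_le_mul h6 h2 (abs_nonneg _) (by norm_num)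
      _ ≤ (r.totient : ℝ) ^ 2 := by nlinarith
  refine (abs_sum_le_sum_abs _ _).trans ((sum_le_sum h1).trans ?_)
  rw [sum_const, Nat.card_Icc, nsmul_eq_mul, mul_one]
  simp

private theorem ms_ceil (y p k : ℕ) (hp : 0 < p) : (y + (p - 1)) / p ≤ k ↔ y ≤ p * k := by
  rw [Nat.div_le_iff_le_mul_add_pred hp]
  omega

private theorem ms_reindex (f : ℕ → ℕ → ℝ) (p y1 y2 : ℕ) (hp : 0 < p) :
    ∑ m ∈ (Ico y1 y2).filter (fun m => p ∣ m), f m (m / p)
      = ∑ k ∈ Ico ((y1 + (p - 1)) / p) ((y2 + (p - 1)) / p), f (p * k) k := by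
  refine sum_nbij' (fun m => m / p) (fun k => p * k) ?_ ?_ ?_ ?_ ?_
  · intro m hm
    rw [mem_filter, mem_Ico] at hm
    obtain ⟨⟨h1, h2⟩, k, rfl⟩ := hm
    rw [Nat.mul_div_cancel_left k hp, mem_Ico]
    refine ⟨(ms_ceil y1 p k hp).2 h1, ?_⟩
    by_contra h
    have := (ms_ceil y2 p k hp).1 (not_lt.1 h)
    omega
  · intro k hk
    rw [mem_Ico] at hk
    rw [mem_filter, mem_Ico]
    refine ⟨⟨(ms_ceil y1 p k hp).1 hk.1, ?_⟩, ⟨k, rfl⟩⟩
    by_contra h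
    have := (ms_ceil y2 p k hp).2 (not_lt.1 h)
    omega
  · intro m hm
    rw [mem_filter] at hm
    exact Nat.mul_div_cancel' hm.2
  · intro k _
    exact Nat.mul_div_cancel_left k hp
  · intro m hm
    rw [mem_filter] at hm
    rw [Nat.mul_div_cancel' hm.2]

theorem main_s (P R R2 y1 y2 n : ℕ) (hR : 1 ≤ R) (hRR : R ≤ R2) (hP : R2 < P) (hy : 1 ≤ y1) (hy2 : y1 ≤ y2)
    (hn : y2 ≤ 2 * n) :
    |∑ m ∈ Ico y1 y2, lamR R (2 * n - m) * Fp (lamR R2) P m - SR R (2 * n) * ((y2 : ℝ) - y1) * W2 P|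
      ≤ 4 * P * (R2 : ℝ) ^ 4 := by
  have hn1 : 1 ≤ n := by omega
  have h1 : ∑ m ∈ Ico y1 y2, lamR R (2 * n - m) * Fp (lamR R2) P m
      = ∑ p ∈ pb P, ∑ k ∈ Ico ((y1 + (p - 1)) / p) ((y2 + (p - 1)) / p),
          lamR R (2 * n - p * k) * lamR R2 k := by
    have h2 : ∀ m ∈ Ico y1 y2, lamR R (2 * n - m) * Fp (lamR R2) P m
        = ∑ p ∈ pb P, if p ∣ m then lamR R (2 * n - m) * lamR R2 (m / p) else 0 := by
      intro m _
      unfold Fp
      rw [mul_sum, sum_filter]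
    rw [sum_congr rfl h2, sum_comm]
    refine sum_congr rfl fun p hp => ?_
    have hp0 : 0 < p := by
      unfold Pool.Agent.H35.W.pb at hp
      rw [mem_filter] at hp
      exact hp.2.pos
    rw [← sum_filter]
    exact ms_reindex (fun m k => lamR R (2 * n - m) * lamR R2 k) p y1 y2 hp0
  have h3 : SR R (2 * n) * ((y2 : ℝ) - y1) * W2 P
      = ∑ p ∈ pb P, SR R (2 * n) * (((y2 : ℝ) - y1) / p) := by
    unfold W2
    rw [mul_sum]
    refine sum_congr rfl fun p _ => ?_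
    ring
  rw [h1, h3, ← sum_sub_distrib]
  have hR2 : (1 : ℝ) ≤ R2 := by exact_mod_cast hR.trans hRR
  have hRR' : (R : ℝ) ≤ R2 := by exact_mod_cast hRR
  have hR4 : (R2 : ℝ) ≤ (R2 : ℝ) ^ 4 := by
    calc (R2 : ℝ) = (R2 : ℝ) ^ 1 := (pow_one _).symm
      _ ≤ (R2 : ℝ) ^ 4 := pow_le_pow_right₀ hR2 (by norm_num)
  have hper : ∀ p ∈ pb P, |∑ k ∈ Ico ((y1 + (p - 1)) / p) ((y2 + (p - 1)) / p),
      lamR R (2 * n - p * k) * lamR R2 k - SR R (2 * n) * (((y2 : ℝ) - y1) / p)| ≤ 4 * (R2 : ℝ) ^ 4 := by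
    intro p hp
    unfold Pool.Agent.H35.W.pb at hp
    rw [mem_filter, mem_Ioc] at hp
    have hpp := hp.2
    have hp0 : 0 < p := hpp.pos
    have hpR : (0 : ℝ) < p := by exact_mod_cast hp0
    set A := (y1 + (p - 1)) / p with hA
    set B := (y2 + (p - 1)) / p with hB
    have hAB : A ≤ B := Nat.div_le_div_right (by omega)
    have hA1 : 1 ≤ A := by
      rw [hA, Nat.le_div_iff_mul_le hp0]
      omega
    have hlt : ∀ k ∈ Ico A B, p * k < 2 * n := by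
      intro k hk
      rw [mem_Ico] at hk
      have h5 : ¬ B ≤ k := not_le.2 hk.2
      rw [hB, ms_ceil y2 p k hp0] at h5
      omega
    have h6 := ms_prime p R R2 n A B hRR hpp (by omega) hn1 hA1 hAB hlt
    have hAl : y1 ≤ p * A := (ms_ceil y1 p A hp0).1 le_rfl
    have hBl : y2 ≤ p * B := (ms_ceil y2 p B hp0).1 le_rfl
    have hAu : p * A ≤ y1 + (p - 1) := Nat.mul_div_le _ _
    have hBu : p * B ≤ y2 + (p - 1) := Nat.mul_div_le _ _
    have hAl' : (y1 : ℝ) ≤ p * A := by exact_mod_cast hAl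
    have hBl' : (y2 : ℝ) ≤ p * B := by exact_mod_cast hBl
    have hAu' : (p : ℝ) * A ≤ y1 + p := by
      have : p * A ≤ y1 + p := by omega
      exact_mod_cast this
    have hBu' : (p : ℝ) * B ≤ y2 + p := by
      have : p * B ≤ y2 + p := by omega
      exact_mod_cast this
    have h7 : |((B : ℝ) - A) - ((y2 : ℝ) - y1) / p| ≤ 1 := by
      have h8 : ((B : ℝ) - A) - ((y2 : ℝ) - y1) / p = ((p * B - y2) - (p * A - y1)) / p := by
        field_simp
        ring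
      rw [h8, abs_div, abs_of_pos hpR, div_le_one hpR, abs_le]
      constructor <;> linarith
    have h9 := ms_SR R (2 * n) (by omega)
    have h10 : |SR R (2 * n) * (((B : ℝ) - A) - ((y2 : ℝ) - y1) / p)| ≤ R := by
      rw [abs_mul]
      calc |SR R (2 * n)| * |((B : ℝ) - A) - ((y2 : ℝ) - y1) / p| ≤ R * 1 :=
            mul_le_mul h9 h7 (abs_nonneg _) (by positivity)
        _ = R := mul_one _
    have h11 : ∑ k ∈ Ico A B, lamR R (2 * n - p * k) * lamR R2 k - SR R (2 * n) * (((y2 : ℝ) - y1) / p)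
        = (∑ k ∈ Ico A B, lamR R (2 * n - p * k) * lamR R2 k - SR R (2 * n) * ((B : ℝ) - A))
          + SR R (2 * n) * (((B : ℝ) - A) - ((y2 : ℝ) - y1) / p) := by ring
    rw [h11]
    refine (abs_add_le _ _).trans ?_
    linarith
  refine (abs_sum_le_sum_abs _ _).trans ((sum_le_sum hper).trans ?_)
  rw [sum_const, nsmul_eq_mul]
  have hcard : ((pb P).card : ℝ) ≤ P := by
    have h12 : (pb P).card ≤ P := by
      unfold Pool.Agent.H35.W.pb
      refine (card_filter_le _ _).trans ?_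
      rw [Nat.card_Ioc]
      omega
    exact_mod_cast h12
  have h13 : (0 : ℝ) ≤ 4 * (R2 : ℝ) ^ 4 := by positivity
  calc ((pb P).card : ℝ) * (4 * (R2 : ℝ) ^ 4) ≤ P * (4 * (R2 : ℝ) ^ 4) :=
        mul_le_mul_of_nonneg_right hcard h13
    _ = 4 * P * (R2 : ℝ) ^ 4 := by ring

end Pool.Agent.H53.MID
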