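import Pool.Agent.H53.MID.GoldA
import Pool.Agent.H53.MID.MainS
import Pool.Agent.H53.MID.Wts
import Pool.Agent.H76.GB.Sing

/-!
# MID GoldB: lower bound for the number of weighted representations

Proof.  `L = log N`, `R = ⌊L^B⌋`, `R2 = ⌊L^(B+1)⌋`, `Yw H i n = Ico y1 y2` (`yw_eq`).
`F1 Lam Q J (2n-m) = W1 lamR R (2n-m) + E(2n-m)`, the `E` part is `≥ - H/L^3` (hypothesis `hE`).
`Fp Lam P m = Fp (hR R2) P m + Fp (lamR R2) P m` (`fp_split`).
(1) `main_s`: `∑_{m ∈ Ico y1 y2} lamR R (2n-m) Fp (lamR R2) P m ≥ SR R (2n) (y2 - y1) W2 P - 4 P R2^4 ≥ 2 H W2 P - 4 P R2^4` (`Pool.Agent.H76.GB.sr_ge`: `SR R (2n) ≥ 1`, `R ≥ 2`), `W2 P ≥ 1/(16 log P)` (`w2_ge`, `P ≥ L^(5B+10)` large), `P^5 ≤ H`,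
so `4 P R2^4 ≤ H/L^4`.
(2) `∑_{m ∈ Ico y1 y2} lamR R (2n-m) Fp (hR R2) P m = ∑_{r ≤ R} μ(r)/φ(r) ∑_{b ∈ red r} ee(2n b/r) ∑_{m} Fp (hR R2) P m ee(-m b/r)` (`lamR_eq`, `2n - m ≥ 1`).  `Ico y1 y2` is the union of its intersections with the blocks `i-1, i, i+1` (intervals),
and by `hT` (`j ∉ badT`, `r ≤ R ≤ L^B`) each of the three inner sums has norm `≤ H/L^(B+4)`; total `≤ R · 3 H/L^(B+4) ≤ 3 H/L^4`.
(3) So the sum is `≥ W1 (H/(8 log P) - 4 H/L^4) - H/L^3`, the bracket is `≥ 0`, `W1 ≥ 1/50`, `log P ≤ L`: `≥ H/(400 log P) - H/L^3 - H/L^4 ≥ H/(800 log P)`.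
-/

set_option autoImplicit false

namespace Pool.Agent.H53.MID

open Finset
open Pool.Agent.H91.PK (ee)
open Pool.Agent.H91.EHA (Lam hR lamR ramS)

/-- splitting an interval in three blocks -/
private theorem GoldB_split (f : ℕ → ℂ) (a b c d y1 y2 : ℕ) (hab : a ≤ b) (hbc : b ≤ c) (h1 : a ≤ y1)
    (h2 : y2 ≤ d) : ∑ m ∈ Ico y1 y2, f m = ∑ m ∈ Ico (max y1 a) (min y2 b), f m +
      ∑ m ∈ Ico (max y1 b) (min y2 c), f m + ∑ m ∈ Ico (max y1 c) (min y2 d), f m := by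
  have e : Ico y1 y2 = (Ico (max y1 a) (min y2 b) ∪ Ico (max y1 b) (min y2 c)) ∪ Ico (max y1 c) (min y2 d) := by
    ext m
    simp only [mem_union, mem_Ico]
    omega
  rw [e, sum_union, sum_union]
  · rw [Finset.disjoint_left]
    intro m hm hm'
    rw [mem_Ico] at hm hm'
    omega
  · rw [Finset.disjoint_left]
    intro m hm hm'
    rw [mem_union, mem_Ico, mem_Ico] at hm
    rw [mem_Ico] at hm'
    omega

/-- `lamR` against a function whose exponential sums are small -/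
private theorem GoldB_lam (g : ℕ → ℝ) (R n y1 y2 : ℕ) (M : ℝ) (hM : 0 ≤ M) (hy : y2 ≤ 2 * n)
    (hg : ∀ r a : ℕ, 1 ≤ r → r ≤ R → ‖∑ m ∈ Ico y1 y2, (g m : ℂ) * ee (-(m * ((a : ℝ) / r)))‖ ≤ M) :
    |∑ m ∈ Ico y1 y2, lamR R (2 * n - m) * g m| ≤ R * M := by
  have h1 : ((∑ m ∈ Ico y1 y2, lamR R (2 * n - m) * g m : ℝ) : ℂ) =
      ∑ c ∈ Icc 1 R, ((((ArithmeticFunction.moebius c : ℤ) : ℝ) / (c.totient : ℝ) : ℝ) : ℂ) *
        ∑ b ∈ Pool.Agent.H92.EH.red c, ee (2 * n * ((b : ℝ) / c)) *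
          ∑ m ∈ Ico y1 y2, (g m : ℂ) * ee (-(m * ((b : ℝ) / c))) := by
    rw [Complex.ofReal_sum]
    have h2 : ∀ m ∈ Ico y1 y2, ((lamR R (2 * n - m) * g m : ℝ) : ℂ) =
        ∑ c ∈ Icc 1 R, ((((ArithmeticFunction.moebius c : ℤ) : ℝ) / (c.totient : ℝ) : ℝ) : ℂ) *
          ∑ b ∈ Pool.Agent.H92.EH.red c, ee (2 * n * ((b : ℝ) / c)) * ((g m : ℂ) * ee (-(m * ((b : ℝ) / c)))) := by
      intro m hm
      rw [mem_Ico] at hm
      rw [Complex.ofReal_mul, Pool.Agent.H76.EHB.lamR_eq R (2 * n - m) (by omega), sum_mul]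
      refine sum_congr rfl fun c _ => ?_
      rw [mul_assoc, sum_mul]
      congr 1
      refine sum_congr rfl fun b _ => ?_
      have h3 : ((2 * n - m : ℕ) : ℝ) * ((b : ℝ) / c) = 2 * n * ((b : ℝ) / c) + -(m * ((b : ℝ) / c)) := by
        rw [Nat.cast_sub (by omega)]
        push_cast
        ring
      rw [h3, Pool.Agent.H91.PK.LSa_ee_add]
      ring
    rw [sum_congr rfl h2, sum_comm]
    refine sum_congr rfl fun c _ => ?_
    rw [← mul_sum, sum_comm]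
    congr 1
    refine sum_congr rfl fun b _ => ?_
    rw [mul_sum]
  have h4 : |∑ m ∈ Ico y1 y2, lamR R (2 * n - m) * g m| =
      ‖((∑ m ∈ Ico y1 y2, lamR R (2 * n - m) * g m : ℝ) : ℂ)‖ := by
    rw [Complex.norm_real, Real.norm_eq_abs]
  rw [h4, h1]
  refine (norm_sum_le _ _).trans ?_
  have h5 : ∀ c ∈ Icc 1 R, ‖((((ArithmeticFunction.moebius c : ℤ) : ℝ) / (c.totient : ℝ) : ℝ) : ℂ) *
      ∑ b ∈ Pool.Agent.H92.EH.red c, ee (2 * n * ((b : ℝ) / c)) *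
        ∑ m ∈ Ico y1 y2, (g m : ℂ) * ee (-(m * ((b : ℝ) / c)))‖ ≤ M := by
    intro c hc
    rw [mem_Icc] at hc
    have hφ : (0 : ℝ) < c.totient := by exact_mod_cast Nat.totient_pos.2 hc.1
    rw [norm_mul, Complex.norm_real, Real.norm_eq_abs, abs_div, abs_of_pos hφ]
    have h6 : |((ArithmeticFunction.moebius c : ℤ) : ℝ)| ≤ 1 := by
      exact_mod_cast ArithmeticFunction.abs_moebius_le_one
    have h7 : ‖∑ b ∈ Pool.Agent.H92.EH.red c, ee (2 * n * ((b : ℝ) / c)) *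
        ∑ m ∈ Ico y1 y2, (g m : ℂ) * ee (-(m * ((b : ℝ) / c)))‖ ≤ c.totient * M := by
      refine (norm_sum_le _ _).trans ?_
      have h8 : ∀ b ∈ Pool.Agent.H92.EH.red c, ‖ee (2 * n * ((b : ℝ) / c)) *
          ∑ m ∈ Ico y1 y2, (g m : ℂ) * ee (-(m * ((b : ℝ) / c)))‖ ≤ M := by
        intro b _
        rw [norm_mul, Pool.Agent.H91.PK.LSa_norm_ee, one_mul]
        exact hg c b hc.1 hc.2
      refine (sum_le_card_nsmul _ _ _ h8).trans ?_
      rw [nsmul_eq_mul]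
      refine mul_le_mul_of_nonneg_right ?_ hM
      rw [Nat.cast_le, Pool.Agent.H92.EH.card_red]
    calc |((ArithmeticFunction.moebius c : ℤ) : ℝ)| / c.totient * _ ≤ 1 / c.totient * (c.totient * M) := by
          gcongr
      _ = M := by field_simp
  refine (sum_le_card_nsmul _ _ _ h5).trans ?_
  rw [nsmul_eq_mul, Nat.card_Icc]
  simp

private theorem GoldB_lim (C : ℝ) : ∃ N0 : ℕ, ∀ N : ℕ, N0 ≤ N → C ≤ Real.log N := by
  have h := (Real.tendsto_log_atTop.comp tendsto_natCast_atTop_atTop).eventually_ge_atTop C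
  obtain ⟨N0, h0⟩ := Filter.eventually_atTop.1 h
  exact ⟨N0, fun N hN => h0 N hN⟩

theorem gold_b (hPB : PBp) (B : ℕ) (hB : 1 ≤ B) : ∃ N0 : ℕ, ∀ N : ℕ, N0 ≤ N → ∀ H P Q J i n : ℕ,
    Real.log N ^ (5 * B + 10) ≤ P → P ^ 5 ≤ H → H ^ 2 ≤ N → (1 : ℝ) / 50 ≤ W1 Q J →
    N / (2 * H) + 1 ≤ i → i + 1 ≤ 4 * N / H → i * H ≤ n → n < (i + 1) * H →
    |∑ m ∈ Yw H i n, (F1 Lam Q J (2 * n - m) - W1 Q J * lamR ⌊Real.log N ^ B⌋₊ (2 * n - m)) * Fp Lam P m|
      ≤ H / Real.log N ^ 3 →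
    (∀ j ∈ Icc (i - 1) (i + 1), j ∉ badT (Fp (hR ⌊Real.log N ^ (B + 1)⌋₊) P) N H (Real.log N ^ B)
      (H / Real.log N ^ (B + 4))) →
    H / (800 * Real.log P) ≤ ∑ m ∈ Yw H i n, F1 Lam Q J (2 * n - m) * Fp Lam P m := by
  obtain ⟨P0, hP0, hW2⟩ := w2_ge hPB
  obtain ⟨N1, hN1⟩ := GoldB_lim (max (P0 : ℝ) 1000)
  refine ⟨max N1 3, ?_⟩
  intro N hN H P Q J i n hPL hPH hHN hW1 hi1 hi2 hn1 hn2 hE hT
  have hNN : N1 ≤ N := (le_max_left _ _).trans hN
  have hN3 : 3 ≤ N := (le_max_right _ _).trans hN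
  set L : ℝ := Real.log N with hL
  have hL0 : (P0 : ℝ) ≤ L := (le_max_left _ _).trans (hN1 N hNN)
  have hL1 : (1000 : ℝ) ≤ L := (le_max_right _ _).trans (hN1 N hNN)
  have hL1' : (1 : ℝ) ≤ L := by linarith
  have hLpos : 0 < L := by linarith
  set R : ℕ := ⌊L ^ B⌋₊ with hRdef
  set R2 : ℕ := ⌊L ^ (B + 1)⌋₊ with hR2def
  have hRL : (R : ℝ) ≤ L ^ B := Nat.floor_le (by positivity)
  have hR2L : (R2 : ℝ) ≤ L ^ (B + 1) := Nat.floor_le (by positivity)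
  have hLB : L ≤ L ^ B := le_self_pow₀ hL1' (by omega)
  have hR2' : 2 ≤ R := by
    rw [hRdef]
    refine Nat.le_floor ?_
    push_cast
    linarith
  have hRR : R ≤ R2 := Nat.floor_le_floor (pow_le_pow_right₀ hL1' (by omega))
  -- `P`
  have hLP : L ≤ P := (le_self_pow₀ hL1' (by omega)).trans hPL
  have hPP0 : P0 ≤ P := by exact_mod_cast hL0.trans hLP
  have hPr : (1000 : ℝ) ≤ P := hL1.trans hLP
  have hPpos : (0 : ℝ) < P := by linarith
  have hP1 : 1 ≤ P := by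
    have : (1 : ℝ) ≤ P := by linarith
    exact_mod_cast this
  have hR2P : R2 < P := by
    have h1 : (R2 : ℝ) < P := by
      have h2 : L ^ (B + 1) < L ^ (5 * B + 10) := pow_lt_pow_right₀ (by linarith) (by omega)
      linarith
    exact_mod_cast h1
  have hHr : (P : ℝ) ^ 5 ≤ H := by exact_mod_cast hPH
  have hH1 : P ≤ H := (Nat.le_self_pow (by norm_num) P).trans hPH
  have hHP : (P : ℝ) ≤ H := by exact_mod_cast hH1
  have hHpos : (0 : ℝ) < H := by linarith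
  have hH2 : 2 ≤ H := by
    have : (2 : ℝ) ≤ H := by linarith
    exact_mod_cast this
  have hHN' : H ≤ N := (Nat.le_self_pow (by norm_num) H).trans hHN
  have hPN : (P : ℝ) ≤ N := by exact_mod_cast hH1.trans hHN'
  have hlogP : Real.log P ≤ L := Real.log_le_log hPpos hPN
  have hlogP0 : 0 < Real.log P := Real.log_pos (by linarith)
  have hi3 : 2 ≤ i := by
    have h1 : 1 ≤ N / (2 * H) := by
      rw [Nat.one_le_div_iff (by omega)]
      nlinarith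
    omega
  obtain ⟨y1, y2, hY, hy1, hy2, hy3, hy4, hy5⟩ := yw_eq H i n hi3 (by omega) hn1 hn2
  rw [hY] at hE ⊢
  -- the error term
  have hsplit : ∑ m ∈ Ico y1 y2, F1 Lam Q J (2 * n - m) * Fp Lam P m =
      ∑ m ∈ Ico y1 y2, (F1 Lam Q J (2 * n - m) - W1 Q J * lamR R (2 * n - m)) * Fp Lam P m +
        W1 Q J * (∑ m ∈ Ico y1 y2, lamR R (2 * n - m) * Fp (hR R2) P m +
          ∑ m ∈ Ico y1 y2, lamR R (2 * n - m) * Fp (lamR R2) P m) := by
    rw [← sum_add_distrib, mul_sum, ← sum_add_distrib]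
    refine sum_congr rfl fun m _ => ?_
    rw [fp_split R2 P m]
    ring
  -- the exponential sums over the pieces
  have hblk : ∀ j ∈ Icc (i - 1) (i + 1), ∀ r a z1 z2 : ℕ, 1 ≤ r → r ≤ R → j * H ≤ z1 → z2 ≤ (j + 1) * H →
      ‖∑ m ∈ Ico z1 z2, ((Fp (hR R2) P m : ℝ) : ℂ) * ee (-(m * ((a : ℝ) / r)))‖ ≤ H / L ^ (B + 4) := by
    intro j hj r a z1 z2 hr1 hr2 hz1 hz2
    by_contra hcon
    push Not at hcon
    refine hT j hj ?_
    classical
    unfold badT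
    rw [mem_filter]
    rw [mem_Icc] at hj
    refine ⟨by rw [mem_Icc]; omega, r, a, z1, z2, hr1, ?_, hz1, hz2, hcon⟩
    have h4 : (r : ℝ) ≤ R := by exact_mod_cast hr2
    linarith
  have hexp : ∀ r a : ℕ, 1 ≤ r → r ≤ R →
      ‖∑ m ∈ Ico y1 y2, ((Fp (hR R2) P m : ℝ) : ℂ) * ee (-(m * ((a : ℝ) / r)))‖ ≤ 3 * (H / L ^ (B + 4)) := by
    intro r a hr1 hr2
    rw [GoldB_split (fun m => ((Fp (hR R2) P m : ℝ) : ℂ) * ee (-(m * ((a : ℝ) / r)))) ((i - 1) * H) (i * H)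
      ((i + 1) * H) ((i + 2) * H) y1 y2 (Nat.mul_le_mul_right _ (by omega)) (Nat.mul_le_mul_right _ (by omega))
      hy1 hy2]
    have e1 := hblk (i - 1) (by rw [mem_Icc]; omega) r a (max y1 ((i - 1) * H)) (min y2 (i * H)) hr1 hr2
      (le_max_right _ _) ((min_le_right _ _).trans (by rw [Nat.sub_add_cancel (by omega)]))
    have e2 := hblk i (by rw [mem_Icc]; omega) r a (max y1 (i * H)) (min y2 ((i + 1) * H)) hr1 hr2
      (le_max_right _ _) (min_le_right _ _)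
    have e3 := hblk (i + 1) (by rw [mem_Icc]; omega) r a (max y1 ((i + 1) * H)) (min y2 ((i + 2) * H)) hr1 hr2
      (le_max_right _ _) (min_le_right _ _)
    refine (norm_add_le _ _).trans ?_
    refine (add_le_add (norm_add_le _ _) le_rfl).trans ?_
    linarith
  have hM0 : (0 : ℝ) ≤ 3 * (H / L ^ (B + 4)) := by positivity
  have hS2 := GoldB_lam (Fp (hR R2) P) R n y1 y2 _ hM0 hy4 hexp
  have hS2' : (R : ℝ) * (3 * (H / L ^ (B + 4))) ≤ 3 * (H / L ^ 4) := by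
    calc (R : ℝ) * (3 * (H / L ^ (B + 4))) ≤ L ^ B * (3 * (H / L ^ (B + 4))) :=
          mul_le_mul_of_nonneg_right hRL hM0
      _ = 3 * (H / L ^ 4) := by
          rw [pow_add]
          field_simp
  -- the main term
  have hS1 := main_s P R R2 y1 y2 n (by omega) hRR hR2P hy5 (by omega) hy4
  have hSR : 1 ≤ Pool.Agent.H76.GB.SR R (2 * n) :=
    Pool.Agent.H76.GB.sr_ge R (2 * n) hR2' (by omega) ⟨n, rfl⟩
  have hW2P := hW2 P hPP0
  have hyy : 2 * (H : ℝ) ≤ (y2 : ℝ) - y1 := by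
    have h1 : ((y1 + 2 * H : ℕ) : ℝ) ≤ y2 := by exact_mod_cast hy3
    push_cast at h1
    linarith
  have hmain : (H : ℝ) / (8 * Real.log P) ≤ Pool.Agent.H76.GB.SR R (2 * n) * ((y2 : ℝ) - y1) * W2 P := by
    have h0 : (0 : ℝ) ≤ 1 / (16 * Real.log P) := by positivity
    calc (H : ℝ) / (8 * Real.log P) = 1 * (2 * H) * (1 / (16 * Real.log P)) := by
          field_simp
          ring
      _ ≤ Pool.Agent.H76.GB.SR R (2 * n) * ((y2 : ℝ) - y1) * W2 P := by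
          refine mul_le_mul (mul_le_mul hSR hyy (by positivity) (by linarith)) hW2P h0 ?_
          exact mul_nonneg (by linarith) (by linarith)
  have herr : 4 * (P : ℝ) * (R2 : ℝ) ^ 4 ≤ H / L ^ 4 := by
    rw [le_div_iff₀ (by positivity)]
    have h1 : (R2 : ℝ) ^ 4 ≤ (L ^ (B + 1)) ^ 4 := pow_le_pow_left₀ (by positivity) hR2L 4
    have h2 : 4 * (L ^ (B + 1)) ^ 4 * L ^ 4 ≤ P := by
      refine le_trans ?_ hPL
      calc 4 * (L ^ (B + 1)) ^ 4 * L ^ 4 ≤ L * (L ^ (B + 1)) ^ 4 * L ^ 4 := by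
            gcongr
            linarith
        _ = L ^ (4 * B + 9) := by
            rw [← pow_mul, ← pow_succ', ← pow_add]
            congr 1
            ring
        _ ≤ L ^ (5 * B + 10) := pow_le_pow_right₀ hL1' (by omega)
    have h3 : (P : ℝ) * P ≤ H := by
      refine le_trans ?_ hHr
      calc (P : ℝ) * P = P ^ 2 := by ring
        _ ≤ P ^ 5 := pow_le_pow_right₀ (by linarith) (by norm_num)
    calc 4 * (P : ℝ) * (R2 : ℝ) ^ 4 * L ^ 4 ≤ 4 * (P : ℝ) * (L ^ (B + 1)) ^ 4 * L ^ 4 := by gcongr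
      _ = P * (4 * (L ^ (B + 1)) ^ 4 * L ^ 4) := by ring
      _ ≤ P * P := mul_le_mul_of_nonneg_left h2 hPpos.le
      _ ≤ H := h3
  -- conclusion
  have a1 := (abs_le.1 hE).1
  have a2 := (abs_le.1 hS2).1
  have a3 := (abs_le.1 hS1).1
  rw [hsplit]
  set E0 : ℝ := ∑ m ∈ Ico y1 y2, (F1 Lam Q J (2 * n - m) - W1 Q J * lamR R (2 * n - m)) * Fp Lam P m with hE0
  set S2 : ℝ := ∑ m ∈ Ico y1 y2, lamR R (2 * n - m) * Fp (hR R2) P m with hS2def
  set S1 : ℝ := ∑ m ∈ Ico y1 y2, lamR R (2 * n - m) * Fp (lamR R2) P m with hS1def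
  have b1 : (H : ℝ) / (8 * Real.log P) - 4 * (H / L ^ 4) ≤ S2 + S1 := by linarith
  have c1 : (H : ℝ) / (8 * L) ≤ H / (8 * Real.log P) := by
    refine div_le_div_of_nonneg_left hHpos.le (by positivity) (by linarith)
  have hq : ∀ k : ℕ, (H : ℝ) / L ^ (k + 1) ≤ H / L / 1000 ^ k := by
    intro k
    rw [div_div]
    refine div_le_div_of_nonneg_left hHpos.le (by positivity) ?_
    rw [pow_succ']
    exact mul_le_mul_of_nonneg_left (pow_le_pow_left₀ (by norm_num) hL1 k) hLpos.le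
  have hHL : 0 < (H : ℝ) / L := by positivity
  have c2 := hq 3
  have c3 := hq 2
  norm_num at c2 c3
  have c1' : (H : ℝ) / L / 8 ≤ H / (8 * Real.log P) := by
    rw [div_div, mul_comm L 8]
    exact c1
  have b2 : 0 ≤ (H : ℝ) / (8 * Real.log P) - 4 * (H / L ^ 4) := by
    linarith
  have b3 : 1 / 50 * ((H : ℝ) / (8 * Real.log P) - 4 * (H / L ^ 4)) ≤ W1 Q J * (S2 + S1) := by
    refine mul_le_mul hW1 b1 b2 ?_
    linarith
  have b4 : (H : ℝ) / (800 * Real.log P) = 1 / 100 * (H / (8 * Real.log P)) := by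
    field_simp
    norm_num
  rw [b4]
  linarith

end Pool.Agent.H53.MID
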