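import Pool.Agent.H53.MID.GoldA
import Pool.Agent.H53.MID.Wts

/-!
# MID GoldC: from the weighted sum to the number of solutions

Proof.  `L = log N`.  All `m` and `2n - m` (`m ∈ Yw`) are in `[N/4, 6N]` (three blocks; `H ≤ √N`), so `Fp Lam P m ≤ log m ≤ 2 L` (`fp_lam_le`, `4P^2 < N/4` as `P^5 ≤ H ≤ √N`), `F1 Lam Q J (2n-m) ≤ (2/e1) 2L` (`f1_lam_le`), both `≥ 0`.
So `S = {m ∈ Yw : F1 Lam Q J (2n - m) Fp Lam P m ≠ 0}` has `|S| 8 L^2/e1 ≥ H/(800 log P)`.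
For `m ∈ S`: there are `j < J`, `p1 ∈ pb (2^j Q)`, `p1 ∣ 2n - m`, `Lam ((2n-m)/p1) ≠ 0`, so `(2n-m)/p1 = q1^a` with `q1` prime, `a ≥ 1` (`ArithmeticFunction.vonMangoldt_ne_zero_iff`, `isPrimePow_def`), and `p2 ∈ pb P`, `m = p2 q2^b`.
`hn` (no `p q^j`, `j ≥ 2`, `p ≤ 2^J Q + 2 P` within distance `2H` of `n`) gives `a = b = 1`: `|m - n| ≤ 2H`, `|2n - m - n| ≤ 2H` (`Yw ⊆ [(i-1)H, (i+2)H)`, `n` in block `i`); `p1 ≤ 2^J Q`, `p2 ≤ 2P`.
`q1 = (2n-m)/p1 ≥ (N/4)/(2^J Q) > 2^J Q ≥ p1`.  `x = m - n ∈ [-2H, 2H]`, `n - x = 2n - m = p1 q1`, `n + x = m = p2 q2`; `m ↦ m - n` is injective.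
-/

set_option autoImplicit false

namespace Pool.Agent.H53.MID

open Finset
open Pool.Agent.H91.EHA (Lam hR lamR ramS)

private theorem GoldC_lam (P m : ℕ) (h : Fp Lam P m ≠ 0) :
    ∃ p q a : ℕ, p.Prime ∧ q.Prime ∧ 1 ≤ a ∧ P < p ∧ p ≤ 2 * P ∧ m = p * q ^ a := by
  unfold Fp at h
  obtain ⟨p, hp, h1⟩ := Finset.exists_ne_zero_of_sum_ne_zero h
  rw [Finset.mem_filter] at hp
  obtain ⟨hp, k, rfl⟩ := hp
  unfold Pool.Agent.H35.W.pb at hp
  rw [Finset.mem_filter, Finset.mem_Ioc] at hp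
  rw [Nat.mul_div_cancel_left _ hp.2.pos] at h1
  unfold Pool.Agent.H91.EHA.Lam at h1
  rw [ArithmeticFunction.vonMangoldt_ne_zero_iff, isPrimePow_nat_iff] at h1
  obtain ⟨q, a, hq, ha, rfl⟩ := h1
  exact ⟨p, q, a, hp.2, hq, ha, hp.1.1, hp.1.2, rfl⟩

open Classical in
theorem gold_c (e1 : ℝ) (he1 : 0 < e1) : ∃ N0 : ℕ, ∀ N : ℕ, N0 ≤ N → ∀ H P Q J i n : ℕ,
    2 ≤ P → P ^ 5 ≤ H → (N : ℝ) ^ e1 ≤ Q → (2 ^ J * Q) ^ 5 ≤ H → H ^ 2 ≤ N →
    N / (2 * H) + 1 ≤ i → i + 1 ≤ 4 * N / H → i * H ≤ n → n < (i + 1) * H →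
    (¬ ∃ m p q j : ℕ, p ≤ 2 ^ J * Q + 2 * P ∧ q.Prime ∧ 2 ≤ j ∧ m = p * q ^ j ∧ m ≤ n + 2 * H ∧ n ≤ m + 2 * H) →
    H / (800 * Real.log P) ≤ ∑ m ∈ Yw H i n, F1 Lam Q J (2 * n - m) * Fp Lam P m →
    e1 * H / (6400 * Real.log N ^ 2 * Real.log P) ≤
      (((Icc (-(2 * H : ℤ)) (2 * H)).filter (fun x : ℤ => ∃ p1 q1 p2 q2 : ℕ, p1.Prime ∧ q1.Prime ∧ p2.Prime ∧
        q2.Prime ∧ Q < p1 ∧ p1 < q1 ∧ P < p2 ∧ p2 ≤ 2 * P ∧ (n : ℤ) - x = p1 * q1 ∧ (n : ℤ) + x = p2 * q2)).card : ℝ) := by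
  refine ⟨64, fun N hN H P Q J i n hP hPH hQ hZH hHN hi1 hi2 hn1 hn2 hno hsum => ?_⟩
  have hH32 : 32 ≤ H := by
    calc 32 = 2 ^ 5 := by norm_num
      _ ≤ P ^ 5 := Nat.pow_le_pow_left hP 5
      _ ≤ H := hPH
  have hHN' : 32 * H ≤ N := by
    calc 32 * H ≤ H * H := Nat.mul_le_mul_right H hH32
      _ = H ^ 2 := by ring
      _ ≤ N := hHN
  have hNr : (64 : ℝ) ≤ N := by exact_mod_cast hN
  obtain ⟨L, hL⟩ : ∃ L, L = Real.log N := ⟨_, rfl⟩
  have hL1 : 1 ≤ L := by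
    rw [hL, Real.le_log_iff_exp_le (by linarith)]
    have := Real.exp_one_lt_d9
    linarith
  have hL0 : 0 < L := by linarith
  have hP2 : (2 : ℝ) ≤ P := by exact_mod_cast hP
  have hlogP : 0 < Real.log P := Real.log_pos (by linarith)
  -- positions
  have h4 : N < 2 * H * (N / (2 * H) + 1) := Nat.lt_mul_div_succ _ (by omega)
  have h7 : H * (4 * N / H) ≤ 4 * N := Nat.mul_div_le _ _
  have hlow : N ≤ 4 * ((i - 1) * H) := by
    have h5 : 2 * H * (N / (2 * H)) ≤ 2 * H * (i - 1) := Nat.mul_le_mul_left _ (Nat.le_sub_of_add_le hi1)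
    have h6 : N < 2 * ((i - 1) * H) + 2 * H := by nlinarith
    omega
  have hup : (i + 2) * H ≤ 5 * N := by
    have h8 : H * (i + 1) ≤ H * (4 * N / H) := Nat.mul_le_mul_left _ hi2
    have h10 : (i + 2) * H = H * (i + 1) + H := by ring
    omega
  have hi0 : 1 ≤ i := le_trans (Nat.le_add_left 1 _) hi1
  have e1' : (i - 1) * H + H = i * H := by
    obtain ⟨k, rfl⟩ : ∃ k, i = k + 1 := ⟨i - 1, by omega⟩
    rw [Nat.add_sub_cancel]
    ring
  have e2' : (i + 1) * H = i * H + H := by ring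
  have e3' : (i + 2) * H = i * H + 2 * H := by ring
  have hYw : ∀ m ∈ Yw H i n, N ≤ 4 * m ∧ m ≤ 5 * N ∧ N ≤ 4 * (2 * n - m) ∧ 2 * n - m ≤ 5 * N ∧ m ≤ 2 * n ∧
      m ≤ n + 2 * H ∧ n ≤ m + 2 * H := by
    intro m hm
    unfold Yw at hm
    rw [Finset.mem_filter, Finset.mem_Ico, Finset.mem_Ico] at hm
    omega
  have hlog : ∀ k : ℕ, 1 ≤ k → k ≤ 5 * N → Real.log k ≤ 2 * L := by
    intro k hk1 hk
    have h8 : (k : ℝ) ≤ 5 * N := by exact_mod_cast hk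
    have h9 : (k : ℝ) ≤ N * N := by nlinarith
    have h10 := Real.log_le_log (by exact_mod_cast hk1) h9
    rw [Real.log_mul (by linarith) (by linarith), ← hL] at h10
    linarith
  -- the support
  obtain ⟨S, hS⟩ : ∃ S, S = (Yw H i n).filter (fun m => F1 Lam Q J (2 * n - m) * Fp Lam P m ≠ 0) := ⟨_, rfl⟩
  have hsumS : ∑ m ∈ Yw H i n, F1 Lam Q J (2 * n - m) * Fp Lam P m ≤ S.card * (8 * L ^ 2 / e1) := by
    rw [← Finset.sum_filter_ne_zero, ← hS, ← nsmul_eq_mul, ← Finset.sum_const]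
    refine Finset.sum_le_sum fun m hm => ?_
    rw [hS, Finset.mem_filter] at hm
    obtain ⟨q1, q2, q3, q4, q5, q6, q7⟩ := hYw m hm.1
    have b1 : F1 Lam Q J (2 * n - m) ≤ 2 / e1 * (2 * L) := by
      refine (f1_lam_le e1 he1 N Q J (2 * n - m) (by omega) hQ (by omega) ?_).trans ?_
      · calc 2 * n - m ≤ 5 * N := q4
          _ ≤ N * N := Nat.mul_le_mul_right N (by omega)
          _ = N ^ 2 := by ring
      · exact mul_le_mul_of_nonneg_left (hlog _ (by omega) q4) (by positivity)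
    have b2 : Fp Lam P m ≤ 2 * L := by
      refine (fp_lam_le P m ?_).trans (hlog _ (by omega) q2)
      have c1 : P ^ 10 ≤ N := by
        calc P ^ 10 = (P ^ 5) ^ 2 := by ring
          _ ≤ H ^ 2 := Nat.pow_le_pow_left hPH 2
          _ ≤ N := hHN
      have c2 : 256 * P ^ 2 ≤ P ^ 10 := by
        calc 256 * P ^ 2 = 2 ^ 8 * P ^ 2 := by norm_num
          _ ≤ P ^ 8 * P ^ 2 := Nat.mul_le_mul_right _ (Nat.pow_le_pow_left hP 8)
          _ = P ^ 10 := by ring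
      have c3 : 0 < P ^ 2 := by positivity
      omega
    have b3 := f1_nonneg Q J (2 * n - m)
    have b4 := fp_nonneg P m
    calc F1 Lam Q J (2 * n - m) * Fp Lam P m ≤ (2 / e1 * (2 * L)) * (2 * L) :=
          mul_le_mul b1 b2 b4 (by positivity)
      _ = 8 * L ^ 2 / e1 := by
          field_simp
          ring
  have hcardS : e1 * H / (6400 * Real.log N ^ 2 * Real.log P) ≤ (S.card : ℝ) := by
    have h8 := hsum.trans hsumS
    rw [← hL]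
    rw [div_le_iff₀ (by positivity)] at h8 ⊢
    have h9 : (S.card : ℝ) * (8 * L ^ 2 / e1) * (800 * Real.log P) * e1 = S.card * (6400 * L ^ 2 * Real.log P) := by
      field_simp
      ring
    rw [← h9, mul_comm e1]
    exact mul_le_mul_of_nonneg_right h8 he1.le
  refine hcardS.trans ?_
  have hcard : S.card ≤ ((Icc (-(2 * H : ℤ)) (2 * H)).filter (fun x : ℤ => ∃ p1 q1 p2 q2 : ℕ, p1.Prime ∧ q1.Prime ∧
      p2.Prime ∧ q2.Prime ∧ Q < p1 ∧ p1 < q1 ∧ P < p2 ∧ p2 ≤ 2 * P ∧ (n : ℤ) - x = p1 * q1 ∧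
        (n : ℤ) + x = p2 * q2)).card := by
    refine Finset.card_le_card_of_injOn (fun m : ℕ => (m : ℤ) - n) ?_ ?_
    · intro m hm
      rw [Finset.mem_coe, hS, Finset.mem_filter] at hm
      obtain ⟨hm, hne⟩ := hm
      obtain ⟨q1, q2, q3, q4, q5, q6, q7⟩ := hYw m hm
      rw [Finset.mem_coe, Finset.mem_filter, Finset.mem_Icc]
      beta_reduce
      refine ⟨⟨by omega, by omega⟩, ?_⟩
      have hne1 : F1 Lam Q J (2 * n - m) ≠ 0 := left_ne_zero_of_mul hne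
      have hne2 : Fp Lam P m ≠ 0 := right_ne_zero_of_mul hne
      unfold F1 at hne1
      obtain ⟨j, hj, hj1⟩ := Finset.exists_ne_zero_of_sum_ne_zero hne1
      rw [Finset.mem_range] at hj
      obtain ⟨p1, r1, a, hp1, hr1, ha, hp1a, hp1b, hm1⟩ := GoldC_lam _ _ hj1
      obtain ⟨p2, r2, b, hp2, hr2, hb, hp2a, hp2b, hm2⟩ := GoldC_lam _ _ hne2
      have hp1Z : p1 ≤ 2 ^ J * Q := by
        refine hp1b.trans ?_
        calc 2 * (2 ^ j * Q) = 2 ^ (j + 1) * Q := by ring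
          _ ≤ 2 ^ J * Q := Nat.mul_le_mul_right Q (Nat.pow_le_pow_right (by norm_num) hj)
      have hQp1 : Q < p1 := by
        refine lt_of_le_of_lt ?_ hp1a
        exact Nat.le_mul_of_pos_left Q (by positivity)
      have ha1 : a = 1 := by
        by_contra hcon
        exact hno ⟨2 * n - m, p1, r1, a, by omega, hr1, by omega, hm1, by omega, by omega⟩
      have hb1 : b = 1 := by
        by_contra hcon
        exact hno ⟨m, p2, r2, b, by omega, hr2, by omega, hm2, q6, q7⟩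
      rw [ha1, pow_one] at hm1
      rw [hb1, pow_one] at hm2
      refine ⟨p1, r1, p2, r2, hp1, hr1, hp2, hr2, hQp1, ?_, hp2a, hp2b, ?_, ?_⟩
      · by_contra hcon
        push Not at hcon
        have c1 : p1 * r1 ≤ (2 ^ J * Q) ^ 2 := by
          calc p1 * r1 ≤ p1 * p1 := Nat.mul_le_mul_left _ hcon
            _ ≤ (2 ^ J * Q) * (2 ^ J * Q) := Nat.mul_le_mul hp1Z hp1Z
            _ = (2 ^ J * Q) ^ 2 := by ring
        have c2 : (2 ^ J * Q) ^ 10 ≤ N := by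
          calc (2 ^ J * Q) ^ 10 = ((2 ^ J * Q) ^ 5) ^ 2 := by ring
            _ ≤ H ^ 2 := Nat.pow_le_pow_left hZH 2
            _ ≤ N := hHN
        have c3 : 2 ≤ 2 ^ J * Q := hp1.two_le.trans hp1Z
        have c4 : 256 * (2 ^ J * Q) ^ 2 ≤ (2 ^ J * Q) ^ 10 := by
          calc 256 * (2 ^ J * Q) ^ 2 = 2 ^ 8 * (2 ^ J * Q) ^ 2 := by norm_num
            _ ≤ (2 ^ J * Q) ^ 8 * (2 ^ J * Q) ^ 2 := Nat.mul_le_mul_right _ (Nat.pow_le_pow_left c3 8)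
            _ = (2 ^ J * Q) ^ 10 := by ring
        have c5 : 0 < (2 ^ J * Q) ^ 2 := by positivity
        rw [← hm1] at c1
        omega
      · have : ((2 * n - m : ℕ) : ℤ) = p1 * r1 := by exact_mod_cast hm1
        rw [← this]
        omega
      · have : (m : ℤ) = p2 * r2 := by exact_mod_cast hm2
        rw [← this]
        omega
    · intro x _ y _ hxy
      have : (x : ℤ) - n = (y : ℤ) - n := hxy
      omega
  exact_mod_cast hcard

end Pool.Agent.H53.MID
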