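import Pool.Agent.H53.MID.GDefs

/-!
# MID Ppw: few integers are close to `p q^j`, `j ≥ 2`, `p ≤ Z`

Proof.  The number of `m ≤ 4N` of the form `p q^j`, `j ≥ 2`, `p ≤ Z`: for given `p, j`, `q ≤ (4N)^(1/j) ≤ 2 √N`, and `j ≤ log(4N)/log 2 ≤ 3 L`: at most `Z · 3L · 2√N` (`L = log N` large).  Every such `m` spoils at most `4H + 1` integers `n`;
`(n ≤ 2N`, `H ≤ N`, so `m ≤ 2N + 2H ≤ 4N`.)  Total `≤ 6 L Z √N · 5H ≤ 30 L N^(1/8) N^(1/2) N^(1/4) = 30 L N^(7/8) ≤ N/L^A`.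
-/

set_option autoImplicit false

namespace Pool.Agent.H53.MID

open Finset

/-- the numbers -/
private theorem Ppw_num {L x Z s H J : ℝ} {A : ℕ} (hL : 4 ≤ L) (hx : 1 ≤ x) (hZ : Z ≤ x)
    (hs0 : 0 ≤ s) (hs : s ≤ 2 * x ^ 4) (hH0 : 0 ≤ H) (hH : H ≤ x ^ 2) (hJ0 : 0 ≤ J) (hJ : J ≤ 3 * L)
    (h : 168 * L ^ (A + 1) ≤ x) :
    (Z + 1) * (s + 1) * (J + 1) * (4 * H + 3) ≤ x ^ 8 / L ^ A := by
  have hL0 : 0 < L := by linarith
  have hx0 : 0 < x := by linarith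
  have hx2 : 1 ≤ x ^ 2 := one_le_pow₀ hx
  have hx4 : 1 ≤ x ^ 4 := one_le_pow₀ hx
  have h1 : (Z + 1) * (s + 1) ≤ (2 * x) * (3 * x ^ 4) :=
    mul_le_mul (by linarith) (by linarith) (by linarith) (by linarith)
  have h2 : (Z + 1) * (s + 1) * (J + 1) ≤ (2 * x) * (3 * x ^ 4) * (4 * L) :=
    mul_le_mul h1 (by linarith) (by linarith) (by positivity)
  have h3 : (Z + 1) * (s + 1) * (J + 1) * (4 * H + 3) ≤ (2 * x) * (3 * x ^ 4) * (4 * L) * (7 * x ^ 2) :=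
    mul_le_mul h2 (by linarith) (by linarith) (by positivity)
  refine h3.trans ?_
  rw [le_div_iff₀ (by positivity)]
  have h4 : 2 * x * (3 * x ^ 4) * (4 * L) * (7 * x ^ 2) * L ^ A = x ^ 7 * (168 * L ^ (A + 1)) := by ring
  rw [h4]
  calc x ^ 7 * (168 * L ^ (A + 1)) ≤ x ^ 7 * x := mul_le_mul_of_nonneg_left h (by positivity)
    _ = x ^ 8 := by ring

/-- the counting -/
private theorem Ppw_incl {N H Z : ℕ} (hH : 1 ≤ H) (hH4 : H ^ 4 ≤ N) (hN : 16 ≤ N) (n : ℕ)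
    (hn : n ∈ Ioc N (2 * N)) (h : ∃ m p q j : ℕ, p ≤ Z ∧ q.Prime ∧ 2 ≤ j ∧ m = p * q ^ j ∧
      m ≤ n + 2 * H ∧ n ≤ m + 2 * H) :
    n ∈ (range (Z + 1) ×ˢ (range (Nat.sqrt (4 * N) + 1) ×ˢ range (Nat.log 2 (4 * N) + 1))).biUnion
      (fun t => Icc (t.1 * t.2.1 ^ t.2.2 - 2 * H) (t.1 * t.2.1 ^ t.2.2 + 2 * H)) := by
  obtain ⟨m, p, q, j, hp, hq, hj, hm, h1, h2⟩ := h
  rw [mem_Ioc] at hn
  have hHN : 2 * H ≤ N := by
    rcases Nat.lt_or_ge H 2 with h3 | h3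
    · omega
    · have h4 : 2 ^ 3 ≤ H ^ 3 := Nat.pow_le_pow_left h3 3
      have h5 : H ^ 4 = H ^ 3 * H := by ring
      nlinarith
  have hm0 : 0 < m := by omega
  have hp0 : 0 < p := by
    rcases Nat.eq_zero_or_pos p with h3 | h3
    · rw [hm, h3, zero_mul] at hm0
      exact absurd hm0 (lt_irrefl 0)
    · exact h3
  have hm4 : q ^ j ≤ 4 * N := by
    have h3 : q ^ j ≤ p * q ^ j := Nat.le_mul_of_pos_left _ hp0
    omega
  rw [mem_biUnion]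
  refine ⟨(p, q, j), ?_, ?_⟩
  · rw [mem_product, mem_product, mem_range, mem_range, mem_range]
    refine ⟨?_, ?_, ?_⟩
    · show p < Z + 1
      omega
    · show q < Nat.sqrt (4 * N) + 1
      have h3 : q ^ 2 ≤ q ^ j := Nat.pow_le_pow_right hq.pos hj
      have h4 : q ≤ Nat.sqrt (4 * N) := by
        rw [Nat.le_sqrt']
        exact h3.trans hm4
      omega
    · show j < Nat.log 2 (4 * N) + 1
      have h3 : 2 ^ j ≤ q ^ j := Nat.pow_le_pow_left hq.two_le j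
      have h4 : j ≤ Nat.log 2 (4 * N) := Nat.le_log_of_pow_le (by norm_num) (h3.trans hm4)
      omega
  · show n ∈ Icc (p * q ^ j - 2 * H) (p * q ^ j + 2 * H)
    rw [mem_Icc, ← hm]
    omega

private theorem Ppw_card {N H Z : ℕ} :
    ((range (Z + 1) ×ˢ (range (Nat.sqrt (4 * N) + 1) ×ˢ range (Nat.log 2 (4 * N) + 1))).biUnion
      (fun t : ℕ × ℕ × ℕ => Icc (t.1 * t.2.1 ^ t.2.2 - 2 * H) (t.1 * t.2.1 ^ t.2.2 + 2 * H))).card ≤
      (Z + 1) * (Nat.sqrt (4 * N) + 1) * (Nat.log 2 (4 * N) + 1) * (4 * H + 3) := by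
  refine (card_biUnion_le_card_mul _ _ (4 * H + 3) (fun t _ => ?_)).trans (le_of_eq ?_)
  · rw [Nat.card_Icc]
    omega
  · rw [card_product, card_product, card_range, card_range, card_range]
    ring

private theorem Ppw_logJ {N : ℕ} {L : ℝ} (hN : 16 ≤ N) (hLd : L = Real.log N) (hL : 4 ≤ L) :
    ((Nat.log 2 (4 * N) : ℕ) : ℝ) ≤ 3 * L := by
  obtain ⟨J, hJ⟩ : ∃ J, J = Nat.log 2 (4 * N) := ⟨_, rfl⟩
  have h1 : 2 ^ J ≤ 4 * N := by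
    rw [hJ]
    exact Nat.pow_log_le_self 2 (by omega)
  have h2 : ((2 : ℝ)) ^ J ≤ 4 * N := by exact_mod_cast h1
  have hNr : (0 : ℝ) < N := by
    have : 0 < N := by omega
    exact_mod_cast this
  have h3 := Real.log_le_log (by positivity) h2
  rw [Real.log_pow, Real.log_mul (by norm_num) hNr.ne', ← hLd] at h3
  have h4 : Real.log 4 = 2 * Real.log 2 := by
    rw [show (4 : ℝ) = 2 ^ 2 by norm_num, Real.log_pow]
    norm_num
  rw [h4] at h3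
  have h5 := Real.log_two_gt_d9
  have h6 := Real.log_two_lt_d9
  rw [← hJ]
  have hJ0 : (0 : ℝ) ≤ J := Nat.cast_nonneg J
  nlinarith

open Classical in
theorem ppw (A : ℕ) : ∃ N0 : ℕ, ∀ N : ℕ, N0 ≤ N → ∀ H Z : ℕ, 1 ≤ H → H ^ 4 ≤ N → Z ^ 8 ≤ N →
    (((Ioc N (2 * N)).filter (fun n => ∃ m p q j : ℕ, p ≤ Z ∧ q.Prime ∧ 2 ≤ j ∧ m = p * q ^ j ∧
      m ≤ n + 2 * H ∧ n ≤ m + 2 * H)).card : ℝ) ≤ N / Real.log N ^ A := by
  have hlog : Filter.Tendsto (fun N : ℕ => Real.log N) Filter.atTop Filter.atTop :=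
    Real.tendsto_log_atTop.comp tendsto_natCast_atTop_atTop
  have hsm : ∀ᶠ y : ℝ in Filter.atTop, 168 * Real.log y ^ (A + 1) ≤ y ^ (1 / 8 : ℝ) := by
    have h1 : (fun y : ℝ => Real.log y ^ ((A + 1 : ℕ) : ℝ)) =o[Filter.atTop] fun y => y ^ (1 / 8 : ℝ) :=
      isLittleO_log_rpow_rpow_atTop _ (by norm_num)
    have h2 := h1.bound (show (0 : ℝ) < 1 / 168 by norm_num)
    filter_upwards [h2, Filter.eventually_ge_atTop (1 : ℝ)] with y hy hy1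
    rw [Real.rpow_natCast, Real.norm_of_nonneg (pow_nonneg (Real.log_nonneg hy1) _),
      Real.norm_of_nonneg (by positivity)] at hy
    linarith
  have hev : ∀ᶠ N : ℕ in Filter.atTop, 168 * Real.log N ^ (A + 1) ≤ (N : ℝ) ^ (1 / 8 : ℝ) ∧
      4 ≤ Real.log N ∧ 16 ≤ N :=
    (tendsto_natCast_atTop_atTop.eventually hsm).and
      ((hlog.eventually_ge_atTop 4).and (Filter.eventually_ge_atTop 16))
  obtain ⟨N0, hN0⟩ := Filter.eventually_atTop.mp hev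
  refine ⟨N0, fun N hN H Z hH hH4 hZ8 => ?_⟩
  obtain ⟨h1, h2, h3⟩ := hN0 N hN
  have hsub := card_le_card (show (Ioc N (2 * N)).filter (fun n => ∃ m p q j : ℕ, p ≤ Z ∧ q.Prime ∧
      2 ≤ j ∧ m = p * q ^ j ∧ m ≤ n + 2 * H ∧ n ≤ m + 2 * H) ⊆ _ from fun n hn =>
    Ppw_incl hH hH4 h3 n (mem_filter.mp hn).1 (mem_filter.mp hn).2)
  have hcard := hsub.trans Ppw_card
  have hcr : ((((Ioc N (2 * N)).filter (fun n => ∃ m p q j : ℕ, p ≤ Z ∧ q.Prime ∧ 2 ≤ j ∧ m = p * q ^ j ∧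
      m ≤ n + 2 * H ∧ n ≤ m + 2 * H)).card : ℕ) : ℝ) ≤
      (((Z + 1) * (Nat.sqrt (4 * N) + 1) * (Nat.log 2 (4 * N) + 1) * (4 * H + 3) : ℕ) : ℝ) :=
    Nat.cast_le.mpr hcard
  refine hcr.trans ?_
  push_cast
  have hNr : (16 : ℝ) ≤ N := by exact_mod_cast h3
  have hN0' : (0 : ℝ) ≤ N := by linarith
  obtain ⟨x, hx⟩ : ∃ x : ℝ, x = (N : ℝ) ^ (1 / 8 : ℝ) := ⟨_, rfl⟩
  have hx0 : 0 ≤ x := by
    rw [hx]
    positivity
  have hx8 : x ^ 8 = N := by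
    rw [hx, ← Real.rpow_natCast, ← Real.rpow_mul hN0']
    norm_num
  have hx1 : 1 ≤ x := by
    by_contra hcon
    push Not at hcon
    have : x ^ 8 ≤ 1 := pow_le_one₀ hx0 hcon.le
    linarith
  rw [← hx] at h1
  refine (Ppw_num (x := x) (A := A) h2 hx1 ?_ (Nat.cast_nonneg _) ?_ (Nat.cast_nonneg H) ?_
    (Nat.cast_nonneg _) (Ppw_logJ h3 rfl h2) h1).trans (le_of_eq (by rw [hx8]))
  · have h4 : (Z : ℝ) ^ 8 ≤ x ^ 8 := by
      rw [hx8]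
      exact_mod_cast hZ8
    exact le_of_pow_le_pow_left₀ (by norm_num) hx0 h4
  · have h4 : Nat.sqrt (4 * N) ^ 2 ≤ 4 * N := Nat.sqrt_le' _
    have h5 : ((Nat.sqrt (4 * N) : ℕ) : ℝ) ^ 2 ≤ 4 * N := by exact_mod_cast h4
    have h6 : ((Nat.sqrt (4 * N) : ℕ) : ℝ) ^ 2 ≤ (2 * x ^ 4) ^ 2 := by
      refine h5.trans (le_of_eq ?_)
      rw [← hx8]
      ring
    exact le_of_pow_le_pow_left₀ (by norm_num) (by positivity) h6
  · have h4 : (H : ℝ) ^ 4 ≤ (x ^ 2) ^ 4 := by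
      have h5 : (H : ℝ) ^ 4 ≤ N := by exact_mod_cast hH4
      refine h5.trans (le_of_eq ?_)
      rw [← hx8]
      ring
    exact le_of_pow_le_pow_left₀ (by norm_num) (by positivity) h4

end Pool.Agent.H53.MID
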