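import Pool.Agent.H53.MID.TypA
import Pool.Agent.H53.MID.FpL1

/-!
# MID Typ2: few blocks with a bad rational frequency, `P ≥ L^b`

Proof.  `L = log N`, `K1 = N/(16 P)`, `K2 = 12 N/P` (natural division), `X = 60 N`, `f = cut K1 K2 (hR R)`, `R = ⌊L^(B+1)⌋`; for `m ∈ [N/4, 5N]` (all blocks), `p ∈ pb P`, `p ∣ m`: `K1 < m/p ≤ K2`, so `Fp f P m = Fp (hR R) P m`.
`W = H/⌊L^(A+4)⌋` (natural division), so `H/(2 L^(A+4)) ≤ W ≤ 2 H/L^(A+4)`; `E = 3A + 2B + 8`.
Let `i` be bad with `r, a, y1, y2` (WLOG `a < r`: replace `a` by `a % r`); `c m = Fp f P m ee(-(m a/r))`, `D(z)` as in `typ_a`.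
`W ∑_{m ∈ Ico y1 y2} c m = ∑_z ∑_{m ∈ Ico y1 y2, z < m ≤ z + W} c m` (every `m ≥ W` is counted for `W` values `z`); the `z` with `(z, z+W] ⊆ [y1, y2)` give `D(z)`, the others (at most `2W` values with a nonempty intersection) give
at most `∑_{m ∈ (z,z+W]} |Fp f P m| ≤ P (W/P + 1 + w0) L^2 ≤ 3 W L^2` (`fp_l1`, `w0 = R^4 + 2`, `P (w0+1) ≤ W`).  If `y2 - y1 < W` the same bound holds directly.
So `M = H/L^A < ‖∑_{Ico y1 y2}‖ ≤ (1/W) ∑_{z ∈ [iH - 1, (i+1)H)} ‖D z‖ + 6 W L^2`, `6 W L^2 ≤ 12 H/L^(A+2) ≤ H/(2L^A)`; hence `∑_{z ∈ block} ‖D z‖ ≥ W H/(2 L^A)` (block = `[iH-1, (i+1)H)`, at most `H + 1` values) and `∑ ‖D z‖^2 ≥ W^2 H/(8 L^(2A))`.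
For fixed `a/r` the number of such `i` is `≤ 2 · (W^2 N/L^E)/(W^2 H/(8 L^(2A))) = 16 (N/H) L^(2A - E)` (every `z` is in at most 2 of the blocks); there are at most `L^(2B)` pairs `(a, r)`, `a < r ≤ L^B`.  Total `≤ (N/H)/L^A`.
-/

set_option autoImplicit false

namespace Pool.Agent.H53.MID

open Finset MeasureTheory
open Pool.Agent.H91.PK (ee)
open Pool.Agent.H91.EHA (Lam hR lamR ramS)
open Pool.Agent.H35.W (pb)

/-- averaging over windows -/
private theorem Typ2_avg (c : ℕ → ℂ) (X W y1 y2 lo hi : ℕ) (B0 : ℝ) (hW : 1 ≤ W) (hWy : W ≤ y1) (hy2 : y2 ≤ X)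
    (hlo : lo ≤ y1) (hhi : y2 ≤ hi) (hB0 : 0 ≤ B0)
    (hB : ∀ z, z < y2 → ∑ m ∈ Ico (z + 1) (z + 1 + W), ‖c m‖ ≤ B0) :
    W * ‖∑ m ∈ Ico y1 y2, c m‖ ≤
      ∑ z ∈ Ico (lo - 1) (hi - 1), ‖∑ m ∈ (Icc 1 X).filter (fun m => z < m ∧ m ≤ z + W), c m‖ + 2 * W * B0 := by
  have h1 : (W : ℂ) * ∑ m ∈ Ico y1 y2, c m =
      ∑ z ∈ Ico (y1 - W) y2, ∑ m ∈ (Ico y1 y2).filter (fun m => z < m ∧ m ≤ z + W), c m := by
    simp_rw [Finset.sum_filter]
    rw [Finset.sum_comm, Finset.mul_sum]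
    refine Finset.sum_congr rfl fun m hm => ?_
    rw [Finset.mem_Ico] at hm
    rw [← Finset.sum_filter, Finset.sum_const, nsmul_eq_mul]
    congr 2
    have h2 : (Ico (y1 - W) y2).filter (fun z => z < m ∧ m ≤ z + W) = Ico (m - W) m := by
      ext z
      simp only [Finset.mem_filter, Finset.mem_Ico]
      omega
    rw [h2, Nat.card_Ico]
    omega
  have h2 : W * ‖∑ m ∈ Ico y1 y2, c m‖ = ‖(W : ℂ) * ∑ m ∈ Ico y1 y2, c m‖ := by
    rw [norm_mul, Complex.norm_natCast]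
  rw [h2, h1]
  refine (norm_sum_le _ _).trans ?_
  rw [← Finset.sum_filter_add_sum_filter_not (Ico (y1 - W) y2) (fun z => y1 ≤ z + 1 ∧ z + W < y2)]
  refine add_le_add ?_ ?_
  · have h3 : ∀ z ∈ (Ico (y1 - W) y2).filter (fun z => y1 ≤ z + 1 ∧ z + W < y2),
        ‖∑ m ∈ (Ico y1 y2).filter (fun m => z < m ∧ m ≤ z + W), c m‖ =
        ‖∑ m ∈ (Icc 1 X).filter (fun m => z < m ∧ m ≤ z + W), c m‖ := by
      intro z hz
      rw [Finset.mem_filter] at hz
      have h4 : (Ico y1 y2).filter (fun m => z < m ∧ m ≤ z + W) = (Icc 1 X).filter (fun m => z < m ∧ m ≤ z + W) := by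
        ext m
        simp only [Finset.mem_filter, Finset.mem_Ico, Finset.mem_Icc]
        omega
      rw [h4]
    rw [Finset.sum_congr rfl h3]
    refine Finset.sum_le_sum_of_subset_of_nonneg ?_ fun _ _ _ => norm_nonneg _
    intro z hz
    rw [Finset.mem_filter, Finset.mem_Ico] at hz
    rw [Finset.mem_Ico]
    omega
  · have h3 : ∀ z ∈ (Ico (y1 - W) y2).filter (fun z => ¬ (y1 ≤ z + 1 ∧ z + W < y2)),
        ‖∑ m ∈ (Ico y1 y2).filter (fun m => z < m ∧ m ≤ z + W), c m‖ ≤ B0 := by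
      intro z hz
      rw [Finset.mem_filter, Finset.mem_Ico] at hz
      refine (norm_sum_le _ _).trans (le_trans ?_ (hB z hz.1.2))
      refine Finset.sum_le_sum_of_subset_of_nonneg ?_ fun _ _ _ => norm_nonneg _
      intro m hm
      rw [Finset.mem_filter, Finset.mem_Ico] at hm
      rw [Finset.mem_Ico]
      omega
    refine (Finset.sum_le_sum h3).trans ?_
    rw [Finset.sum_const, nsmul_eq_mul]
    refine mul_le_mul_of_nonneg_right ?_ hB0
    have h4 : (Ico (y1 - W) y2).filter (fun z => ¬ (y1 ≤ z + 1 ∧ z + W < y2)) ⊆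
        Ico (y1 - W) (y1 - 1) ∪ Ico (y2 - W) y2 := by
      intro z hz
      rw [Finset.mem_filter, Finset.mem_Ico] at hz
      rw [Finset.mem_union, Finset.mem_Ico, Finset.mem_Ico]
      omega
    have h5 : ((Ico (y1 - W) y2).filter (fun z => ¬ (y1 ≤ z + 1 ∧ z + W < y2))).card ≤ 2 * W := by
      refine (Finset.card_le_card h4).trans ((Finset.card_union_le _ _).trans ?_)
      rw [Nat.card_Ico, Nat.card_Ico]
      omega
    exact_mod_cast h5

/-- disjoint blocks -/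
private theorem Typ2_blk (D : ℕ → ℝ) (S : Finset ℕ) (H X : ℕ) (T : ℝ) (hT : 0 ≤ T) (hH : 1 ≤ H)
    (hS : ∀ i ∈ S, 1 ≤ i ∧ (i + 1) * H ≤ X ∧ T ≤ ∑ z ∈ Ico (i * H - 1) ((i + 1) * H - 1), D z) :
    (S.card : ℝ) * (T ^ 2 / H) ≤ ∑ z ∈ range X, D z ^ 2 := by
  have hH0 : (0 : ℝ) < H := by exact_mod_cast hH
  have h1 : ∀ i ∈ S, T ^ 2 / H ≤ ∑ z ∈ Ico (i * H - 1) ((i + 1) * H - 1), D z ^ 2 := by
    intro i hi
    obtain ⟨h2, _, h4⟩ := hS i hi
    rw [div_le_iff₀ hH0]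
    have h5 : T ^ 2 ≤ (∑ z ∈ Ico (i * H - 1) ((i + 1) * H - 1), D z) ^ 2 := pow_le_pow_left₀ hT h4 2
    refine h5.trans (sq_sum_le_card_mul_sum_sq.trans ?_)
    rw [mul_comm]
    refine mul_le_mul_of_nonneg_left ?_ (Finset.sum_nonneg fun _ _ => sq_nonneg _)
    rw [Nat.card_Ico]
    have h6 : H ≤ i * H := Nat.le_mul_of_pos_left H h2
    have h7 : (i + 1) * H - 1 - (i * H - 1) ≤ H := by
      have : (i + 1) * H = i * H + H := by ring
      omega
    exact_mod_cast h7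
  have h2 : (S.card : ℝ) * (T ^ 2 / H) ≤ ∑ i ∈ S, ∑ z ∈ Ico (i * H - 1) ((i + 1) * H - 1), D z ^ 2 := by
    rw [← nsmul_eq_mul, ← Finset.sum_const]
    exact Finset.sum_le_sum h1
  refine h2.trans ?_
  rw [← Finset.sum_biUnion]
  · refine Finset.sum_le_sum_of_subset_of_nonneg ?_ fun _ _ _ => sq_nonneg _
    intro z hz
    rw [Finset.mem_biUnion] at hz
    obtain ⟨i, hi, hz⟩ := hz
    rw [Finset.mem_Ico] at hz
    rw [Finset.mem_range]
    have := (hS i hi).2.1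
    omega
  · intro i hi j hj hne
    rw [Function.onFun, Finset.disjoint_left]
    intro z hz hz'
    rw [Finset.mem_Ico] at hz hz'
    have hi1 := (hS i hi).1
    have hj1 := (hS j hj).1
    have a1 : H ≤ i * H := Nat.le_mul_of_pos_left H hi1
    have a2 : H ≤ j * H := Nat.le_mul_of_pos_left H hj1
    rcases lt_or_gt_of_ne hne with h | h
    · have h3 : (i + 1) * H ≤ j * H := Nat.mul_le_mul_right H h
      omega
    · have h3 : (j + 1) * H ≤ i * H := Nat.mul_le_mul_right H h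
      omega

private theorem Typ2_mod (m a r : ℕ) (hr : 1 ≤ r) :
    ee (-((m : ℝ) * ((a : ℝ) / r))) = ee (-((m : ℝ) * (((a % r : ℕ) : ℝ) / r))) := by
  have hr0 : (r : ℝ) ≠ 0 := by
    have : r ≠ 0 := by omega
    exact_mod_cast this
  have h1 : (a : ℝ) = r * ((a / r : ℕ) : ℝ) + ((a % r : ℕ) : ℝ) := by
    exact_mod_cast (Nat.div_add_mod a r).symm
  obtain ⟨k, hk⟩ : ∃ k, k = a / r := ⟨_, rfl⟩
  rw [← hk] at h1
  have h2 : -((m : ℝ) * ((a : ℝ) / r)) = -((m : ℝ) * (((a % r : ℕ) : ℝ) / r)) + ((-((m * k : ℕ) : ℤ) : ℤ) : ℝ) := by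
    rw [h1]
    push_cast
    field_simp
    ring
  rw [h2, Pool.Agent.H76.EHB.ee_add_int]

theorem typ2 (hJ : JJp) (A B : ℕ) : ∃ b N0 : ℕ, ∀ N : ℕ, N0 ≤ N → ∀ H P : ℕ, Real.log N ^ b ≤ P → P ^ 5 ≤ H → H ^ 2 ≤ N →
    ((badT (Fp (hR ⌊Real.log N ^ (B + 1)⌋₊) P) N H (Real.log N ^ B) (H / Real.log N ^ A)).card : ℝ)
      ≤ (N / H : ℝ) / Real.log N ^ A := by
  classical
  obtain ⟨b1, N1, h1⟩ := typ_a hJ B (3 * A + 2 * B + 8)
  obtain ⟨N2, h2⟩ := hsq (B + 1)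
  obtain ⟨N3, h3⟩ := Filter.eventually_atTop.1
    ((Real.tendsto_log_atTop.comp (tendsto_natCast_atTop_atTop (R := ℝ))).eventually_ge_atTop 10)
  refine ⟨b1 + A + 4 * B + 20, max (max N1 N2) (max N3 64), fun N hN H P hP hPH hHN => ?_⟩
  have hNN1 : N1 ≤ N := (le_max_left _ _).trans ((le_max_left _ _).trans hN)
  have hNN2 : N2 ≤ N := (le_max_right _ _).trans ((le_max_left _ _).trans hN)
  have hNN3 : N3 ≤ N := (le_max_left _ _).trans ((le_max_right _ _).trans hN)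
  have hN64 : 64 ≤ N := (le_max_right _ _).trans ((le_max_right _ _).trans hN)
  have hL10' : 10 ≤ Real.log N := h3 N hNN3
  have h1' := h1 N hNN1
  have h2' := h2 N hNN2
  clear h1 h2 h3
  obtain ⟨L, hL⟩ : ∃ L, L = Real.log N := ⟨_, rfl⟩
  rw [← hL] at hP hL10' h1' h2' ⊢
  have hL1 : 1 ≤ L := by linarith
  have hL0 : 0 < L := by linarith
  obtain ⟨R, hR'⟩ : ∃ R, R = ⌊L ^ (B + 1)⌋₊ := ⟨_, rfl⟩
  rw [← hR'] at h1' ⊢
  have hRle : (R : ℝ) ≤ L ^ (B + 1) := by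
    rw [hR']
    exact Nat.floor_le (by positivity)
  have hN0 : (0 : ℝ) < N := by
    have : 0 < N := by omega
    exact_mod_cast this
  -- sizes of `P`
  have hpow : ∀ k : ℕ, k ≤ b1 + A + 4 * B + 20 → L ^ k ≤ P := fun k hk =>
    (pow_le_pow_right₀ hL1 hk).trans hP
  have hP10 : (10 : ℝ) ≤ P := by
    have := hpow 1 (by omega)
    rw [pow_one] at this
    linarith
  have hP10' : 10 ≤ P := by exact_mod_cast hP10
  have hP0 : (0 : ℝ) < P := by linarith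
  have hPH' : (P : ℝ) ^ 5 ≤ H := by exact_mod_cast hPH
  have hH0 : (0 : ℝ) < H := lt_of_lt_of_le (by positivity) hPH'
  have hH0' : 0 < H := by exact_mod_cast hH0
  have hPleH : P ≤ H := le_trans (Nat.le_self_pow (by norm_num) P) hPH
  have hH64 : 64 ≤ H := by
    calc 64 ≤ 10 ^ 5 := by norm_num
      _ ≤ P ^ 5 := Nat.pow_le_pow_left hP10' 5
      _ ≤ H := hPH
  have hHN' : 64 * H ≤ N := by
    calc 64 * H ≤ H * H := Nat.mul_le_mul_right H hH64
      _ = H ^ 2 := by ring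
      _ ≤ N := hHN
  have hP3N : P ^ 3 ≤ N := by
    calc P ^ 3 ≤ P ^ 5 := Nat.pow_le_pow_right (by omega) (by norm_num)
      _ ≤ H := hPH
      _ ≤ N := by omega
  -- `K1`, `K2`
  obtain ⟨K1, hK1⟩ : ∃ K1, K1 = N / (16 * P) := ⟨_, rfl⟩
  obtain ⟨K2, hK2⟩ : ∃ K2, K2 = 12 * N / P := ⟨_, rfl⟩
  have hK1a : 16 * P * K1 ≤ N := by
    rw [hK1]
    exact Nat.mul_div_le _ _
  have hK1b : N < 16 * P * (K1 + 1) := by
    rw [hK1]
    exact Nat.lt_mul_div_succ _ (by omega)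
  have hK2a : P * K2 ≤ 12 * N := by
    rw [hK2]
    exact Nat.mul_div_le _ _
  have hK2b : 12 * N < P * (K2 + 1) := by
    rw [hK2]
    exact Nat.lt_mul_div_succ _ (by omega)
  have hK1pos : 1 ≤ K1 := by
    by_contra hcon
    have : K1 = 0 := by omega
    rw [this] at hK1b
    omega
  have hK1c : N ≤ 32 * P * K1 := by
    have : P ≤ P * K1 := Nat.le_mul_of_pos_right P hK1pos
    nlinarith
  have hK12 : K1 < K2 := by
    by_contra hcon
    push Not at hcon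
    have h4 : P * (K2 + 1) ≤ P * (K1 + 1) := Nat.mul_le_mul_left P (by omega)
    have h5 : P ≤ P * K1 := Nat.le_mul_of_pos_right P hK1pos
    nlinarith
  obtain ⟨X, hX⟩ : ∃ X, X = 60 * N := ⟨_, rfl⟩
  have hPK2X : 2 * P * K2 ≤ X := by
    rw [hX]
    nlinarith
  -- `W`
  obtain ⟨q, hq⟩ : ∃ q, q = ⌊L ^ (A + 4)⌋₊ := ⟨_, rfl⟩
  have hLA4 : (10 : ℝ) ≤ L ^ (A + 4) := by
    calc (10 : ℝ) ≤ L := hL10'
      _ = L ^ 1 := (pow_one L).symm
      _ ≤ L ^ (A + 4) := pow_le_pow_right₀ hL1 (by omega)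
  have hq1 : (q : ℝ) ≤ L ^ (A + 4) := by
    rw [hq]
    exact Nat.floor_le (by positivity)
  have hq2 : L ^ (A + 4) < q + 1 := by
    rw [hq]
    exact Nat.lt_floor_add_one _
  have hq3 : L ^ (A + 4) / 2 ≤ q := by linarith
  have hq0 : (0 : ℝ) < q := by linarith
  have hq0' : 0 < q := by exact_mod_cast hq0
  obtain ⟨W, hW⟩ : ∃ W, W = H / q := ⟨_, rfl⟩
  have hWa : q * W ≤ H := by
    rw [hW]
    exact Nat.mul_div_le _ _
  have hWb : H < q * (W + 1) := by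
    rw [hW]
    exact Nat.lt_mul_div_succ _ hq0'
  have hWa' : (q : ℝ) * W ≤ H := by exact_mod_cast hWa
  have hWb' : (H : ℝ) < q * (W + 1) := by exact_mod_cast hWb
  have hP5 : 2 * L ^ (A + 4) ≤ (P : ℝ) := by
    have h4 := hpow (A + 5) (by omega)
    have h5 : L ^ (A + 5) = L * L ^ (A + 4) := by ring
    rw [h5] at h4
    nlinarith
  have hWge : (P : ℝ) ^ 4 ≤ W := by
    have h4 : (P : ℝ) * (P : ℝ) ^ 4 ≤ (H : ℝ) := by
      have e0 : (P : ℝ) * (P : ℝ) ^ 4 = (P : ℝ) ^ 5 := by ring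
      rw [e0]
      exact hPH'
    have h5 : (P : ℝ) ^ 4 * (2 * q) < (2 * q) * ((W + 1) / 2) := by
      have h6 : (P : ℝ) ^ 4 * (2 * q) ≤ P ^ 4 * P := by
        refine mul_le_mul_of_nonneg_left ?_ (by positivity)
        linarith
      linarith
    have h6 : (P : ℝ) ^ 4 < (W + 1) / 2 := by
      rw [mul_comm] at h5
      exact lt_of_mul_lt_mul_left h5 (by positivity)
    have h7 : (1 : ℝ) ≤ (P : ℝ) ^ 4 := one_le_pow₀ (by linarith)
    linarith
  have hW1 : (1 : ℝ) ≤ W := le_trans (one_le_pow₀ (by linarith)) hWge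
  have hW1' : 1 ≤ W := by exact_mod_cast hW1
  have hWleH : W ≤ H := le_trans (Nat.le_mul_of_pos_left W hq0') hWa
  have hWle : (W : ℝ) ≤ 2 * H / L ^ (A + 4) := by
    rw [le_div_iff₀ (by positivity)]
    have h4 : L ^ (A + 4) / 2 * W ≤ H := by
      calc L ^ (A + 4) / 2 * W ≤ q * W := mul_le_mul_of_nonneg_right hq3 (by positivity)
        _ ≤ H := hWa'
    linarith
  have hP4 : (P : ℝ) * P ≤ W := by
    refine le_trans ?_ hWge
    calc (P : ℝ) * P = P ^ 2 := by ring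
      _ ≤ P ^ 4 := pow_le_pow_right₀ (by linarith) (by norm_num)
  have hPb : (P : ℝ) * L ^ b1 ≤ W :=
    le_trans (mul_le_mul_of_nonneg_left (hpow b1 (by omega)) hP0.le) hP4
  -- `w0`
  have hw0 : (P : ℝ) * (1 + ((R ^ 4 + 2 : ℕ) : ℝ)) ≤ W := by
    refine le_trans (mul_le_mul_of_nonneg_left ?_ hP0.le) hP4
    have h4 : (R : ℝ) ^ 4 ≤ L ^ (4 * B + 4) := by
      calc (R : ℝ) ^ 4 ≤ (L ^ (B + 1)) ^ 4 := pow_le_pow_left₀ (by positivity) hRle 4
        _ = L ^ (4 * B + 4) := by ring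
    have h5 : 1 ≤ L ^ (4 * B + 4) := one_le_pow₀ hL1
    have h6 := hpow (4 * B + 5) (by omega)
    have h7 : L ^ (4 * B + 5) = L * L ^ (4 * B + 4) := by ring
    rw [h7] at h6
    push_cast
    nlinarith
  have hw0W : R ^ 4 + 2 ≤ W := by
    have h4 : ((R ^ 4 + 2 : ℕ) : ℝ) ≤ W := by
      have h5 : (0 : ℝ) ≤ ((R ^ 4 + 2 : ℕ) : ℝ) := by positivity
      nlinarith
    exact_mod_cast h4
  have hN4 : 8 * N ≤ N ^ 4 := by
    have h4 : 8 ≤ N ^ 3 := by
      calc 8 ≤ 64 ^ 3 := by norm_num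
        _ ≤ N ^ 3 := Nat.pow_le_pow_left hN64 3
    calc 8 * N ≤ N ^ 3 * N := Nat.mul_le_mul_right N h4
      _ = N ^ 4 := by ring
  have hSq := h2' R hRle K1 K2
  have hl1 : ∀ z, z < 5 * N → ∑ m ∈ Ico (z + 1) (z + 1 + W), |Fp (cut K1 K2 (hR R)) P m| ≤ 2 * W * L ^ 2 := by
    intro z hz
    have h4 := fp_l1 (cut K1 K2 (hR R)) P (R ^ 4 + 2) (N ^ 4) (z + 1) W L hL0.le (by omega) hSq (by omega)
    refine h4.trans ?_
    refine mul_le_mul_of_nonneg_right ?_ (by positivity)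
    have h5 : (P : ℝ) * ((W : ℝ) / P + 1 + ((R ^ 4 + 2 : ℕ) : ℝ)) = W + P * (1 + ((R ^ 4 + 2 : ℕ) : ℝ)) := by
      field_simp
      ring
    rw [h5]
    linarith
  -- the blocks
  have hblk : ∀ i ∈ Icc (N / (2 * H)) (4 * N / H), 1 ≤ i ∧ N ≤ 4 * (i * H) ∧ (i + 1) * H ≤ 5 * N := by
    intro i hi
    rw [Finset.mem_Icc] at hi
    have h4 : N < 2 * H * (N / (2 * H) + 1) := Nat.lt_mul_div_succ _ (by omega)
    have h5 : 2 * H * (N / (2 * H)) ≤ 2 * H * i := Nat.mul_le_mul_left _ hi.1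
    have h6 : N < 2 * (i * H) + 2 * H := by nlinarith
    have h7 : H * (4 * N / H) ≤ 4 * N := Nat.mul_div_le _ _
    have h8 : H * i ≤ H * (4 * N / H) := Nat.mul_le_mul_left _ hi.2
    have h9 : N ≤ 4 * (i * H) := by omega
    refine ⟨?_, h9, ?_⟩
    · by_contra hcon
      have : i = 0 := by omega
      rw [this] at h9
      omega
    · have h10 : (i + 1) * H = H * i + H := by ring
      omega
  have hcut : ∀ m : ℕ, N ≤ 4 * m → m ≤ 5 * N → Fp (cut K1 K2 (hR R)) P m = Fp (hR R) P m := by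
    intro m hm1 hm2
    unfold Fp
    refine Finset.sum_congr rfl fun p hp => ?_
    rw [Finset.mem_filter] at hp
    obtain ⟨hp, k, rfl⟩ := hp
    unfold pb at hp
    rw [Finset.mem_filter, Finset.mem_Ioc] at hp
    rw [Nat.mul_div_cancel_left _ hp.2.pos]
    unfold cut
    rw [if_pos]
    rw [Finset.mem_Ioc]
    constructor
    · by_contra hcon
      push Not at hcon
      have h4 : p * k ≤ 2 * P * K1 := Nat.mul_le_mul hp.1.2 hcon
      nlinarith
    · by_contra hcon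
      push Not at hcon
      have h4 : P * (K2 + 1) ≤ p * k := Nat.mul_le_mul hp.1.1.le hcon
      omega
  -- the pairs
  obtain ⟨Q0, hQ0⟩ : ∃ Q0, Q0 = ⌊L ^ B⌋₊ := ⟨_, rfl⟩
  have hQ0le : (Q0 : ℝ) ≤ L ^ B := by
    rw [hQ0]
    exact Nat.floor_le (by positivity)
  let S : ℕ × ℕ → Finset ℕ := fun ra => (Icc (N / (2 * H)) (4 * N / H)).filter (fun i => ∃ y1 y2 : ℕ, i * H ≤ y1 ∧
    y2 ≤ (i + 1) * H ∧ H / L ^ A < ‖∑ m ∈ Ico y1 y2, (Fp (hR R) P m : ℂ) * ee (-(m * ((ra.2 : ℝ) / ra.1)))‖)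
  have hsub : badT (Fp (hR R) P) N H (L ^ B) (H / L ^ A) ⊆ (Icc 1 Q0 ×ˢ range Q0).biUnion S := by
    intro i hi
    unfold badT at hi
    rw [Finset.mem_filter] at hi
    obtain ⟨hi, r, a, y1, y2, hr1, hr2, hy1, hy2, hM⟩ := hi
    have hrQ : r ≤ Q0 := by
      rw [hQ0]
      exact Nat.le_floor hr2
    rw [Finset.mem_biUnion]
    refine ⟨(r, a % r), ?_, ?_⟩
    · rw [Finset.mem_product, Finset.mem_Icc, Finset.mem_range]
      exact ⟨⟨hr1, hrQ⟩, lt_of_lt_of_le (Nat.mod_lt _ hr1) hrQ⟩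
    · simp only [S]
      rw [Finset.mem_filter]
      refine ⟨hi, y1, y2, hy1, hy2, ?_⟩
      simp_rw [← Typ2_mod _ a r hr1]
      exact hM
  have hcount : ∀ ra ∈ Icc 1 Q0 ×ˢ range Q0, ((S ra).card : ℝ) ≤ 4 * (N / H) * L ^ (2 * A) / L ^ (3 * A + 2 * B + 8) := by
    rintro ⟨r, a⟩ hra
    rw [Finset.mem_product, Finset.mem_Icc, Finset.mem_range] at hra
    obtain ⟨⟨hr1, hr2⟩, ha⟩ := hra
    simp only at hr1 hr2 ha
    have hr2' : (r : ℝ) ≤ L ^ B := le_trans (by exact_mod_cast hr2) hQ0le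
    have h4 := h1' P K1 K2 X W r a (hpow b1 (by omega)) hP3N hr1 hr2' hK1c hK12 (by omega) hPK2X (by omega) hPb (by omega)
    have h5 := Typ2_blk (fun z => ‖∑ m ∈ (Icc 1 X).filter (fun m => z < m ∧ m ≤ z + W),
      (Fp (cut K1 K2 (hR R)) P m : ℂ) * ee (-(m * ((a : ℝ) / r)))‖) (S (r, a)) H X (W * H / (2 * L ^ A))
      (by positivity) hH0' ?_
    · have h6 := h5.trans h4
      have e1 : ((W : ℝ) * H / (2 * L ^ A)) ^ 2 / H = W ^ 2 * (H / (4 * L ^ (2 * A))) := by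
        rw [div_pow, mul_pow, mul_pow, ← pow_mul]
        field_simp
        ring
      have e2 : (W : ℝ) ^ 2 * N / L ^ (3 * A + 2 * B + 8) = W ^ 2 * (N / L ^ (3 * A + 2 * B + 8)) := by ring
      rw [e1, e2, mul_left_comm] at h6
      have h7 := le_of_mul_le_mul_left h6 (by positivity)
      have h8 : 0 < (H : ℝ) / (4 * L ^ (2 * A)) := by positivity
      rw [← le_div_iff₀ h8] at h7
      refine h7.trans (le_of_eq ?_)
      field_simp
    · intro i hi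
      simp only [S] at hi
      rw [Finset.mem_filter] at hi
      obtain ⟨hi, y1, y2, hy1, hy2, hM⟩ := hi
      obtain ⟨hi1, hi2, hi3⟩ := hblk i hi
      refine ⟨hi1, by omega, ?_⟩
      have h6 := Typ2_avg (fun m => (Fp (cut K1 K2 (hR R)) P m : ℂ) * ee (-(m * ((a : ℝ) / r)))) X W y1 y2
        (i * H) ((i + 1) * H) (2 * W * L ^ 2) hW1' (by omega) (by omega) hy1 hy2 (by positivity) ?_
      · have h7 : ∑ m ∈ Ico y1 y2, (Fp (cut K1 K2 (hR R)) P m : ℂ) * ee (-(m * ((a : ℝ) / r))) =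
            ∑ m ∈ Ico y1 y2, (Fp (hR R) P m : ℂ) * ee (-(m * ((a : ℝ) / r))) := by
          refine Finset.sum_congr rfl fun m hm => ?_
          rw [Finset.mem_Ico] at hm
          rw [hcut m (by omega) (by omega)]
        rw [h7] at h6
        have h8 : (W : ℝ) * (H / L ^ A) ≤ W * ‖∑ m ∈ Ico y1 y2, (Fp (hR R) P m : ℂ) * ee (-(m * ((a : ℝ) / r)))‖ :=
          mul_le_mul_of_nonneg_left hM.le (by positivity)
        have h9 : 2 * (W : ℝ) * (2 * W * L ^ 2) ≤ W * H / (2 * L ^ A) := by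
          have e3 : 2 * (W : ℝ) * (2 * W * L ^ 2) = W * (W * (4 * L ^ 2)) := by ring
          have e4 : (W : ℝ) * H / (2 * L ^ A) = W * (H / (2 * L ^ A)) := by ring
          rw [e3, e4]
          refine mul_le_mul_of_nonneg_left ?_ (by positivity)
          calc (W : ℝ) * (4 * L ^ 2) ≤ 2 * H / L ^ (A + 4) * (4 * L ^ 2) :=
                mul_le_mul_of_nonneg_right hWle (by positivity)
            _ = H / (2 * L ^ A) * (16 / L ^ 2) := by
                rw [pow_add L A 4]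
                field_simp
                ring
            _ ≤ H / (2 * L ^ A) * 1 := by
                refine mul_le_mul_of_nonneg_left ?_ (by positivity)
                rw [div_le_one (by positivity)]
                nlinarith
            _ = H / (2 * L ^ A) := mul_one _
        have e5 : (W : ℝ) * H / (2 * L ^ A) = W * (H / L ^ A) / 2 := by
          field_simp
        rw [e5] at h9 ⊢
        linarith
      · intro z hz
        refine le_trans (le_of_eq ?_) (hl1 z (by omega))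
        refine Finset.sum_congr rfl fun m _ => ?_
        rw [norm_mul, Pool.Agent.H91.PK.LSa_norm_ee, mul_one, Complex.norm_real, Real.norm_eq_abs]
  have hfin : ((badT (Fp (hR R) P) N H (L ^ B) (H / L ^ A)).card : ℝ) ≤
      (Q0 : ℝ) * Q0 * (4 * (N / H) * L ^ (2 * A) / L ^ (3 * A + 2 * B + 8)) := by
    have h4 : ((badT (Fp (hR R) P) N H (L ^ B) (H / L ^ A)).card : ℝ) ≤
        ∑ ra ∈ Icc 1 Q0 ×ˢ range Q0, ((S ra).card : ℝ) := by
      have h5 := (Finset.card_le_card hsub).trans Finset.card_biUnion_le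
      exact_mod_cast h5
    refine h4.trans ((Finset.sum_le_sum hcount).trans (le_of_eq ?_))
    rw [Finset.sum_const, nsmul_eq_mul, Finset.card_product, Nat.card_Icc, Finset.card_range, Nat.add_sub_cancel]
    push_cast
    ring
  refine hfin.trans ?_
  have h4 : (Q0 : ℝ) * Q0 ≤ L ^ (2 * B) := by
    calc (Q0 : ℝ) * Q0 ≤ L ^ B * L ^ B := mul_le_mul hQ0le hQ0le (by positivity) (by positivity)
      _ = L ^ (2 * B) := by ring
  refine (mul_le_mul_of_nonneg_right h4 (by positivity)).trans ?_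
  have e1 : L ^ (2 * B) * (4 * ((N : ℝ) / H) * L ^ (2 * A) / L ^ (3 * A + 2 * B + 8)) =
      (N / H : ℝ) / L ^ A * (4 / L ^ 8) := by
    rw [div_mul_div_comm, mul_div_assoc', div_eq_div_iff (by positivity) (by positivity)]
    ring
  rw [e1]
  have h5 : 4 / L ^ 8 ≤ 1 := by
    rw [div_le_one (by positivity)]
    calc (4 : ℝ) ≤ 10 ^ 8 := by norm_num
      _ ≤ L ^ 8 := pow_le_pow_left₀ (by norm_num) hL10' 8
  calc (N / H : ℝ) / L ^ A * (4 / L ^ 8) ≤ (N / H : ℝ) / L ^ A * 1 :=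
        mul_le_mul_of_nonneg_left h5 (by positivity)
    _ = (N / H : ℝ) / L ^ A := mul_one _

end Pool.Agent.H53.MID
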