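import Pool.Agent.H53.MID.Defs

/-!
# MID Pars2: Parseval for the binary problem

Proof.  `f^(α) = ∑_{m ∈ Ico Y1 Y2} f m ee(-(m α))`, `g^` likewise; `f^(α) g^(α) = ∑_s r(s) ee(-(s α))`, `r(s) = ∑_{m, s - m ∈ Ico Y1 Y2} f(s - m) g(m)`.  Parseval on `[0,1]` (`LSa_parseval` in `H91/PK/LSa.lean`):
`∑_s r(s)^2 = ∫_0^1 ‖f^‖^2 ‖g^‖^2 ≤ M^2 ∫_0^1 ‖g^‖^2 = M^2 ∑ g^2`; keep only the even `s = 2n`, `n ∈ Ico Y1 Y2`.
-/

set_option autoImplicit false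

namespace Pool.Agent.H53.MID

open Finset MeasureTheory
open Pool.Agent.H91.PK (ee)

private noncomputable def Pars2_r (f g : ℕ → ℝ) (Y1 Y2 s : ℕ) : ℝ :=
  ∑ m ∈ (Ico Y1 Y2).filter (fun m => m ≤ s ∧ s - m ∈ Ico Y1 Y2), f (s - m) * g m

private theorem Pars2_prod (f g : ℕ → ℝ) (Y1 Y2 : ℕ) (t : ℝ) :
    (∑ k ∈ Ico Y1 Y2, (f k : ℂ) * ee (((k : ℝ) - 0) * t)) *
      (∑ m ∈ Ico Y1 Y2, (g m : ℂ) * ee (((m : ℝ) - 0) * t)) =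
      ∑ s ∈ range (2 * Y2), (Pars2_r f g Y1 Y2 s : ℂ) * ee (((s : ℝ) - 0) * t) := by
  rw [Finset.sum_mul_sum, Finset.sum_comm]
  have h1 : ∀ s : ℕ, (Pars2_r f g Y1 Y2 s : ℂ) * ee (((s : ℝ) - 0) * t) =
      ∑ m ∈ Ico Y1 Y2, if m ≤ s ∧ s - m ∈ Ico Y1 Y2 then
        ((f (s - m) : ℂ) * (g m : ℂ)) * ee (((s : ℝ) - 0) * t) else 0 := by
    intro s
    unfold Pars2_r
    rw [← Finset.sum_filter, Complex.ofReal_sum, Finset.sum_mul]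
    refine Finset.sum_congr rfl fun m _ => ?_
    rw [Complex.ofReal_mul]
  simp_rw [h1]
  rw [Finset.sum_comm (s := range (2 * Y2))]
  refine Finset.sum_congr rfl fun m hm => ?_
  rw [← Finset.sum_filter]
  rw [Finset.mem_Ico] at hm
  refine Finset.sum_bij (fun k _ => k + m) ?_ ?_ ?_ ?_
  · intro k hk
    rw [Finset.mem_Ico] at hk
    rw [Finset.mem_filter, Finset.mem_range, Finset.mem_Ico]
    refine ⟨by omega, by omega, by omega, by omega⟩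
  · intro a _ b _ hab
    omega
  · intro s hs
    rw [Finset.mem_filter] at hs
    exact ⟨s - m, hs.2.2, by have := hs.2.1; omega⟩
  · intro k _
    have h2 : k + m - m = k := by omega
    have h3 : ee ((((k + m : ℕ) : ℝ) - 0) * t) = ee (((k : ℝ) - 0) * t) * ee (((m : ℝ) - 0) * t) := by
      rw [← Pool.Agent.H91.PK.LSa_ee_add]
      congr 1
      push_cast
      ring
    rw [h2, h3]
    ring

private theorem Pars2_cont (h : ℕ → ℂ) (S : Finset ℕ) :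
    Continuous (fun t : ℝ => ‖∑ m ∈ S, h m * ee (((m : ℝ) - 0) * t)‖ ^ 2) := by
  unfold ee
  fun_prop

theorem pars2 (f g : ℕ → ℝ) (Y1 Y2 : ℕ) (M S : ℝ) (hM : 0 ≤ M)
    (hf : ∀ α : ℝ, ‖∑ m ∈ Ico Y1 Y2, (f m : ℂ) * ee (-(m * α))‖ ≤ M) (hg : ∑ m ∈ Ico Y1 Y2, g m ^ 2 ≤ S) :
    ∑ n ∈ Ico Y1 Y2, (∑ m ∈ (Ico Y1 Y2).filter (fun m => m ≤ 2 * n ∧ 2 * n - m ∈ Ico Y1 Y2),
      f (2 * n - m) * g m) ^ 2 ≤ M ^ 2 * S := by
  have p1 := Pool.Agent.H91.PK.LSa_parseval (range (2 * Y2))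
    (fun s => (Pars2_r f g Y1 Y2 s : ℂ)) 0 0
  have p2 := Pool.Agent.H91.PK.LSa_parseval (Ico Y1 Y2) (fun m => (g m : ℂ)) 0 0
  have hF : ∀ t : ℝ, ‖∑ k ∈ Ico Y1 Y2, (f k : ℂ) * ee (((k : ℝ) - 0) * t)‖ ≤ M := by
    intro t
    have h := hf (-t)
    have h' : (∑ m ∈ Ico Y1 Y2, (f m : ℂ) * ee (-(m * (-t)))) =
        ∑ k ∈ Ico Y1 Y2, (f k : ℂ) * ee (((k : ℝ) - 0) * t) := by
      refine Finset.sum_congr rfl fun m _ => ?_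
      congr 2
      ring
    rw [h'] at h
    exact h
  have h3 : ∫ t in (0 : ℝ)..(0 + 1),
      ‖∑ s ∈ range (2 * Y2), (Pars2_r f g Y1 Y2 s : ℂ) * ee (((s : ℝ) - 0) * t)‖ ^ 2 ≤
      ∫ t in (0 : ℝ)..(0 + 1),
        M ^ 2 * ‖∑ m ∈ Ico Y1 Y2, (g m : ℂ) * ee (((m : ℝ) - 0) * t)‖ ^ 2 := by
    apply intervalIntegral.integral_mono_on (by norm_num)
    · exact (Pars2_cont _ _).intervalIntegrable _ _
    · exact ((Pars2_cont _ _).const_mul _).intervalIntegrable _ _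
    · intro t _
      rw [← Pars2_prod f g Y1 Y2 t, norm_mul, mul_pow]
      exact mul_le_mul_of_nonneg_right (pow_le_pow_left₀ (norm_nonneg _) (hF t) 2) (by positivity)
  rw [intervalIntegral.integral_const_mul, p1, p2] at h3
  have h4 : ∑ m ∈ Ico Y1 Y2, ‖(g m : ℂ)‖ ^ 2 = ∑ m ∈ Ico Y1 Y2, g m ^ 2 := by
    refine Finset.sum_congr rfl fun m _ => ?_
    rw [Complex.norm_real, Real.norm_eq_abs, sq_abs]
  have h5 : ∑ s ∈ range (2 * Y2), ‖(Pars2_r f g Y1 Y2 s : ℂ)‖ ^ 2 =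
      ∑ s ∈ range (2 * Y2), Pars2_r f g Y1 Y2 s ^ 2 := by
    refine Finset.sum_congr rfl fun m _ => ?_
    rw [Complex.norm_real, Real.norm_eq_abs, sq_abs]
  rw [h4, h5] at h3
  have h6 : ∑ n ∈ Ico Y1 Y2, Pars2_r f g Y1 Y2 (2 * n) ^ 2 ≤
      ∑ s ∈ range (2 * Y2), Pars2_r f g Y1 Y2 s ^ 2 := by
    have h7 : ∑ n ∈ Ico Y1 Y2, Pars2_r f g Y1 Y2 (2 * n) ^ 2 =
        ∑ s ∈ (Ico Y1 Y2).image (fun n => 2 * n), Pars2_r f g Y1 Y2 s ^ 2 := by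
      rw [Finset.sum_image]
      intro a _ b _ hab
      have : 2 * a = 2 * b := hab
      omega
    rw [h7]
    apply Finset.sum_le_sum_of_subset_of_nonneg
    · intro s hs
      rw [Finset.mem_image] at hs
      obtain ⟨n, hn, rfl⟩ := hs
      rw [Finset.mem_Ico] at hn
      rw [Finset.mem_range]
      omega
    · intro s _ _
      positivity
  calc ∑ n ∈ Ico Y1 Y2, (∑ m ∈ (Ico Y1 Y2).filter (fun m => m ≤ 2 * n ∧ 2 * n - m ∈ Ico Y1 Y2),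
      f (2 * n - m) * g m) ^ 2 = ∑ n ∈ Ico Y1 Y2, Pars2_r f g Y1 Y2 (2 * n) ^ 2 := rfl
    _ ≤ ∑ s ∈ range (2 * Y2), Pars2_r f g Y1 Y2 s ^ 2 := h6
    _ ≤ M ^ 2 * ∑ m ∈ Ico Y1 Y2, g m ^ 2 := h3
    _ ≤ M ^ 2 * S := mul_le_mul_of_nonneg_left hg (by positivity)

end Pool.Agent.H53.MID
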