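import Pool.Agent.H53.MID.GDefs
import Pool.Agent.H53.MID.Pars2

/-!
# MID GoldA: the window and the error term

`Yw H i n`: the `m` in the three blocks around `i` with `2n - m` in the three blocks.
`yw_eq` proof: with `Y1 = (i-1)H`, `Y2 = (i+2)H`: `y1 = max Y1 (2n + 1 - Y2)`, `y2 = 2n + 1 - y1 = min Y2 (2n + 1 - Y1)`; `n - Y1 ≥ H`, `Y2 - 1 - n ≥ H`, so `y2 - y1 ≥ 2H + 1`.
`gold_a` proof: `pars2` on `Ico Y1 Y2` (the sum of the three block sums is `≤ 3M`; `∑ g^2 ≤ 3H G^2`) and Markov: the number of `n` with `|..| > D` is `≤ (3M)^2 3 H G^2/D^2`.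
-/

set_option autoImplicit false

namespace Pool.Agent.H53.MID

open Finset
open Pool.Agent.H91.PK (ee)

/-- the `m` in the three blocks around `i` such that `2n - m` is there too -/
def Yw (H i n : ℕ) : Finset ℕ :=
  (Ico ((i - 1) * H) ((i + 2) * H)).filter (fun m => m ≤ 2 * n ∧ 2 * n - m ∈ Ico ((i - 1) * H) ((i + 2) * H))

theorem yw_eq (H i n : ℕ) (hi : 2 ≤ i) (hH : 1 ≤ H) (h1 : i * H ≤ n) (h2 : n < (i + 1) * H) :
    ∃ y1 y2 : ℕ, Yw H i n = Ico y1 y2 ∧ (i - 1) * H ≤ y1 ∧ y2 ≤ (i + 2) * H ∧ y1 + 2 * H ≤ y2 ∧ y2 ≤ 2 * n ∧ 1 ≤ y1 := by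
  obtain ⟨k, rfl⟩ : ∃ k, i = k + 2 := ⟨i - 2, by omega⟩
  have e1 : (k + 2 - 1) * H = k * H + H := by
    have : k + 2 - 1 = k + 1 := by omega
    rw [this]; ring
  have e2 : (k + 2 + 2) * H = k * H + 4 * H := by ring
  have e3 : (k + 2) * H = k * H + 2 * H := by ring
  have e4 : (k + 2 + 1) * H = k * H + 3 * H := by ring
  unfold Yw
  rw [e1, e2]
  rw [e3] at h1
  rw [e4] at h2
  generalize k * H = Z at *
  refine ⟨max (Z + H) (2 * n + 1 - (Z + 4 * H)), 2 * n + 1 - max (Z + H) (2 * n + 1 - (Z + 4 * H)),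
    ?_, ?_, ?_, ?_, ?_, ?_⟩
  · ext m
    simp only [Finset.mem_filter, Finset.mem_Ico]
    omega
  all_goals omega

theorem gold_a (e g : ℕ → ℝ) (H i : ℕ) (M G D : ℝ) (hi : 1 ≤ i) (hM : 0 ≤ M) (hD : 0 < D)
    (he : ∀ j ∈ Icc (i - 1) (i + 1), ∀ α : ℝ, ‖Bs e H j α‖ ≤ M)
    (hg : ∀ m ∈ Ico ((i - 1) * H) ((i + 2) * H), |g m| ≤ G) :
    (((Ico (i * H) ((i + 1) * H)).filter (fun n => D < |∑ m ∈ Yw H i n, e (2 * n - m) * g m|)).card : ℝ) ≤
      (3 * M) ^ 2 * (3 * H * G ^ 2) / D ^ 2 := by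
  obtain ⟨k, rfl⟩ : ∃ k, i = k + 1 := ⟨i - 1, by omega⟩
  have ek : k + 1 - 1 = k := by omega
  rw [ek] at he hg
  have hf : ∀ α : ℝ, ‖∑ m ∈ Ico (k * H) ((k + 1 + 2) * H), (e m : ℂ) * ee (-(m * α))‖ ≤ 3 * M := by
    intro α
    have s1 : ∑ m ∈ Ico (k * H) ((k + 1 + 2) * H), (e m : ℂ) * ee (-(m * α)) =
        Bs e H k α + Bs e H (k + 1) α + Bs e H (k + 1 + 1) α := by
      unfold Bs
      rw [Finset.sum_Ico_consecutive _ (Nat.mul_le_mul_right H (Nat.le_succ k))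
        (Nat.mul_le_mul_right H (Nat.le_succ (k + 1))),
        Finset.sum_Ico_consecutive _ (Nat.mul_le_mul_right H (by omega))
        (Nat.mul_le_mul_right H (Nat.le_succ (k + 1 + 1)))]
    rw [s1]
    have b0 := he k (by rw [Finset.mem_Icc]; omega) α
    have b1 := he (k + 1) (by rw [Finset.mem_Icc]; omega) α
    have b2 := he (k + 1 + 1) (by rw [Finset.mem_Icc]; omega) α
    calc ‖Bs e H k α + Bs e H (k + 1) α + Bs e H (k + 1 + 1) α‖
        ≤ ‖Bs e H k α‖ + ‖Bs e H (k + 1) α‖ + ‖Bs e H (k + 1 + 1) α‖ := norm_add₃_le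
      _ ≤ 3 * M := by linarith
  have hgs : ∑ m ∈ Ico (k * H) ((k + 1 + 2) * H), g m ^ 2 ≤ 3 * H * G ^ 2 := by
    calc ∑ m ∈ Ico (k * H) ((k + 1 + 2) * H), g m ^ 2
        ≤ ∑ m ∈ Ico (k * H) ((k + 1 + 2) * H), G ^ 2 := by
          apply Finset.sum_le_sum
          intro m hm
          have := hg m hm
          rw [← sq_abs]
          exact pow_le_pow_left₀ (abs_nonneg _) this 2
      _ = 3 * H * G ^ 2 := by
          rw [Finset.sum_const, Nat.card_Ico, nsmul_eq_mul]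
          have : (k + 1 + 2) * H - k * H = 3 * H := by
            have : (k + 1 + 2) * H = k * H + 3 * H := by ring
            omega
          rw [this]
          push_cast
          ring
  have hp := pars2 e g (k * H) ((k + 1 + 2) * H) (3 * M) (3 * H * G ^ 2) (by linarith) hf hgs
  have hY : ∀ n, Yw H (k + 1) n = (Ico (k * H) ((k + 1 + 2) * H)).filter
      (fun m => m ≤ 2 * n ∧ 2 * n - m ∈ Ico (k * H) ((k + 1 + 2) * H)) := by
    intro n
    unfold Yw
    rw [ek]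
  rw [le_div_iff₀ (by positivity)]
  calc (((Ico ((k + 1) * H) ((k + 1 + 1) * H)).filter
        (fun n => D < |∑ m ∈ Yw H (k + 1) n, e (2 * n - m) * g m|)).card : ℝ) * D ^ 2
      = ∑ n ∈ (Ico ((k + 1) * H) ((k + 1 + 1) * H)).filter
        (fun n => D < |∑ m ∈ Yw H (k + 1) n, e (2 * n - m) * g m|), D ^ 2 := by
          rw [Finset.sum_const, nsmul_eq_mul]
    _ ≤ ∑ n ∈ (Ico ((k + 1) * H) ((k + 1 + 1) * H)).filter
        (fun n => D < |∑ m ∈ Yw H (k + 1) n, e (2 * n - m) * g m|),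
          (∑ m ∈ Yw H (k + 1) n, e (2 * n - m) * g m) ^ 2 := by
          apply Finset.sum_le_sum
          intro n hn
          rw [Finset.mem_filter] at hn
          rw [← sq_abs (∑ m ∈ Yw H (k + 1) n, e (2 * n - m) * g m)]
          exact pow_le_pow_left₀ hD.le hn.2.le 2
    _ ≤ ∑ n ∈ Ico (k * H) ((k + 1 + 2) * H),
          (∑ m ∈ Yw H (k + 1) n, e (2 * n - m) * g m) ^ 2 := by
          apply Finset.sum_le_sum_of_subset_of_nonneg
          · intro n hn
            rw [Finset.mem_filter, Finset.mem_Ico] at hn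
            rw [Finset.mem_Ico]
            have a1 : (k + 1) * H = k * H + H := by ring
            have a2 : (k + 1 + 1) * H = k * H + 2 * H := by ring
            have a3 : (k + 1 + 2) * H = k * H + 3 * H := by ring
            rw [a1, a2] at hn
            rw [a3]
            omega
          · intro n _ _
            positivity
    _ ≤ (3 * M) ^ 2 * (3 * H * G ^ 2) := by
          simp_rw [hY]
          exact hp

end Pool.Agent.H53.MID
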