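import Pool.Agent.H53.MID.Fac
import Pool.Agent.H53.MID.VkPr
import Pool.Agent.H53.MID.Mvt
import Pool.Agent.H53.MID.HSq

/-!
# MID Msc: the mean square of the twisted Dirichlet polynomial

Proof.  `L = log N`, `R = ⌊L^B⌋`, `f = hR R`.  `vk_pr` with `K = C' + A' + 6` gives `K'`.  `SWp` with `B`, `m = K'`, `k = C' + K' + A' + 10`, `e0 = e1`.
By `fac_sq`, `∫_{|t| ≤ U} ‖Cs‖^2 ≤ d ∑_{l<d} ∫ ‖Pl‖^2 ‖Kl‖^2`.  If `gcd(l, d) > 1` then `Pl = 0` (a prime `p > P > d` is coprime to `d`).  Otherwise: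
(1) `L^K' ≤ |T + t|`: `‖Pl‖ ≤ P/L^K` (`|T + t| ≤ N^2 + N ≤ N^3`) and `∫_{|t| ≤ U} ‖Kl(T+t)‖^2 ≤ (2U + 2 K2 (1 + log K2)) ∑_{k ≤ K2} |cut f|^2` (`mvt` with `X = K2`, `c k = cut K1 K2 f k ee(-k a)`, `τ = T`),
`∑ ≤ (K2 + 1) L^4` (`hsq`, interval `[0, K2 + 1)`), `U ≤ N/P`, `K2 ≤ 16 N/P`: `≤ (N/P)^2 L^7`.
(2) `|T + t| < L^K'`: `‖Pl‖ ≤ P`, and with `l b/d = b'/c` in lowest terms (`c ≤ d ≤ L^C' ≤ L^B`, so `c ≤ R`; if `c = 1` or `l b ≡ 0` this is fine) `‖Kl‖ ≤ K2/L^k` by `SWp`; the set of these `t` has measure `≤ 2 L^K'`.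
Total `≤ d^2 (P^2 L^(-2K) (N/P)^2 L^7 + P^2 · 2 L^K' · 256 (N/P)^2 L^(-2k)) ≤ N^2/L^A'`.
(If `K1 ≥ K2` everything is `0`.)
-/

set_option autoImplicit false

namespace Pool.Agent.H53.MID

open Finset MeasureTheory
open Pool.Agent.H91.PK (ee)
open Pool.Agent.H91.EHA (Lam hR lamR ramS)
open Pool.Agent.H35.W (pb)

private theorem Msc_int (p q : ℝ → ℝ) (hp : Continuous p) (hq : Continuous q)
    (hq0 : ∀ t, 0 ≤ q t) (U T M a b : ℝ) (hM : 0 ≤ M) (ha : 0 ≤ a) (hb : 0 ≤ b)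
    (h1 : ∀ t ∈ Set.Icc (-U) U, M ≤ |T + t| → p t ≤ a)
    (h2 : ∀ t ∈ Set.Icc (-U) U, |T + t| < M → p t * q t ≤ b) :
    ∫ t in Set.Icc (-U) U, p t * q t ≤ a * (∫ t in Set.Icc (-U) U, q t) + 2 * M * b := by
  set S : Set ℝ := Set.Ioo (-T - M) (-T + M) with hS
  have hint1 : IntegrableOn (fun t => p t * q t) (Set.Icc (-U) U) :=
    (hp.mul hq).continuousOn.integrableOn_Icc
  have hint2 : IntegrableOn q (Set.Icc (-U) U) := hq.continuousOn.integrableOn_Icc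
  have hvol : volume S ≠ ⊤ := by
    rw [hS, Real.volume_Ioo]
    exact ENNReal.ofReal_ne_top
  have hint3 : Integrable (S.indicator (fun _ : ℝ => b)) volume :=
    (integrable_indicator_iff measurableSet_Ioo).2 (integrableOn_const hvol)
  have hnn : ∀ t, 0 ≤ S.indicator (fun _ : ℝ => b) t :=
    fun t => Set.indicator_nonneg (fun _ _ => hb) t
  have e1 : ∫ t in Set.Icc (-U) U, p t * q t ≤
      ∫ t in Set.Icc (-U) U, (a * q t + S.indicator (fun _ : ℝ => b) t) := by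
    refine setIntegral_mono_on hint1 ((hint2.const_mul a).add hint3.integrableOn)
      measurableSet_Icc fun t ht => ?_
    rcases le_or_gt M |T + t| with h | h
    · have := mul_le_mul_of_nonneg_right (h1 t ht h) (hq0 t)
      have := hnn t
      linarith
    · have hmem : t ∈ S := by
        rw [hS, Set.mem_Ioo]
        rw [abs_lt] at h
        constructor <;> linarith [h.1, h.2]
      rw [Set.indicator_of_mem hmem]
      have := h2 t ht h
      have := mul_nonneg ha (hq0 t)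
      linarith
  have e2 : ∫ t in Set.Icc (-U) U, (a * q t + S.indicator (fun _ : ℝ => b) t) =
      a * (∫ t in Set.Icc (-U) U, q t) + ∫ t in Set.Icc (-U) U, S.indicator (fun _ : ℝ => b) t := by
    rw [integral_add (hint2.const_mul a) hint3.integrableOn, integral_const_mul]
  have e3 : ∫ t in Set.Icc (-U) U, S.indicator (fun _ : ℝ => b) t ≤ 2 * M * b := by
    refine (setIntegral_le_integral hint3 (Filter.Eventually.of_forall hnn)).trans ?_
    rw [integral_indicator_const _ measurableSet_Ioo, Real.volume_real_Ioo_of_le (by linarith),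
      smul_eq_mul]
    exact le_of_eq (by ring)
  linarith

private theorem Msc_ee_cont (y : ℝ) (T : ℝ) : Continuous fun t : ℝ => ee (-((T + t) * y)) := by
  unfold Pool.Agent.H91.PK.ee
  fun_prop

private theorem Msc_norm_ee (t : ℝ) : ‖ee t‖ = 1 := Pool.Agent.H91.PK.LSa_norm_ee t

private theorem Msc_Pl_cont (P d l : ℕ) (T : ℝ) : Continuous fun t : ℝ => Pl P d l (T + t) := by
  unfold Pl
  exact continuous_finsetSum _ fun p _ => Msc_ee_cont _ _

private theorem Msc_Kl_cont (f : ℕ → ℝ) (K1 K2 : ℕ) (a T : ℝ) :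
    Continuous fun t : ℝ => Kl f K1 K2 a (T + t) := by
  unfold Kl
  exact continuous_finsetSum _ fun p _ => continuous_const.mul (Msc_ee_cont _ _)

private theorem Msc_Pl_le (P d l : ℕ) (s : ℝ) : ‖Pl P d l s‖ ≤ P := by
  unfold Pl
  refine (norm_sum_le _ _).trans ?_
  simp only [Msc_norm_ee, sum_const, nsmul_eq_mul, mul_one]
  have h : ((pb P).filter (fun p => p % d = l % d)).card ≤ P := by
    refine (Finset.card_filter_le _ _).trans ?_
    unfold Pool.Agent.H35.W.pb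
    refine (Finset.card_filter_le _ _).trans ?_
    rw [Nat.card_Ioc]
    omega
  exact_mod_cast h

/-- lowest terms -/
private theorem Msc_low (l b d : ℕ) (hd : 1 ≤ d) : ∃ b' c : ℕ, 1 ≤ c ∧ c ≤ d ∧ Nat.Coprime b' c ∧
    (l : ℝ) * b / d = (b' : ℝ) / c := by
  have hg : 0 < Nat.gcd (l * b) d := Nat.gcd_pos_of_pos_right _ (by omega)
  have h1 : Nat.gcd (l * b) d ∣ d := Nat.gcd_dvd_right _ _
  have h2 : Nat.gcd (l * b) d ∣ l * b := Nat.gcd_dvd_left _ _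
  refine ⟨l * b / Nat.gcd (l * b) d, d / Nat.gcd (l * b) d, ?_, Nat.div_le_self _ _,
    Nat.coprime_div_gcd_div_gcd hg, ?_⟩
  · exact Nat.div_pos (Nat.le_of_dvd (by omega) h1) hg
  · have hg' : ((Nat.gcd (l * b) d : ℕ) : ℝ) ≠ 0 := by
      exact_mod_cast hg.ne'
    rw [Nat.cast_div h2 hg', Nat.cast_div h1 hg', Nat.cast_mul]
    have hd' : (d : ℝ) ≠ 0 := by
      exact_mod_cast (by omega : d ≠ 0)
    field_simp

/-- `Kl` as a sum over `[1, K2]` -/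
private theorem Msc_Kl_eq (f : ℕ → ℝ) (K1 K2 : ℕ) (a s : ℝ) :
    Kl f K1 K2 a s = ∑ m ∈ Icc 1 K2, ((cut K1 K2 f m : ℂ) * ee (-(m * a))) *
      ee (-(s * Real.log m)) := by
  unfold Kl
  have hsub : Ioc K1 K2 ⊆ Icc 1 K2 := by
    intro m hm
    rw [mem_Ioc] at hm
    rw [mem_Icc]
    omega
  rw [← sum_subset hsub (f := fun m => ((cut K1 K2 f m : ℂ) * ee (-(m * a))) *
      ee (-(s * Real.log m)))]
  · refine Finset.sum_congr rfl fun m hm => ?_
    unfold cut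
    rw [if_pos hm]
  · intro m _ hm
    unfold cut
    rw [if_neg hm]
    simp

/-- mean square of `Kl` -/
private theorem Msc_Kl_ms (f : ℕ → ℝ) (K1 K2 w0 Y : ℕ) (L a T U : ℝ) (hK : 1 ≤ K2) (hU : 0 ≤ U)
    (h : SqB (cut K1 K2 f) w0 Y L) (hw : w0 ≤ K2 + 1) (hY : K2 + 1 ≤ Y) :
    ∫ t in Set.Icc (-U) U, ‖Kl f K1 K2 a (T + t)‖ ^ 2 ≤
      (2 * U + 2 * K2 * (1 + Real.log K2)) * ((K2 + 1) * L ^ 4) := by
  have h1 := mvt (fun m => (cut K1 K2 f m : ℂ) * ee (-(m * a))) K2 U T hK hU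
  simp only [← Msc_Kl_eq] at h1
  refine h1.trans ?_
  have h2 : ∑ m ∈ Icc 1 K2, ‖(cut K1 K2 f m : ℂ) * ee (-(m * a))‖ ^ 2 ≤ (K2 + 1) * L ^ 4 := by
    have h3 := h 0 (K2 + 1) hw (by omega)
    rw [zero_add] at h3
    push_cast at h3
    refine le_trans ?_ h3
    have h4 : ∑ m ∈ Icc 1 K2, ‖(cut K1 K2 f m : ℂ) * ee (-(m * a))‖ ^ 2 =
        ∑ m ∈ Icc 1 K2, cut K1 K2 f m ^ 2 := by
      refine Finset.sum_congr rfl fun m _ => ?_
      rw [norm_mul, Msc_norm_ee, mul_one, Complex.norm_real, Real.norm_eq_abs, sq_abs]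
    rw [h4]
    refine Finset.sum_le_sum_of_subset_of_nonneg ?_ fun m _ _ => sq_nonneg _
    intro m hm
    rw [mem_Icc] at hm
    rw [mem_Ico]
    omega
  have h5 : 0 ≤ 2 * U + 2 * K2 * (1 + Real.log K2) := by
    have : 0 ≤ Real.log K2 := Real.log_natCast_nonneg K2
    positivity
  exact mul_le_mul_of_nonneg_left h2 h5

/-- the elementary thresholds -/
private theorem Msc_big (B : ℕ) (e1 : ℝ) (he1 : 0 < e1) : ∃ N0 : ℕ, ∀ N : ℕ, N0 ≤ N →
    50 ≤ Real.log N ∧ Real.log N ^ (4 * B) + 1 ≤ (N : ℝ) ^ e1 ∧ 3 ≤ N := by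
  have h1 := (isLittleO_log_rpow_atTop (r := e1 / (4 * B + 1)) (by positivity)).bound (c := 1)
    one_pos
  have h2 := (Real.tendsto_log_atTop.eventually (Filter.eventually_ge_atTop (50 : ℝ))).and
    (h1.and (Filter.eventually_ge_atTop (3 : ℝ)))
  have h3 := tendsto_natCast_atTop_atTop (R := ℝ) |>.eventually h2
  obtain ⟨x1, hx1⟩ := Filter.eventually_atTop.1 h3
  refine ⟨x1, fun N hN => ?_⟩
  obtain ⟨g1, g2, g3⟩ := hx1 N hN
  refine ⟨g1, ?_, by exact_mod_cast g3⟩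
  have hN0 : (0 : ℝ) < N := by linarith
  have hL0 : 0 ≤ Real.log N := by linarith
  rw [one_mul, Real.norm_eq_abs, Real.norm_eq_abs, abs_of_nonneg hL0,
    abs_of_nonneg (Real.rpow_nonneg hN0.le _)] at g2
  have h4 : Real.log N ^ (4 * B + 1) ≤ (N : ℝ) ^ e1 := by
    calc Real.log N ^ (4 * B + 1) ≤ ((N : ℝ) ^ (e1 / (4 * B + 1))) ^ (4 * B + 1) :=
          pow_le_pow_left₀ hL0 g2 _
      _ = (N : ℝ) ^ e1 := by
          rw [← Real.rpow_natCast, ← Real.rpow_mul hN0.le]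
          congr 1
          push_cast
          field_simp
  have h5 : 1 ≤ Real.log N ^ (4 * B) := one_le_pow₀ (by linarith)
  rw [pow_succ] at h4
  nlinarith

/-- final arithmetic -/
private theorem Msc_arith (N P K2 d U L : ℝ) (A' C' K' : ℕ) (hN : 0 < N) (hP : 0 < P)
    (hL : 50 ≤ L) (hd : d ≤ L ^ C') (hd0 : 0 ≤ d) (hU : 1 ≤ U) (hUP : U * P ≤ N)
    (hK : 1 ≤ K2) (hKP : K2 * P ≤ 16 * N) (lk : ℝ) (hlk : lk ≤ L) (hlk0 : 0 ≤ lk) :
    d * (d * ((P / L ^ (C' + A' + 6)) ^ 2 * ((2 * U + 2 * K2 * (1 + lk)) * ((K2 + 1) * L ^ 4)) +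
      2 * L ^ K' * (P * (K2 / L ^ (C' + K' + A' + 10))) ^ 2)) ≤ N ^ 2 / L ^ A' := by
  have hL0 : 0 < L := by linarith
  have hL1 : 1 ≤ L := by linarith
  have hdd : d * d ≤ (L ^ C') ^ 2 := by
    rw [sq]
    exact mul_le_mul hd hd hd0 (by positivity)
  have hPU : P * U ≤ N := by linarith
  -- first term
  have a1 : P * (2 * U + 2 * K2 * (1 + lk)) ≤ N * (66 * L) := by
    have e1 : P * K2 * (1 + lk) ≤ 16 * N * (2 * L) := by
      have : P * K2 ≤ 16 * N := by linarith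
      exact mul_le_mul this (by linarith) (by linarith) (by positivity)
    have e2 : N ≤ N * L := le_mul_of_one_le_right hN.le hL1
    nlinarith
  have a2 : P * (K2 + 1) ≤ 32 * N := by
    have : P * 1 ≤ P * K2 := mul_le_mul_of_nonneg_left hK hP.le
    linarith
  have a3 : P ^ 2 * ((2 * U + 2 * K2 * (1 + lk)) * ((K2 + 1) * L ^ 4)) ≤ N ^ 2 * L ^ 7 := by
    have e1 : 0 ≤ 2 * U + 2 * K2 * (1 + lk) := by positivity
    calc P ^ 2 * ((2 * U + 2 * K2 * (1 + lk)) * ((K2 + 1) * L ^ 4))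
        = (P * (2 * U + 2 * K2 * (1 + lk))) * (P * (K2 + 1)) * L ^ 4 := by ring
      _ ≤ (N * (66 * L)) * (32 * N) * L ^ 4 := by
          refine mul_le_mul_of_nonneg_right (mul_le_mul a1 a2 (by positivity) (by positivity)) (by positivity)
      _ = N ^ 2 * (2112 * L ^ 5) := by ring
      _ ≤ N ^ 2 * L ^ 7 := by
          refine mul_le_mul_of_nonneg_left ?_ (by positivity)
          have : 2112 ≤ L ^ 2 := by nlinarith
          calc 2112 * L ^ 5 ≤ L ^ 2 * L ^ 5 := mul_le_mul_of_nonneg_right this (by positivity)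
            _ = L ^ 7 := by ring
  have b1 : P ^ 2 * K2 ^ 2 ≤ 256 * N ^ 2 := by
    have : (P * K2) ^ 2 ≤ (16 * N) ^ 2 := pow_le_pow_left₀ (by positivity) (by linarith) 2
    nlinarith
  have c1 : (P / L ^ (C' + A' + 6)) ^ 2 * ((2 * U + 2 * K2 * (1 + lk)) * ((K2 + 1) * L ^ 4)) ≤
      N ^ 2 / ((L ^ C') ^ 2 * L ^ A') * (1 / 2) := by
    rw [div_pow, div_mul_eq_mul_div, div_le_iff₀ (by positivity)]
    refine a3.trans ?_
    have e : N ^ 2 / ((L ^ C') ^ 2 * L ^ A') * (1 / 2) * (L ^ (C' + A' + 6)) ^ 2 =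
        N ^ 2 * (L ^ 7 * (L ^ A' * L ^ 5 / 2)) := by
      rw [pow_add, pow_add]
      field_simp
    rw [e]
    refine mul_le_mul_of_nonneg_left ?_ (by positivity)
    have h1 : 1 ≤ L ^ A' := one_le_pow₀ hL1
    have h2 : 2 ≤ L ^ 5 := by
      calc (2 : ℝ) ≤ L := by linarith
        _ = L ^ 1 := (pow_one L).symm
        _ ≤ L ^ 5 := pow_le_pow_right₀ hL1 (by norm_num)
    refine le_mul_of_one_le_right (by positivity) ?_
    nlinarith
  have c2 : 2 * L ^ K' * (P * (K2 / L ^ (C' + K' + A' + 10))) ^ 2 ≤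
      N ^ 2 / ((L ^ C') ^ 2 * L ^ A') * (1 / 2) := by
    have e0 : 2 * L ^ K' * (P * (K2 / L ^ (C' + K' + A' + 10))) ^ 2 =
        2 * L ^ K' * (P ^ 2 * K2 ^ 2) / (L ^ (C' + K' + A' + 10)) ^ 2 := by
      field_simp
    rw [e0, div_le_iff₀ (by positivity)]
    have e : N ^ 2 / ((L ^ C') ^ 2 * L ^ A') * (1 / 2) * (L ^ (C' + K' + A' + 10)) ^ 2 =
        N ^ 2 * L ^ K' * (L ^ K' * L ^ A' * L ^ 20 / 2) := by
      rw [pow_add, pow_add, pow_add]
      field_simp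
    rw [e]
    have h1 : 1 ≤ L ^ A' := one_le_pow₀ hL1
    have h1' : 1 ≤ L ^ K' := one_le_pow₀ hL1
    have h3 : 1 ≤ L ^ K' * L ^ A' := one_le_mul_of_one_le_of_one_le h1' h1
    have h2 : 1024 ≤ L ^ 20 := by
      calc (1024 : ℝ) ≤ L ^ 2 := by nlinarith
        _ ≤ L ^ 20 := pow_le_pow_right₀ hL1 (by norm_num)
    have h4 : 512 ≤ L ^ K' * L ^ A' * L ^ 20 / 2 := by nlinarith
    calc 2 * L ^ K' * (P ^ 2 * K2 ^ 2) ≤ 2 * L ^ K' * (256 * N ^ 2) :=
          mul_le_mul_of_nonneg_left b1 (by positivity)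
      _ = N ^ 2 * L ^ K' * 512 := by ring
      _ ≤ _ := mul_le_mul_of_nonneg_left h4 (by positivity)
  have hX : 0 ≤ N ^ 2 / ((L ^ C') ^ 2 * L ^ A') := by positivity
  calc _ = d * d * ((P / L ^ (C' + A' + 6)) ^ 2 * ((2 * U + 2 * K2 * (1 + lk)) * ((K2 + 1) * L ^ 4)) +
      2 * L ^ K' * (P * (K2 / L ^ (C' + K' + A' + 10))) ^ 2) := by ring
    _ ≤ d * d * (N ^ 2 / ((L ^ C') ^ 2 * L ^ A')) := by
        refine mul_le_mul_of_nonneg_left ?_ (by positivity)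
        linarith
    _ ≤ (L ^ C') ^ 2 * (N ^ 2 / ((L ^ C') ^ 2 * L ^ A')) := mul_le_mul_of_nonneg_right hdd hX
    _ = N ^ 2 / L ^ A' := by
        field_simp

theorem msc (hVK : VKp) (hSW : SWp) (A' C' : ℕ) (e1 : ℝ) (he1 : 0 < e1) : ∀ B : ℕ, C' ≤ B → ∃ N0 : ℕ, ∀ N : ℕ, N0 ≤ N →
    ∀ (P K1 K2 X d b : ℕ) (T U : ℝ), (N : ℝ) ^ e1 ≤ P → P ≤ N → 1 ≤ d → (d : ℝ) ≤ Real.log N ^ C' →
    |T| ≤ (N : ℝ) ^ 2 → 1 ≤ U → U * P ≤ N → (N : ℝ) ^ e1 ≤ K2 → K2 ≤ N → K2 * P ≤ 16 * N → 2 * P * K2 ≤ X →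
    ∫ t in Set.Icc (-U) U, ‖Cs (cc (cut K1 K2 (hR ⌊Real.log N ^ B⌋₊)) P ((b : ℝ) / d) T) X t‖ ^ 2
      ≤ (N : ℝ) ^ 2 / Real.log N ^ A' := by
  intro B hCB
  obtain ⟨K', N1, hN1⟩ := vk_pr hVK (C' + A' + 6) C' e1 he1
  obtain ⟨N2, hN2⟩ := hSW B K' (C' + K' + A' + 10) e1 he1
  obtain ⟨N3, hN3⟩ := hsq B
  obtain ⟨N4, hN4⟩ := Msc_big B e1 he1
  refine ⟨max (max N1 N2) (max N3 N4), fun N hN P K1 K2 X d b T U hP1 hP2 hd1 hd2 hT hU hUP hK1 hK2
    hKP hX => ?_⟩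
  have g1 := hN1 N (le_trans (le_trans (le_max_left _ _) (le_max_left _ _)) hN)
  have g2 := hN2 N (le_trans (le_trans (le_max_right _ _) (le_max_left _ _)) hN)
  have g3 := hN3 N (le_trans (le_trans (le_max_left _ _) (le_max_right _ _)) hN)
  obtain ⟨hL, hbig, hN3'⟩ := hN4 N (le_trans (le_trans (le_max_right _ _) (le_max_right _ _)) hN)
  set L := Real.log N with hLdef
  set R := ⌊L ^ B⌋₊ with hR'
  set f := hR R with hf
  have hL1 : 1 ≤ L := by linarith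
  have hL0 : 0 < L := by linarith
  have hR1 : (R : ℝ) ≤ L ^ B := Nat.floor_le (by positivity)
  have hNR : (3 : ℝ) ≤ N := by exact_mod_cast hN3'
  have hP0 : (0 : ℝ) < P := lt_of_lt_of_le (Real.rpow_pos_of_pos (by linarith) _) hP1
  have hK20 : (0 : ℝ) < K2 := lt_of_lt_of_le (Real.rpow_pos_of_pos (by linarith) _) hK1
  have hK2' : 1 ≤ K2 := by
    have : 0 < K2 := by exact_mod_cast hK20
    omega
  have hK2R : (1 : ℝ) ≤ K2 := by exact_mod_cast hK2'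
  have hUN : U ≤ N := by
    have hP1' : (1 : ℝ) ≤ P := by
      have h0 : 0 < P := by exact_mod_cast hP0
      exact_mod_cast h0
    nlinarith
  -- pointwise
  have hpt : ∀ t : ℝ, ‖Cs (cc (cut K1 K2 f) P ((b : ℝ) / d) T) X t‖ ^ 2 ≤
      d * ∑ l ∈ range d, ‖Pl P d l (T + t)‖ ^ 2 * ‖Kl f K1 K2 ((l : ℝ) * b / d) (T + t)‖ ^ 2 :=
    fun t => fac_sq f P K1 K2 X d b T t hd1 hX
  have hcontP : ∀ l, Continuous fun t : ℝ => ‖Pl P d l (T + t)‖ ^ 2 :=
    fun l => (Msc_Pl_cont P d l T).norm.pow 2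
  have hcontK : ∀ l : ℕ, Continuous fun t : ℝ => ‖Kl f K1 K2 ((l : ℝ) * b / d) (T + t)‖ ^ 2 :=
    fun l => (Msc_Kl_cont f K1 K2 _ T).norm.pow 2
  have hcontC : Continuous fun t : ℝ => ‖Cs (cc (cut K1 K2 f) P ((b : ℝ) / d) T) X t‖ ^ 2 := by
    refine Continuous.pow (Continuous.norm ?_) 2
    unfold Cs
    refine continuous_finsetSum _ fun m _ => continuous_const.mul ?_
    have := Msc_ee_cont (Real.log m) 0
    simpa only [zero_add] using this
  have hI1 : ∫ t in Set.Icc (-U) U, ‖Cs (cc (cut K1 K2 f) P ((b : ℝ) / d) T) X t‖ ^ 2 ≤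
      d * ∑ l ∈ range d, ∫ t in Set.Icc (-U) U,
        ‖Pl P d l (T + t)‖ ^ 2 * ‖Kl f K1 K2 ((l : ℝ) * b / d) (T + t)‖ ^ 2 := by
    have hi : ∀ l ∈ range d, Integrable (fun t : ℝ => ‖Pl P d l (T + t)‖ ^ 2 *
        ‖Kl f K1 K2 ((l : ℝ) * b / d) (T + t)‖ ^ 2) (volume.restrict (Set.Icc (-U) U)) :=
      fun l _ => ((hcontP l).mul (hcontK l)).continuousOn.integrableOn_Icc
    rw [← integral_finsetSum _ hi, ← integral_const_mul]
    refine setIntegral_mono_on hcontC.continuousOn.integrableOn_Icc ?_ measurableSet_Icc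
      fun t _ => hpt t
    refine Continuous.continuousOn ?_ |>.integrableOn_Icc
    exact continuous_const.mul (continuous_finsetSum _ fun l _ => (hcontP l).mul (hcontK l))
  refine hI1.trans ?_
  -- each class
  have hcl : ∀ l ∈ range d, ∫ t in Set.Icc (-U) U,
        ‖Pl P d l (T + t)‖ ^ 2 * ‖Kl f K1 K2 ((l : ℝ) * b / d) (T + t)‖ ^ 2 ≤
      (P / L ^ (C' + A' + 6)) ^ 2 * ((2 * U + 2 * K2 * (1 + Real.log K2)) * ((K2 + 1) * L ^ 4)) +
      2 * L ^ K' * (P * (K2 / L ^ (C' + K' + A' + 10))) ^ 2 := by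
    intro l _
    obtain ⟨b', c, hc1, hc2, hc3, hc4⟩ := Msc_low l b d hd1
    have hcR : c ≤ R := by
      refine Nat.le_floor ?_
      calc (c : ℝ) ≤ d := by exact_mod_cast hc2
        _ ≤ L ^ C' := hd2
        _ ≤ L ^ B := pow_le_pow_right₀ hL1 hCB
    have k1 := Msc_int (fun t => ‖Pl P d l (T + t)‖ ^ 2)
      (fun t => ‖Kl f K1 K2 ((l : ℝ) * b / d) (T + t)‖ ^ 2) (hcontP l) (hcontK l)
      (fun t => by positivity) U T (L ^ K') ((P / L ^ (C' + A' + 6)) ^ 2)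
      ((P * (K2 / L ^ (C' + K' + A' + 10))) ^ 2) (by positivity) (by positivity) (by positivity)
      ?_ ?_
    · refine k1.trans ?_
      have k2 := Msc_Kl_ms f K1 K2 (R ^ 4 + 2) (N ^ 4) L ((l : ℝ) * b / d) T U hK2' (by linarith)
        (g3 R hR1 K1 K2) ?_ ?_
      · have := mul_le_mul_of_nonneg_left k2 (by positivity : (0 : ℝ) ≤ (P / L ^ (C' + A' + 6)) ^ 2)
        linarith
      · have h1 : ((R ^ 4 + 1 : ℕ) : ℝ) ≤ (K2 : ℝ) := by
          push_cast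
          calc (R : ℝ) ^ 4 + 1 ≤ (L ^ B) ^ 4 + 1 := by
                have := pow_le_pow_left₀ (Nat.cast_nonneg R) hR1 4
                linarith
            _ = L ^ (4 * B) + 1 := by rw [← pow_mul, mul_comm B 4]
            _ ≤ (N : ℝ) ^ e1 := hbig
            _ ≤ K2 := hK1
        have h2 : R ^ 4 + 1 ≤ K2 := by exact_mod_cast h1
        omega
      · have : N + 1 ≤ N ^ 4 := by
          calc N + 1 ≤ N * N := by nlinarith
            _ = N ^ 2 := (sq N).symm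
            _ ≤ N ^ 4 := Nat.pow_le_pow_right (by omega) (by norm_num)
        omega
    · intro t ht hM
      rw [Set.mem_Icc] at ht
      have habs : |T + t| ≤ (N : ℝ) ^ 3 := by
        have h1 : |t| ≤ U := abs_le.2 ht
        have h2 : |T + t| ≤ |T| + |t| := abs_add_le _ _
        nlinarith [sq_nonneg (N : ℝ)]
      have k2 := g1 P d l (T + t) hP1 hP2 hd1 hd2 hM habs
      exact pow_le_pow_left₀ (norm_nonneg _) k2 2
    · intro t ht hM
      have k2 := g2 R c b' K1 K2 (T + t) hR1 hc1 hcR hc3 hK1 hK2 hM.le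
      have k3 : ‖Kl f K1 K2 ((l : ℝ) * b / d) (T + t)‖ ≤ K2 / L ^ (C' + K' + A' + 10) := by
        refine le_trans (le_of_eq ?_) k2
        unfold Kl
        congr 1
        refine Finset.sum_congr rfl fun m _ => ?_
        rw [hc4, mul_div_assoc]
      have k4 := Msc_Pl_le P d l (T + t)
      show ‖Pl P d l (T + t)‖ ^ 2 * ‖Kl f K1 K2 ((l : ℝ) * b / d) (T + t)‖ ^ 2 ≤ _
      rw [← mul_pow]
      exact pow_le_pow_left₀ (by positivity)
        (mul_le_mul k4 k3 (norm_nonneg _) (Nat.cast_nonneg P)) 2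
  have hsum := Finset.sum_le_sum hcl
  rw [sum_const, card_range, nsmul_eq_mul] at hsum
  refine (mul_le_mul_of_nonneg_left hsum (Nat.cast_nonneg d)).trans ?_
  refine Msc_arith N P K2 d U L A' C' K' (by linarith) hP0 hL hd2 (Nat.cast_nonneg d) hU
    hUP hK2R (by exact_mod_cast hKP) (Real.log K2) ?_ (Real.log_natCast_nonneg K2)
  exact Real.log_le_log hK20 (by exact_mod_cast hK2)

end Pool.Agent.H53.MID
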