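import Pool.Agent.H53.MID.Climb
import Pool.Agent.H53.MID.Chain

/-!
# MID Tower: `J` steps up

Proof.  Induction on `j ≥ 1` of the statement: for every `C` there are `D ≥ 1`, `e` such that for all data there are
`F, F', α_j, α', R` with `Rel D n P (2^j η P/P^j) F F' α_j α' R`, `δ^e/D n P ≤ |R|`, `F ≠ ∅`, and for every `K ∈ F` a set `S K` with
`Desc P j D (4^j η) F0 α K (α_j K) (S K)` and `δ^e/D P^j ≤ |S K|` (here `F0, α` is level 0, the given relation is `Rel C n P (η P) F0 G0 α β R0`).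
`j = 1`: `climb` (its `η` is `η P`; `100 η P^3 ≤ 1`) gives `F'', α'', R''` with `Rel D1 n P (2 η) F'' F0 α'' α R''`;
`S M = {(p, i) : (M, p, i) ∈ R''}`; `|R''| = ∑_{M} ≥ (δ^2/D1 n)(δ^4/D1 P)`.
`j → j+1`: `climb` with `C := D_j`, `δ := δ^e/D_j` (`≤ 1`), `η := 2^j η P/P^j` (`100 η_j P^2 ≤ 100 · 2^j η P ≤ 1`, as `2^j ≤ P`), then `chain_step` with
`T = {(p, K) : (M,p,K) ∈ R''}`, `η' = 2^(j+1) η P/P^(j+1)`: `(2P)^j η' ≤ 2^(2j+1) η`, `2^(2j+1) η + 4^j η ≤ 4^(j+1) η`.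
All constants (`D`, `e`) depend only on `C` and `j`; `D ≤ δ^e P` gives all the largeness conditions (enlarge `D`, `e`; `δ ≤ 1`).
-/

set_option autoImplicit false

namespace Pool.Agent.H53.MID

open Finset

private theorem Tower_relmono {C C' : ℝ} {n P : ℕ} {η : ℝ} {F F' : Finset ℕ} {α α' : ℕ → ℝ}
    {R : Finset (ℕ × ℕ × ℕ)} (h : Rel C n P η F F' α α' R) (hC : 1 ≤ C) (hCC : C ≤ C') :
    Rel C' n P η F F' α α' R where
  memF := h.memF
  memF' := h.memF'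
  prime := h.prime
  pos := fun t ht => (h.pos t ht).trans (mul_le_mul_of_nonneg_right hCC (Nat.cast_nonneg P))
  freq := h.freq
  rngF := fun K hK => ⟨(div_le_div_of_nonneg_left (Nat.cast_nonneg n) (by linarith) hCC).trans
    (h.rngF K hK).1, (h.rngF K hK).2.trans (mul_le_mul_of_nonneg_right hCC (Nat.cast_nonneg n))⟩
  rngF' := fun K hK => ⟨(div_le_div_of_nonneg_left (Nat.cast_nonneg n) (by linarith) hCC).trans
    (h.rngF' K hK).1, (h.rngF' K hK).2.trans (mul_le_mul_of_nonneg_right hCC (Nat.cast_nonneg n))⟩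

private theorem Tower_descmono {P j : ℕ} {D D' τ τ' : ℝ} {F0 : Finset ℕ} {α : ℕ → ℝ} {K : ℕ} {w : ℝ}
    {S : Finset (ℕ × ℕ)} (h : Desc P j D τ F0 α K w S) (hD : D ≤ D') (hτ : τ ≤ τ') :
    Desc P j D' τ' F0 α K w S where
  mem := h.mem
  lo := h.lo
  hi := h.hi
  pos := fun t ht => (h.pos t ht).trans (mul_le_mul_of_nonneg_right hD (by positivity))
  freq := fun t ht => (h.freq t ht).trans hτ

private theorem Tower_sum {F'' : Finset ℕ} {R : Finset (ℕ × ℕ × ℕ)} (hF : ∀ t ∈ R, t.1 ∈ F'') {a b : ℝ}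
    (hb : 0 ≤ b) (ha : a ≤ F''.card)
    (hR : ∀ M ∈ F'', b ≤ ((R.filter (fun t => t.1 = M)).card : ℝ)) : a * b ≤ R.card := by
  have h1 : R.card = ∑ M ∈ F'', (R.filter (fun t => t.1 = M)).card :=
    Finset.card_eq_sum_card_fiberwise hF
  rw [h1, Nat.cast_sum]
  calc a * b ≤ F''.card * b := mul_le_mul_of_nonneg_right ha hb
    _ = ∑ _M ∈ F'', b := by rw [Finset.sum_const, nsmul_eq_mul]
    _ ≤ _ := Finset.sum_le_sum hR

private noncomputable def Tower_T (R : Finset (ℕ × ℕ × ℕ)) (M : ℕ) : Finset (ℕ × ℕ) :=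
  (R.filter (fun t => t.1 = M)).image Prod.snd

private theorem Tower_memT {R : Finset (ℕ × ℕ × ℕ)} {M : ℕ} {t : ℕ × ℕ} (h : t ∈ Tower_T R M) :
    (M, t) ∈ R := by
  obtain ⟨x, hx, rfl⟩ := Finset.mem_image.1 h
  obtain ⟨h1, h2⟩ := Finset.mem_filter.1 hx
  rw [← h2]
  exact h1

private theorem Tower_cardT (R : Finset (ℕ × ℕ × ℕ)) (M : ℕ) :
    (Tower_T R M).card = (R.filter (fun t => t.1 = M)).card := by
  apply Finset.card_image_of_injOn
  intro x hx y hy hxy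
  have h1 := (Finset.mem_filter.1 hx).2
  have h2 := (Finset.mem_filter.1 hy).2
  exact Prod.ext (h1.trans h2.symm) hxy

private def Tower_Q (C : ℝ) (j : ℕ) : Prop := ∃ (D : ℝ) (e : ℕ), 1 ≤ D ∧ ∀ (n P : ℕ) (δ η : ℝ)
    (F0 G0 : Finset ℕ) (α β : ℕ → ℝ) (R0 : Finset (ℕ × ℕ × ℕ)), Rel C n P (η * P) F0 G0 α β R0 → 0 < δ → δ ≤ 1 →
    0 ≤ η → 100 * η * (P : ℝ) ^ 3 ≤ 1 → D ≤ δ ^ e * P → 1 ≤ n → δ * n * P ≤ R0.card →
    ∃ (F F' : Finset ℕ) (αj α' : ℕ → ℝ) (R : Finset (ℕ × ℕ × ℕ)),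
      Rel D n P (2 ^ j * η * P / (P : ℝ) ^ j) F F' αj α' R ∧ δ ^ e / D * n * P ≤ R.card ∧ F.Nonempty ∧
      ∃ S : ℕ → Finset (ℕ × ℕ), ∀ K ∈ F, Desc P j D (4 ^ j * η) F0 α K (αj K) (S K) ∧
        δ ^ e / D * (P : ℝ) ^ j ≤ (S K).card

private theorem Tower_base (C : ℝ) (hC : 1 ≤ C) : Tower_Q C 1 := by
  obtain ⟨D1, hD1, hcl⟩ := climb C hC
  have hD1' : 1 ≤ D1 := hC.trans hD1
  have hD1p : 0 < D1 := by linarith
  refine ⟨D1 ^ 2, 6, by nlinarith, ?_⟩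
  intro n P δ η F0 G0 α β R0 hR hδ hδ1 hη hηP hDP hn hcard
  have hδ64 : δ ^ 6 ≤ δ ^ 4 := pow_le_pow_of_le_one hδ.le hδ1 (by norm_num)
  have hP0 : (0 : ℝ) ≤ P := Nat.cast_nonneg P
  have hP : (0 : ℝ) < P := by
    rcases hP0.lt_or_eq with h | h
    · exact h
    · rw [← h, mul_zero] at hDP
      nlinarith
  have h1 : D1 ≤ δ ^ 4 * P := by
    have h2 : δ ^ 6 * P ≤ δ ^ 4 * P := mul_le_mul_of_nonneg_right hδ64 hP0
    nlinarith
  obtain ⟨F, αj, R, hrel, hF, hRM⟩ := hcl n P δ (η * P) F0 G0 α β R0 hR hδ hδ1 (by positivity)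
    (by linarith [show 100 * (η * P) * (P : ℝ) ^ 2 = 100 * η * (P : ℝ) ^ 3 by ring]) h1 hn hcard
  have he : 2 * (η * P) / (P : ℝ) = 2 ^ 1 * η * P / (P : ℝ) ^ 1 := by
    rw [pow_one, pow_one]
    ring
  have he2 : 2 * (η * P) / (P : ℝ) = 2 * η := by
    field_simp
  have hDD : D1 ≤ D1 ^ 2 := by nlinarith
  have hn' : (1 : ℝ) ≤ n := by exact_mod_cast hn
  refine ⟨F, F0, αj, α, R, he ▸ Tower_relmono hrel hD1' hDD, ?_, ?_, Tower_T R, ?_⟩
  · have h2 := Tower_sum hrel.memF (a := δ ^ 2 / D1 * n) (b := δ ^ 4 / D1 * P) (by positivity) hF hRM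
    have h3 : δ ^ 2 / D1 * n * (δ ^ 4 / D1 * P) = δ ^ 6 / D1 ^ 2 * n * P := by
      field_simp
    rw [h3] at h2
    exact h2
  · rw [← Finset.card_pos]
    have h2 : (0 : ℝ) < F.card := lt_of_lt_of_le (by positivity) hF
    exact_mod_cast h2
  · intro K hK
    constructor
    · refine ⟨?_, ?_, ?_, ?_, ?_⟩
      · intro t ht
        exact hrel.memF' _ (Tower_memT ht)
      · intro t ht
        have h2 := (hrel.prime _ (Tower_memT ht)).2.1
        rw [pow_one]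
        exact_mod_cast h2.le
      · intro t ht
        have h2 := (hrel.prime _ (Tower_memT ht)).2.2
        rw [pow_one]
        exact_mod_cast h2
      · intro t ht
        have h2 := hrel.pos _ (Tower_memT ht)
        rw [pow_one]
        exact h2.trans (mul_le_mul_of_nonneg_right hDD hP0)
      · intro t ht
        have h2 := hrel.freq _ (Tower_memT ht)
        rw [he2] at h2
        refine h2.trans ?_
        rw [pow_one]
        linarith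
    · rw [Tower_cardT, pow_one]
      refine le_trans ?_ (hRM K hK)
      refine mul_le_mul_of_nonneg_right ?_ hP0
      rw [div_le_div_iff₀ (by positivity) hD1p]
      exact mul_le_mul hδ64 hDD hD1p.le (by positivity)

private theorem Tower_step (C : ℝ) (j : ℕ) (h : Tower_Q C j) :
    Tower_Q C (j + 1) := by
  obtain ⟨B, e, hB, hQ⟩ := h
  obtain ⟨D2, hBD, hcl⟩ := climb B hB
  have hD2 : 1 ≤ D2 := hB.trans hBD
  set K0 : ℝ := (j + 1) * (2 * D2 + 1) with hK0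
  have hj0 : (0 : ℝ) ≤ j := Nat.cast_nonneg j
  have hK01 : 1 ≤ K0 := by
    rw [hK0]
    nlinarith
  have h2j : (1 : ℝ) ≤ 2 ^ (j + 1) := one_le_pow₀ (by norm_num)
  set D : ℝ := 3 * B ^ 6 * D2 ^ 2 * K0 * 2 ^ (j + 1) with hD
  have hB6 : 1 ≤ B ^ 6 := one_le_pow₀ hB
  have hB5 : 1 ≤ B ^ 5 := one_le_pow₀ hB
  have hB4 : 1 ≤ B ^ 4 := one_le_pow₀ hB
  have hD22 : 1 ≤ D2 ^ 2 := one_le_pow₀ hD2
  have hBp : 0 < B := by linarith
  have hD2p : 0 < D2 := by linarith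
  have hK0p : 0 < K0 := by linarith
  -- comparisons of the constants
  have c1 : B ^ 6 * D2 ^ 2 * K0 ≤ D := by
    rw [hD]
    have : 0 ≤ B ^ 6 * D2 ^ 2 * K0 := by positivity
    nlinarith
  have c2 : 3 * (B ^ 6 * D2 ^ 2) ≤ D := by
    rw [hD]
    have h3 : 0 ≤ B ^ 6 * D2 ^ 2 := by positivity
    have h4 : 1 ≤ K0 * 2 ^ (j + 1) := by nlinarith
    nlinarith
  have c3 : B ≤ B ^ 6 := by
    calc B = B ^ 1 := (pow_one B).symm
      _ ≤ B ^ 6 := pow_le_pow_right₀ hB (by norm_num)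
  have c4 : D2 ≤ D2 ^ 2 := by nlinarith
  have c5 : B ^ 6 ≤ B ^ 6 * D2 ^ 2 := le_mul_of_one_le_right (by positivity) hD22
  have c6 : D2 ^ 2 ≤ B ^ 6 * D2 ^ 2 := le_mul_of_one_le_left (by positivity) hB6
  have c7 : 2 * B + D2 ≤ D := by linarith
  have c8 : B ≤ D := by linarith
  have c9 : D2 ≤ D := by linarith
  have c10 : D2 * B ^ 4 ≤ D := by
    have h3 : D2 * B ^ 4 ≤ D2 ^ 2 * B ^ 6 :=
      mul_le_mul c4 (pow_le_pow_right₀ hB (by norm_num)) (by positivity) (by positivity)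
    linarith [mul_comm (D2 ^ 2) (B ^ 6)]
  have c11 : (2 : ℝ) ^ (j + 1) < D := by
    rw [hD]
    have h3 : 1 ≤ B ^ 6 * D2 ^ 2 * K0 := one_le_mul_of_one_le_of_one_le
      (one_le_mul_of_one_le_of_one_le hB6 hD22) hK01
    nlinarith
  have hD1 : 1 ≤ D := by linarith
  have hDp : 0 < D := by linarith
  refine ⟨D, e * 6, hD1, ?_⟩
  intro n P δ η F0 G0 α β R0 hR hδ hδ1 hη hηP hDP hn hcard
  rw [pow_mul] at hDP ⊢
  set A : ℝ := δ ^ e with hA
  have hA0 : 0 < A := pow_pos hδ e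
  have hA1 : A ≤ 1 := pow_le_one₀ hδ.le hδ1
  have hA6 : A ^ 6 ≤ A := by
    calc A ^ 6 ≤ A ^ 1 := pow_le_pow_of_le_one hA0.le hA1 (by norm_num)
      _ = A := pow_one A
  have hA64 : A ^ 6 ≤ A ^ 4 := pow_le_pow_of_le_one hA0.le hA1 (by norm_num)
  have hA65 : A ^ 6 ≤ A ^ 5 := pow_le_pow_of_le_one hA0.le hA1 (by norm_num)
  have hA61 : A ^ 6 ≤ 1 := pow_le_one₀ hA0.le hA1
  have hP0 : (0 : ℝ) ≤ P := Nat.cast_nonneg P
  have hP : (0 : ℝ) < P := by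
    rcases hP0.lt_or_eq with h | h
    · exact h
    · rw [← h, mul_zero] at hDP
      linarith
  have hDP1 : D ≤ P := hDP.trans (by nlinarith)
  have hP2 : (2 : ℝ) ^ (j + 1) < P := by linarith
  have hP2' : 2 ^ (j + 1) < P := by exact_mod_cast hP2
  obtain ⟨F, F', αj, α', R, hrel, hRc, hFn, S, hS⟩ := hQ n P δ η F0 G0 α β R0 hR hδ hδ1 hη hηP
    (by
      have h3 : A ^ 6 * P ≤ A * P := mul_le_mul_of_nonneg_right hA6 hP0
      linarith) hn hcard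
  have hn' : (1 : ℝ) ≤ n := by exact_mod_cast hn
  have hAB : 0 < A / B := by positivity
  have hAB1 : A / B ≤ 1 := by
    rw [div_le_one hBp]
    linarith
  have hPj : (2 : ℝ) ^ j ≤ (P : ℝ) ^ j := by
    apply pow_le_pow_left₀ (by norm_num)
    have h3 : (2 : ℝ) ^ 1 ≤ 2 ^ (j + 1) := pow_le_pow_right₀ (by norm_num) (by omega)
    linarith
  have hPjp : (0 : ℝ) < (P : ℝ) ^ j := by positivity
  obtain ⟨F2, α2, R2, hrel2, hF2, hRM⟩ := hcl n P (A / B) (2 ^ j * η * P / (P : ℝ) ^ j) F F' αj α' R hrel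
    hAB hAB1 (by positivity)
    (by
      have h3 : 100 * (2 ^ j * η * P / (P : ℝ) ^ j) * (P : ℝ) ^ 2 =
          (100 * η * (P : ℝ) ^ 3) * (2 ^ j / (P : ℝ) ^ j) := by
        field_simp
      rw [h3]
      have h4 : (2 : ℝ) ^ j / (P : ℝ) ^ j ≤ 1 := (div_le_one hPjp).2 hPj
      have h5 : 0 ≤ (2 : ℝ) ^ j / (P : ℝ) ^ j := by positivity
      calc (100 * η * (P : ℝ) ^ 3) * (2 ^ j / (P : ℝ) ^ j) ≤ 1 * 1 :=
            mul_le_mul hηP h4 h5 (by norm_num)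
        _ = 1 := one_mul 1)
    (by
      rw [div_pow, div_mul_eq_mul_div, le_div_iff₀ (by positivity)]
      have h3 : A ^ 6 * P ≤ A ^ 4 * P := mul_le_mul_of_nonneg_right hA64 hP0
      linarith) hn hRc
  have he : 2 * (2 ^ j * η * P / (P : ℝ) ^ j) / P = 2 ^ (j + 1) * η * P / (P : ℝ) ^ (j + 1) := by
    rw [pow_succ, pow_succ]
    field_simp
  have hm0 : 0 ≤ A / B * (P : ℝ) ^ j := by positivity
  have hτ : (2 * (P : ℝ)) ^ j * (2 * (2 ^ j * η * P / (P : ℝ) ^ j) / P) + 4 ^ j * η ≤ 4 ^ (j + 1) * η := by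
    have h3 : (2 * (P : ℝ)) ^ j * (2 * (2 ^ j * η * P / (P : ℝ) ^ j) / P) = 2 * ((2 : ℝ) ^ j * 2 ^ j) * η := by
      rw [mul_pow]
      field_simp
    have h4 : ((2 : ℝ) ^ j * 2 ^ j) = 4 ^ j := by
      rw [← mul_pow]
      norm_num
    rw [h3, h4, pow_succ]
    have h5 : 0 ≤ (4 : ℝ) ^ j * η := by positivity
    linarith
  -- the descendants
  have hdesc : ∀ M : ℕ, ∃ S' : Finset (ℕ × ℕ), M ∈ F2 →
      Desc P (j + 1) D (4 ^ (j + 1) * η) F0 α M (α2 M) S' ∧ A ^ 6 / D * (P : ℝ) ^ (j + 1) ≤ S'.card := by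
    intro M
    by_cases hM : M ∈ F2
    · have hη' : 0 ≤ 2 * (2 ^ j * η * P / (P : ℝ) ^ j) / P := by positivity
      obtain ⟨S', hS', hc⟩ := chain_step P j D2 B (4 ^ j * η) (2 * (2 ^ j * η * P / (P : ℝ) ^ j) / P)
        (A / B * (P : ℝ) ^ j) (α2 M) hD2 F0 α M αj S (Tower_T R2 M) hP2'
        (by
          intro t ht
          have h3 := Tower_memT ht
          have h4 := hrel2.prime _ h3
          have h5 := hS t.2 (hrel2.memF' _ h3)
          exact ⟨h4.1, h4.2.1, h4.2.2, hrel2.pos _ h3, hrel2.freq _ h3, h5.1, h5.2⟩) hη' hm0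
      refine ⟨S', fun _ => ⟨Tower_descmono hS' c7 hτ, ?_⟩⟩
      refine le_trans ?_ hc
      have h6 := hRM M hM
      rw [← Tower_cardT] at h6
      have h7 : (A / B) ^ 4 / D2 * P * (A / B * (P : ℝ) ^ j) / K0 ≤
          ((Tower_T R2 M).card : ℝ) * (A / B * (P : ℝ) ^ j) / ((j + 1) * (2 * D2 + 1)) := by
        rw [← hK0]
        exact div_le_div_of_nonneg_right (mul_le_mul_of_nonneg_right h6 hm0) hK0p.le
      refine le_trans ?_ h7
      have h8 : (A / B) ^ 4 / D2 * P * (A / B * (P : ℝ) ^ j) / K0 =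
          A ^ 5 / (B ^ 5 * D2 * K0) * (P : ℝ) ^ (j + 1) := by
        rw [pow_succ (P : ℝ) j]
        field_simp
      rw [h8]
      refine mul_le_mul_of_nonneg_right ?_ (by positivity)
      have h9 : B ^ 5 * D2 * K0 ≤ D := by
        refine le_trans ?_ c1
        refine mul_le_mul_of_nonneg_right ?_ hK0p.le
        exact mul_le_mul (pow_le_pow_right₀ hB (by norm_num)) c4 hD2p.le (by positivity)
      exact div_le_div₀ (by positivity) hA65 (by positivity) h9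
    · exact ⟨∅, fun h => absurd h hM⟩
  choose S2 hS2 using hdesc
  refine ⟨F2, F, α2, αj, R2, he ▸ Tower_relmono hrel2 hD2 c9, ?_, ?_, S2, hS2⟩
  · have h2 := Tower_sum hrel2.memF (a := (A / B) ^ 2 / D2 * n) (b := (A / B) ^ 4 / D2 * P)
      (by positivity) hF2 hRM
    have h3 : (A / B) ^ 2 / D2 * n * ((A / B) ^ 4 / D2 * P) = A ^ 6 / (B ^ 6 * D2 ^ 2) * n * P := by
      field_simp
    rw [h3] at h2
    refine le_trans ?_ h2
    refine mul_le_mul_of_nonneg_right (mul_le_mul_of_nonneg_right ?_ (by linarith)) hP0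
    refine div_le_div_of_nonneg_left (by positivity) (by positivity) ?_
    linarith [show 0 ≤ B ^ 6 * D2 ^ 2 by positivity]
  · rw [← Finset.card_pos]
    have h2 : (0 : ℝ) < F2.card := lt_of_lt_of_le (by positivity) hF2
    exact_mod_cast h2

private theorem Tower_all (C : ℝ) (hC : 1 ≤ C) (J : ℕ) (hJ : 1 ≤ J) : Tower_Q C J := by
  induction J, hJ using Nat.le_induction with
  | base => exact Tower_base C hC
  | succ j _ ih => exact Tower_step C j ih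

theorem tower (C : ℝ) (hC : 1 ≤ C) (J : ℕ) (hJ : 1 ≤ J) : ∃ (D : ℝ) (e : ℕ), 1 ≤ D ∧ ∀ (n P : ℕ) (δ η : ℝ)
    (F0 G0 : Finset ℕ) (α β : ℕ → ℝ) (R0 : Finset (ℕ × ℕ × ℕ)), Rel C n P (η * P) F0 G0 α β R0 → 0 < δ → δ ≤ 1 →
    0 ≤ η → 100 * η * (P : ℝ) ^ 3 ≤ 1 → D ≤ δ ^ e * P → 1 ≤ n → δ * n * P ≤ R0.card →
    ∃ (K : ℕ) (w : ℝ) (S : Finset (ℕ × ℕ)), (n : ℝ) / D ≤ K ∧ (K : ℝ) ≤ D * n ∧
      Desc P J D (D * η) F0 α K w S ∧ δ ^ e / D * (P : ℝ) ^ J ≤ S.card := by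
  obtain ⟨D, e, hD, hQ⟩ := Tower_all C hC J hJ
  have hDp : 0 < D := by linarith
  have h4 : (0 : ℝ) < 4 ^ J := by positivity
  refine ⟨D + 4 ^ J, e, by linarith, ?_⟩
  intro n P δ η F0 G0 α β R0 hR hδ hδ1 hη hηP hDP hn hcard
  obtain ⟨F, F', αj, α', R, hrel, -, ⟨K, hK⟩, S, hS⟩ := hQ n P δ η F0 G0 α β R0 hR hδ hδ1 hη hηP
    (by linarith) hn hcard
  have hr := (Tower_relmono hrel hD (by linarith : D ≤ D + 4 ^ J)).rngF K hK
  obtain ⟨h1, h2⟩ := hS K hK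
  refine ⟨K, αj K, S K, hr.1, hr.2, Tower_descmono h1 (by linarith) ?_, ?_⟩
  · exact mul_le_mul_of_nonneg_right (by linarith) hη
  · refine le_trans ?_ h2
    refine mul_le_mul_of_nonneg_right ?_ (by positivity)
    exact div_le_div_of_nonneg_left (by positivity) hDp (by linarith)

end Pool.Agent.H53.MID
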